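import Pool.Agent.TotaroVar.A05P1

/-! ## DerF -/

section

set_option linter.unusedSectionVars false

namespace Pool.Agent.Totaro

open MvPolynomial Matrix

section

variable {k : Type*} [Field k] {ι : Type*}
  {F : Type*} [Field F] [Algebra k F]
  [Algebra (SS k ι) F] [IsScalarTower k (SS k ι) F]
  [IsFractionRing (SS k ι) F]
variable (p : ℕ) [Fact p.Prime] [CharP k p]
variable {L : Type*} [Field L] [Algebra F L] [Algebra k L] [IsScalarTower k F L] {s : L}

/-- `D` is regular over `π⁻¹(G_J ∩ G_K)`. -/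
def RegPair (J K : IJ ι) (D : Derivation k (EE k ι F p s) (EE k ι F p s)) : Prop :=
  ∀ ε δ, ∀ y ∈ PE k F p s (J, ε) (K, δ), D y ∈ PE k F p s (J, ε) (K, δ)

/-- the horizontal part of `D` in the chart `J` -/
def HorF (D : Derivation k (EE k ι F p s) (EE k ι F p s)) (J : IJ ι)
    (Z : Matrix (Fin 2) ι F) : Prop :=
  ∀ r i, ((D (YE k F p s J r i) : EE k ι F p s) : L) = algebraMap F L (Z r i)

/-- the vertical part of `D` in the chart `J` -/
def QuadF (D : Derivation k (EE k ι F p s) (EE k ι F p s)) (J : IJ ι) (a b c : F) : Prop :=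
  ((D (wE k F p s J 0 1) : EE k ι F p s) : L) = algebraMap F L a +
    algebraMap F L b * wv k F p s J.1 0 1 + algebraMap F L c * wv k F p s J.1 0 1 ^ 2

lemma RegPair.hor (hs : Transcendental F s) {J K : IJ ι}
    {D : Derivation k (EE k ι F p s) (EE k ι F p s)} (hD : RegPair p J K D) :
    ∃ Z : Matrix (Fin 2) ι F, HorF p D J Z ∧ ∀ r i, Z r i ∈ OJ k F J.1 ⊔ OJ k F K.1 := by
  have key : ∀ r i, ∃ a ∈ OJ k F J.1 ⊔ OJ k F K.1,
      ((D (YE k F p s J r i) : EE k ι F p s) : L) = algebraMap F L a := by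
    intro r i
    refine overlap_const p hs J.1 K.1 J.2 K.2 ?_
    intro ε δ
    exact hD ε δ _ (YE_mem p (J, ε) (K, δ) r i)
  choose Z h1 h2 using key
  exact ⟨Z, h2, h1⟩

lemma RegPair.quad (hs : Transcendental F s) {J K : IJ ι}
    {D : Derivation k (EE k ι F p s) (EE k ι F p s)} (hD : RegPair p J K D) :
    ∃ a ∈ OJ k F J.1 ⊔ OJ k F K.1, ∃ b ∈ OJ k F J.1 ⊔ OJ k F K.1,
      ∃ c ∈ OJ k F J.1 ⊔ OJ k F K.1, QuadF p D J a b c := by
  refine overlap_quad p hs J.1 K.1 J.2 K.2 ?_ ?_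
  · intro δ
    exact hD 0 δ _ (wE_mem p (J, 0) (K, δ) 1)
  · intro δ
    have h1 := hD 1 δ _ (wE_mem p (J, 1) (K, δ) 0)
    rw [der_wE_inv p hs] at h1
    have h2 : -(-(wE k F p s J 1 0) ^ 2 * D (wE k F p s J 0 1)) ∈ PE k F p s (J, 1) (K, δ) :=
      neg_mem h1
    have h3 : ((-(-(wE k F p s J 1 0) ^ 2 * D (wE k F p s J 0 1)) : EE k ι F p s) : L) ∈
      PL k F p s (J, 1) (K, δ) := h2
    have h4 : ((-(-(wE k F p s J 1 0) ^ 2 * D (wE k F p s J 0 1)) : EE k ι F p s) : L) =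
      ((D (wE k F p s J 0 1) : EE k ι F p s) : L) * (wv k F p s J.1 1 0) ^ 2 := by
      push_cast
      simp only [wE_coe]
      ring
    rw [h4] at h3
    exact h3

/-- the matrix of derivatives -/
noncomputable def dY (D : Derivation k (EE k ι F p s) (EE k ι F p s)) (J : IJ ι) :
    Matrix (Fin 2) ι L := Matrix.of fun r i => ((D (YE k F p s J r i) : EE k ι F p s) : L)

lemma dY_trans (D : Derivation k (EE k ι F p s) (EE k ι F p s)) (J K : IJ ι) :
    dY p D J = (th k F J.1 K.1).map (algebraMap F L) * dY p D K +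
      (dY p D J).submatrix id K.1 * (YJ k F K.1).map (algebraMap F L) := by
  ext r i
  have h0 : YE k F p s J r i = ∑ c, YE k F p s J r (K.1 c) * YE k F p s K c i := by
    apply Subtype.ext
    rw [Fin.sum_univ_two]
    push_cast
    simp only [YE_coe]
    rw [← map_mul, ← map_mul, ← map_add]
    congr 1
    have := congrFun (congrFun (th_mul_YJ (k := k) (F := F) J.1 K.1 J.2 K.2) r) i
    rw [← this, Matrix.mul_apply, Fin.sum_univ_two]
    rfl
  have h1 := congrArg (fun y => ((D y : EE k ι F p s) : L)) h0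
  simp only [Fin.sum_univ_two, map_add, Derivation.leibniz, smul_eq_mul] at h1
  push_cast at h1
  simp only [YE_coe] at h1
  simp only [dY, Matrix.add_apply, Matrix.mul_apply, Matrix.of_apply, Fin.sum_univ_two,
    Matrix.map_apply, Matrix.submatrix_apply, id, th]
  rw [h1]; ring

lemma th_map_isUnit (J K : IJ ι) :
    IsUnit ((th k F J.1 K.1).map (algebraMap F L)).det := by
  have : ((th k F J.1 K.1).map (algebraMap F L)).det = algebraMap F L (th k F J.1 K.1).det := by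
    rw [← RingHom.mapMatrix_apply, ← RingHom.map_det]
  rw [this]
  exact (th_det_ne _ _ J.2 K.2).isUnit.map _

lemma HorF.self_zero {D : Derivation k (EE k ι F p s) (EE k ι F p s)} {J : IJ ι}
    {Z : Matrix (Fin 2) ι F} (h : HorF p D J Z) : Z.submatrix id J.1 = 0 := by
  ext r c
  have h1 := h r (J.1 c)
  rw [YE_self] at h1
  have h2 : algebraMap F L (Z r (J.1 c)) = 0 := by
    rw [← h1]
    split_ifs <;> simp
  simpa using h2

lemma HorF.eq {D : Derivation k (EE k ι F p s) (EE k ι F p s)} {J : IJ ι}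
    {Z Z' : Matrix (Fin 2) ι F} (h : HorF p D J Z) (h' : HorF p D J Z') : Z = Z' := by
  ext r i
  exact (algebraMap F L).injective ((h r i).symm.trans (h' r i))

lemma HorF.trans {D : Derivation k (EE k ι F p s) (EE k ι F p s)} {J : IJ ι}
    {Z : Matrix (Fin 2) ι F} (h : HorF p D J Z) (K : IJ ι) :
    HorF p D K (VJ k K.1 (xJ k F J.1 * Z)) := by
  have h1 := dY_trans p D J K
  have h2 : dY p D J = Z.map (algebraMap F L) := by
    ext r i; exact h r i
  have h3 := VJ_trans (k := k) J.1 K.1 J.2 K.2 (xJ k F J.1 * Z)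
  rw [VJ_self J.1 J.2 Z (h.self_zero p)] at h3
  have h4 : (th k F J.1 K.1).map (algebraMap F L) * dY p D K =
      (th k F J.1 K.1).map (algebraMap F L) *
        (VJ k K.1 (xJ k F J.1 * Z)).map (algebraMap F L) := by
    rw [← Matrix.map_mul, h3]
    have h5 : (Z - Z.submatrix id K.1 * YJ k F K.1).map (algebraMap F L) =
        Z.map (algebraMap F L) - (Z.submatrix id K.1).map (algebraMap F L) *
          (YJ k F K.1).map (algebraMap F L) := by
      rw [← Matrix.map_mul]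
      ext r i; simp only [Matrix.map_apply, Matrix.sub_apply, map_sub]
    rw [h5, eq_sub_iff_add_eq, ← h2]
    have h6 : (Z.submatrix id K.1).map (algebraMap F L) = (dY p D J).submatrix id K.1 := by
      rw [h2]; rfl
    rw [h6]
    exact h1.symm
  have h7 := congrArg (fun M => ((th k F J.1 K.1).map (algebraMap F L))⁻¹ * M) h4
  simp only [← Matrix.mul_assoc, Matrix.nonsing_inv_mul _ (th_map_isUnit J K),
    Matrix.one_mul] at h7
  intro r i
  exact congrFun (congrFun h7 r) i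

lemma HorF.sub {D D' : Derivation k (EE k ι F p s) (EE k ι F p s)} {J : IJ ι}
    {Z Z' : Matrix (Fin 2) ι F} (h : HorF p D J Z) (h' : HorF p D' J Z') :
    HorF p (D - D') J (Z - Z') := by
  intro r i
  rw [Derivation.sub_apply, Matrix.sub_apply, map_sub, ← h r i, ← h' r i]
  rfl

/-- the invariant vertical part -/
noncomputable def nu (D : Derivation k (EE k ι F p s) (EE k ι F p s)) (J : IJ ι) : L :=
  ((D (wE k F p s J 0 1) : EE k ι F p s) : L) * vv k F p s J.1 0 ^ 2 /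
    algebraMap F L ((xJ k F J.1).det ^ p)

lemma der_pow_p (D : Derivation k (EE k ι F p s) (EE k ι F p s)) (y : EE k ι F p s) :
    D (y ^ p) = 0 := by
  have := charF k p (EE k ι F p s)
  rw [Derivation.leibniz_pow, nsmul_eq_mul, CharP.cast_eq_zero, zero_mul]

lemma det_map_pow [CharP F p] (M : Matrix (Fin 2) (Fin 2) F) :
    (M.map (fun z => z ^ p)).det = M.det ^ p := by
  have : ExpChar F p := ExpChar.prime Fact.out
  rw [Matrix.det_fin_two, Matrix.det_fin_two, sub_pow_expChar]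
  simp only [Matrix.map_apply, mul_pow]

lemma nu_indep (hs : Transcendental F s) (D : Derivation k (EE k ι F p s) (EE k ι F p s))
    (J K : IJ ι) : nu p D J = nu p D K := by
  have hF := charF k p F
  set θ : Fin 2 → Fin 2 → EE k ι F p s := fun r c => YE k F p s J r (K.1 c) with hθ
  have hJ0 := vv_ne (k := k) p hs J.1 0
  have hK0 := vv_ne (k := k) p hs K.1 0
  have hv : ∀ c, vv k F p s K.1 c = vv k F p s J.1 0 * (θ 0 c : L) ^ p +
      vv k F p s J.1 1 * (θ 1 c : L) ^ p := by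
    intro c
    rw [vv_trans p J.1 K.1 J.2, Fin.sum_univ_two, map_pow, map_pow]
    rfl
  have e1 : wE k F p s K 0 1 * (θ 0 0 ^ p + wE k F p s J 0 1 * θ 1 0 ^ p) =
      θ 0 1 ^ p + wE k F p s J 0 1 * θ 1 1 ^ p := by
    apply Subtype.ext
    push_cast
    simp only [wE_coe]
    have h0 := hv 0
    have h1 := hv 1
    rw [wv, wv]
    have h2 : (θ 0 0 : L) ^ p + vv k F p s J.1 1 / vv k F p s J.1 0 * (θ 1 0 : L) ^ p =
        vv k F p s K.1 0 / vv k F p s J.1 0 := by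
      rw [h0]; field_simp
    have h3 : (θ 0 1 : L) ^ p + vv k F p s J.1 1 / vv k F p s J.1 0 * (θ 1 1 : L) ^ p =
        vv k F p s K.1 1 / vv k F p s J.1 0 := by
      rw [h1]; field_simp
    rw [h2, h3]; field_simp
  have e2 := congrArg D e1
  simp only [Derivation.leibniz, map_add, der_pow_p, smul_eq_mul, zero_add, mul_zero,
    add_zero] at e2
  have e3 : D (wE k F p s K 0 1) * (θ 0 0 ^ p + wE k F p s J 0 1 * θ 1 0 ^ p) ^ 2 =
      D (wE k F p s J 0 1) * (θ 0 0 ^ p * θ 1 1 ^ p - θ 0 1 ^ p * θ 1 0 ^ p) := by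
    linear_combination (θ 0 0 ^ p + wE k F p s J 0 1 * θ 1 0 ^ p) * e2 -
      (θ 1 0 ^ p) * D (wE k F p s J 0 1) * e1
  have e4 := congrArg (fun y : EE k ι F p s => (y : L)) e3
  push_cast at e4
  simp only [wE_coe] at e4
  have h2 : (θ 0 0 : L) ^ p + wv k F p s J.1 0 1 * (θ 1 0 : L) ^ p =
        vv k F p s K.1 0 / vv k F p s J.1 0 := by
    rw [hv 0, wv]; field_simp
  rw [h2] at e4
  have h5 : ((θ 0 0 : L) ^ p * (θ 1 1 : L) ^ p - (θ 0 1 : L) ^ p * (θ 1 0 : L) ^ p) =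
      algebraMap F L ((th k F J.1 K.1).det ^ p) := by
    rw [← det_map_pow, Matrix.det_fin_two]
    simp only [Matrix.map_apply, map_sub, map_mul, map_pow]
    rfl
  rw [h5] at e4
  have h6 : (xJ k F K.1).det = (xJ k F J.1).det * (th k F J.1 K.1).det := by
    rw [← Matrix.det_mul, xJ_mul_th J.1 K.1 J.2]
  have hdJ : algebraMap F L ((xJ k F J.1).det ^ p) ≠ 0 := by
    rw [Ne, FaithfulSMul.algebraMap_eq_zero_iff]
    exact pow_ne_zero _ (xJ_isUnit J.1 J.2).ne_zero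
  have hdK : algebraMap F L ((xJ k F K.1).det ^ p) ≠ 0 := by
    rw [Ne, FaithfulSMul.algebraMap_eq_zero_iff]
    exact pow_ne_zero _ (xJ_isUnit K.1 K.2).ne_zero
  have h7 : algebraMap F L ((xJ k F K.1).det ^ p) = algebraMap F L ((xJ k F J.1).det ^ p) *
      algebraMap F L ((th k F J.1 K.1).det ^ p) := by
    rw [h6, mul_pow, map_mul]
  rw [nu, nu, div_eq_div_iff hdJ hdK, h7]
  have h8 : ((D (wE k F p s K 0 1) : EE k ι F p s) : L) * vv k F p s K.1 0 ^ 2 =
      ((D (wE k F p s J 0 1) : EE k ι F p s) : L) *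
        algebraMap F L ((th k F J.1 K.1).det ^ p) * vv k F p s J.1 0 ^ 2 := by
    rw [← e4]; field_simp
  rw [h8]; ring

lemma nu_sub (D D' : Derivation k (EE k ι F p s) (EE k ι F p s)) (J : IJ ι) :
    nu p (D - D') J = nu p D J - nu p D' J := by
  rw [nu, nu, nu, Derivation.sub_apply]
  push_cast
  ring

lemma nu_add (D D' : Derivation k (EE k ι F p s) (EE k ι F p s)) (J : IJ ι) :
    nu p (D + D') J = nu p D J + nu p D' J := by
  rw [nu, nu, nu, Derivation.add_apply]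
  push_cast
  ring

lemma nu_inj (hs : Transcendental F s) (D D' : Derivation k (EE k ι F p s) (EE k ι F p s))
    (J : IJ ι) (h : nu p D J = nu p D' J) :
    D (wE k F p s J 0 1) = D' (wE k F p s J 0 1) := by
  have hJ0 := vv_ne (k := k) p hs J.1 0
  have hdJ : algebraMap F L ((xJ k F J.1).det ^ p) ≠ 0 := by
    rw [Ne, FaithfulSMul.algebraMap_eq_zero_iff]
    exact pow_ne_zero _ (xJ_isUnit J.1 J.2).ne_zero
  rw [nu, nu, div_left_inj' hdJ] at h
  exact Subtype.ext (mul_right_cancel₀ (pow_ne_zero _ hJ0) h)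

/-- the quadratic form attached to a matrix -/
noncomputable def om (s : L) (W : Matrix (Fin 2) (Fin 2) F) : L :=
  algebraMap F L (W 0 1) + algebraMap F L (W 1 1 - W 0 0) * s + algebraMap F L (-W 1 0) * s ^ 2

lemma om_sub (W W' : Matrix (Fin 2) (Fin 2) F) : om s (W - W') = om s W - om s W' := by
  simp only [om, Matrix.sub_apply, map_sub, map_neg]; ring

lemma om_add (W W' : Matrix (Fin 2) (Fin 2) F) : om s (W + W') = om s W + om s W' := by
  simp only [om, Matrix.add_apply, map_add, map_neg, map_sub]; ring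

lemma om_inj (hs : Transcendental F s) (h2 : (2 : F) ≠ 0) {W W' : Matrix (Fin 2) (Fin 2) F}
    (h : om s W = om s W') (ht : W.trace = W'.trace) : W = W' := by
  obtain ⟨a, b, c⟩ := quad_unique hs h
  rw [Matrix.trace_fin_two, Matrix.trace_fin_two] at ht
  have h11 : W 1 1 = W' 1 1 := by
    apply mul_left_cancel₀ h2
    linear_combination ht + b
  have h00 : W 0 0 = W' 0 0 := by linear_combination ht - h11
  ext r c'
  fin_cases r <;> fin_cases c'
  · exact h00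
  · exact a
  · exact neg_injective c
  · exact h11

/-- `[x_J]` -/
noncomputable def xP (k : Type*) [Field k] {ι : Type*} (F : Type*) [Field F] [Algebra (SS k ι) F]
    (p : ℕ) (J : Fin 2 → ι) : Matrix (Fin 2) (Fin 2) F := (xJ k F J).map (fun z => z ^ p)

lemma xP_det (J : Fin 2 → ι) : (xP k F p J).det = (xJ k F J).det ^ p := by
  have := charF k p F
  exact det_map_pow p _

lemma xP_isUnit (J : IJ ι) : IsUnit (xP k F p J.1).det := by
  rw [xP_det]; exact (xJ_isUnit J.1 J.2).pow p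

lemma vv_eq (J : Fin 2 → ι) (c : Fin 2) : vv k F p s J c =
    algebraMap F L (xP k F p J 0 c) + s * algebraMap F L (xP k F p J 1 c) := rfl

lemma om_key (J : IJ ι) (N W : Matrix (Fin 2) (Fin 2) F)
    (h : xP k F p J.1 * N = W * xP k F p J.1) :
    algebraMap F L (N 0 1) * vv k F p s J.1 0 ^ 2 +
      algebraMap F L (N 1 1 - N 0 0) * (vv k F p s J.1 0 * vv k F p s J.1 1) +
      algebraMap F L (-N 1 0) * vv k F p s J.1 1 ^ 2 =
    algebraMap F L ((xJ k F J.1).det ^ p) * om s W := by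
  have hh : ∀ r c, algebraMap F L ((xP k F p J.1 * N) r c) =
      algebraMap F L ((W * xP k F p J.1) r c) := fun r c => by rw [h]
  have h00 := hh 0 0
  have h01 := hh 0 1
  have h10 := hh 1 0
  have h11 := hh 1 1
  simp only [Matrix.mul_apply, Fin.sum_univ_two, map_add, map_mul] at h00 h01 h10 h11
  rw [← xP_det, Matrix.det_fin_two, vv_eq, vv_eq, om]
  simp only [map_sub, map_mul, map_neg]
  linear_combination (algebraMap F L (xP k F p J.1 0 0) +
    s * algebraMap F L (xP k F p J.1 1 0)) * (h01 + s * h11) -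
    (algebraMap F L (xP k F p J.1 0 1) + s * algebraMap F L (xP k F p J.1 1 1)) *
      (h00 + s * h10)

/-- a derivation with vertical part given by the matrix `N` -/
lemma nu_of_quad (hs : Transcendental F s) {D : Derivation k (EE k ι F p s) (EE k ι F p s)}
    {J : IJ ι} (N W : Matrix (Fin 2) (Fin 2) F)
    (hq : QuadF p D J (N 0 1) (N 1 1 - N 0 0) (-N 1 0))
    (h : xP k F p J.1 * N = W * xP k F p J.1) : nu p D J = om s W := by
  have hJ0 := vv_ne (k := k) p hs J.1 0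
  have hdJ : algebraMap F L ((xJ k F J.1).det ^ p) ≠ 0 := by
    rw [Ne, FaithfulSMul.algebraMap_eq_zero_iff]
    exact pow_ne_zero _ (xJ_isUnit J.1 J.2).ne_zero
  rw [nu, div_eq_iff hdJ, mul_comm (om s W), ← om_key p J N W h, hq, wv]
  field_simp

end

end Pool.Agent.Totaro

end

/-! ## H1 -/

section

set_option linter.unusedSectionVars false

namespace Pool.Agent.Totaro

open MvPolynomial Matrix

section

variable {k : Type*} [Field k] {ι : Type*}
  {F : Type*} [Field F] [Algebra k F]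
  [Algebra (SS k ι) F] [IsScalarTower k (SS k ι) F]
  [IsFractionRing (SS k ι) F]
variable (p : ℕ) [Fact p.Prime] [CharP k p]
variable {L : Type*} [Field L] [Algebra F L] [Algebra k L] [IsScalarTower k F L] {s : L}

/-- `D` is regular over `π⁻¹(G_J)` -/
def RegAt (J : IJ ι) (D : Derivation k (EE k ι F p s) (EE k ι F p s)) : Prop :=
  ∀ ε, ∀ y ∈ PE k F p s (J, ε) (J, ε), D y ∈ PE k F p s (J, ε) (J, ε)

lemma RegAt.pair (hs : Transcendental F s) {J : IJ ι}
    {D : Derivation k (EE k ι F p s) (EE k ι F p s)} (hD : RegAt p J D) (K : IJ ι) :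
    RegPair p J K D := fun ε δ _ hy => der_reg_mono p hs (J, ε) (K, δ) D (hD ε) hy

lemma RegPair.symm {J K : IJ ι}
    {D : Derivation k (EE k ι F p s) (EE k ι F p s)} (hD : RegPair p J K D) :
    RegPair p K J D := by
  intro ε δ y hy
  rw [PE_symm] at hy ⊢
  exact hD δ ε y hy

lemma RegPair.add {J K : IJ ι} {D D' : Derivation k (EE k ι F p s) (EE k ι F p s)}
    (hD : RegPair p J K D) (hD' : RegPair p J K D') : RegPair p J K (D + D') :=
  fun ε δ y hy => add_mem (hD ε δ y hy) (hD' ε δ y hy)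

lemma regAt_of (hs : Transcendental F s) {J : IJ ι}
    {D : Derivation k (EE k ι F p s) (EE k ι F p s)} {Z : Matrix (Fin 2) ι F} {a b c : F}
    (hZ : HorF p D J Z) (hZm : ∀ r i, Z r i ∈ OJ k F J.1) (hq : QuadF p D J a b c)
    (ha : a ∈ OJ k F J.1) (hb : b ∈ OJ k F J.1) (hc : c ∈ OJ k F J.1) : RegAt p J D := by
  intro ε y hy
  refine der_reg_chart p hs (J, ε) (J, ε) D ?_ ?_ hy
  · intro r i
    rw [mem_PE]
    change ((D (YE k F p s J r i) : EE k ι F p s) : L) ∈ _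
    rw [hZ r i]
    exact OJ_map_le_PL p (J, ε) (J, ε) (hZm r i)
  · rw [mem_PE]
    fin_cases ε
    · change ((D (wE k F p s J 0 1) : EE k ι F p s) : L) ∈ _
      rw [hq]
      exact add_mem (add_mem (OJ_map_le_PL p (J, 0) (J, 0) ha)
        (mul_mem (OJ_map_le_PL p (J, 0) (J, 0) hb) (wv_mem_PL p (J, 0) (J, 0) 1)))
        (mul_mem (OJ_map_le_PL p (J, 0) (J, 0) hc) (pow_mem (wv_mem_PL p (J, 0) (J, 0) 1) _))
    · change ((D (wE k F p s J 1 0) : EE k ι F p s) : L) ∈ _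
      rw [der_wE_inv p hs]
      have h1 : ((-(wE k F p s J 1 0) ^ 2 * D (wE k F p s J 0 1) : EE k ι F p s) : L) =
          -(algebraMap F L a * wv k F p s J.1 1 0 ^ 2 + algebraMap F L b * wv k F p s J.1 1 0 +
            algebraMap F L c) := by
        push_cast
        rw [hq]
        simp only [wE_coe]
        have h2 : wv k F p s J.1 1 0 * wv k F p s J.1 0 1 = 1 :=
          congrArg Subtype.val (wE_mul p hs J)
        linear_combination (-algebraMap F L b * wv k F p s J.1 1 0 - algebraMap F L c *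
          (wv k F p s J.1 1 0 * wv k F p s J.1 0 1 + 1)) * h2
      rw [h1]
      exact neg_mem (add_mem (add_mem (mul_mem (OJ_map_le_PL p (J, 1) (J, 1) ha)
        (pow_mem (wv_mem_PL p (J, 1) (J, 1) 0) _)) (mul_mem (OJ_map_le_PL p (J, 1) (J, 1) hb)
        (wv_mem_PL p (J, 1) (J, 1) 0))) (OJ_map_le_PL p (J, 1) (J, 1) hc))

lemma exists_der_of (hs : Transcendental F s) (J : IJ ι) (Z : Matrix (Fin 2) ι F) (a b c : F)
    (hZ0 : Z.submatrix id J.1 = 0) (hZm : ∀ r i, Z r i ∈ OJ k F J.1)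
    (ha : a ∈ OJ k F J.1) (hb : b ∈ OJ k F J.1) (hc : c ∈ OJ k F J.1) :
    ∃ D : Derivation k (EE k ι F p s) (EE k ι F p s), HorF p D J Z ∧ QuadF p D J a b c ∧
      RegAt p J D := by
  have hm : ∀ x ∈ OJ k F J.1, algebraMap F L x ∈ EL (ι := ι) k F p s := fun x hx =>
    PL_le_EL p (J, 0) (J, 0) (OJ_map_le_PL p (J, 0) (J, 0) hx)
  obtain ⟨D, hD⟩ := exists_der (genE_algIndep (k := k) p hs (J, 0)) (adjoin_genE p hs (J, 0))
    (Sum.elim (fun _ => (⟨algebraMap F L a, hm a ha⟩ + ⟨algebraMap F L b, hm b hb⟩ *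
      wE k F p s J 0 1 + ⟨algebraMap F L c, hm c hc⟩ * wE k F p s J 0 1 ^ 2 : EE k ι F p s))
      (fun v => ⟨algebraMap F L (Z v.1 (v.2 : ι)), hm _ (hZm _ _)⟩))
  have hH : HorF p D J Z := by
    intro r i
    by_cases hi : i ∈ Set.range J.1
    · obtain ⟨c', rfl⟩ := hi
      have h0 : Z r (J.1 c') = 0 := congrFun (congrFun hZ0 r) c'
      rw [h0, YE_self]
      split_ifs <;> simp
    · have := hD (Sum.inr (r, ⟨i, hi⟩))
      exact congrArg Subtype.val this
  have hQ : QuadF p D J a b c := by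
    have := hD (Sum.inl ())
    exact congrArg Subtype.val this
  exact ⟨D, hH, hQ, regAt_of p hs hH hZm hQ ha hb hc⟩

lemma QuadF.eq (hs : Transcendental F s) {J : IJ ι}
    {D : Derivation k (EE k ι F p s) (EE k ι F p s)} {a b c a' b' c' : F}
    (h : QuadF p D J a b c) (h' : QuadF p D J a' b' c') : a = a' ∧ b = b' ∧ c = c' :=
  quad_unique (wv_transcendental (k := k) p hs J.1 J.2 0 1 (by simp)) (h.symm.trans h')

/-- a derivation regular over two overlaps with disjoint charts is regular on the chart -/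
lemma regAt_of_pairs [Infinite k] (hs : Transcendental F s) {J K1 K2 : IJ ι}
    (h12 : ∀ a b, K1.1 a ≠ K2.1 b)
    {D : Derivation k (EE k ι F p s) (EE k ι F p s)} (h1 : RegPair p J K1 D)
    (h2 : RegPair p J K2 D) : RegAt p J D := by
  obtain ⟨Z, hZ, mZ⟩ := h1.hor p hs
  obtain ⟨Z', hZ', mZ'⟩ := h2.hor p hs
  have e := hZ.eq p hZ'
  subst e
  obtain ⟨a, ha, b, hb, c, hc, hq⟩ := h1.quad p hs
  obtain ⟨a', ha', b', hb', c', hc', hq'⟩ := h2.quad p hs
  obtain ⟨rfl, rfl, rfl⟩ := hq.eq p hs hq'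
  exact regAt_of p hs hZ (fun r i => OJ_inter J.1 K1.1 K2.1 J.2 K1.2 K2.2 h12 (mZ r i) (mZ' r i))
    hq (OJ_inter J.1 K1.1 K2.1 J.2 K1.2 K2.2 h12 ha ha')
    (OJ_inter J.1 K1.1 K2.1 J.2 K1.2 K2.2 h12 hb hb')
    (OJ_inter J.1 K1.1 K2.1 J.2 K1.2 K2.2 h12 hc hc')

lemma xP_mem (J : Fin 2 → ι) (Js : Multiset (Fin 2 → ι)) (r c : Fin 2) :
    xP k F p J r c ∈ Rsub (k := k) F Js := pow_mem (xJ_mem J Js r c) p

lemma xP_inv_mem (J : IJ ι) (r c : Fin 2) :
    (xP k F p J.1)⁻¹ r c ∈ Rsub (k := k) F {J.1} := by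
  refine inv_mem_Rsub _ (xP_mem p J.1 _) ?_ r c
  rw [xP_det, xJ_det, ← inv_pow]
  exact pow_mem (mnr_inv_mem J.1 J.2) p

lemma HasDeg.pow' {M : Type*} [AddCommGroup M] {wt : Fin 2 → M} {d : M} {z : F}
    (h : HasDeg k ι wt d z) (n : ℕ) : HasDeg k ι wt (n • d) (z ^ n) := by
  induction n with
  | zero =>
    rw [pow_zero, zero_smul]
    have := HasDeg.const (k := k) (ι := ι) (F := F) M wt 1
    rwa [map_one] at this
  | succ n ih => rw [pow_succ, succ_nsmul]; exact ih.mul h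

lemma xP_deg {M : Type*} [AddCommGroup M] (wt : Fin 2 → M) (J : Fin 2 → ι) (r c : Fin 2) :
    HasDeg k ι wt (p • wt r) (xP k F p J r c) := (xJ_deg wt J r c).pow' p

lemma xP_inv_deg {M : Type*} [AddCommGroup M] (wt : Fin 2 → M) (J : Fin 2 → ι) (c r : Fin 2) :
    HasDeg k ι wt (-(p • wt r)) ((xP k F p J)⁻¹ c r) :=
  inv_deg wt (fun r => p • wt r) _ (xP_deg p wt J) c r

lemma gF_pow (g : GL (Fin 2) k) :
    (gF F (RingHom.id k) g).map (fun z => z ^ p) = gF F (frobenius k p) g := by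
  ext r c
  simp [gF, frobM, frobenius_def]

lemma sig_xP (g : GL (Fin 2) k) (J : Fin 2 → ι) :
    (xP k F p J).map (sigF (ι := ι) F g) = gF F (frobenius k p) g * xP k F p J := by
  have := charF k p F
  have he : ExpChar F p := ExpChar.prime Fact.out
  have h1 : (xP k F p J).map (sigF (ι := ι) F g) =
      ((xJ k F J).map (sigF (ι := ι) F g)).map (frobenius F p) := by
    ext r c
    simp [xP, frobenius_def]
  rw [h1, sig_xJ, Matrix.map_mul, ← gF_pow]
  rfl

/-- conjugation by `[x_J]` -/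
lemma conj_props {J : IJ ι} {N : Matrix (Fin 2) (Fin 2) F} {K : IJ ι}
    (hN : ∀ r c, N r c ∈ OJ k F J.1 ⊔ OJ k F K.1) :
    (∀ r c, (xP k F p J.1 * N * (xP k F p J.1)⁻¹) r c ∈ Rsub (k := k) F ({J.1} + {K.1})) ∧
    (∀ r c, HasDeg k ι wt2 (cd p r c) ((xP k F p J.1 * N * (xP k F p J.1)⁻¹) r c)) ∧
    (∀ g, (xP k F p J.1 * N * (xP k F p J.1)⁻¹).map (sigF (ι := ι) F g) *
      gF F (frobenius k p) g = gF F (frobenius k p) g *
        (xP k F p J.1 * N * (xP k F p J.1)⁻¹)) := by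
  refine ⟨?_, ?_, ?_⟩
  · refine Rsub_mul_const _ _ (Rsub_mul_const _ _ (xP_mem p J.1 _) ?_) ?_
    · intro r c; exact OJJ_le_Rsub J.1 K.1 J.2 K.2 (hN r c)
    · intro r c
      exact Rsub_mono (by simp) (xP_inv_mem p J r c)
  · intro r c
    rw [Matrix.mul_apply]
    apply HasDeg.sum
    intro b _
    have h1 : HasDeg k ι wt2 (p • wt2 r) ((xP k F p J.1 * N) r b) := by
      rw [Matrix.mul_apply]
      apply HasDeg.sum
      intro a _
      have := (xP_deg (k := k) (F := F) p wt2 J.1 r a).mul (OJJ_deg wt2 J.1 K.1 (hN a b))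
      rwa [add_zero] at this
    have h2 := h1.mul (xP_inv_deg (k := k) (F := F) p wt2 J.1 b c)
    have h3 : cd p r c = p • wt2 r + -(p • wt2 c) := by
      rw [cd, smul_sub, sub_eq_add_neg]
    rw [h3]; exact h2
  · intro g
    have hNs : N.map (sigF (ι := ι) F g) = N := by
      ext r c; exact sig_OJJ g J.1 K.1 J.2 K.2 (hN r c)
    rw [Matrix.map_mul, Matrix.map_mul, hNs, map_inv_sig, sig_xP, Matrix.mul_inv_rev]
    have h1 : gF F (frobenius k p) g * xP k F p J.1 * N *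
        ((xP k F p J.1)⁻¹ * (gF F (frobenius k p) g)⁻¹) * gF F (frobenius k p) g =
        gF F (frobenius k p) g * (xP k F p J.1 * N * (xP k F p J.1)⁻¹) *
          ((gF F (frobenius k p) g)⁻¹ * gF F (frobenius k p) g) := by
      simp only [Matrix.mul_assoc]
    rw [h1, gF_inv_mul, Matrix.mul_one]

lemma conj_inv_props [Infinite k] {J : IJ ι} {E : Matrix (Fin 2) (Fin 2) F}
    (hE : ∀ r c, E r c ∈ Rsub (k := k) F {J.1})
    (hs : ∀ g, E.map (sigF (ι := ι) F g) * gF F (frobenius k p) g =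
      gF F (frobenius k p) g * E) (r c : Fin 2) :
    ((xP k F p J.1)⁻¹ * E * xP k F p J.1) r c ∈ OJ k F J.1 := by
  refine invariant_mem_OJ J.1 J.2 ?_ ?_
  · exact Rsub_mul_const _ _ (Rsub_mul_const _ _ (xP_inv_mem p J) hE) (xP_mem p J.1 _) r c
  · intro g
    have h1 : ((xP k F p J.1)⁻¹ * E * xP k F p J.1).map (sigF (ι := ι) F g) =
        (xP k F p J.1)⁻¹ * E * xP k F p J.1 := by
      rw [Matrix.map_mul, Matrix.map_mul, map_inv_sig, sig_xP, Matrix.mul_inv_rev]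
      have h2 : (xP k F p J.1)⁻¹ * (gF F (frobenius k p) g)⁻¹ * E.map (sigF (ι := ι) F g) *
          (gF F (frobenius k p) g * xP k F p J.1) = (xP k F p J.1)⁻¹ *
          ((gF F (frobenius k p) g)⁻¹ * (E.map (sigF (ι := ι) F g) *
            gF F (frobenius k p) g)) * xP k F p J.1 := by
        simp only [Matrix.mul_assoc]
      rw [h2, hs, ← Matrix.mul_assoc (gF F (frobenius k p) g)⁻¹, gF_inv_mul, Matrix.one_mul]
    exact congrFun (congrFun h1 r) c

lemma HorF.lift_props {J K : IJ ι} {Z : Matrix (Fin 2) ι F}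
    (hZ : ∀ r i, Z r i ∈ OJ k F J.1 ⊔ OJ k F K.1) :
    (∀ r i, (xJ k F J.1 * Z) r i ∈ Rsub (k := k) F ({J.1} + {K.1})) ∧
    (∀ r i, HasDeg k ι wt2 (wt2 r) ((xJ k F J.1 * Z) r i)) ∧
    (∀ g, (xJ k F J.1 * Z).map (sigF (ι := ι) F g) =
      gF F (RingHom.id k) g * (xJ k F J.1 * Z)) := by
  refine ⟨?_, ?_, ?_⟩
  · exact Rsub_mul_const _ _ (xJ_mem J.1 _) (fun r i => OJJ_le_Rsub J.1 K.1 J.2 K.2 (hZ r i))
  · intro r i
    rw [Matrix.mul_apply]
    apply HasDeg.sum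
    intro a _
    have := (xJ_deg (k := k) (F := F) wt2 J.1 r a).mul (OJJ_deg wt2 J.1 K.1 (hZ a i))
    rwa [add_zero] at this
  · intro g
    have hNs : Z.map (sigF (ι := ι) F g) = Z := by
      ext r c; exact sig_OJJ g J.1 K.1 J.2 K.2 (hZ r c)
    rw [Matrix.map_mul, hNs, sig_xJ, Matrix.mul_assoc]

lemma VJ_xJ_VJ (J K : IJ ι) (E : Matrix (Fin 2) ι F) :
    VJ k J.1 (xJ k F K.1 * VJ k K.1 E) = VJ k J.1 E := by
  have h1 : xJ k F K.1 * VJ k K.1 E = E - (E.submatrix id K.1 * (xJ k F K.1)⁻¹) * xm k ι F := by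
    rw [VJ, ← Matrix.mul_assoc, Matrix.mul_nonsing_inv _ (xJ_isUnit K.1 K.2), Matrix.one_mul,
      Matrix.mul_assoc]
    rfl
  rw [h1, VJ_sub', VJ_gauge J.1 J.2, sub_zero]

end

end Pool.Agent.Totaro

end

/-! ## H1Main -/

section

set_option linter.unusedSectionVars false

namespace Pool.Agent.Totaro

open MvPolynomial Matrix

section

variable {k : Type*} [Field k] {ι : Type*} [Fintype ι] [DecidableEq ι]
  {F : Type*} [Field F] [Algebra k F]
  [Algebra (SS k ι) F] [IsScalarTower k (SS k ι) F]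
  [IsFractionRing (SS k ι) F]
variable (p : ℕ) [Fact p.Prime] [CharP k p]
variable {L : Type*} [Field L] [Algebra F L] [Algebra k L] [IsScalarTower k F L] {s : L}

/-- the pairs of a configuration -/
def Cfg.K1 (cf : Cfg ι) : IJ ι := ⟨cf.J1, cf.i1⟩
/-- the pairs of a configuration -/
def Cfg.K2 (cf : Cfg ι) : IJ ι := ⟨cf.J2, cf.i2⟩
/-- the pairs of a configuration -/
def Cfg.K3 (cf : Cfg ι) : IJ ι := ⟨cf.J3, cf.i3⟩

/-- horizontal part of the splitting for three charts -/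
lemma core_hor [Infinite k] (cf : Cfg ι) (hk2 : (2 : k) ≠ 0) (hk3 : (3 : k) ≠ 0)
    (D12 D13 D23 : Derivation k (EE k ι F p s) (EE k ι F p s))
    (Z12 Z13 Z23 : Matrix (Fin 2) ι F)
    (h12 : HorF p D12 cf.K1 Z12) (h13 : HorF p D13 cf.K1 Z13) (h23 : HorF p D23 cf.K2 Z23)
    (m12 : ∀ r i, Z12 r i ∈ OJ k F cf.J1 ⊔ OJ k F cf.J2)
    (m13 : ∀ r i, Z13 r i ∈ OJ k F cf.J1 ⊔ OJ k F cf.J3)
    (m23 : ∀ r i, Z23 r i ∈ OJ k F cf.J2 ⊔ OJ k F cf.J3)
    (hD : D12 + D23 = D13) :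
    ∃ V1 V2 V3 : Matrix (Fin 2) ι F, (∀ r i, V1 r i ∈ OJ k F cf.J1) ∧
      (∀ r i, V2 r i ∈ OJ k F cf.J2) ∧ (∀ r i, V3 r i ∈ OJ k F cf.J3) ∧
      V1.submatrix id cf.J1 = 0 ∧ V2.submatrix id cf.J2 = 0 ∧ V3.submatrix id cf.J3 = 0 ∧
      Z12 = V1 - VJ k cf.J1 (xJ k F cf.J2 * V2) ∧
      Z13 = V1 - VJ k cf.J1 (xJ k F cf.J3 * V3) := by
  obtain ⟨a12, b12, c12⟩ := HorF.lift_props (k := k) (J := cf.K1) (K := cf.K2) m12
  obtain ⟨a13, b13, c13⟩ := HorF.lift_props (k := k) (J := cf.K1) (K := cf.K3) m13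
  obtain ⟨a23, b23, c23⟩ := HorF.lift_props (k := k) (J := cf.K2) (K := cf.K3) m23
  change ∀ r i, (xJ k F cf.J1 * Z12) r i ∈ Rsub (k := k) F ({cf.J1} + {cf.J2}) at a12
  change ∀ r i, (xJ k F cf.J1 * Z13) r i ∈ Rsub (k := k) F ({cf.J1} + {cf.J3}) at a13
  change ∀ r i, (xJ k F cf.J2 * Z23) r i ∈ Rsub (k := k) F ({cf.J2} + {cf.J3}) at a23
  change ∀ r i, HasDeg k ι wt2 (wt2 r) ((xJ k F cf.J1 * Z12) r i) at b12
  change ∀ r i, HasDeg k ι wt2 (wt2 r) ((xJ k F cf.J1 * Z13) r i) at b13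
  change ∀ r i, HasDeg k ι wt2 (wt2 r) ((xJ k F cf.J2 * Z23) r i) at b23
  change ∀ g, (xJ k F cf.J1 * Z12).map (sigF (ι := ι) F g) =
      gF F (RingHom.id k) g * (xJ k F cf.J1 * Z12) at c12
  change ∀ g, (xJ k F cf.J1 * Z13).map (sigF (ι := ι) F g) =
      gF F (RingHom.id k) g * (xJ k F cf.J1 * Z13) at c13
  change ∀ g, (xJ k F cf.J2 * Z23).map (sigF (ι := ι) F g) =
      gF F (RingHom.id k) g * (xJ k F cf.J2 * Z23) at c23
  set M12 := xJ k F cf.J1 * Z12 with hM12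
  set M13 := xJ k F cf.J1 * Z13 with hM13
  set M23 := xJ k F cf.J2 * Z23 with hM23
  have v12 : VJ k cf.J1 M12 = Z12 := VJ_self cf.J1 cf.i1 Z12 (h12.self_zero p)
  have v13 : VJ k cf.J1 M13 = Z13 := VJ_self cf.J1 cf.i1 Z13 (h13.self_zero p)
  have v23 : VJ k cf.J1 M23 = Z13 - Z12 := by
    have h1 : HorF p D23 cf.K1 (VJ k cf.J1 M23) := h23.trans p cf.K1
    have h2 : HorF p (D13 - D12) cf.K1 (Z13 - Z12) := h13.sub p h12
    have h3 : D13 - D12 = D23 := by rw [← hD]; abel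
    rw [h3] at h2
    exact h1.eq p h2
  have hN : VJ k cf.J1 (M12 + M23 - M13) = 0 := by
    rw [VJ_sub', VJ_add, v12, v13, v23]; abel
  set N := M12 + M23 - M13 with hNdef
  have hNA := VJ_eq_zero cf.J1 cf.i1 N hN
  set A := N.submatrix id cf.J1 * (xJ k F cf.J1)⁻¹ with hA
  have mN : ∀ r i, N r i ∈ Rsub (k := k) F ({cf.J1} + {cf.J2} + {cf.J3}) := by
    intro r i
    refine sub_mem (add_mem ?_ ?_) ?_
    · refine Rsub_mono ?_ (a12 r i)
      exact Multiset.le_add_right _ _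
    · refine Rsub_mono ?_ (a23 r i)
      rw [add_assoc]
      exact Multiset.le_add_left _ _
    · refine Rsub_mono ?_ (a13 r i)
      rw [add_right_comm]
      exact Multiset.le_add_right _ _
  have dN : ∀ r i, HasDeg k ι wt2 (wt2 r) (N r i) := fun r i =>
    ((b12 r i).add (b23 r i)).sub (b13 r i)
  have eN : ∀ g, N.map (sigF (ι := ι) F g) = gF F (RingHom.id k) g * N := by
    intro g
    have : N.map (sigF (ι := ι) F g) = M12.map (sigF (ι := ι) F g) +
        M23.map (sigF (ι := ι) F g) - M13.map (sigF (ι := ι) F g) := by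
      ext r i; simp only [hNdef, Matrix.map_apply, Matrix.add_apply, Matrix.sub_apply, map_add,
        map_sub]
    rw [this, c12, c13, c23, hNdef, Matrix.mul_sub, Matrix.mul_add]
  have mA : ∀ r c, A r c ∈ Rsub (k := k) F ({cf.J1} + {cf.J2} + {cf.J3}) := by
    intro r c
    refine Rsub_mul_const _ _ (fun r c => mN r (cf.J1 c)) ?_ r c
    intro r c
    refine Rsub_mono ?_ (xJ_inv_mem cf.J1 cf.i1 r c)
    rw [add_assoc]
    exact Multiset.le_add_right _ _
  have dA : ∀ r c, HasDeg k ι wt2 (cd 1 r c) (A r c) := by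
    intro r c
    rw [hA, Matrix.mul_apply]
    apply HasDeg.sum
    intro a _
    have h1 := (dN r (cf.J1 a)).mul (inv_deg (k := k) (F := F) wt2 wt2 _ (xJ_deg wt2 cf.J1) a c)
    have h2 : cd 1 r c = wt2 r + -(wt2 c) := by rw [cd, one_smul, sub_eq_add_neg]
    rw [h2]; exact h1
  have eA : ∀ g, A.map (sigF (ι := ι) F g) * gF F (RingHom.id k) g =
      gF F (RingHom.id k) g * A := by
    intro g
    have h1 : (N.submatrix id cf.J1).map (sigF (ι := ι) F g) =
        gF F (RingHom.id k) g * N.submatrix id cf.J1 := by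
      have : (N.submatrix id cf.J1).map (sigF (ι := ι) F g) =
        (N.map (sigF (ι := ι) F g)).submatrix id cf.J1 := rfl
      rw [this, eN, submatrix_mul']
    rw [hA, Matrix.map_mul, h1, map_inv_sig, sig_xJ, Matrix.mul_inv_rev]
    have h3 : gF F (RingHom.id k) g * N.submatrix id cf.J1 *
        ((xJ k F cf.J1)⁻¹ * (gF F (RingHom.id k) g)⁻¹) * gF F (RingHom.id k) g =
        gF F (RingHom.id k) g * (N.submatrix id cf.J1 * (xJ k F cf.J1)⁻¹) *
          ((gF F (RingHom.id k) g)⁻¹ * gF F (RingHom.id k) g) := by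
      simp only [Matrix.mul_assoc]
    rw [h3, gF_inv_mul, Matrix.mul_one]
  obtain ⟨E1, E2, E3, mE1, mE2, mE3, ⟨B12, hB12⟩, ⟨B13, hB13⟩, -, s1, s2, s3⟩ :=
    horiz_solve cf hk2 hk3 M12 M13 M23 A a12 a13 a23 mA b12 b13 dA hNA c12 c13 eA
  choose g1 s1 using s1
  choose g2 s2 using s2
  choose g3 s3 using s3
  refine ⟨VJ k cf.J1 E1, VJ k cf.J2 E2, VJ k cf.J3 E3, ?_, ?_, ?_, VJ_sub cf.J1 cf.i1 E1,
    VJ_sub cf.J2 cf.i2 E2, VJ_sub cf.J3 cf.i3 E3, ?_, ?_⟩
  · intro r i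
    exact invariant_mem_OJ cf.J1 cf.i1 (VJ_mem cf.J1 cf.i1 E1 mE1 r i)
      (fun g => congrFun (congrFun (VJ_sig cf.J1 cf.i1 E1 g _ (s1 g)) r) i)
  · intro r i
    exact invariant_mem_OJ cf.J2 cf.i2 (VJ_mem cf.J2 cf.i2 E2 mE2 r i)
      (fun g => congrFun (congrFun (VJ_sig cf.J2 cf.i2 E2 g _ (s2 g)) r) i)
  · intro r i
    exact invariant_mem_OJ cf.J3 cf.i3 (VJ_mem cf.J3 cf.i3 E3 mE3 r i)
      (fun g => congrFun (congrFun (VJ_sig cf.J3 cf.i3 E3 g _ (s3 g)) r) i)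
  · have := VJ_xJ_VJ (k := k) cf.K1 cf.K2 E2
    change VJ k cf.J1 (xJ k F cf.J2 * VJ k cf.J2 E2) = VJ k cf.J1 E2 at this
    rw [this, ← v12, hB12, VJ_add, VJ_gauge cf.J1 cf.i1, add_zero, VJ_sub']
  · have := VJ_xJ_VJ (k := k) cf.K1 cf.K3 E3
    change VJ k cf.J1 (xJ k F cf.J3 * VJ k cf.J3 E3) = VJ k cf.J1 E3 at this
    rw [this, ← v13, hB13, VJ_add, VJ_gauge cf.J1 cf.i1, add_zero, VJ_sub']

/-- the traceless matrix with given quadratic form -/
def qmat (a b c : F) : Matrix (Fin 2) (Fin 2) F := !![-(b / 2), a; -c, b / 2]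

lemma qmat_props (h2 : (2 : F) ≠ 0) (a b c : F) : (qmat a b c) 0 1 = a ∧
    (qmat a b c) 1 1 - (qmat a b c) 0 0 = b ∧ -(qmat a b c) 1 0 = c ∧
    (qmat a b c).trace = 0 := by
  refine ⟨rfl, ?_, ?_, ?_⟩
  · simp only [qmat, Matrix.of_apply, Matrix.cons_val', Matrix.cons_val_zero,
      Matrix.cons_val_one, Matrix.cons_val_fin_one]
    field_simp; ring
  · simp [qmat]
  · simp [qmat, Matrix.trace_fin_two]

lemma qmat_mem {A : Subalgebra k F} (h2 : (2 : k) ≠ 0) {a b c : F} (ha : a ∈ A) (hb : b ∈ A)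
    (hc : c ∈ A) (r c' : Fin 2) : qmat a b c r c' ∈ A := by
  have hb2 : b / 2 ∈ A := by
    have : b / 2 = (2 : k)⁻¹ • b := by
      rw [Algebra.smul_def, map_inv₀, map_ofNat]; ring
    rw [this]; exact A.smul_mem hb _
  fin_cases r <;> fin_cases c'
  · exact neg_mem hb2
  · exact ha
  · exact neg_mem hc
  · exact hb2

/-- vertical part of the splitting for three charts -/
lemma core_vert [Infinite k] (hs : Transcendental F s) (cf : Cfg ι)
    (hk2 : (2 : k) ≠ 0) (hk3 : (3 : k) ≠ 0)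
    (D12 D13 D23 : Derivation k (EE k ι F p s) (EE k ι F p s))
    (r12 : RegPair p cf.K1 cf.K2 D12) (r13 : RegPair p cf.K1 cf.K3 D13)
    (r23 : RegPair p cf.K2 cf.K3 D23) (hD : D12 + D23 = D13) :
    ∃ N1 N2 N3 W1 W2 W3 : Matrix (Fin 2) (Fin 2) F, (∀ r i, N1 r i ∈ OJ k F cf.J1) ∧
      (∀ r i, N2 r i ∈ OJ k F cf.J2) ∧ (∀ r i, N3 r i ∈ OJ k F cf.J3) ∧
      xP k F p cf.J1 * N1 = W1 * xP k F p cf.J1 ∧ xP k F p cf.J2 * N2 = W2 * xP k F p cf.J2 ∧
      xP k F p cf.J3 * N3 = W3 * xP k F p cf.J3 ∧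
      nu p D12 cf.K1 = om s W1 - om s W2 ∧ nu p D13 cf.K1 = om s W1 - om s W3 := by
  have hF2 : (2 : F) ≠ 0 := by
    have h : algebraMap k F 2 ≠ 0 := by
      rw [Ne, map_eq_zero]; exact hk2
    rwa [map_ofNat] at h
  obtain ⟨a12, ha12, b12, hb12, c12, hc12, q12⟩ := r12.quad p hs
  obtain ⟨a13, ha13, b13, hb13, c13, hc13, q13⟩ := r13.quad p hs
  obtain ⟨a23, ha23, b23, hb23, c23, hc23, q23⟩ := r23.quad p hs
  have mm12 := qmat_mem hk2 ha12 hb12 hc12
  have mm13 := qmat_mem hk2 ha13 hb13 hc13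
  have mm23 := qmat_mem hk2 ha23 hb23 hc23
  obtain ⟨t1, t2, t3, t4⟩ := qmat_props hF2 a12 b12 c12
  obtain ⟨t1', t2', t3', t4'⟩ := qmat_props hF2 a13 b13 c13
  obtain ⟨t1'', t2'', t3'', t4''⟩ := qmat_props hF2 a23 b23 c23
  rw [← t2, ← t3] at q12
  rw [← t2', ← t3'] at q13
  rw [← t2'', ← t3''] at q23
  set Q12 := qmat a12 b12 c12 with hQ12
  set Q13 := qmat a13 b13 c13 with hQ13
  set Q23 := qmat a23 b23 c23 with hQ23
  obtain ⟨A12, B12, C12⟩ := conj_props (k := k) p (J := cf.K1) (K := cf.K2) mm12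
  obtain ⟨A13, B13, C13⟩ := conj_props (k := k) p (J := cf.K1) (K := cf.K3) mm13
  obtain ⟨A23, B23, C23⟩ := conj_props (k := k) p (J := cf.K2) (K := cf.K3) mm23
  have cancel : ∀ (K : IJ ι) (M : Matrix (Fin 2) (Fin 2) F),
      M * (xP k F p K.1)⁻¹ * xP k F p K.1 = M := fun K M => by
    rw [Matrix.mul_assoc, Matrix.nonsing_inv_mul _ (xP_isUnit p K), Matrix.mul_one]
  have n12 : nu p D12 cf.K1 = om s (xP k F p cf.J1 * Q12 * (xP k F p cf.J1)⁻¹) :=
    nu_of_quad p hs (J := cf.K1) Q12 _ q12 (cancel cf.K1 _).symm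
  have n13 : nu p D13 cf.K1 = om s (xP k F p cf.J1 * Q13 * (xP k F p cf.J1)⁻¹) :=
    nu_of_quad p hs (J := cf.K1) Q13 _ q13 (cancel cf.K1 _).symm
  have n23 : nu p D23 cf.K2 = om s (xP k F p cf.J2 * Q23 * (xP k F p cf.J2)⁻¹) :=
    nu_of_quad p hs (J := cf.K2) Q23 _ q23 (cancel cf.K2 _).symm
  have htr : ∀ (K : IJ ι) (M : Matrix (Fin 2) (Fin 2) F),
      (xP k F p K.1 * M * (xP k F p K.1)⁻¹).trace = M.trace := fun K M => by
    rw [Matrix.trace_mul_comm, ← Matrix.mul_assoc, Matrix.nonsing_inv_mul _ (xP_isUnit p K),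
      Matrix.one_mul]
  have hsum : xP k F p cf.J1 * Q12 * (xP k F p cf.J1)⁻¹ +
      xP k F p cf.J2 * Q23 * (xP k F p cf.J2)⁻¹ = xP k F p cf.J1 * Q13 * (xP k F p cf.J1)⁻¹ := by
    apply om_inj hs hF2
    · rw [om_add, ← n12, ← n13, ← n23, ← nu_indep p hs D23 cf.K1 cf.K2, ← nu_add, hD]
    · rw [Matrix.trace_add]
      have h1 := htr cf.K1 Q12
      have h2 := htr cf.K2 Q23
      have h3 := htr cf.K1 Q13
      change (xP k F p cf.J1 * Q12 * (xP k F p cf.J1)⁻¹).trace = Q12.trace at h1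
      change (xP k F p cf.J2 * Q23 * (xP k F p cf.J2)⁻¹).trace = Q23.trace at h2
      change (xP k F p cf.J1 * Q13 * (xP k F p cf.J1)⁻¹).trace = Q13.trace at h3
      rw [h1, h2, h3, t4, t4', t4'', add_zero]
  obtain ⟨E1, E2, E3, mE1, mE2, mE3, e12, e13, -, s1, s2, s3⟩ :=
    vert_solve cf (frobenius k p) p (fun a => frobenius_def p a) hk2 hk3 _ _ _ A12 A13 A23
      B12 B13 hsum C12 C13
  have cancel' : ∀ (K : IJ ι) (E : Matrix (Fin 2) (Fin 2) F),
      xP k F p K.1 * ((xP k F p K.1)⁻¹ * E * xP k F p K.1) = E * xP k F p K.1 := fun K E => by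
    rw [← Matrix.mul_assoc, ← Matrix.mul_assoc, Matrix.mul_nonsing_inv _ (xP_isUnit p K),
      Matrix.one_mul]
  refine ⟨(xP k F p cf.J1)⁻¹ * E1 * xP k F p cf.J1, (xP k F p cf.J2)⁻¹ * E2 * xP k F p cf.J2,
    (xP k F p cf.J3)⁻¹ * E3 * xP k F p cf.J3, E1, E2, E3,
    conj_inv_props p (J := cf.K1) mE1 s1, conj_inv_props p (J := cf.K2) mE2 s2,
    conj_inv_props p (J := cf.K3) mE3 s3, cancel' cf.K1 E1, cancel' cf.K2 E2, cancel' cf.K3 E3,
    ?_, ?_⟩
  · rw [n12, ← om_sub]; exact congrArg _ e12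
  · rw [n13, ← om_sub]; exact congrArg _ e13

/-- splitting for three charts -/
lemma core_three [Infinite k] (hs : Transcendental F s) (cf : Cfg ι)
    (hk2 : (2 : k) ≠ 0) (hk3 : (3 : k) ≠ 0)
    (D12 D13 D23 : Derivation k (EE k ι F p s) (EE k ι F p s))
    (r12 : RegPair p cf.K1 cf.K2 D12) (r13 : RegPair p cf.K1 cf.K3 D13)
    (r23 : RegPair p cf.K2 cf.K3 D23) (hD : D12 + D23 = D13) :
    ∃ D1 D2 D3 : Derivation k (EE k ι F p s) (EE k ι F p s),
      RegAt p cf.K1 D1 ∧ RegAt p cf.K2 D2 ∧ RegAt p cf.K3 D3 ∧ D12 = D1 - D2 ∧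
      D13 = D1 - D3 := by
  obtain ⟨Z12, h12, m12⟩ := r12.hor p hs
  obtain ⟨Z13, h13, m13⟩ := r13.hor p hs
  obtain ⟨Z23, h23, m23⟩ := r23.hor p hs
  obtain ⟨V1, V2, V3, mV1, mV2, mV3, z1, z2, z3, e12, e13⟩ :=
    core_hor p cf hk2 hk3 D12 D13 D23 Z12 Z13 Z23 h12 h13 h23 m12 m13 m23 hD
  obtain ⟨N1, N2, N3, W1, W2, W3, mN1, mN2, mN3, w1, w2, w3, n12, n13⟩ :=
    core_vert p hs cf hk2 hk3 D12 D13 D23 r12 r13 r23 hD
  obtain ⟨D1, H1, Q1, R1⟩ := exists_der_of p hs cf.K1 V1 _ _ _ z1 mV1 (mN1 0 1)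
    (sub_mem (mN1 1 1) (mN1 0 0)) (neg_mem (mN1 1 0))
  obtain ⟨D2, H2, Q2, R2⟩ := exists_der_of p hs cf.K2 V2 _ _ _ z2 mV2 (mN2 0 1)
    (sub_mem (mN2 1 1) (mN2 0 0)) (neg_mem (mN2 1 0))
  obtain ⟨D3, H3, Q3, R3⟩ := exists_der_of p hs cf.K3 V3 _ _ _ z3 mV3 (mN3 0 1)
    (sub_mem (mN3 1 1) (mN3 0 0)) (neg_mem (mN3 1 0))
  have n1 := nu_of_quad p hs (J := cf.K1) N1 W1 Q1 w1
  have n2 := nu_of_quad p hs (J := cf.K2) N2 W2 Q2 w2
  have n3 := nu_of_quad p hs (J := cf.K3) N3 W3 Q3 w3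
  refine ⟨D1, D2, D3, R1, R2, R3, ?_, ?_⟩
  · apply der_ext_chart p hs cf.K1
    · intro r i
      apply Subtype.ext
      have h1 := h12 r i
      have h2 := (H1.sub p (H2.trans p cf.K1)) r i
      rw [h1, h2, e12]
      rfl
    · apply nu_inj p hs
      rw [nu_sub, n12, n1, nu_indep p hs D2 cf.K1 cf.K2, n2]
  · apply der_ext_chart p hs cf.K1
    · intro r i
      apply Subtype.ext
      have h1 := h13 r i
      have h2 := (H1.sub p (H3.trans p cf.K1)) r i
      rw [h1, h2, e13]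
      rfl
    · apply nu_inj p hs
      rw [nu_sub, n13, n1, nu_indep p hs D3 cf.K1 cf.K3, n3]

/-- `H¹(X, T_X) = 0`, in Čech form. -/
theorem H1_zero [Infinite k] (hs : Transcendental F s) (cf : Cfg ι)
    (hk2 : (2 : k) ≠ 0) (hk3 : (3 : k) ≠ 0)
    (D : Ch ι → Ch ι → Derivation k (EE k ι F p s) (EE k ι F p s))
    (hcoc : ∀ a b c, D a b + D b c = D a c)
    (hreg : ∀ a b, ∀ y ∈ PE k F p s a b, D a b y ∈ PE k F p s a b) :
    ∃ D' : Ch ι → Derivation k (EE k ι F p s) (EE k ι F p s),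
      (∀ a, ∀ y ∈ PE k F p s a a, D' a y ∈ PE k F p s a a) ∧ ∀ a b, D a b = D' a - D' b := by
  have haa : ∀ a, D a a = 0 := by
    intro a
    have := hcoc a a a
    simpa using this
  have hsymm : ∀ a b, D b a = -D a b := by
    intro a b
    have := hcoc a b a
    rw [haa] at this
    exact eq_neg_of_add_eq_zero_right this
  -- P¹ steps
  have hP := fun J : IJ ι => p1_step p hs J (D (J, 0) (J, 1)) (hreg _ _)
  choose E0 E1 hE hE0 hE1 using hP
  let E : Ch ι → Derivation k (EE k ι F p s) (EE k ι F p s) := fun a =>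
    if a.2 = 0 then E0 a.1 else E1 a.1
  have hEreg : ∀ a, ∀ y ∈ PE k F p s a a, E a y ∈ PE k F p s a a := by
    rintro ⟨J, ε⟩ y hy
    fin_cases ε
    · exact hE0 J y hy
    · exact hE1 J y hy
  let D2 : IJ ι → IJ ι → Derivation k (EE k ι F p s) (EE k ι F p s) := fun J K =>
    D (J, 0) (K, 0) - E (J, 0) + E (K, 0)
  have hJ : ∀ J : IJ ι, ∀ ε, D (J, ε) (J, 0) = E (J, ε) - E (J, 0) := by
    intro J ε
    fin_cases ε
    · change D (J, 0) (J, 0) = E (J, 0) - E (J, 0)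
      rw [haa, sub_self]
    · change D (J, 1) (J, 0) = E1 J - E0 J
      rw [hsymm (J, 0) (J, 1), hE J]; abel
  have hD2 : ∀ J K ε δ, D (J, ε) (K, δ) = D2 J K + E (J, ε) - E (K, δ) := by
    intro J K ε δ
    have h1 : D (J, ε) (K, δ) = D (J, ε) (J, 0) + D (J, 0) (K, 0) + D (K, 0) (K, δ) := by
      rw [hcoc, hcoc]
    rw [h1, hJ, hsymm (K, δ) (K, 0), hJ]
    simp only [D2]; abel
  have hD2reg : ∀ J K, RegPair p J K (D2 J K) := by
    intro J K ε δ y hy
    have h1 : D2 J K = D (J, ε) (K, δ) - E (J, ε) + E (K, δ) := by rw [hD2 J K ε δ]; abel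
    rw [h1, Derivation.add_apply, Derivation.sub_apply]
    exact add_mem (sub_mem (hreg _ _ y hy) (der_reg_mono p hs _ _ _ (hEreg (J, ε)) hy))
      (der_reg_mono' p hs _ _ _ (hEreg (K, δ)) hy)
  have hD2coc : ∀ J K M, D2 J K + D2 K M = D2 J M := by
    intro J K M
    simp only [D2]
    rw [← hcoc (J, 0) (K, 0) (M, 0)]; abel
  -- three charts
  obtain ⟨D1, D2', D3, R1, R2, R3, e12, e13⟩ := core_three p hs cf hk2 hk3 (D2 cf.K1 cf.K2)
    (D2 cf.K1 cf.K3) (D2 cf.K2 cf.K3) (hD2reg _ _) (hD2reg _ _) (hD2reg _ _) (hD2coc _ _ _)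
  let DD : IJ ι → Derivation k (EE k ι F p s) (EE k ι F p s) := fun J => D2 J cf.K1 + D1
  have hDD2 : ∀ J, DD J = D2 J cf.K2 + D2' := by
    intro J
    simp only [DD]
    rw [← hD2coc J cf.K1 cf.K2, e12]; abel
  have hDDreg : ∀ J, RegAt p J (DD J) := by
    intro J
    refine regAt_of_pairs p hs (K1 := cf.K1) (K2 := cf.K2) cf.h12 ?_ ?_
    · exact (hD2reg J cf.K1).add p (R1.pair p hs J).symm
    · rw [hDD2]
      exact (hD2reg J cf.K2).add p (R2.pair p hs J).symm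
  refine ⟨fun a => DD a.1 + E a, ?_, ?_⟩
  · rintro ⟨J, ε⟩ y hy
    exact add_mem (hDDreg J ε y hy) (hEreg (J, ε) y hy)
  · rintro ⟨J, ε⟩ ⟨K, δ⟩
    simp only [DD]
    rw [hD2, ← hD2coc J K cf.K1]; abel

end

end Pool.Agent.Totaro

end
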