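import Mathlib

/-! ## Omg -/

section

set_option linter.unusedSectionVars false

namespace Pool.Agent.Totaro

open MvPolynomial

/-- `((a+b)^p - a^p - b^p)/p`. -/
def omg (p : ℕ) {R : Type*} [CommRing R] (a b : R) : R :=
  ∑ i ∈ Finset.Ioo 0 p, ((p.choose i / p : ℕ) : R) * a ^ i * b ^ (p - i)

section

variable {p : ℕ} (hp : p.Prime) {R : Type*} [CommRing R] {R' : Type*} [CommRing R']

include hp in
lemma omg_spec (a b : R) : (a + b) ^ p = a ^ p + b ^ p + p * omg p a b := by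
  have hp0 : 0 < p := hp.pos
  rw [add_pow, Finset.sum_range_succ, Nat.choose_self, Nat.sub_self, pow_zero, mul_one,
    Nat.cast_one, mul_one]
  have h1 : Finset.range p = insert 0 (Finset.Ioo 0 p) := by
    ext i
    simp only [Finset.mem_range, Finset.mem_insert, Finset.mem_Ioo]
    omega
  rw [h1, Finset.sum_insert (by simp), omg, Finset.mul_sum]
  simp only [pow_zero, Nat.sub_zero, one_mul, Nat.choose_zero_right, Nat.cast_one, mul_one]
  have h2 : ∀ i ∈ Finset.Ioo 0 p, a ^ i * b ^ (p - i) * (p.choose i : R) =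
      (p : R) * (((p.choose i / p : ℕ) : R) * a ^ i * b ^ (p - i)) := by
    intro i hi
    rw [Finset.mem_Ioo] at hi
    have h3 : p ∣ p.choose i := hp.dvd_choose_self hi.1.ne' hi.2
    obtain ⟨m, hm⟩ := h3
    have h4 : p.choose i / p = m := by rw [hm, Nat.mul_div_cancel_left _ hp0]
    rw [h4, hm]
    push_cast; ring
  rw [Finset.sum_congr rfl h2]
  ring

lemma map_omg (f : R →+* R') (a b : R) : f (omg p a b) = omg p (f a) (f b) := by
  simp only [omg, map_sum, map_mul, map_pow, map_natCast]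

lemma omg_zero_left (b : R) : omg p (0 : R) b = 0 := by
  rw [omg]
  apply Finset.sum_eq_zero
  intro i hi
  rw [Finset.mem_Ioo] at hi
  rw [zero_pow hi.1.ne']; ring

lemma omg_zero_right (a : R) : omg p a (0 : R) = 0 := by
  rw [omg]
  apply Finset.sum_eq_zero
  intro i hi
  rw [Finset.mem_Ioo] at hi
  rw [zero_pow (by omega)]; ring

lemma omg_smul (c a b : R) : omg p (c * a) (c * b) = c ^ p * omg p a b := by
  rw [omg, omg, Finset.mul_sum]
  apply Finset.sum_congr rfl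
  intro i hi
  rw [Finset.mem_Ioo] at hi
  have : c ^ p = c ^ i * c ^ (p - i) := by rw [← pow_add]; congr 1; omega
  rw [this, mul_pow, mul_pow]; ring

include hp in
lemma omg_four (a b c d : R) : omg p a b + omg p c d + omg p (a + b) (c + d) =
    omg p a c + omg p b d + omg p (a + c) (b + d) := by
  -- universal case
  have hu : omg p (X 0 : MvPolynomial (Fin 4) ℤ) (X 1) + omg p (X 2) (X 3) +
      omg p (X 0 + X 1) (X 2 + X 3) = omg p (X 0 : MvPolynomial (Fin 4) ℤ) (X 2) +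
        omg p (X 1) (X 3) + omg p (X 0 + X 2) (X 1 + X 3) := by
    have hp0 : (p : MvPolynomial (Fin 4) ℤ) ≠ 0 := by
      exact_mod_cast hp.ne_zero
    apply mul_left_cancel₀ hp0
    have e1 := omg_spec hp (X 0 : MvPolynomial (Fin 4) ℤ) (X 1)
    have e2 := omg_spec hp (X 2 : MvPolynomial (Fin 4) ℤ) (X 3)
    have e3 := omg_spec hp (X 0 + X 1 : MvPolynomial (Fin 4) ℤ) (X 2 + X 3)
    have e4 := omg_spec hp (X 0 : MvPolynomial (Fin 4) ℤ) (X 2)
    have e5 := omg_spec hp (X 1 : MvPolynomial (Fin 4) ℤ) (X 3)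
    have e6 := omg_spec hp (X 0 + X 2 : MvPolynomial (Fin 4) ℤ) (X 1 + X 3)
    have e7 : ((X 0 + X 1) + (X 2 + X 3) : MvPolynomial (Fin 4) ℤ) ^ p =
        ((X 0 + X 2) + (X 1 + X 3)) ^ p := by congr 1; ring
    linear_combination -e1 - e2 - e3 + e4 + e5 + e6 + e7
  have h := congrArg (eval₂Hom (Int.castRingHom R) ![a, b, c, d]) hu
  simp only [map_add, map_omg, coe_eval₂Hom, eval₂_X] at h
  exact h

/-- `([MN] - [M][N])/p`. -/
def Om (p : ℕ) {n : Type*} (M : Matrix (Fin 2) (Fin 2) R) (N : Matrix (Fin 2) n R) :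
    Matrix (Fin 2) n R := Matrix.of fun r c => omg p (M r 0 * N 0 c) (M r 1 * N 1 c)

lemma Om_apply {n : Type*} (M : Matrix (Fin 2) (Fin 2) R) (N : Matrix (Fin 2) n R) (r : Fin 2)
    (c : n) : Om p M N r c = omg p (M r 0 * N 0 c) (M r 1 * N 1 c) := rfl

lemma map_Om {n : Type*} (f : R →+* R') (M : Matrix (Fin 2) (Fin 2) R)
    (N : Matrix (Fin 2) n R) : (Om p M N).map f = Om p (M.map f) (N.map f) := by
  ext r c
  simp only [Om_apply, Matrix.map_apply, map_omg, map_mul]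

include hp in
lemma Om_assoc {n : Type*} (M N : Matrix (Fin 2) (Fin 2) R) (Q : Matrix (Fin 2) n R) :
    M.map (fun z => z ^ p) * Om p N Q + Om p M (N * Q) =
      Om p (M * N) Q + Om p M N * Q.map (fun z => z ^ p) := by
  ext r c
  simp only [Matrix.add_apply, Matrix.mul_apply, Fin.sum_univ_two, Matrix.map_apply, Om_apply]
  rw [← omg_smul, ← omg_smul, mul_comm (omg p (M r 0 * N 0 0) (M r 1 * N 1 0)),
    mul_comm (omg p (M r 0 * N 0 1) (M r 1 * N 1 1)), ← omg_smul, ← omg_smul]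
  have h := omg_four hp (M r 0 * (N 0 0 * Q 0 c)) (M r 0 * (N 0 1 * Q 1 c))
    (M r 1 * (N 1 0 * Q 0 c)) (M r 1 * (N 1 1 * Q 1 c))
  have e1 : M r 0 * (N 0 0 * Q 0 c + N 0 1 * Q 1 c) =
    M r 0 * (N 0 0 * Q 0 c) + M r 0 * (N 0 1 * Q 1 c) := by ring
  have e2 : M r 1 * (N 1 0 * Q 0 c + N 1 1 * Q 1 c) =
    M r 1 * (N 1 0 * Q 0 c) + M r 1 * (N 1 1 * Q 1 c) := by ring
  have e3 : (M r 0 * N 0 0 + M r 1 * N 1 0) * Q 0 c =
    M r 0 * (N 0 0 * Q 0 c) + M r 1 * (N 1 0 * Q 0 c) := by ring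
  have e4 : (M r 0 * N 0 1 + M r 1 * N 1 1) * Q 1 c =
    M r 0 * (N 0 1 * Q 1 c) + M r 1 * (N 1 1 * Q 1 c) := by ring
  have e5 : Q 0 c * (M r 0 * N 0 0) = M r 0 * (N 0 0 * Q 0 c) := by ring
  have e6 : Q 0 c * (M r 1 * N 1 0) = M r 1 * (N 1 0 * Q 0 c) := by ring
  have e7 : Q 1 c * (M r 0 * N 0 1) = M r 0 * (N 0 1 * Q 1 c) := by ring
  have e8 : Q 1 c * (M r 1 * N 1 1) = M r 1 * (N 1 1 * Q 1 c) := by ring
  rw [e1, e2, e3, e4, e5, e6, e7, e8, h]
  ring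

/-- the polynomial `ω(X, 1)` is not the zero polynomial: `ω(a, b)` does not vanish
identically over an infinite field. -/
lemma omg_ne [Nontrivial R] [IsDomain R] [Infinite R] (hp : p.Prime) :
    ∃ a b : R, a ≠ 0 ∧ b ≠ 0 ∧ a + b ≠ 0 ∧ omg p a b ≠ 0 := by
  by_contra hcon
  push Not at hcon
  have hp2 := hp.two_le
  -- the polynomial
  let q : Polynomial R := ∑ i ∈ Finset.Ioo 0 p, Polynomial.C ((p.choose i / p : ℕ) : R) *
    Polynomial.X ^ i
  have hq : ∀ a : R, q.eval a = omg p a 1 := by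
    intro a
    simp only [q, omg, Polynomial.eval_finset_sum, Polynomial.eval_mul, Polynomial.eval_C,
      Polynomial.eval_pow, Polynomial.eval_X, one_pow, mul_one]
  have h1 : (q * Polynomial.X * (Polynomial.X + 1)) = 0 := by
    apply Polynomial.funext
    intro a
    rw [Polynomial.eval_mul, Polynomial.eval_mul, hq, Polynomial.eval_X, Polynomial.eval_add,
      Polynomial.eval_X, Polynomial.eval_one, Polynomial.eval_zero]
    by_cases ha : a = 0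
    · rw [ha]; ring
    by_cases ha1 : a + 1 = 0
    · rw [ha1]; ring
    rw [hcon a 1 ha one_ne_zero ha1]; ring
  have h2 : q = 0 := by
    rcases mul_eq_zero.mp h1 with h | h
    · rcases mul_eq_zero.mp h with h | h
      · exact h
      · exact absurd h Polynomial.X_ne_zero
    · exact absurd h (Polynomial.X_add_C_ne_zero (1 : R))
  have h3 := congrArg (fun f => Polynomial.coeff f (p - 1)) h2
  simp only [q, Polynomial.finset_sum_coeff, Polynomial.coeff_C_mul, Polynomial.coeff_X_pow,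
    mul_ite, mul_one, mul_zero, Polynomial.coeff_zero] at h3
  rw [Finset.sum_ite_eq (Finset.Ioo 0 p) (p - 1)] at h3
  rw [if_pos (by rw [Finset.mem_Ioo]; omega)] at h3
  have h4 : p.choose (p - 1) = p := by
    rw [Nat.choose_symm_of_eq_add (b := 1) (by omega), Nat.choose_one_right]
  rw [h4, Nat.div_self hp.pos, Nat.cast_one] at h3
  exact one_ne_zero h3

end

end Pool.Agent.Totaro

end

/-! ## AG1 -/

section

set_option linter.unusedSectionVars false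
set_option backward.isDefEq.respectTransparency false
set_option backward.isDefEq.respectTransparency.types false

open AlgebraicGeometry CategoryTheory Limits TopologicalSpace Opposite

universe u

namespace Pool.Agent.Totaro

lemma pushout_ker {R S T P : CommRingCat.{u}} {f : R ⟶ S} {g : R ⟶ T} {inl : S ⟶ P}
    {inr : T ⟶ P} (h : IsPushout f g inl inr) (hg : Function.Surjective g.hom) (x : S)
    (hx : inl.hom x = 0) : x ∈ (RingHom.ker g.hom).map f.hom := by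
  let I := (RingHom.ker g.hom).map f.hom
  let c : S ⟶ CommRingCat.of (S ⧸ I) := CommRingCat.ofHom (Ideal.Quotient.mk I)
  have hk : RingHom.ker g.hom ≤ RingHom.ker ((Ideal.Quotient.mk I).comp f.hom) := by
    intro r hr
    rw [RingHom.mem_ker, RingHom.comp_apply, Ideal.Quotient.eq_zero_iff_mem]
    exact Ideal.mem_map_of_mem _ hr
  let d : T ⟶ CommRingCat.of (S ⧸ I) := CommRingCat.ofHom
    (RingHom.liftOfSurjective g.hom hg ⟨(Ideal.Quotient.mk I).comp f.hom, hk⟩)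
  have hcd : f ≫ c = g ≫ d := by
    ext r
    simp only [CommRingCat.hom_comp, RingHom.comp_apply, c, d, CommRingCat.hom_ofHom]
    exact (RingHom.liftOfRightInverse_comp_apply g.hom _ _ ⟨_, hk⟩ r).symm
  have h1 : inl ≫ h.desc c d hcd = c := h.inl_desc _ _ _
  have h2 : c.hom x = 0 := by
    rw [← h1, CommRingCat.hom_comp, RingHom.comp_apply, hx, map_zero]
  exact Ideal.Quotient.eq_zero_iff_mem.mp h2

section square

variable {k A : Type u} [Field k] [CommRing A] (res : A →+* k)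
  (hres : Function.Surjective res)
  {X 𝒳 : Scheme.{u}} {s : X ⟶ Spec (.of k)} (f : 𝒳 ⟶ Spec (.of A)) {i : X ⟶ 𝒳}

include hres in
lemma closed_res : IsClosedImmersion (Spec.map (CommRingCat.ofHom res)) :=
  IsClosedImmersion.spec_of_surjective _ hres

lemma surj_res [IsLocalRing A] [IsArtinianRing A] :
    Surjective (Spec.map (CommRingCat.ofHom res)) := by
  constructor
  intro x
  obtain ⟨y⟩ : Nonempty (PrimeSpectrum k) := inferInstance
  have : Subsingleton (PrimeSpectrum A) := inferInstance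
  exact ⟨y, Subsingleton.elim (α := PrimeSpectrum A) _ _⟩

variable {f}

include hres in
lemma closed_i (pb : IsPullback i s f (Spec.map (CommRingCat.ofHom res))) :
    IsClosedImmersion i :=
  MorphismProperty.of_isPullback pb.flip (closed_res res hres)

lemma surj_i [IsLocalRing A] [IsArtinianRing A]
    (pb : IsPullback i s f (Spec.map (CommRingCat.ofHom res))) : Surjective i :=
  MorphismProperty.of_isPullback (P := @Surjective) pb.flip (surj_res res)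

variable (f)

/-- the structure map `A → Γ(𝒳, 𝒱)` -/
noncomputable def aV (𝒱 : 𝒳.Opens) : A →+* Γ(𝒳, 𝒱) :=
  ((Scheme.ΓSpecIso (.of A)).inv ≫ f.appLE ⊤ 𝒱 le_top).hom

lemma aV_res {𝒱 𝒲 : 𝒳.Opens} (h : 𝒲 ≤ 𝒱) (a : A) :
    (𝒳.presheaf.map (homOfLE h).op).hom (aV f 𝒱 a) = aV f 𝒲 a := by
  have : ((Scheme.ΓSpecIso (.of A)).inv ≫ f.appLE ⊤ 𝒱 le_top) ≫ 𝒳.presheaf.map (homOfLE h).op =
      (Scheme.ΓSpecIso (.of A)).inv ≫ f.appLE ⊤ 𝒲 le_top := by
    rw [Category.assoc, Scheme.Hom.appLE_map]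
  exact congrArg (fun g => g.hom a) this

include hres in
/-- The kernel of reduction on affine opens. -/
lemma ker_i (pb : IsPullback i s f (Spec.map (CommRingCat.ofHom res))) {𝒱 : 𝒳.Opens}
    (h𝒱 : IsAffineOpen 𝒱) (x : Γ(𝒳, 𝒱)) (hx : (i.app 𝒱).hom x = 0) :
    x ∈ (RingHom.ker res).map (aV f 𝒱) := by
  have : IsAffine (𝒱 : Scheme) := h𝒱
  have h1 : IsPullback (i ∣_ 𝒱) (i ⁻¹ᵁ 𝒱).ι 𝒱.ι i := isPullback_morphismRestrict i 𝒱
  have h2 := h1.paste_vert pb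
  have h3 := isPushout_appTop_of_isPullback h2
  have hle : (i ⁻¹ᵁ 𝒱).ι ''ᵁ ⊤ ≤ i ⁻¹ᵁ 𝒱 := (i ⁻¹ᵁ 𝒱).ι_image_top.le
  have e1 : 𝒱.topIso.inv ≫ (i ∣_ 𝒱).appTop = i.app 𝒱 ≫ X.presheaf.map (homOfLE hle).op := by
    simp only [Scheme.Hom.app_eq_appLE, Scheme.Hom.appTop, Scheme.Hom.appLE_map,
      morphismRestrict_appLE, Scheme.Opens.topIso_inv, Scheme.Hom.map_appLE]
    rfl
  have e2 : (𝒱.ι ≫ f).appTop ≫ 𝒱.topIso.hom = f.appLE ⊤ 𝒱 le_top := by
    simp [Scheme.Hom.app_eq_appLE, Scheme.Hom.appTop]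
  have hnat := Scheme.ΓSpecIso_naturality (CommRingCat.ofHom res)
  have hg : Function.Surjective (Spec.map (CommRingCat.ofHom res)).appTop.hom := by
    intro y
    obtain ⟨a, ha⟩ := hres ((Scheme.ΓSpecIso (.of k)).hom.hom y)
    refine ⟨(Scheme.ΓSpecIso (.of A)).inv.hom a, ?_⟩
    have h6 := congrArg (fun g => g.hom ((Scheme.ΓSpecIso (.of A)).inv.hom a)) hnat
    simp only [CommRingCat.hom_comp, RingHom.comp_apply] at h6
    have h7 : (Scheme.ΓSpecIso (.of A)).hom.hom ((Scheme.ΓSpecIso (.of A)).inv.hom a) = a := by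
      rw [← RingHom.comp_apply, ← CommRingCat.hom_comp, Iso.inv_hom_id]; rfl
    rw [h7] at h6
    have h8 : (Scheme.ΓSpecIso (.of k)).hom.hom
        ((Spec.map (CommRingCat.ofHom res)).appTop.hom ((Scheme.ΓSpecIso (.of A)).inv.hom a)) =
        (Scheme.ΓSpecIso (.of k)).hom.hom y := by
      rw [h6]; exact ha
    exact (ConcreteCategory.bijective_of_isIso (Scheme.ΓSpecIso (.of k)).hom).1 h8
  have h4 := pushout_ker h3 hg (𝒱.topIso.inv.hom x) (by
    have := congrArg (fun g => g.hom x) e1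
    simp only [CommRingCat.hom_comp, RingHom.comp_apply] at this
    rw [this, hx, map_zero])
  have h5 := Ideal.mem_map_of_mem 𝒱.topIso.hom.hom h4
  rw [Ideal.map_map, ← CommRingCat.hom_comp, e2, ← RingHom.comp_apply, ← CommRingCat.hom_comp,
    Iso.inv_hom_id] at h5
  change x ∈ _ at h5
  refine Ideal.map_le_iff_le_comap.mpr ?_ h5
  intro y hy
  rw [Ideal.mem_comap]
  have h6 := congrArg (fun g => g.hom y) hnat
  simp only [CommRingCat.hom_comp, RingHom.comp_apply] at h6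
  rw [RingHom.mem_ker] at hy
  rw [hy, map_zero] at h6
  have h7 : (f.appLE ⊤ 𝒱 le_top).hom y = aV f 𝒱 ((Scheme.ΓSpecIso (.of A)).hom.hom y) := by
    rw [aV, CommRingCat.hom_comp, RingHom.comp_apply, ← RingHom.comp_apply _
      (Scheme.ΓSpecIso (.of A)).hom.hom, ← CommRingCat.hom_comp, Iso.hom_inv_id]; rfl
  rw [h7]
  exact Ideal.mem_map_of_mem _ h6.symm

/-- the structure map and reduction -/
lemma app_aV (w : i ≫ f = s ≫ Spec.map (CommRingCat.ofHom res)) (𝒱 : 𝒳.Opens) (a : A) :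
    (i.app 𝒱).hom (aV f 𝒱 a) = aV s (i ⁻¹ᵁ 𝒱) (res a) := by
  have e : ((Scheme.ΓSpecIso (.of A)).inv ≫ f.appLE ⊤ 𝒱 le_top) ≫ i.app 𝒱 =
      CommRingCat.ofHom res ≫ (Scheme.ΓSpecIso (.of k)).inv ≫ s.appLE ⊤ (i ⁻¹ᵁ 𝒱) le_top := by
    rw [Category.assoc, Scheme.Hom.app_eq_appLE, Scheme.Hom.appLE_comp_appLE]
    simp only [w]
    rw [Scheme.Hom.comp_appLE, Scheme.ΓSpecIso_inv_naturality_assoc]
    rfl
  exact congrArg (fun g => g.hom a) e

lemma pow_sub_mem {R : Type*} [CommRing R] {p : ℕ} (hp : p.Prime) (J : Ideal R)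
    (hpJ : (p : R) ∈ J) (n : ℕ) {a b : R} (h : a - b ∈ J) : a ^ p ^ n - b ^ p ^ n ∈ J ^ (n + 1) := by
  induction n with
  | zero => simpa using h
  | succ n ih =>
    set a' := a ^ p ^ n
    set b' := b ^ p ^ n
    have e : a' = b' + (a' - b') := by ring
    have h1 := omg_spec hp b' (a' - b')
    rw [← e] at h1
    have h2 : a ^ p ^ (n + 1) - b ^ p ^ (n + 1) = (a' - b') ^ p + p * omg p b' (a' - b') := by
      rw [pow_succ, pow_mul, pow_mul, h1]; ring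
    rw [h2]
    refine add_mem ?_ ?_
    · have h3 := Ideal.pow_mem_pow ih p
      rw [← pow_mul] at h3
      refine Ideal.pow_le_pow_right ?_ h3
      have := hp.two_le
      nlinarith
    · rw [pow_succ' J]
      refine Ideal.mul_mem_mul hpJ ?_
      rw [omg]
      refine sum_mem fun i hi => ?_
      rw [Finset.mem_Ioo] at hi
      refine Ideal.mul_mem_left _ _ ?_
      have h4 : (a' - b') ^ (p - i) = (a' - b') * (a' - b') ^ (p - i - 1) := by
        rw [← pow_succ']; congr 1; omega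
      rw [h4]
      exact Ideal.mul_mem_right _ _ ih

include hres in
/-- Two lifts of the same function have the same `p^n`-th power. -/
lemma pow_eq_of_app_eq [IsLocalRing A] (p : ℕ) (hp : p.Prime) (hpk : (p : k) = 0) {n : ℕ}
    (hn : IsLocalRing.maximalIdeal A ^ (n + 1) = ⊥)
    (pb : IsPullback i s f (Spec.map (CommRingCat.ofHom res))) {𝒱 : 𝒳.Opens}
    (h𝒱 : IsAffineOpen 𝒱) (x y : Γ(𝒳, 𝒱)) (hxy : (i.app 𝒱).hom x = (i.app 𝒱).hom y) :
    x ^ p ^ n = y ^ p ^ n := by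
  have hm : RingHom.ker res = IsLocalRing.maximalIdeal A :=
    IsLocalRing.eq_maximalIdeal (RingHom.ker_isMaximal_of_surjective res hres)
  have h1 : x - y ∈ (RingHom.ker res).map (aV f 𝒱) := by
    apply ker_i res hres f pb h𝒱
    rw [map_sub, hxy, sub_self]
  have h2 : (p : Γ(𝒳, 𝒱)) ∈ (RingHom.ker res).map (aV f 𝒱) := by
    rw [← map_natCast (aV f 𝒱)]
    apply Ideal.mem_map_of_mem
    rw [RingHom.mem_ker, map_natCast, hpk]
  have h3 := pow_sub_mem hp _ h2 n h1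
  rw [← Ideal.map_pow, hm, hn, Ideal.map_bot, Ideal.mem_bot] at h3
  exact sub_eq_zero.mp h3

end square

end Pool.Agent.Totaro

end

/-! ## AG2 -/

section

set_option linter.unusedSectionVars false
set_option backward.isDefEq.respectTransparency false
set_option backward.isDefEq.respectTransparency.types false

open AlgebraicGeometry CategoryTheory Limits TopologicalSpace Opposite

universe u

namespace Pool.Agent.Totaro

/-- the affine opens contained in an open -/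
abbrev AffIn {𝒵 : Scheme.{u}} (𝒱 : 𝒵.Opens) := {𝒲 : 𝒵.Opens // IsAffineOpen 𝒲 ∧ 𝒲 ≤ 𝒱}

lemma le_iSup_affIn {𝒵 : Scheme.{u}} (𝒱 : 𝒵.Opens) : 𝒱 ≤ iSup (fun 𝒲 : AffIn 𝒱 => 𝒲.1) := by
  intro x hx
  obtain ⟨_, ⟨W, hW, rfl⟩, hxW, hWV⟩ := 𝒵.isBasis_affineOpens.exists_subset_of_mem_open hx 𝒱.2
  exact (le_iSup (fun 𝒲 : AffIn 𝒱 => 𝒲.1) ⟨W, hW, hWV⟩) hxW

lemma eq_of_affine {𝒵 : Scheme.{u}} {𝒱 : 𝒵.Opens} (x y : Γ(𝒵, 𝒱))
    (h : ∀ (𝒲 : 𝒵.Opens) (_ : IsAffineOpen 𝒲) (h : 𝒲 ≤ 𝒱),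
      (𝒵.presheaf.map (homOfLE h).op).hom x = (𝒵.presheaf.map (homOfLE h).op).hom y) : x = y :=
  𝒵.sheaf.eq_of_locally_eq' (fun 𝒲 : AffIn 𝒱 => 𝒲.1) 𝒱 (fun 𝒲 => homOfLE 𝒲.2.2)
    (le_iSup_affIn 𝒱) x y (fun 𝒲 => h 𝒲.1 𝒲.2.1 𝒲.2.2)

section thick

variable {Z 𝒵 : Scheme.{u}} (i : Z ⟶ 𝒵)

lemma app_map {𝒱 𝒲 : 𝒵.Opens} (h : 𝒲 ≤ 𝒱) (x : Γ(𝒵, 𝒱)) :
    (i.app 𝒲).hom ((𝒵.presheaf.map (homOfLE h).op).hom x) =
      (Z.presheaf.map (homOfLE (i.preimage_mono h)).op).hom ((i.app 𝒱).hom x) := by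
  have := i.naturality (homOfLE h).op
  exact congrArg (fun g => g.hom x) this

variable (N : ℕ)
  (hpow : ∀ 𝒱 : 𝒵.Opens, IsAffineOpen 𝒱 → ∀ x y : Γ(𝒵, 𝒱),
    (i.app 𝒱).hom x = (i.app 𝒱).hom y → x ^ N = y ^ N)

include hpow in
lemma hpow_all (𝒱 : 𝒵.Opens) (x y : Γ(𝒵, 𝒱)) (h : (i.app 𝒱).hom x = (i.app 𝒱).hom y) :
    x ^ N = y ^ N := by
  apply eq_of_affine
  intro 𝒲 h𝒲 hle
  rw [map_pow, map_pow]
  apply hpow 𝒲 h𝒲
  rw [app_map, app_map, h]

include hpow in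
/-- the `N`-th power of a function lifts -/
lemma exists_power_lift [IsClosedImmersion i] (𝒰 : 𝒵.Opens) (g : Γ(Z, i ⁻¹ᵁ 𝒰)) :
    ∃ G : Γ(𝒵, 𝒰), (i.app 𝒰).hom G = g ^ N := by
  have hl : ∀ 𝒲 : AffIn 𝒰, ∃ l : Γ(𝒵, 𝒲.1), (i.app 𝒲.1).hom l =
      (Z.presheaf.map (homOfLE (i.preimage_mono 𝒲.2.2)).op).hom g := fun 𝒲 =>
    i.app_surjective 𝒲.1 𝒲.2.1 _
  choose l hl using hl
  have hcomp : TopCat.Presheaf.IsCompatible 𝒵.presheaf (fun 𝒲 : AffIn 𝒰 => 𝒲.1)
      (fun 𝒲 => l 𝒲 ^ N) := by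
    intro 𝒱 𝒲
    change (𝒵.presheaf.map (homOfLE (inf_le_left : 𝒱.1 ⊓ 𝒲.1 ≤ 𝒱.1)).op).hom (l 𝒱 ^ N) =
      (𝒵.presheaf.map (homOfLE (inf_le_right : 𝒱.1 ⊓ 𝒲.1 ≤ 𝒲.1)).op).hom (l 𝒲 ^ N)
    rw [map_pow, map_pow]
    apply hpow_all i N hpow
    rw [app_map, app_map, hl, hl]
    have e : ∀ {U V W : Z.Opens} (h1 : V ≤ U) (h2 : W ≤ V) (x : Γ(Z, U)),
        (Z.presheaf.map (homOfLE h2).op).hom ((Z.presheaf.map (homOfLE h1).op).hom x) =
          (Z.presheaf.map (homOfLE (h2.trans h1)).op).hom x := by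
      intro U V W h1 h2 x
      rw [← RingHom.comp_apply, ← CommRingCat.hom_comp, ← Z.presheaf.map_comp]
      rfl
    rw [e, e]
  obtain ⟨G, hG, -⟩ := 𝒵.sheaf.existsUnique_gluing' (fun 𝒲 : AffIn 𝒰 => 𝒲.1) 𝒰
    (fun 𝒲 => homOfLE 𝒲.2.2) (le_iSup_affIn 𝒰) (fun 𝒲 => l 𝒲 ^ N) hcomp
  refine ⟨G, ?_⟩
  -- check locally
  have hcov : i ⁻¹ᵁ 𝒰 ≤ iSup (fun 𝒲 : AffIn 𝒰 => i ⁻¹ᵁ 𝒲.1) := by
    intro x hx
    have := le_iSup_affIn 𝒰 (show i x ∈ 𝒰 from hx)
    rw [Opens.mem_iSup] at this ⊢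
    exact this
  refine Z.sheaf.eq_of_locally_eq' (fun 𝒲 : AffIn 𝒰 => i ⁻¹ᵁ 𝒲.1) (i ⁻¹ᵁ 𝒰)
    (fun 𝒲 => homOfLE (i.preimage_mono 𝒲.2.2)) hcov _ _ ?_
  intro 𝒲
  change (Z.presheaf.map (homOfLE (i.preimage_mono 𝒲.2.2)).op).hom ((i.app 𝒰).hom G) =
    (Z.presheaf.map (homOfLE (i.preimage_mono 𝒲.2.2)).op).hom (g ^ N)
  rw [← app_map i 𝒲.2.2]
  have h1 : (𝒵.presheaf.map (homOfLE 𝒲.2.2).op).hom G = l 𝒲 ^ N := hG 𝒲
  rw [h1, map_pow, map_pow, hl]

lemma preimage_basicOpen' (𝒰 : 𝒵.Opens) (G : Γ(𝒵, 𝒰)) :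
    i ⁻¹ᵁ (𝒵.basicOpen G) = Z.basicOpen ((i.app 𝒰).hom G) := Scheme.preimage_basicOpen i G

lemma le_of_preimage_le [Surjective i] {𝒰 𝒱 : 𝒵.Opens} (h : i ⁻¹ᵁ 𝒰 ≤ i ⁻¹ᵁ 𝒱) : 𝒰 ≤ 𝒱 := by
  intro x hx
  obtain ⟨y, rfl⟩ := i.surjective x
  exact h hx

include hpow in
/-- A thickening of an affine scheme is affine. -/
theorem thick_affine [IsClosedImmersion i] [Surjective i] (hN : 0 < N)
    (hadd : ∀ (U : Z.Opens) (a b : Γ(Z, U)), (a + b) ^ N = a ^ N + b ^ N)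
    (𝒰 : 𝒵.Opens) (hU : IsAffineOpen (i ⁻¹ᵁ 𝒰)) : IsAffineOpen 𝒰 := by
  let T : Set Γ(𝒵, 𝒰) := {G | IsAffineOpen (𝒵.basicOpen G)}
  apply isAffineOpen_of_isAffineOpen_basicOpen 𝒰 T
  · -- the unit ideal
    let T' : Set Γ(Z, i ⁻¹ᵁ 𝒰) := {g | ∃ G ∈ T, (i.app 𝒰).hom G = g ^ N}
    have hT' : Ideal.span T' = ⊤ := by
      rw [← hU.iSup_basicOpen_eq_self_iff]
      apply le_antisymm
      · exact iSup_le fun g => Z.basicOpen_le _
      · intro x hx
        obtain ⟨_, ⟨𝒱, h𝒱, rfl⟩, hx𝒱, h𝒱𝒰⟩ :=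
          𝒵.isBasis_affineOpens.exists_subset_of_mem_open (show i x ∈ (𝒰 : Set 𝒵) from hx) 𝒰.2
        obtain ⟨g, hg1, hg2⟩ := hU.exists_basicOpen_le (V := i ⁻¹ᵁ 𝒱) ⟨x, hx𝒱⟩ hx
        obtain ⟨G, hG⟩ := exists_power_lift i N hpow 𝒰 g
        have hb : i ⁻¹ᵁ (𝒵.basicOpen G) = Z.basicOpen g := by
          rw [preimage_basicOpen', hG, Z.basicOpen_pow _ hN]
        have hle : 𝒵.basicOpen G ≤ 𝒱 := le_of_preimage_le i (by rw [hb]; exact hg1)
        have haff : IsAffineOpen (𝒵.basicOpen G) := by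
          have h1 := h𝒱.basicOpen ((𝒵.presheaf.map (homOfLE h𝒱𝒰).op).hom G)
          have h2 : 𝒵.basicOpen ((𝒵.presheaf.map (homOfLE h𝒱𝒰).op).hom G) =
              𝒵.basicOpen G := by
            have := 𝒵.basicOpen_res G (homOfLE h𝒱𝒰).op
            rw [this]
            exact inf_eq_right.mpr hle
          rwa [h2] at h1
        rw [Opens.mem_iSup]
        exact ⟨⟨g, G, haff, hG⟩, hg2⟩
    have h1 : (1 : Γ(Z, i ⁻¹ᵁ 𝒰)) ∈ Ideal.span T' := by rw [hT']; trivial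
    -- lift powers of linear combinations
    have key : ∀ y ∈ Ideal.span T', ∃ Y ∈ Ideal.span T, (i.app 𝒰).hom Y = y ^ N := by
      intro y hy
      refine Submodule.span_induction (p := fun y _ => ∃ Y ∈ Ideal.span T,
        (i.app 𝒰).hom Y = y ^ N) ?_ ?_ ?_ ?_ hy
      · rintro g ⟨G, hG, e⟩
        exact ⟨G, Ideal.subset_span hG, e⟩
      · exact ⟨0, zero_mem _, by rw [map_zero, zero_pow hN.ne']⟩
      · rintro a b - - ⟨Ya, ha, ea⟩ ⟨Yb, hb, eb⟩
        exact ⟨Ya + Yb, add_mem ha hb, by rw [map_add, ea, eb, hadd]⟩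
      · rintro c a - ⟨Ya, ha, ea⟩
        obtain ⟨C, hC⟩ := exists_power_lift i N hpow 𝒰 c
        exact ⟨C * Ya, Ideal.mul_mem_left _ _ ha, by rw [map_mul, ea, hC, smul_eq_mul, mul_pow]⟩
    obtain ⟨Y, hY, e⟩ := key 1 h1
    have h2 : Y ^ N = 1 := by
      have := hpow_all i N hpow 𝒰 Y 1 (by rw [e, one_pow, map_one])
      rwa [one_pow] at this
    rw [Ideal.eq_top_iff_one, ← h2]
    obtain ⟨n, rfl⟩ := Nat.exists_eq_succ_of_ne_zero hN.ne'
    rw [pow_succ]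
    exact Ideal.mul_mem_left _ _ hY
  · intro G hG
    exact hG

end thick

lemma pow_add_of_charP {R : Type*} [CommRing R] {p : ℕ} (hp : p.Prime) (h : (p : R) = 0) (n : ℕ)
    (a b : R) : (a + b) ^ p ^ n = a ^ p ^ n + b ^ p ^ n := by
  obtain ⟨r, hr⟩ := exists_add_pow_prime_pow_eq hp a b n
  rw [hr, h, zero_mul, zero_mul, zero_mul, add_zero]

section square

variable {k A : Type u} [Field k] [CommRing A] (res : A →+* k)
  (hres : Function.Surjective res)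
  {X 𝒳 : Scheme.{u}} {s : X ⟶ Spec (.of k)} (f : 𝒳 ⟶ Spec (.of A)) {i : X ⟶ 𝒳}

include hres in
/-- Opens of an infinitesimal deformation are affine as soon as their reductions are. -/
theorem defo_affine [IsLocalRing A] [IsArtinianRing A] (p : ℕ) (hp : p.Prime)
    (hpk : (p : k) = 0) (pb : IsPullback i s f (Spec.map (CommRingCat.ofHom res)))
    (𝒰 : 𝒳.Opens) (hU : IsAffineOpen (i ⁻¹ᵁ 𝒰)) : IsAffineOpen 𝒰 := by
  have := closed_i res hres pb
  have := surj_i res pb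
  have h2 : IsNilpotent (IsLocalRing.maximalIdeal A) := by
    have := IsArtinianRing.isNilpotent_jacobson_bot (R := A)
    rwa [IsLocalRing.jacobson_eq_maximalIdeal _ bot_ne_top] at this
  obtain ⟨n, hn⟩ := h2
  have hn' : IsLocalRing.maximalIdeal A ^ (n + 1) = ⊥ := by
    rw [pow_succ, hn]; simp
  refine thick_affine i (p ^ n) (fun 𝒱 h𝒱 x y hxy =>
    pow_eq_of_app_eq res hres f p hp hpk hn' pb h𝒱 x y hxy) (pow_pos hp.pos n) ?_ 𝒰 hU
  intro U a b
  apply pow_add_of_charP hp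
  rw [← map_natCast (aV s U), hpk, map_zero]

end square

end Pool.Agent.Totaro

end
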