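import Pool.Agent.TotaroVar.A07Sys
import Pool.Agent.TotaroVar.A08Omg
import Pool.Agent.TotaroVar.A06H1

/-! ## SysP -/

section

set_option linter.unusedSectionVars false

namespace Pool.Agent.Totaro

namespace Sys

variable {k : Type*} [Field k] {E : Type*} [Field E] [Algebra k E] {C : Type*}
    {𝒜 : Atl k E C} {A : Type*} [CommRing A] [IsLocalRing A] {K : Type*} [CommRing K]
    [Algebra A K]

/-- `K/pK`. -/
abbrev KP (A : Type*) [CommRing A] (K : Type*) [CommRing K] [Algebra A K] (p : ℕ) :=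
  K ⧸ (Ideal.span {(p : A)}).map (algebraMap A K)

/-- reduction modulo `p` -/
abbrev mkp (A : Type*) [CommRing A] (K : Type*) [CommRing K] [Algebra A K] (p : ℕ) :
    K →+* KP A K p := Ideal.Quotient.mk _

lemma mkp_eq_zero {p : ℕ} {z : K} : mkp A K p z = 0 ↔ (p : K) ∣ z := by
  rw [Ideal.Quotient.eq_zero_iff_mem, Ideal.map_span, Set.image_singleton, map_natCast,
    Ideal.mem_span_singleton]

lemma mkp_eq {p : ℕ} {z w : K} : mkp A K p z = mkp A K p w ↔ (p : K) ∣ z - w := by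
  rw [← mkp_eq_zero (A := A), map_sub, sub_eq_zero]

variable (S : Sys 𝒜 A K)

/-- The data of a trivialisation modulo `p`, in the case where `p ≠ 0` is killed by the maximal
ideal. -/
structure PD (p : ℕ) where
  hp : p.Prime
  hp0 : (p : A) ≠ 0
  hpm : ∀ x ∈ IsLocalRing.maximalIdeal A, x * (p : A) = 0
  hpmem : (p : A) ∈ IsLocalRing.maximalIdeal A
  /-- the trivialisation -/
  Θ : E →+* KP A K p
  Θρ : ∀ y z, mkp A K p z = Θ y → S.ρ z = y
  ΘB : ∀ a b, ∀ y ∈ 𝒜.P a b, ∃ z ∈ S.B a b, mkp A K p z = Θ y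

namespace PD

variable {S} {p : ℕ} (T : S.PD p)

/-- multiplication by `p`, as a map `E → K`. -/
noncomputable def io (_T : S.PD p) (e : E) : K := (p : K) * S.lf e

include T in
lemma pmul_zero {z : K} (hz : S.ρ z = 0) : (p : K) * z = 0 := by
  have h := S.smul_mem_of_ker (𝔟 := ⊥) (β := (p : A)) (fun x hx => by
    rw [Ideal.mem_bot]; exact T.hpm x hx) hz
  rw [Submodule.bot_smul, Submodule.mem_bot, Algebra.smul_def, map_natCast] at h
  exact h

lemma io_eq (z : K) : (p : K) * z = T.io (S.ρ z) := by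
  rw [io, ← sub_eq_zero, ← mul_sub]
  apply T.pmul_zero
  rw [map_sub, S.ρ_lf, sub_self]

lemma io_add (e e' : E) : T.io (e + e') = T.io e + T.io e' := by
  have : e + e' = S.ρ (S.lf e + S.lf e') := by rw [map_add, S.ρ_lf, S.ρ_lf]
  rw [this, ← T.io_eq, mul_add]; rfl

lemma io_mul (z : K) (e : E) : T.io (S.ρ z * e) = z * T.io e := by
  have : S.ρ z * e = S.ρ (z * S.lf e) := by rw [map_mul, S.ρ_lf]
  rw [this, ← T.io_eq, io]; ring

lemma io_zero : T.io 0 = 0 := by
  have := T.io_eq 0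
  rw [mul_zero, map_zero] at this
  exact this.symm

lemma io_neg (e : E) : T.io (-e) = -T.io e := by
  have := T.io_add e (-e)
  rw [add_neg_cancel, T.io_zero] at this
  exact (neg_eq_of_add_eq_zero_right this.symm).symm

lemma io_sub (e e' : E) : T.io (e - e') = T.io e - T.io e' := by
  rw [sub_eq_add_neg, T.io_add, T.io_neg, sub_eq_add_neg]

lemma io_inj {e e' : E} (h : T.io e = T.io e') : e = e' := by
  have h1 : T.io (e - e') = 0 := by rw [T.io_sub, h, sub_self]
  rw [io] at h1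
  have h2 : (p : A) • S.lf (e - e') ∈ (⊥ : Ideal A) • (⊤ : Submodule A K) := by
    rw [Submodule.bot_smul, Submodule.mem_bot, Algebra.smul_def, map_natCast]
    exact h1
  have h3 := S.flat ⊥ (p : A) (by rw [Ideal.mem_bot]; exact T.hp0) _ h2
  have h4 := (S.ker_iff _).mpr h3
  rw [S.ρ_lf] at h4
  exact sub_eq_zero.mp h4

lemma ρ_io (e : E) : S.ρ (T.io e) = 0 := by
  rw [io, map_mul, map_natCast]
  have h1 := S.compat (p : A)
  rw [map_natCast, S.res_eq_zero.mpr T.hpmem, map_zero, map_natCast] at h1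
  rw [h1, zero_mul]

lemma mkp_io (e : E) : mkp A K p (T.io e) = 0 := mkp_eq_zero.mpr ⟨_, rfl⟩

lemma exists_io {z : K} (h : mkp A K p z = 0) : ∃ e, z = T.io e := by
  rw [mkp_eq_zero] at h
  obtain ⟨w, rfl⟩ := h
  exact ⟨_, T.io_eq w⟩

lemma io_mem [IsArtinianRing A] {a b : C} {e : E} (h : T.io e ∈ S.B a b) : e ∈ 𝒜.P a b := by
  have h1 : T.io e ∈ Ideal.span {(p : A)} • (⊤ : Submodule A K) := by
    have : T.io e = (p : A) • S.lf e := by
      rw [io, Algebra.smul_def, map_natCast]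
    rw [this]
    exact Submodule.smul_mem_smul (Ideal.mem_span_singleton_self _) trivial
  have h2 := S.inter _ a b h h1
  rw [Submodule.ideal_span_singleton_smul, Submodule.mem_smul_pointwise_iff_exists] at h2
  obtain ⟨b', hb', e'⟩ := h2
  have h3 : T.io (S.ρ b') = T.io e := by
    rw [← T.io_eq, ← e', Algebra.smul_def, map_natCast]
  rw [← T.io_inj h3]
  exact S.Bρ a b b' hb'

lemma mem_io {a b : C} {e : E} (h : e ∈ 𝒜.P a b) : T.io e ∈ S.B a b := by
  obtain ⟨z, hz, rfl⟩ := S.Bsurj a b e h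
  rw [← T.io_eq]
  exact mul_mem (natCast_mem _ _) hz

/-- a lift of `Θ y` -/
noncomputable def lt (y : E) : K := Function.surjInv Ideal.Quotient.mk_surjective (T.Θ y)

lemma mkp_lt (y : E) : mkp A K p (T.lt y) = T.Θ y :=
  Function.surjInv_eq Ideal.Quotient.mk_surjective (T.Θ y)

/-- the canonical lift of `y^p` -/
noncomputable def lam (y : E) : K := T.lt y ^ p

include T in
lemma pp_zero : (p : K) * (p : K) = 0 := by
  have h := T.hpm _ T.hpmem
  have h2 := congrArg (algebraMap A K) h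
  rwa [map_mul, map_natCast, map_zero] at h2

include T in
lemma pow_eq {z w : K} (h : mkp A K p z = mkp A K p w) : z ^ p = w ^ p := by
  rw [mkp_eq] at h
  have h1 := dvd_sub_pow_of_dvd_sub h 1
  rw [pow_one, pow_succ, pow_one, T.pp_zero, zero_dvd_iff] at h1
  exact sub_eq_zero.mp h1

lemma lam_eq {z : K} {y : E} (h : mkp A K p z = T.Θ y) : z ^ p = T.lam y := by
  apply T.pow_eq
  rw [h, T.mkp_lt]

lemma lam_mul (x y : E) : T.lam (x * y) = T.lam x * T.lam y := by
  rw [← T.lam_eq (z := T.lt x * T.lt y) (y := x * y) (by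
    rw [map_mul, T.mkp_lt, T.mkp_lt, map_mul]), mul_pow]
  rfl

lemma lam_one : T.lam 1 = 1 := by
  rw [← T.lam_eq (z := 1) (y := 1) (by rw [map_one, map_one]), one_pow]

lemma lam_zero : T.lam 0 = 0 := by
  rw [← T.lam_eq (z := 0) (y := 0) (by rw [map_zero, map_zero]), zero_pow T.hp.ne_zero]

lemma ρ_lt (y : E) : S.ρ (T.lt y) = y := T.Θρ y _ (T.mkp_lt y)

lemma lam_add (x y : E) : T.lam (x + y) = T.lam x + T.lam y + T.io (omg p x y) := by
  rw [← T.lam_eq (z := T.lt x + T.lt y) (y := x + y) (by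
    rw [map_add, T.mkp_lt, T.mkp_lt, map_add]), omg_spec T.hp, T.io_eq, map_omg, T.ρ_lt, T.ρ_lt]
  rfl

lemma ρ_lam (y : E) : S.ρ (T.lam y) = y ^ p := by
  rw [lam, map_pow, T.ρ_lt]

lemma mkp_lam (y : E) : mkp A K p (T.lam y) = T.Θ (y ^ p) := by
  rw [lam, map_pow, T.mkp_lt, map_pow]

lemma lam_mem {a b : C} {y : E} (h : y ∈ 𝒜.P a b) : T.lam y ∈ S.B a b := by
  obtain ⟨z, hz, e⟩ := T.ΘB a b y h
  rw [← T.lam_eq e]
  exact pow_mem hz p

end PD

end Sys

end Pool.Agent.Totaro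

end

/-! ## PX -/

section

set_option linter.unusedSectionVars false

namespace Pool.Agent.Totaro

open MvPolynomial Matrix

section

variable {k : Type*} [Field k] [Infinite k] {ι : Type*} [Fintype ι] [DecidableEq ι]
  {F : Type*} [Field F] [Algebra k F]
  [Algebra (SS k ι) F] [IsScalarTower k (SS k ι) F]
  [IsFractionRing (SS k ι) F]
variable (p : ℕ) [Fact p.Prime] [CharP k p]
variable {L : Type*} [Field L] [Algebra F L] [Algebra k L] [IsScalarTower k F L] {s : L}

/-- The atlas of Totaro's variety. -/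
noncomputable def atlX (hs : Transcendental F s) (cf : Cfg ι) (hk2 : (2 : k) ≠ 0)
    (hk3 : (3 : k) ≠ 0) : Atl k (EE k ι F p s) (Ch ι) where
  σ a := GIdx a.1.1
  g a := genE k F p s a
  P := PE k F p s
  indep := genE_algIndep p hs
  gen := adjoin_genE p hs
  Pgen := PE_eq_adjoin_gen p hs
  Pl := PE_left p
  Psymm := PE_symm p
  frac := fun a b _ hy => PE_frac p hs a b hy
  h1 := H1_zero p hs cf hk2 hk3

variable {hs : Transcendental F s} {cf : Cfg ι} {hk2 : (2 : k) ≠ 0} {hk3 : (3 : k) ≠ 0}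
  {A : Type*} [CommRing A] [IsLocalRing A] [IsArtinianRing A] {K : Type*} [CommRing K]
  [Algebra A K] {S : Sys (atlX p hs cf hk2 hk3) A K} (T : S.PD p)

lemma YE_memP (a b : Ch ι) (r : Fin 2) (i : ι) :
    YE k F p s a.1 r i ∈ (atlX p hs cf hk2 hk3).P a b := YE_mem p a b r i

lemma io_mul_io (e e' : EE k ι F p s) : T.io e * T.io e' = 0 := by
  have h : T.io e * T.io e' = ((p : K) * (p : K)) * (S.lf e * S.lf e') := by
    unfold Sys.PD.io; ring
  rw [h, T.pp_zero, zero_mul]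

/-- lifts of the fibre coordinates -/
lemma exists_tau (J : IJ ι) : ∃ τ ∈ S.B (J, 0) (J, 0), ∃ τ' ∈ S.B (J, 1) (J, 1), τ * τ' = 1 ∧
    Sys.mkp A K p τ = T.Θ (wE k F p s J 0 1) := by
  obtain ⟨τ0, h0, e0⟩ := T.ΘB (J, 0) (J, 0) (wE k F p s J 0 1) (wE_mem p (J, 0) (J, 0) 1)
  obtain ⟨τ1, h1, e1⟩ := T.ΘB (J, 1) (J, 1) (wE k F p s J 1 0) (wE_mem p (J, 1) (J, 1) 0)
  have hw := wE_mul (k := k) p hs J
  have hm : Sys.mkp A K p (τ0 * τ1 - 1) = 0 := by
    rw [map_sub, map_mul, e0, e1, ← map_mul, mul_comm, hw, map_one, map_one, sub_self]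
  obtain ⟨e, he⟩ := T.exists_io hm
  have heB : T.io e ∈ S.B (J, 0) (J, 1) := by
    rw [← he]
    refine sub_mem (mul_mem (S.Bl _ _ h0) ?_) (one_mem _)
    rw [S.Bsymm]
    exact S.Bl _ _ h1
  have heP : e ∈ PE k F p s (J, 0) (J, 1) := T.io_mem heB
  have hewP : -(e * wE k F p s J 0 1) ∈ PE k F p s (J, 0) (J, 1) :=
    neg_mem (mul_mem heP (wE_mem p (J, 0) (J, 1) 1))
  obtain ⟨z0, hz0, z1, hz1, hz⟩ := PE_split p hs J hewP
  have r0 : S.ρ τ0 = wE k F p s J 0 1 := T.Θρ _ _ e0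
  have r1 : S.ρ τ1 = wE k F p s J 1 0 := T.Θρ _ _ e1
  refine ⟨τ0 + T.io z0, add_mem h0 (T.mem_io hz0), τ1 + T.io (z1 * wE k F p s J 1 0 ^ 2),
    add_mem h1 (T.mem_io (mul_mem hz1 (pow_mem (wE_mem p (J, 1) (J, 1) 0) 2))), ?_, ?_⟩
  · have e1' : (τ0 + T.io z0) * (τ1 + T.io (z1 * wE k F p s J 1 0 ^ 2)) =
        1 + (τ0 * τ1 - 1) + τ0 * T.io (z1 * wE k F p s J 1 0 ^ 2) + τ1 * T.io z0 +
          T.io z0 * T.io (z1 * wE k F p s J 1 0 ^ 2) := by ring
    rw [e1', he, io_mul_io, ← T.io_mul, ← T.io_mul, r0, r1, add_zero, add_assoc, add_assoc,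
      ← T.io_add, ← T.io_add]
    have e2 : e + (wE k F p s J 0 1 * (z1 * wE k F p s J 1 0 ^ 2) + wE k F p s J 1 0 * z0) = 0 := by
      linear_combination (z1 * wE k F p s J 1 0 - e) * hw - wE k F p s J 1 0 * hz
    rw [e2, T.io_zero, add_zero]
  · rw [map_add, T.mkp_io, add_zero, e0]

variable (τ τ' : IJ ι → K)

/-- `(u_J Λ)_0` -/
noncomputable def al (J K' : IJ ι) : K :=
  T.lam (YE k F p s J 0 (K'.1 0)) + τ J * T.lam (YE k F p s J 1 (K'.1 0))

/-- `(u_J Λ)_1` -/
noncomputable def be (J K' : IJ ι) : K :=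
  T.lam (YE k F p s J 0 (K'.1 1)) + τ J * T.lam (YE k F p s J 1 (K'.1 1))

/-- `v_{K,0}/v_{J,0}` -/
noncomputable def aE (J K' : IJ ι) : EE k ι F p s :=
  YE k F p s J 0 (K'.1 0) ^ p + wE k F p s J 0 1 * YE k F p s J 1 (K'.1 0) ^ p

/-- `v_{K,1}/v_{J,0}` -/
noncomputable def bE (J K' : IJ ι) : EE k ι F p s :=
  YE k F p s J 0 (K'.1 1) ^ p + wE k F p s J 0 1 * YE k F p s J 1 (K'.1 1) ^ p

lemma vvK_eq (J K' : IJ ι) (c : Fin 2) : vv k F p s K'.1 c =
    vv k F p s J.1 0 * ((YE k F p s J 0 (K'.1 c) : EE k ι F p s) : L) ^ p +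
      vv k F p s J.1 1 * ((YE k F p s J 1 (K'.1 c) : EE k ι F p s) : L) ^ p := by
  rw [vv_trans p J.1 K'.1 J.2, Fin.sum_univ_two, map_pow, map_pow]
  rfl

lemma aE_coe (hs : Transcendental F s) (J K' : IJ ι) : ((aE p J K' : EE k ι F p s) : L) =
    vv k F p s K'.1 0 / vv k F p s J.1 0 := by
  have h0 := vv_ne (k := k) p hs J.1 0
  rw [vvK_eq p J K' 0, aE]
  push_cast
  rw [wE_coe, wv]; field_simp

lemma bE_coe (hs : Transcendental F s) (J K' : IJ ι) : ((bE p J K' : EE k ι F p s) : L) =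
    vv k F p s K'.1 1 / vv k F p s J.1 0 := by
  have h0 := vv_ne (k := k) p hs J.1 0
  rw [vvK_eq p J K' 1, bE]
  push_cast
  rw [wE_coe, wv]; field_simp

lemma aE_mul (hs : Transcendental F s) (J K' : IJ ι) :
    aE p J K' * wE k F p s K' 0 1 = (bE p J K' : EE k ι F p s) := by
  apply Subtype.ext
  have h0 := vv_ne (k := k) p hs J.1 0
  have h1 := vv_ne (k := k) p hs K'.1 0
  push_cast
  rw [aE_coe p hs, bE_coe p hs, wE_coe, wv]; field_simp

section

variable (hτ : ∀ J, τ J ∈ S.B (J, 0) (J, 0)) (hτ' : ∀ J, τ' J ∈ S.B (J, 1) (J, 1))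
  (hττ' : ∀ J, τ J * τ' J = 1) (hτΘ : ∀ J, Sys.mkp A K p (τ J) = T.Θ (wE k F p s J 0 1))

include hτΘ in
lemma mkp_al (J K' : IJ ι) : Sys.mkp A K p (al p T τ J K') = T.Θ (aE p J K') := by
  rw [al, aE, map_add, map_mul, T.mkp_lam, T.mkp_lam, hτΘ, map_add, map_mul]

include hτΘ in
lemma mkp_be (J K' : IJ ι) : Sys.mkp A K p (be p T τ J K') = T.Θ (bE p J K') := by
  rw [be, bE, map_add, map_mul, T.mkp_lam, T.mkp_lam, hτΘ, map_add, map_mul]

include hτ hτ' hττ' hτΘ in
/-- the discrepancy of the transition functions -/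
lemma exists_xx (J K' : IJ ι) : ∃ x : EE k ι F p s,
    al p T τ J K' * τ K' - be p T τ J K' = T.io x ∧ x ∈ PE k F p s (J, 0) (K', 0) ∧
    wE k F p s J 1 0 * x ∈ PE k F p s (J, 1) (K', 0) ∧
    wE k F p s K' 1 0 * x ∈ PE k F p s (J, 0) (K', 1) ∧
    wE k F p s J 1 0 * (wE k F p s K' 1 0 * x) ∈ PE k F p s (J, 1) (K', 1) := by
  have h0 : Sys.mkp A K p (al p T τ J K' * τ K' - be p T τ J K') = 0 := by
    rw [map_sub, map_mul, mkp_al p T τ hτΘ, mkp_be p T τ hτΘ, hτΘ, ← map_mul, aE_mul p hs,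
      sub_self]
  obtain ⟨x, hx⟩ := T.exists_io h0
  have rτ' : ∀ J, S.ρ (τ' J) = wE k F p s J 1 0 := by
    intro J
    have h1 : S.ρ (τ J) = wE k F p s J 0 1 := T.Θρ _ _ (hτΘ J)
    have h2 := congrArg S.ρ (hττ' J)
    rw [map_mul, map_one, h1] at h2
    have h3 := wE_mul (k := k) p hs J
    linear_combination wE k F p s J 1 0 * h2 - S.ρ (τ' J) * h3
  have hL : ∀ (ε δ : Fin 2) (r c : Fin 2),
      T.lam (YE k F p s J r (K'.1 c)) ∈ S.B (J, ε) (K', δ) := fun ε δ r c =>
    T.lam_mem (YE_mem p (J, ε) (K', δ) r (K'.1 c))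
  have tJ : ∀ δ, τ J ∈ S.B (J, 0) (K', δ) := fun δ => S.Bl _ _ (hτ J)
  have tJ' : ∀ δ, τ' J ∈ S.B (J, 1) (K', δ) := fun δ => S.Bl _ _ (hτ' J)
  have tK : ∀ ε, τ K' ∈ S.B (J, ε) (K', 0) := fun ε => by
    rw [S.Bsymm]; exact S.Bl _ _ (hτ K')
  have tK' : ∀ ε, τ' K' ∈ S.B (J, ε) (K', 1) := fun ε => by
    rw [S.Bsymm]; exact S.Bl _ _ (hτ' K')
  refine ⟨x, hx, ?_, ?_, ?_, ?_⟩
  · apply T.io_mem (a := (J, 0)) (b := (K', 0))
    rw [← hx]
    exact sub_mem (mul_mem (add_mem (hL _ _ _ _) (mul_mem (tJ _) (hL _ _ _ _))) (tK _))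
      (add_mem (hL _ _ _ _) (mul_mem (tJ _) (hL _ _ _ _)))
  · apply T.io_mem (a := (J, 1)) (b := (K', 0))
    rw [← rτ', T.io_mul, ← hx]
    have e : τ' J * (al p T τ J K' * τ K' - be p T τ J K') =
        (τ' J * T.lam (YE k F p s J 0 (K'.1 0)) + T.lam (YE k F p s J 1 (K'.1 0))) * τ K' -
        (τ' J * T.lam (YE k F p s J 0 (K'.1 1)) + T.lam (YE k F p s J 1 (K'.1 1))) := by
      rw [al, be]
      linear_combination (T.lam (YE k F p s J 1 (K'.1 0)) * τ K' -
        T.lam (YE k F p s J 1 (K'.1 1))) * hττ' J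
    rw [e]
    exact sub_mem (mul_mem (add_mem (mul_mem (tJ' _) (hL _ _ _ _)) (hL _ _ _ _)) (tK _))
      (add_mem (mul_mem (tJ' _) (hL _ _ _ _)) (hL _ _ _ _))
  · apply T.io_mem (a := (J, 0)) (b := (K', 1))
    rw [← rτ', T.io_mul, ← hx]
    have e : τ' K' * (al p T τ J K' * τ K' - be p T τ J K') =
        al p T τ J K' - τ' K' * be p T τ J K' := by
      linear_combination (al p T τ J K') * hττ' K'
    rw [e]
    exact sub_mem (add_mem (hL _ _ _ _) (mul_mem (tJ _) (hL _ _ _ _)))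
      (mul_mem (tK' _) (add_mem (hL _ _ _ _) (mul_mem (tJ _) (hL _ _ _ _))))
  · apply T.io_mem (a := (J, 1)) (b := (K', 1))
    rw [← rτ', T.io_mul, ← rτ' K', T.io_mul, ← hx]
    have e : τ' J * (τ' K' * (al p T τ J K' * τ K' - be p T τ J K')) =
        (τ' J * T.lam (YE k F p s J 0 (K'.1 0)) + T.lam (YE k F p s J 1 (K'.1 0))) -
        τ' K' * (τ' J * T.lam (YE k F p s J 0 (K'.1 1)) + T.lam (YE k F p s J 1 (K'.1 1))) := by
      have e1 : τ' K' * (al p T τ J K' * τ K' - be p T τ J K') =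
        al p T τ J K' - τ' K' * be p T τ J K' := by
        linear_combination (al p T τ J K') * hττ' K'
      rw [e1, al, be]
      linear_combination (T.lam (YE k F p s J 1 (K'.1 0)) -
        τ' K' * T.lam (YE k F p s J 1 (K'.1 1))) * hττ' J
    rw [e]
    exact sub_mem (add_mem (mul_mem (tJ' _) (hL _ _ _ _)) (hL _ _ _ _))
      (mul_mem (tK' _) (add_mem (mul_mem (tJ' _) (hL _ _ _ _)) (hL _ _ _ _)))

end

/-- the discrepancy as a matrix -/
lemma xx_matrix (hs : Transcendental F s) (hk2 : (2 : k) ≠ 0) (J K' : IJ ι) (x : EE k ι F p s)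
    (h00 : x ∈ PE k F p s (J, 0) (K', 0))
    (h10 : wE k F p s J 1 0 * x ∈ PE k F p s (J, 1) (K', 0))
    (h01 : wE k F p s K' 1 0 * x ∈ PE k F p s (J, 0) (K', 1))
    (h11 : wE k F p s J 1 0 * (wE k F p s K' 1 0 * x) ∈ PE k F p s (J, 1) (K', 1)) :
    ∃ N : Matrix (Fin 2) (Fin 2) F, (∀ r c, N r c ∈ OJ k F J.1 ⊔ OJ k F K'.1) ∧ N.trace = 0 ∧
      (x : L) * vv k F p s J.1 0 * vv k F p s K'.1 0 = algebraMap F L ((xJ k F K'.1).det ^ p) *
        om s (xP k F p J.1 * N * (xP k F p J.1)⁻¹) := by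
  have hJ0 := vv_ne (k := k) p hs J.1 0
  have hJ1 := vv_ne (k := k) p hs J.1 1
  have hK0 := vv_ne (k := k) p hs K'.1 0
  have hK1 := vv_ne (k := k) p hs K'.1 1
  have hF2 : (2 : F) ≠ 0 := by
    have h : algebraMap k F 2 ≠ 0 := by
      rw [Ne, map_eq_zero]; exact hk2
    rwa [map_ofNat] at h
  set z : L := (x : L) * (vv k F p s K'.1 0 / vv k F p s J.1 0) with hz
  obtain ⟨a, ha, b, hb, c, hc, hq⟩ : ∃ a ∈ OJ k F J.1 ⊔ OJ k F K'.1,
      ∃ b ∈ OJ k F J.1 ⊔ OJ k F K'.1, ∃ c ∈ OJ k F J.1 ⊔ OJ k F K'.1,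
      z = algebraMap F L a + algebraMap F L b * wv k F p s J.1 0 1 +
        algebraMap F L c * wv k F p s J.1 0 1 ^ 2 := by
    refine overlap_quad p hs J.1 K'.1 J.2 K'.2 ?_ ?_
    · intro δ
      change z ∈ PL k F p s (J, 0) (K', δ)
      fin_cases δ
      · change z ∈ PL k F p s (J, 0) (K', 0)
        exact mul_mem h00 (PL_left p (J, 0) (K', 0) (vratio_mem_PL p (J, 0) K'.1 0))
      · change z ∈ PL k F p s (J, 0) (K', 1)
        have : z = ((wE k F p s K' 1 0 * x : EE k ι F p s) : L) *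
            (vv k F p s K'.1 1 / vv k F p s J.1 0) := by
          push_cast
          rw [wE_coe, wv, hz]; field_simp
        rw [this]
        exact mul_mem h01 (PL_left p (J, 0) (K', 1) (vratio_mem_PL p (J, 0) K'.1 1))
    · intro δ
      change z * (wv k F p s J.1 1 0) ^ 2 ∈ PL k F p s (J, 1) (K', δ)
      fin_cases δ
      · change z * (wv k F p s J.1 1 0) ^ 2 ∈ PL k F p s (J, 1) (K', 0)
        have : z * (wv k F p s J.1 1 0) ^ 2 = ((wE k F p s J 1 0 * x : EE k ι F p s) : L) *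
            (vv k F p s K'.1 0 / vv k F p s J.1 1) := by
          push_cast
          rw [wE_coe, wv, hz]; field_simp
        rw [this]
        exact mul_mem h10 (PL_left p (J, 1) (K', 0) (vratio_mem_PL p (J, 1) K'.1 0))
      · change z * (wv k F p s J.1 1 0) ^ 2 ∈ PL k F p s (J, 1) (K', 1)
        have : z * (wv k F p s J.1 1 0) ^ 2 =
            ((wE k F p s J 1 0 * (wE k F p s K' 1 0 * x) : EE k ι F p s) : L) *
            (vv k F p s K'.1 1 / vv k F p s J.1 1) := by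
          push_cast
          rw [wE_coe, wE_coe, wv, wv, hz]; field_simp
        rw [this]
        exact mul_mem h11 (PL_left p (J, 1) (K', 1) (vratio_mem_PL p (J, 1) K'.1 1))
  set d : F := (th k F K'.1 J.1).det ^ p with hd
  have hdm : d ∈ OJ k F J.1 ⊔ OJ k F K'.1 := by
    refine pow_mem ?_ p
    rw [Matrix.det_fin_two]
    have h : ∀ r c, th k F K'.1 J.1 r c ∈ OJ k F J.1 ⊔ OJ k F K'.1 := fun r c =>
      (le_sup_right : OJ k F K'.1 ≤ _) (th_mem K'.1 J.1 r c)
    exact sub_mem (mul_mem (h _ _) (h _ _)) (mul_mem (h _ _) (h _ _))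
  obtain ⟨t1, t2, t3, t4⟩ := qmat_props hF2 (d * a) (d * b) (d * c)
  refine ⟨qmat (d * a) (d * b) (d * c), qmat_mem hk2 (mul_mem hdm ha) (mul_mem hdm hb)
    (mul_mem hdm hc), t4, ?_⟩
  have hkey := om_key (s := s) p J (qmat (d * a) (d * b) (d * c))
    (xP k F p J.1 * qmat (d * a) (d * b) (d * c) * (xP k F p J.1)⁻¹) (by
      rw [Matrix.mul_assoc _ _ (xP k F p J.1), Matrix.nonsing_inv_mul _ (xP_isUnit p J),
        Matrix.mul_one])
  rw [t1, t2, t3] at hkey
  have hdet : (xJ k F J.1).det ^ p = (xJ k F K'.1).det ^ p * d := by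
    rw [hd, ← mul_pow, ← Matrix.det_mul, xJ_mul_th K'.1 J.1 K'.2]
  have hd0 : algebraMap F L d ≠ 0 := by
    rw [Ne, FaithfulSMul.algebraMap_eq_zero_iff]
    exact pow_ne_zero _ (th_det_ne _ _ K'.2 J.2)
  rw [hdet, map_mul, map_mul, map_mul, map_mul] at hkey
  apply mul_left_cancel₀ hd0
  have h2 : (x : L) * vv k F p s J.1 0 * vv k F p s K'.1 0 = z * vv k F p s J.1 0 ^ 2 := by
    rw [hz]; field_simp
  rw [h2, hq, wv]
  have h3 : algebraMap F L d * ((algebraMap F L a + algebraMap F L b *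
      (vv k F p s J.1 1 / vv k F p s J.1 0) + algebraMap F L c *
      (vv k F p s J.1 1 / vv k F p s J.1 0) ^ 2) * vv k F p s J.1 0 ^ 2) =
      algebraMap F L d * algebraMap F L a * vv k F p s J.1 0 ^ 2 +
      algebraMap F L d * algebraMap F L b * (vv k F p s J.1 0 * vv k F p s J.1 1) +
      algebraMap F L d * algebraMap F L c * vv k F p s J.1 1 ^ 2 := by
    field_simp
  rw [h3, hkey]; ring

end

end Pool.Agent.Totaro

end

/-! ## PX2 -/

section

set_option linter.unusedSectionVars false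

namespace Pool.Agent.Totaro

open MvPolynomial Matrix

section

variable {k : Type*} [Field k] [Infinite k] {ι : Type*} [Fintype ι] [DecidableEq ι]
  {F : Type*} [Field F] [Algebra k F]
  [Algebra (SS k ι) F] [IsScalarTower k (SS k ι) F]
  [IsFractionRing (SS k ι) F]
variable (p : ℕ) [Fact p.Prime] [CharP k p]
variable {L : Type*} [Field L] [Algebra F L] [Algebra k L] [IsScalarTower k F L] {s : L}
variable {hs : Transcendental F s} {cf : Cfg ι} {hk2 : (2 : k) ≠ 0} {hk3 : (3 : k) ≠ 0}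
  {A : Type*} [CommRing A] [IsLocalRing A] [IsArtinianRing A] {K : Type*} [CommRing K]
  [Algebra A K] {S : Sys (atlX p hs cf hk2 hk3) A K} (T : S.PD p)

/-- `Ω(θ_{JK}, θ_{KM})` in the function field -/
noncomputable def OE (J K' M : IJ ι) (r c : Fin 2) : EE k ι F p s :=
  omg p (YE k F p s J r (K'.1 0) * YE k F p s K' 0 (M.1 c))
    (YE k F p s J r (K'.1 1) * YE k F p s K' 1 (M.1 c))

lemma YE_mulE (J K' : IJ ι) (r : Fin 2) (i : ι) : YE k F p s J r i =
    YE k F p s J r (K'.1 0) * YE k F p s K' 0 i + YE k F p s J r (K'.1 1) * YE k F p s K' 1 i := by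
  apply Subtype.ext
  push_cast
  simp only [YE_coe]
  rw [← map_mul, ← map_mul, ← map_add]
  congr 1
  have := congrFun (congrFun (th_mul_YJ (k := k) (F := F) J.1 K'.1 J.2 K'.2) r) i
  rw [← this, Matrix.mul_apply, Fin.sum_univ_two]
  rfl

lemma lam_JM (J K' M : IJ ι) (r c : Fin 2) : T.lam (YE k F p s J r (M.1 c)) =
    T.lam (YE k F p s J r (K'.1 0)) * T.lam (YE k F p s K' 0 (M.1 c)) +
    T.lam (YE k F p s J r (K'.1 1)) * T.lam (YE k F p s K' 1 (M.1 c)) +
      T.io (OE p J K' M r c) := by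
  rw [YE_mulE p J K' r (M.1 c), T.lam_add, T.lam_mul, T.lam_mul]
  rfl

lemma xx_cocycle (τ : IJ ι → K)
    (hτΘ : ∀ J, Sys.mkp A K p (τ J) = T.Θ (wE k F p s J 0 1))
    (J K' M : IJ ι) (x12 x23 x13 : EE k ι F p s)
    (h12 : al p T τ J K' * τ K' - be p T τ J K' = T.io x12)
    (h23 : al p T τ K' M * τ M - be p T τ K' M = T.io x23)
    (h13 : al p T τ J M * τ M - be p T τ J M = T.io x13) :
    x13 = aE p J K' * x23 - (YE k F p s K' 1 (M.1 0) ^ p * wE k F p s M 0 1 -
      YE k F p s K' 1 (M.1 1) ^ p) * x12 +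
      (wE k F p s M 0 1 * (OE p J K' M 0 0 + wE k F p s J 0 1 * OE p J K' M 1 0) -
        (OE p J K' M 0 1 + wE k F p s J 0 1 * OE p J K' M 1 1)) := by
  have rτ : ∀ J, S.ρ (τ J) = wE k F p s J 0 1 := fun J => T.Θρ _ _ (hτΘ J)
  have ral : S.ρ (al p T τ J K') = aE p J K' := by
    rw [al, aE, map_add, map_mul, T.ρ_lam, T.ρ_lam, rτ]
  have e : T.io x13 = al p T τ J K' * T.io x23 -
      (T.lam (YE k F p s K' 1 (M.1 0)) * τ M - T.lam (YE k F p s K' 1 (M.1 1))) * T.io x12 +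
      (τ M * (T.io (OE p J K' M 0 0) + τ J * T.io (OE p J K' M 1 0)) -
        (T.io (OE p J K' M 0 1) + τ J * T.io (OE p J K' M 1 1))) := by
    rw [← h13, ← h23, ← h12]
    simp only [al, be]
    rw [lam_JM p T J K' M 0 0, lam_JM p T J K' M 1 0, lam_JM p T J K' M 0 1,
      lam_JM p T J K' M 1 1]
    ring
  apply T.io_inj
  rw [e, T.io_add, T.io_sub, T.io_sub, ← ral, T.io_mul]
  have e1 : YE k F p s K' 1 (M.1 0) ^ p * wE k F p s M 0 1 - YE k F p s K' 1 (M.1 1) ^ p =
      S.ρ (T.lam (YE k F p s K' 1 (M.1 0)) * τ M - T.lam (YE k F p s K' 1 (M.1 1))) := by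
    rw [map_sub, map_mul, T.ρ_lam, T.ρ_lam, rτ]
  rw [e1, T.io_mul, ← rτ M, T.io_mul, T.io_add, ← rτ J, T.io_mul, T.io_add, T.io_mul]

lemma OE_coe (J K' M : IJ ι) (r c : Fin 2) : ((OE p J K' M r c : EE k ι F p s) : L) =
    algebraMap F L (Om p (th k F J.1 K'.1) (th k F K'.1 M.1) r c) := by
  have h1 : ((OE p J K' M r c : EE k ι F p s) : L) =
      (algebraMap (EE k ι F p s) L) (OE p J K' M r c) := rfl
  rw [h1, OE, map_omg, Om_apply, map_omg, map_mul, map_mul, map_mul, map_mul]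
  rfl

/-- The relation between the three discrepancies, in terms of the quadratic forms. -/
lemma om_cocycle (hs : Transcendental F s) (J K' M : IJ ι) (x12 x23 x13 : EE k ι F p s)
    (W12 W23 W13 : Matrix (Fin 2) (Fin 2) F)
    (hx : x13 = aE p J K' * x23 - (YE k F p s K' 1 (M.1 0) ^ p * wE k F p s M 0 1 -
      YE k F p s K' 1 (M.1 1) ^ p) * x12 +
      (wE k F p s M 0 1 * (OE p J K' M 0 0 + wE k F p s J 0 1 * OE p J K' M 1 0) -
        (OE p J K' M 0 1 + wE k F p s J 0 1 * OE p J K' M 1 1)))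
    (h12 : (x12 : L) * vv k F p s J.1 0 * vv k F p s K'.1 0 =
      algebraMap F L ((xJ k F K'.1).det ^ p) * om s W12)
    (h23 : (x23 : L) * vv k F p s K'.1 0 * vv k F p s M.1 0 =
      algebraMap F L ((xJ k F M.1).det ^ p) * om s W23)
    (h13 : (x13 : L) * vv k F p s J.1 0 * vv k F p s M.1 0 =
      algebraMap F L ((xJ k F M.1).det ^ p) * om s W13) :
    om s (W12 + W23 - W13) = om s (xP k F p J.1 * Om p (th k F J.1 K'.1) (th k F K'.1 M.1) *
      (xP k F p M.1)⁻¹) := by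
  have hJ0 := vv_ne (k := k) p hs J.1 0
  have hK0 := vv_ne (k := k) p hs K'.1 0
  have hM0 := vv_ne (k := k) p hs M.1 0
  have hF := charF k p F
  set O := Om p (th k F J.1 K'.1) (th k F K'.1 M.1) with hO
  set R := xP k F p J.1 * O * (xP k F p M.1)⁻¹ with hR
  have hRO : xP k F p J.1 * O = R * xP k F p M.1 := by
    rw [hR, Matrix.mul_assoc _ _ (xP k F p M.1), Matrix.nonsing_inv_mul _ (xP_isUnit p M),
      Matrix.mul_one]
  have hx' := congrArg (fun y : EE k ι F p s => (y : L)) hx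
  push_cast at hx'
  simp only [OE_coe p, aE_coe p hs, wE_coe] at hx'
  rw [← hO] at hx'
  have hvM := fun c => vvK_eq (k := k) (F := F) (s := s) p K' M c
  -- the determinant of `[θ_{KM}]`
  have hdet : ((YE k F p s K' 0 (M.1 0) : EE k ι F p s) : L) ^ p *
      ((YE k F p s K' 1 (M.1 1) : EE k ι F p s) : L) ^ p -
      ((YE k F p s K' 0 (M.1 1) : EE k ι F p s) : L) ^ p *
      ((YE k F p s K' 1 (M.1 0) : EE k ι F p s) : L) ^ p =
      algebraMap F L ((th k F K'.1 M.1).det ^ p) := by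
    rw [← det_map_pow, Matrix.det_fin_two]
    simp only [Matrix.map_apply, map_sub, map_mul, map_pow]
    rfl
  have hdKM : algebraMap F L ((xJ k F M.1).det ^ p) = algebraMap F L ((xJ k F K'.1).det ^ p) *
      algebraMap F L ((th k F K'.1 M.1).det ^ p) := by
    rw [← map_mul, ← mul_pow, ← Matrix.det_mul, xJ_mul_th K'.1 M.1 K'.2]
  have hdM : algebraMap F L ((xJ k F M.1).det ^ p) ≠ 0 := by
    rw [Ne, FaithfulSMul.algebraMap_eq_zero_iff]
    exact pow_ne_zero _ (xJ_isUnit M.1 M.2).ne_zero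
  set t00 : L := ((YE k F p s K' 0 (M.1 0) : EE k ι F p s) : L) ^ p with ht00
  set t01 : L := ((YE k F p s K' 0 (M.1 1) : EE k ι F p s) : L) ^ p with ht01
  set t10 : L := ((YE k F p s K' 1 (M.1 0) : EE k ι F p s) : L) ^ p with ht10
  set t11 : L := ((YE k F p s K' 1 (M.1 1) : EE k ι F p s) : L) ^ p with ht11
  have hvM0 : vv k F p s M.1 0 = vv k F p s K'.1 0 * t00 + vv k F p s K'.1 1 * t10 := hvM 0
  have hvM1 : vv k F p s M.1 1 = vv k F p s K'.1 0 * t01 + vv k F p s K'.1 1 * t11 := hvM 1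
  -- multiply the cocycle relation
  have hX : (x13 : L) * vv k F p s J.1 0 * vv k F p s M.1 0 =
      (x23 : L) * vv k F p s K'.1 0 * vv k F p s M.1 0 +
      algebraMap F L ((th k F K'.1 M.1).det ^ p) *
        ((x12 : L) * vv k F p s J.1 0 * vv k F p s K'.1 0) +
      (vv k F p s M.1 1 * (vv k F p s J.1 0 * algebraMap F L (O 0 0) +
        vv k F p s J.1 1 * algebraMap F L (O 1 0)) -
        vv k F p s M.1 0 * (vv k F p s J.1 0 * algebraMap F L (O 0 1) +
        vv k F p s J.1 1 * algebraMap F L (O 1 1))) := by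
    rw [hx', ← hdet, wv, wv]
    have e1 : (vv k F p s K'.1 0 / vv k F p s J.1 0 * (x23 : L) -
        (t10 * (vv k F p s M.1 1 / vv k F p s M.1 0) - t11) * (x12 : L) +
        (vv k F p s M.1 1 / vv k F p s M.1 0 * (algebraMap F L (O 0 0) +
          vv k F p s J.1 1 / vv k F p s J.1 0 * algebraMap F L (O 1 0)) -
          (algebraMap F L (O 0 1) + vv k F p s J.1 1 / vv k F p s J.1 0 *
            algebraMap F L (O 1 1)))) * vv k F p s J.1 0 * vv k F p s M.1 0 =
        (x23 : L) * vv k F p s K'.1 0 * vv k F p s M.1 0 -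
        (t10 * vv k F p s M.1 1 - t11 * vv k F p s M.1 0) * ((x12 : L) * vv k F p s J.1 0) +
        (vv k F p s M.1 1 * (vv k F p s J.1 0 * algebraMap F L (O 0 0) +
        vv k F p s J.1 1 * algebraMap F L (O 1 0)) -
        vv k F p s M.1 0 * (vv k F p s J.1 0 * algebraMap F L (O 0 1) +
        vv k F p s J.1 1 * algebraMap F L (O 1 1))) := by
      field_simp
    rw [e1]
    have e2 : t10 * vv k F p s M.1 1 - t11 * vv k F p s M.1 0 =
        -(vv k F p s K'.1 0 * (t00 * t11 - t01 * t10)) := by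
      rw [hvM0, hvM1]; ring
    rw [e2]; ring
  -- the `Ω` term
  have hΩ : vv k F p s M.1 1 * (vv k F p s J.1 0 * algebraMap F L (O 0 0) +
        vv k F p s J.1 1 * algebraMap F L (O 1 0)) -
        vv k F p s M.1 0 * (vv k F p s J.1 0 * algebraMap F L (O 0 1) +
        vv k F p s J.1 1 * algebraMap F L (O 1 1)) =
      -(algebraMap F L ((xJ k F M.1).det ^ p) * om s R) := by
    have hh : ∀ r c, algebraMap F L ((xP k F p J.1 * O) r c) =
      algebraMap F L ((R * xP k F p M.1) r c) := fun r c => by rw [hRO]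
    have h00 := hh 0 0
    have h01 := hh 0 1
    have h10 := hh 1 0
    have h11 := hh 1 1
    simp only [Matrix.mul_apply, Fin.sum_univ_two, map_add, map_mul] at h00 h01 h10 h11
    rw [← xP_det, Matrix.det_fin_two, vv_eq, vv_eq, vv_eq, vv_eq, om]
    simp only [map_sub, map_mul, map_neg]
    linear_combination (algebraMap F L (xP k F p M.1 0 1) +
      s * algebraMap F L (xP k F p M.1 1 1)) * (h00 + s * h10) -
      (algebraMap F L (xP k F p M.1 0 0) + s * algebraMap F L (xP k F p M.1 1 0)) *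
        (h01 + s * h11)
  rw [h12, h23, h13, hΩ] at hX
  apply mul_left_cancel₀ hdM
  rw [om_sub, om_add]
  rw [hdKM] at hX ⊢
  linear_combination -hX

end

end Pool.Agent.Totaro

end

/-! ## PX3 -/

section

set_option linter.unusedSectionVars false

namespace Pool.Agent.Totaro

open MvPolynomial Matrix

section tl

variable {R : Type*} [Field R] {R' : Type*} [Field R']

/-- traceless part -/
noncomputable def tl (M : Matrix (Fin 2) (Fin 2) R) : Matrix (Fin 2) (Fin 2) R :=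
  M - (M.trace / 2) • 1

lemma tl_add (M N : Matrix (Fin 2) (Fin 2) R) : tl (M + N) = tl M + tl N := by
  rw [tl, tl, tl, Matrix.trace_add, add_div, add_smul]; abel

lemma tl_sub (M N : Matrix (Fin 2) (Fin 2) R) : tl (M - N) = tl M - tl N := by
  rw [tl, tl, tl, Matrix.trace_sub, sub_div, sub_smul]; abel

lemma tl_zero : tl (0 : Matrix (Fin 2) (Fin 2) R) = 0 := by
  rw [tl, Matrix.trace_zero, zero_div, zero_smul, sub_zero]

lemma tl_trace (h2 : (2 : R) ≠ 0) (M : Matrix (Fin 2) (Fin 2) R) : (tl M).trace = 0 := by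
  rw [tl, Matrix.trace_sub, Matrix.trace_smul, Matrix.trace_one, smul_eq_mul, Fintype.card_fin]
  push_cast; field_simp; ring

lemma tl_of_trace {M : Matrix (Fin 2) (Fin 2) R} (h : M.trace = 0) : tl M = M := by
  rw [tl, h, zero_div, zero_smul, sub_zero]

lemma tl_inter {G M' M'' : Matrix (Fin 2) (Fin 2) R} (hG : IsUnit G.det)
    (h : M' * G = G * M'') : tl M' * G = G * tl M'' := by
  have h1 : M' = G * M'' * G⁻¹ := by
    rw [← h, Matrix.mul_assoc, Matrix.mul_nonsing_inv _ hG, Matrix.mul_one]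
  have h2 : M'.trace = M''.trace := by
    rw [h1, Matrix.trace_mul_comm, ← Matrix.mul_assoc, Matrix.nonsing_inv_mul _ hG,
      Matrix.one_mul]
  rw [tl, tl, Matrix.sub_mul, Matrix.mul_sub, h, h2, Matrix.smul_mul, Matrix.mul_smul,
    Matrix.one_mul, Matrix.mul_one]

lemma tl_map (f : R →+* R') (M : Matrix (Fin 2) (Fin 2) R) : (tl M).map f = tl (M.map f) := by
  have h : f M.trace = (M.map f).trace := by
    simp [Matrix.trace_fin_two]
  ext r c
  rw [tl, tl, Matrix.map_apply, Matrix.sub_apply, Matrix.sub_apply, Matrix.smul_apply,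
    Matrix.smul_apply, map_sub, smul_eq_mul, smul_eq_mul, map_mul, map_div₀, h, map_ofNat,
    Matrix.map_apply]
  congr 2
  rw [Matrix.one_apply, Matrix.one_apply]
  split_ifs <;> simp

end tl

section

variable {k : Type*} [Field k] {ι : Type*}
  {F : Type*} [Field F] [Algebra k F]
  [Algebra (SS k ι) F] [IsScalarTower k (SS k ι) F]
  [IsFractionRing (SS k ι) F]
variable (p : ℕ) [Fact p.Prime] [CharP k p]

lemma om_tl {L : Type*} [Field L] [Algebra F L] {s : L} (M : Matrix (Fin 2) (Fin 2) F) :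
    om s (tl M) = om s M := by
  simp [om, tl]

lemma tl_mem {Js : Multiset (Fin 2 → ι)} {M : Matrix (Fin 2) (Fin 2) F}
    (h : ∀ r c, M r c ∈ Rsub (k := k) F Js) (r c : Fin 2) :
    tl M r c ∈ Rsub (k := k) F Js := by
  have ht : M.trace / 2 ∈ Rsub (k := k) F Js := by
    have : M.trace / 2 = (2 : k)⁻¹ • M.trace := by
      rw [Algebra.smul_def, map_inv₀, map_ofNat]; ring
    rw [this, Matrix.trace_fin_two]
    exact Subalgebra.smul_mem _ (add_mem (h _ _) (h _ _)) _
  rw [tl, Matrix.sub_apply, Matrix.smul_apply, smul_eq_mul, Matrix.one_apply]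
  refine sub_mem (h r c) (mul_mem ht ?_)
  split_ifs
  · exact one_mem _
  · exact zero_mem _

lemma tl_deg {M' : Type*} [AddCommGroup M'] {wt : Fin 2 → M'}
    {d : Fin 2 → Fin 2 → M'} (hd : ∀ r, d r r = 0) {M : Matrix (Fin 2) (Fin 2) F}
    (h : ∀ r c, HasDeg k ι wt (d r c) (M r c)) (r c : Fin 2) :
    HasDeg k ι wt (d r c) (tl M r c) := by
  have ht : HasDeg k ι wt 0 (M.trace / 2) := by
    have e : M.trace / 2 = algebraMap k F (2 : k)⁻¹ * M.trace := by
      rw [map_inv₀, map_ofNat]; ring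
    rw [e, Matrix.trace_fin_two]
    have h0 := h 0 0
    have h1 := h 1 1
    rw [hd] at h0 h1
    have := (HasDeg.const (k := k) (ι := ι) (F := F) M' wt (2 : k)⁻¹).mul (h0.add h1)
    rwa [add_zero] at this
  rw [tl, Matrix.sub_apply, Matrix.smul_apply, smul_eq_mul, Matrix.one_apply]
  refine (h r c).sub ?_
  split_ifs with hrc
  · subst hrc
    rw [hd, mul_one]; exact ht
  · rw [mul_zero]; exact HasDeg.zero

lemma omg_mem {A : Subalgebra k F} {a b : F} (ha : a ∈ A) (hb : b ∈ A) : omg p a b ∈ A := by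
  rw [omg]
  refine sum_mem fun i _ => mul_mem (mul_mem (natCast_mem _ _) (pow_mem ha _)) (pow_mem hb _)

lemma omg_deg {M : Type*} [AddCommGroup M] {wt : Fin 2 → M} {d : M} {a b : F}
    (ha : HasDeg k ι wt d a) (hb : HasDeg k ι wt d b) : HasDeg k ι wt (p • d) (omg p a b) := by
  rw [omg]
  apply HasDeg.sum
  intro i hi
  rw [Finset.mem_Ioo] at hi
  have h1 := ((HasDeg.const (k := k) (ι := ι) (F := F) M wt ((p.choose i / p : ℕ) : k)).mul
    (ha.pow' i)).mul (hb.pow' (p - i))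
  rw [zero_add, ← add_smul, map_natCast] at h1
  have : i + (p - i) = p := by omega
  rwa [this] at h1

/-- `Ω(x_J, θ_{JK}) [x_K]⁻¹` -/
noncomputable def rt (k : Type*) [Field k] {ι : Type*} (F : Type*) [Field F]
    [Algebra (SS k ι) F] (p : ℕ) (J K : Fin 2 → ι) : Matrix (Fin 2) (Fin 2) F :=
  Om p (xJ k F J) (th k F J K) * (xP k F p K)⁻¹

/-- `[g]⁻¹ Ω(g, x_J) [x_J]⁻¹` -/
noncomputable def rg (k : Type*) [Field k] {ι : Type*} (F : Type*) [Field F] [Algebra k F]
    [Algebra (SS k ι) F] (p : ℕ) [Fact p.Prime] [CharP k p] (J : Fin 2 → ι) (g : GL (Fin 2) k) :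
    Matrix (Fin 2) (Fin 2) F :=
  (gF F (frobenius k p) g)⁻¹ * Om p (gF F (RingHom.id k) g) (xJ k F J) * (xP k F p J)⁻¹

lemma rt_mem (J K : IJ ι) (r c : Fin 2) :
    rt k F p J.1 K.1 r c ∈ Rsub (k := k) F ({J.1} + {K.1}) := by
  refine Rsub_mul_const _ _ ?_ ?_ r c
  · intro r c
    rw [Om_apply]
    have h : ∀ r c, th k F J.1 K.1 r c ∈ Rsub (k := k) F ({J.1} + {K.1}) := fun r c =>
      OJJ_le_Rsub J.1 K.1 J.2 K.2 ((le_sup_left : OJ k F J.1 ≤ _) (th_mem J.1 K.1 r c))
    exact omg_mem p (mul_mem (xJ_mem J.1 _ _ _) (h _ _)) (mul_mem (xJ_mem J.1 _ _ _) (h _ _))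
  · intro r c
    exact Rsub_mono (by simp) (xP_inv_mem p K r c)

lemma th_deg {M : Type*} [AddCommGroup M] (wt : Fin 2 → M) (J K : Fin 2 → ι) (r c : Fin 2) :
    HasDeg k ι wt 0 (th k F J K r c) := YJ_deg wt J r (K c)

lemma rt_deg (J K : Fin 2 → ι) (r c : Fin 2) :
    HasDeg k ι wt2 (cd p r c) (rt k F p J K r c) := by
  rw [rt, Matrix.mul_apply]
  apply HasDeg.sum
  intro a _
  have hh : ∀ b, HasDeg k ι wt2 (wt2 r) (xJ k F J r b * th k F J K b a) := by
    intro b
    have := (xJ_deg (k := k) (F := F) wt2 J r b).mul (th_deg (k := k) (F := F) wt2 J K b a)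
    rwa [add_zero] at this
  have h1 : HasDeg k ι wt2 (p • wt2 r) (Om p (xJ k F J) (th k F J K) r a) :=
    omg_deg p (hh 0) (hh 1)
  have h2 := h1.mul (xP_inv_deg (k := k) (F := F) p wt2 K a c)
  have h3 : cd p r c = p • wt2 r + -(p • wt2 c) := by
    rw [cd, smul_sub, sub_eq_add_neg]
  rw [h3]; exact h2

lemma gF_map_pow (g : GL (Fin 2) k) :
    (gF F (RingHom.id k) g).map (fun z => z ^ p) = gF F (frobenius k p) g := gF_pow p g

lemma xP_mul_th (J K : IJ ι) :
    (th k F J.1 K.1).map (fun z => z ^ p) * (xP k F p K.1)⁻¹ = (xP k F p J.1)⁻¹ := by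
  have := charF k p F
  have he : ExpChar F p := ExpChar.prime Fact.out
  have h1 : xP k F p J.1 * (th k F J.1 K.1).map (fun z => z ^ p) = xP k F p K.1 := by
    have := congrArg (fun M : Matrix (Fin 2) (Fin 2) F => M.map (frobenius F p))
      (xJ_mul_th (k := k) (F := F) J.1 K.1 J.2)
    simp only [Matrix.map_mul] at this
    exact this
  have h2 : (th k F J.1 K.1).map (fun z => z ^ p) = (xP k F p J.1)⁻¹ * xP k F p K.1 := by
    rw [← h1, ← Matrix.mul_assoc, Matrix.nonsing_inv_mul _ (xP_isUnit p J), Matrix.one_mul]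
  rw [h2, Matrix.mul_assoc, Matrix.mul_nonsing_inv _ (xP_isUnit p K), Matrix.mul_one]

/-- strict cocycle relation for the reference matrices -/
lemma rt_coc (J K M : IJ ι) :
    xP k F p J.1 * Om p (th k F J.1 K.1) (th k F K.1 M.1) * (xP k F p M.1)⁻¹ =
      rt k F p J.1 K.1 + rt k F p K.1 M.1 - rt k F p J.1 M.1 := by
  have h := Om_assoc (p := p) Fact.out (xJ k F J.1) (th k F J.1 K.1) (th k F K.1 M.1)
  rw [th_mul J.1 K.1 M.1 J.2 K.2, xJ_mul_th J.1 K.1 J.2] at h
  have h2 := congrArg (fun N => N * (xP k F p M.1)⁻¹) h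
  simp only [Matrix.add_mul] at h2
  rw [Matrix.mul_assoc (Om p (xJ k F J.1) (th k F J.1 K.1)), xP_mul_th p K M] at h2
  rw [rt, rt, rt, eq_sub_iff_add_eq, add_comm (Om p (xJ k F J.1) (th k F J.1 K.1) * _)]
  exact h2

lemma sig_th (g : GL (Fin 2) k) (J K : IJ ι) :
    (th k F J.1 K.1).map (sigF (ι := ι) F g) = th k F J.1 K.1 := by
  have h := sig_YJ (F := F) g J.1 J.2
  ext r c
  exact congrFun (congrFun h r) (K.1 c)

/-- equivariance of the reference matrices -/
lemma rt_sig (J K : IJ ι) (g : GL (Fin 2) k) :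
    (rt k F p J.1 K.1).map (sigF (ι := ι) F g) * gF F (frobenius k p) g =
      gF F (frobenius k p) g * (rt k F p J.1 K.1 - (rg k F p J.1 g - rg k F p K.1 g)) := by
  have h := Om_assoc (p := p) Fact.out (gF F (RingHom.id k) g) (xJ k F J.1) (th k F J.1 K.1)
  rw [gF_map_pow, xJ_mul_th J.1 K.1 J.2] at h
  have h2 := congrArg (fun N => N * (xP k F p K.1)⁻¹) h
  simp only [Matrix.add_mul] at h2
  rw [Matrix.mul_assoc (Om p (gF F (RingHom.id k) g) (xJ k F J.1)), xP_mul_th p J K] at h2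
  have h3 : (rt k F p J.1 K.1).map (sigF (ι := ι) F g) * gF F (frobenius k p) g =
      Om p (gF F (RingHom.id k) g * xJ k F J.1) (th k F J.1 K.1) * (xP k F p K.1)⁻¹ := by
    rw [rt, Matrix.map_mul, map_Om, sig_xJ, sig_th, map_inv_sig, sig_xP, Matrix.mul_inv_rev,
      Matrix.mul_assoc, Matrix.mul_assoc, gF_inv_mul, Matrix.mul_one]
  have h4 : ∀ J : Fin 2 → ι, gF F (frobenius k p) g * rg k F p J g =
      Om p (gF F (RingHom.id k) g) (xJ k F J) * (xP k F p J)⁻¹ := by
    intro J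
    rw [rg, ← Matrix.mul_assoc, ← Matrix.mul_assoc, gF_mul_inv, Matrix.one_mul]
  rw [h3, Matrix.mul_sub, Matrix.mul_sub, h4, h4]
  rw [Matrix.mul_assoc] at h2
  have h5 : gF F (frobenius k p) g * rt k F p J.1 K.1 =
      gF F (frobenius k p) g * (Om p (xJ k F J.1) (th k F J.1 K.1) * (xP k F p K.1)⁻¹) := rfl
  rw [h5]
  generalize gF F (frobenius k p) g * (Om p (xJ k F J.1) (th k F J.1 K.1) *
    (xP k F p K.1)⁻¹) = X1 at h2 ⊢
  have h6 : Om p (gF F (RingHom.id k) g * xJ k F J.1) (th k F J.1 K.1) * (xP k F p K.1)⁻¹ =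
      X1 + Om p (gF F (RingHom.id k) g) (xJ k F K.1) * (xP k F p K.1)⁻¹ -
        Om p (gF F (RingHom.id k) g) (xJ k F J.1) * (xP k F p J.1)⁻¹ := by
    rw [h2]; abel
  rw [h6]; abel

lemma rg_mem (J : IJ ι) (g : GL (Fin 2) k) (r c : Fin 2) :
    rg k F p J.1 g r c ∈ Rsub (k := k) F {J.1} := by
  refine Rsub_mul_const _ _ (Rsub_mul_const _ _ (gF_inv_mem _ g _) ?_) (xP_inv_mem p J) r c
  intro r c
  rw [Om_apply]
  exact omg_mem p (mul_mem (gF_mem _ g _ _ _) (xJ_mem J.1 _ _ _))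
    (mul_mem (gF_mem _ g _ _ _) (xJ_mem J.1 _ _ _))

lemma rg_deg (J : Fin 2 → ι) (g : GL (Fin 2) k) (r c : Fin 2) :
    HasDeg k ι wt1 0 (rg k F p J g r c) := by
  obtain ⟨c1, hc1⟩ := gF_inv_const (F := F) (frobenius k p) g
  have h1 : ∀ r c, HasDeg k ι wt1 (p • (1 : ℤ))
      (((gF F (frobenius k p) g)⁻¹ * Om p (gF F (RingHom.id k) g) (xJ k F J)) r c) := by
    rw [hc1]
    apply deg_mul_left
    intro r c
    rw [Om_apply]
    have h2 : ∀ a b c, HasDeg k ι wt1 (1 : ℤ) (gF F (RingHom.id k) g a b * xJ k F J b c) := by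
      intro a b c
      have := (HasDeg.const (k := k) (ι := ι) (F := F) ℤ wt1 (frobM (RingHom.id k) g a b)).mul
        (xJ_deg (k := k) (F := F) wt1 J b c)
      rwa [zero_add] at this
    exact omg_deg p (h2 _ _ _) (h2 _ _ _)
  rw [rg, Matrix.mul_apply]
  apply HasDeg.sum
  intro a _
  have h3 := (h1 r a).mul (xP_inv_deg (k := k) (F := F) p wt1 J a c)
  have : p • (1 : ℤ) + -(p • wt1 c) = 0 := by simp [wt1]
  rwa [this] at h3

lemma rg_torus (J : Fin 2 → ι) (a b : kˣ) : rg k F p J (gD a b) = 0 := by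
  have h : Om p (gF F (RingHom.id k) (gD a b)) (xJ k F J) = 0 := by
    ext r c
    rw [Om_apply]
    fin_cases r
    · have : gF F (RingHom.id k) (gD a b) 0 1 = 0 := by simp [gF, frobM]
      change omg p (gF F (RingHom.id k) (gD a b) 0 0 * xJ k F J 0 c)
        (gF F (RingHom.id k) (gD a b) 0 1 * xJ k F J 1 c) = 0
      rw [this, zero_mul, omg_zero_right]
    · have : gF F (RingHom.id k) (gD a b) 1 0 = 0 := by simp [gF, frobM]
      change omg p (gF F (RingHom.id k) (gD a b) 1 0 * xJ k F J 0 c)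
        (gF F (RingHom.id k) (gD a b) 1 1 * xJ k F J 1 c) = 0
      rw [this, zero_mul, omg_zero_left]
  rw [rg, h, Matrix.mul_zero, Matrix.zero_mul]

/-- `[gh]⁻¹ Ω(g,h)` -/
noncomputable def psi (k : Type*) [Field k] (p : ℕ) [Fact p.Prime] [CharP k p]
    (g h : GL (Fin 2) k) : Matrix (Fin 2) (Fin 2) k :=
  (frobM (frobenius k p) (g * h))⁻¹ * Om p (g : Matrix (Fin 2) (Fin 2) k)
    (h : Matrix (Fin 2) (Fin 2) k)

lemma frobM_mul_psi (g h : GL (Fin 2) k) : frobM (frobenius k p) (g * h) * psi k p g h =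
    Om p (g : Matrix (Fin 2) (Fin 2) k) (h : Matrix (Fin 2) (Fin 2) k) := by
  rw [psi, ← Matrix.mul_assoc, Matrix.mul_nonsing_inv _ (frobM_det _ _).isUnit, Matrix.one_mul]

/-- the relation between the `ρ`'s -/
lemma rg_coc (J : IJ ι) (g h : GL (Fin 2) k) :
    (rg k F p J.1 g).map (sigF (ι := ι) F h) * gF F (frobenius k p) h =
      gF F (frobenius k p) h * (rg k F p J.1 (g * h) +
        (psi k p g h).map (algebraMap k F) - rg k F p J.1 h) := by
  have hO := Om_assoc (p := p) Fact.out (gF F (RingHom.id k) g) (gF F (RingHom.id k) h)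
    (xJ k F J.1)
  rw [gF_map_pow, ← gF_mul] at hO
  have h2 := congrArg (fun N => N * (xP k F p J.1)⁻¹) hO
  simp only [Matrix.add_mul] at h2
  have h3 : Om p (gF F (RingHom.id k) g) (gF F (RingHom.id k) h) *
      (xJ k F J.1).map (fun z => z ^ p) * (xP k F p J.1)⁻¹ =
      Om p (gF F (RingHom.id k) g) (gF F (RingHom.id k) h) := by
    have : (xJ k F J.1).map (fun z => z ^ p) = xP k F p J.1 := rfl
    rw [this, Matrix.mul_assoc, Matrix.mul_nonsing_inv _ (xP_isUnit p J), Matrix.mul_one]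
  rw [h3] at h2
  -- left hand side
  have h4 : (rg k F p J.1 g).map (sigF (ι := ι) F h) * gF F (frobenius k p) h =
      (gF F (frobenius k p) g)⁻¹ * (Om p (gF F (RingHom.id k) g)
        (gF F (RingHom.id k) h * xJ k F J.1) * (xP k F p J.1)⁻¹) := by
    rw [rg, Matrix.map_mul, Matrix.map_mul, map_Om, sig_xJ, gF_sig, map_inv_sig, map_inv_sig,
      gF_sig, sig_xP, Matrix.mul_inv_rev]
    simp only [Matrix.mul_assoc]
    rw [gF_inv_mul, Matrix.mul_one]
  -- the three terms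
  have hg : gF F (frobenius k p) h * (gF F (frobenius k p) (g * h))⁻¹ =
      (gF F (frobenius k p) g)⁻¹ := by
    rw [gF_mul, Matrix.mul_inv_rev, ← Matrix.mul_assoc, gF_mul_inv, Matrix.one_mul]
  have h5 : gF F (frobenius k p) h * rg k F p J.1 (g * h) = (gF F (frobenius k p) g)⁻¹ *
      (Om p (gF F (RingHom.id k) (g * h)) (xJ k F J.1) * (xP k F p J.1)⁻¹) := by
    rw [rg, ← Matrix.mul_assoc, ← Matrix.mul_assoc, hg, Matrix.mul_assoc]
  have h6 : gF F (frobenius k p) h * (psi k p g h).map (algebraMap k F) =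
      (gF F (frobenius k p) g)⁻¹ * Om p (gF F (RingHom.id k) g) (gF F (RingHom.id k) h) := by
    have e1 : (psi k p g h).map (algebraMap k F) = (gF F (frobenius k p) (g * h))⁻¹ *
        Om p (gF F (RingHom.id k) g) (gF F (RingHom.id k) h) := by
      have e2 := congrArg (fun M : Matrix (Fin 2) (Fin 2) k => M.map (algebraMap k F))
        (frobM_mul_psi p g h)
      simp only [Matrix.map_mul, map_Om] at e2
      have e3 : gF F (frobenius k p) (g * h) * (psi k p g h).map (algebraMap k F) =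
        Om p (gF F (RingHom.id k) g) (gF F (RingHom.id k) h) := e2
      rw [← e3, ← Matrix.mul_assoc, gF_inv_mul, Matrix.one_mul]
    rw [e1, ← Matrix.mul_assoc, hg]
  have h7 : gF F (frobenius k p) h * rg k F p J.1 h =
      Om p (gF F (RingHom.id k) h) (xJ k F J.1) * (xP k F p J.1)⁻¹ := by
    rw [rg, ← Matrix.mul_assoc, ← Matrix.mul_assoc, gF_mul_inv, Matrix.one_mul]
  rw [h4, Matrix.mul_sub, Matrix.mul_add, h5, h6, h7]
  have h8 : Om p (gF F (RingHom.id k) g) (gF F (RingHom.id k) h * xJ k F J.1) *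
      (xP k F p J.1)⁻¹ = Om p (gF F (RingHom.id k) (g * h)) (xJ k F J.1) * (xP k F p J.1)⁻¹ +
        Om p (gF F (RingHom.id k) g) (gF F (RingHom.id k) h) -
      gF F (frobenius k p) g * Om p (gF F (RingHom.id k) h) (xJ k F J.1) *
        (xP k F p J.1)⁻¹ := by
    rw [← h2]; abel
  rw [h8, Matrix.mul_sub, Matrix.mul_add]
  congr 1
  simp only [← Matrix.mul_assoc]
  rw [gF_inv_mul, Matrix.one_mul]

end

end Pool.Agent.Totaro

end

/-! ## PX4 -/

section

set_option linter.unusedSectionVars false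

namespace Pool.Agent.Totaro

open MvPolynomial Matrix

section

variable {k : Type*} [Field k] {ι : Type*} [Fintype ι] [DecidableEq ι]
  {F : Type*} [Field F] [Algebra k F]
  [Algebra (SS k ι) F] [IsScalarTower k (SS k ι) F]
  [IsFractionRing (SS k ι) F]
variable (p : ℕ) [Fact p.Prime] [CharP k p]

/-- There is no strict lift of the cocycle: the matrices attached to a deformation with
`p ≠ 0` cannot exist. -/
lemma no_matrices [Infinite k] (cf : Cfg ι) (hk2 : (2 : k) ≠ 0) (hk3 : (3 : k) ≠ 0)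
    (N12 N13 N23 : Matrix (Fin 2) (Fin 2) F)
    (m12 : ∀ r c, N12 r c ∈ OJ k F cf.J1 ⊔ OJ k F cf.J2) (t12 : N12.trace = 0)
    (m13 : ∀ r c, N13 r c ∈ OJ k F cf.J1 ⊔ OJ k F cf.J3) (t13 : N13.trace = 0)
    (m23 : ∀ r c, N23 r c ∈ OJ k F cf.J2 ⊔ OJ k F cf.J3) (t23 : N23.trace = 0)
    (h : xP k F p cf.J1 * N12 * (xP k F p cf.J1)⁻¹ + xP k F p cf.J2 * N23 * (xP k F p cf.J2)⁻¹ -
      xP k F p cf.J1 * N13 * (xP k F p cf.J1)⁻¹ =
      tl (xP k F p cf.J1 * Om p (th k F cf.J1 cf.J2) (th k F cf.J2 cf.J3) *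
        (xP k F p cf.J3)⁻¹)) : False := by
  obtain ⟨A12, B12, C12⟩ := conj_props (k := k) p (J := cf.K1) (K := cf.K2) m12
  obtain ⟨A13, B13, C13⟩ := conj_props (k := k) p (J := cf.K1) (K := cf.K3) m13
  obtain ⟨A23, B23, C23⟩ := conj_props (k := k) p (J := cf.K2) (K := cf.K3) m23
  have hR := rt_coc (k := k) (F := F) p cf.K1 cf.K2 cf.K3
  change xP k F p cf.J1 * Om p (th k F cf.J1 cf.J2) (th k F cf.J2 cf.J3) *
    (xP k F p cf.J3)⁻¹ = rt k F p cf.J1 cf.J2 + rt k F p cf.J2 cf.J3 - rt k F p cf.J1 cf.J3 at hR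
  rw [hR, tl_sub, tl_add] at h
  have mr12 := rt_mem (k := k) (F := F) p cf.K1 cf.K2
  have mr13 := rt_mem (k := k) (F := F) p cf.K1 cf.K3
  have mr23 := rt_mem (k := k) (F := F) p cf.K2 cf.K3
  have dr12 := rt_deg (k := k) (F := F) p cf.J1 cf.J2
  have dr13 := rt_deg (k := k) (F := F) p cf.J1 cf.J3
  have sr12 := rt_sig (k := k) (F := F) p cf.K1 cf.K2
  have sr13 := rt_sig (k := k) (F := F) p cf.K1 cf.K3
  have hcd0 : ∀ r, cd p r r = 0 := fun r => by simp [cd]
  set w12 : Matrix (Fin 2) (Fin 2) F := xP k F p cf.J1 * N12 * (xP k F p cf.J1)⁻¹ with hw12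
  set w13 : Matrix (Fin 2) (Fin 2) F := xP k F p cf.J1 * N13 * (xP k F p cf.J1)⁻¹ with hw13
  set w23 : Matrix (Fin 2) (Fin 2) F := xP k F p cf.J2 * N23 * (xP k F p cf.J2)⁻¹ with hw23
  -- traceless reference matrices
  have hsig : ∀ (w r a b : Matrix (Fin 2) (Fin 2) F) (g : GL (Fin 2) k),
      w.map (sigF (ι := ι) F g) * gF F (frobenius k p) g = gF F (frobenius k p) g * w →
      r.map (sigF (ι := ι) F g) * gF F (frobenius k p) g =
        gF F (frobenius k p) g * (r - (a - b)) →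
      (w - tl r).map (sigF (ι := ι) F g) * gF F (frobenius k p) g =
        gF F (frobenius k p) g * ((w - tl r) + (tl a - tl b)) := by
    intro w r a b g h1 h2
    have h3 := tl_inter (gF_det (F := F) (frobenius k p) g) h2
    rw [← tl_map, tl_sub, tl_sub] at h3
    have h4 : (w - tl r).map (sigF (ι := ι) F g) = w.map (sigF (ι := ι) F g) -
        (tl r).map (sigF (ι := ι) F g) := by
      ext i j; simp only [Matrix.map_apply, Matrix.sub_apply, map_sub]
    rw [h4, Matrix.sub_mul, h1, h3, ← Matrix.mul_sub]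
    congr 1; abel
  obtain ⟨E1, E2, E3, e, -, -, -, -, -, -, f1, -, -, eT⟩ :=
    vert_common cf (frobenius k p) p (fun a => frobenius_def p a)
      (w12 - tl (rt k F p cf.J1 cf.J2)) (w13 - tl (rt k F p cf.J1 cf.J3))
      (w23 - tl (rt k F p cf.J2 cf.J3))
      (fun r c => sub_mem (A12 r c) (tl_mem mr12 r c))
      (fun r c => sub_mem (A13 r c) (tl_mem mr13 r c))
      (fun r c => sub_mem (A23 r c) (tl_mem mr23 r c))
      (fun r c => (B12 r c).sub (tl_deg (d := cd p) hcd0 dr12 r c))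
      (fun r c => (B13 r c).sub (tl_deg (d := cd p) hcd0 dr13 r c))
      (by
        have h' : w12 + w23 = w13 + (tl (rt k F p cf.J1 cf.J2) + tl (rt k F p cf.J2 cf.J3) -
          tl (rt k F p cf.J1 cf.J3)) := by rw [← h]; abel
        calc w12 - tl (rt k F p cf.J1 cf.J2) + (w23 - tl (rt k F p cf.J2 cf.J3)) =
            (w12 + w23) - (tl (rt k F p cf.J1 cf.J2) + tl (rt k F p cf.J2 cf.J3)) := by abel
          _ = _ := by rw [h']; abel)
      (fun g => tl (rg k F p cf.J1 g)) (fun g => tl (rg k F p cf.J2 g))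
      (fun g => tl (rg k F p cf.J3 g))
      (fun g r c => tl_mem (rg_mem p cf.K1 g) r c)
      (fun g r c => tl_mem (rg_mem p cf.K2 g) r c)
      (fun g r c => tl_deg (d := fun _ _ => (0 : ℤ)) (fun _ => rfl) (rg_deg p cf.J1 g) r c)
      (fun g => hsig _ _ _ _ g (C12 g) (sr12 g))
      (fun g => hsig _ _ _ _ g (C13 g) (sr13 g))
      (fun a b => by
        change tl (rg k F p cf.J1 (gD a b)) = 0
        rw [rg_torus, tl_zero])
  -- cocycle
  have hcoc : IsCoc (frobenius k p) (fun g h => tl (psi k p g h)) e := by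
    intro g h'
    have a1 := f1 (g * h')
    have a2 := f1 g
    have a3 := f1 h'
    have a4 := congrArg (fun M : Matrix (Fin 2) (Fin 2) F => M.map (sigF (ι := ι) F h')) a2
    simp only [Matrix.map_mul, gF_sig] at a4
    have a5 : (E1.map (sigF (ι := ι) F g)).map (sigF (ι := ι) F h') =
        E1.map (sigF (ι := ι) F (g * h')) := by
      ext r s; simp [sigF_comp]
    have a6 : ((E1 + tl (rg k F p cf.J1 g) + (e g).map (algebraMap k F))).map
        (sigF (ι := ι) F h') = E1.map (sigF (ι := ι) F h') +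
          (tl (rg k F p cf.J1 g)).map (sigF (ι := ι) F h') + (e g).map (algebraMap k F) := by
      ext r s; simp
    rw [a5, a6] at a4
    rw [gF_mul] at a1
    have b1 := tl_inter (gF_det (F := F) (frobenius k p) h') (rg_coc (k := k) (F := F) p cf.K1 g h')
    rw [← tl_map, tl_sub, tl_add, ← tl_map] at b1
    change (tl (rg k F p cf.J1 g)).map (sigF (ι := ι) F h') * gF F (frobenius k p) h' =
      gF F (frobenius k p) h' * (tl (rg k F p cf.J1 (g * h')) +
        (tl (psi k p g h')).map (algebraMap k F) - tl (rg k F p cf.J1 h')) at b1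
    -- combine
    have a7 : gF F (frobenius k p) g * (gF F (frobenius k p) h' *
        (E1 + tl (rg k F p cf.J1 (g * h')) + (e (g * h')).map (algebraMap k F))) =
        gF F (frobenius k p) g * (gF F (frobenius k p) h' *
          (E1 + tl (rg k F p cf.J1 h') + (e h').map (algebraMap k F)) +
          gF F (frobenius k p) h' * (tl (rg k F p cf.J1 (g * h')) +
            (tl (psi k p g h')).map (algebraMap k F) - tl (rg k F p cf.J1 h')) +
          (e g).map (algebraMap k F) * gF F (frobenius k p) h') := by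
      rw [← a3, ← b1, ← Matrix.add_mul, ← Matrix.add_mul, ← Matrix.mul_assoc,
        ← Matrix.mul_assoc, ← a4, ← a1, Matrix.mul_assoc]
    have a8 := cancel_gF (frobenius k p) g a7
    have a9 : gF F (frobenius k p) h' * (e (g * h')).map (algebraMap k F) =
        (e g).map (algebraMap k F) * gF F (frobenius k p) h' +
          gF F (frobenius k p) h' * ((e h').map (algebraMap k F) +
            (tl (psi k p g h')).map (algebraMap k F)) := by
      have := sub_eq_zero.mpr a8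
      rw [← sub_eq_zero, ← this]
      noncomm_ring
    have a10 : (frobM (frobenius k p) h' * e (g * h')).map (algebraMap k F) =
        (e g * frobM (frobenius k p) h' + frobM (frobenius k p) h' *
          (e h' + tl (psi k p g h'))).map (algebraMap k F) := by
      have c1 : (e g * frobM (frobenius k p) h' + frobM (frobenius k p) h' *
          (e h' + tl (psi k p g h'))).map (algebraMap k F) =
          (e g * frobM (frobenius k p) h').map (algebraMap k F) +
            (frobM (frobenius k p) h' * (e h' + tl (psi k p g h'))).map (algebraMap k F) := by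
        ext r s; simp only [Matrix.map_apply, Matrix.add_apply, map_add]
      have c2 : (e h' + tl (psi k p g h')).map (algebraMap k F) =
          (e h').map (algebraMap k F) + (tl (psi k p g h')).map (algebraMap k F) := by
        ext r s; simp only [Matrix.map_apply, Matrix.add_apply, map_add]
      rw [c1, Matrix.map_mul, Matrix.map_mul, Matrix.map_mul, c2]
      exact a9
    ext r s
    have := congrFun (congrFun a10 r) s
    simp only [Matrix.map_apply] at this
    exact (algebraMap k F).injective this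
  -- the cocycle `ψ`
  have hψ1 : ∀ a b g, tl (psi k p (gD a b) g) = 0 := by
    intro a b g
    have : Om p ((gD a b : GL (Fin 2) k) : Matrix (Fin 2) (Fin 2) k)
        (g : Matrix (Fin 2) (Fin 2) k) = 0 := by
      ext r c
      rw [Om_apply]
      fin_cases r
      · simp [omg_zero_right]
      · simp [omg_zero_left]
    rw [psi, this, Matrix.mul_zero, tl_zero]
  have hψ2 : ∀ a b g, tl (psi k p g (gD a b)) = 0 := by
    intro a b g
    have : Om p (g : Matrix (Fin 2) (Fin 2) k)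
        ((gD a b : GL (Fin 2) k) : Matrix (Fin 2) (Fin 2) k) = 0 := by
      ext r c
      rw [Om_apply]
      fin_cases c
      · simp [omg_zero_right]
      · simp [omg_zero_left]
    rw [psi, this, Matrix.mul_zero, tl_zero]
  have hω : ∀ a b, tl (psi k p (gU a) (gU b)) = !![0, omg p b a; 0, 0] := by
    intro a b
    have h1 : Om p ((gU a : GL (Fin 2) k) : Matrix (Fin 2) (Fin 2) k)
        ((gU b : GL (Fin 2) k) : Matrix (Fin 2) (Fin 2) k) = !![0, omg p b a; 0, 0] := by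
      ext r c
      rw [Om_apply]
      fin_cases r <;> fin_cases c <;> simp [omg_zero_right, omg_zero_left]
    have h2 : (frobM (frobenius k p) (gU a * gU b)) * !![0, omg p b a; 0, 0] =
        !![0, omg p b a; 0, 0] := by
      ext r c
      fin_cases r <;> fin_cases c <;>
        simp [frobM, Matrix.mul_apply, Fin.sum_univ_two]
    have h3 : psi k p (gU a) (gU b) = !![0, omg p b a; 0, 0] := by
      rw [psi, h1]
      conv_lhs => rw [← h2]
      rw [← Matrix.mul_assoc, Matrix.nonsing_inv_mul _ (frobM_det _ _).isUnit, Matrix.one_mul]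
    rw [h3, tl_of_trace (by simp [Matrix.trace_fin_two])]
  obtain ⟨κ, -, hκ⟩ := coc_unip hcoc eT hψ1 hψ2 (fun a b => omg p b a) hω hk2 hk3
  obtain ⟨a, b, ha, hb, hab, hne⟩ := omg_ne (R := k) (p := p) Fact.out
  exact hne (hκ b a hb ha (by rwa [add_comm]))

variable {L : Type*} [Field L] [Algebra F L] [Algebra k L] [IsScalarTower k F L] {s : L}
variable {hs : Transcendental F s} {cf : Cfg ι} {hk2 : (2 : k) ≠ 0} {hk3 : (3 : k) ≠ 0}
  {A : Type*} [CommRing A] [IsLocalRing A] [IsArtinianRing A] {K : Type*} [CommRing K]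
  [Algebra A K]

/-- No deformation with `p ≠ 0` (reduced form). -/
theorem no_PD [Infinite k] {S : Sys (atlX p hs cf hk2 hk3) A K} (T : S.PD p) : False := by
  have hF2 : (2 : F) ≠ 0 := by
    have h : algebraMap k F 2 ≠ 0 := by
      rw [Ne, map_eq_zero]; exact hk2
    rwa [map_ofNat] at h
  have ht := exists_tau p T
  choose τ hτ τ' hτ' hττ' hτΘ using ht
  obtain ⟨x12, e12, a12, b12, c12, d12⟩ := exists_xx p T τ τ' hτ hτ' hττ' hτΘ cf.K1 cf.K2
  obtain ⟨x13, e13, a13, b13, c13, d13⟩ := exists_xx p T τ τ' hτ hτ' hττ' hτΘ cf.K1 cf.K3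
  obtain ⟨x23, e23, a23, b23, c23, d23⟩ := exists_xx p T τ τ' hτ hτ' hττ' hτΘ cf.K2 cf.K3
  obtain ⟨N12, m12, t12, q12⟩ := xx_matrix p hs hk2 cf.K1 cf.K2 x12 a12 b12 c12 d12
  obtain ⟨N13, m13, t13, q13⟩ := xx_matrix p hs hk2 cf.K1 cf.K3 x13 a13 b13 c13 d13
  obtain ⟨N23, m23, t23, q23⟩ := xx_matrix p hs hk2 cf.K2 cf.K3 x23 a23 b23 c23 d23
  have hx := xx_cocycle p T τ hτΘ cf.K1 cf.K2 cf.K3 x12 x23 x13 e12 e23 e13
  have hom := om_cocycle p hs cf.K1 cf.K2 cf.K3 x12 x23 x13 _ _ _ hx q12 q23 q13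
  refine no_matrices p cf hk2 hk3 N12 N13 N23 m12 t12 m13 t13 m23 t23 ?_
  have htr : ∀ (K : IJ ι) (M : Matrix (Fin 2) (Fin 2) F),
      (xP k F p K.1 * M * (xP k F p K.1)⁻¹).trace = M.trace := fun K M => by
    rw [Matrix.trace_mul_comm, ← Matrix.mul_assoc, Matrix.nonsing_inv_mul _ (xP_isUnit p K),
      Matrix.one_mul]
  apply om_inj hs hF2
  · rw [om_tl]; exact hom
  · rw [tl_trace hF2, Matrix.trace_sub, Matrix.trace_add]
    have h1 := htr cf.K1 N12
    have h2 := htr cf.K2 N23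
    have h3 := htr cf.K1 N13
    change (xP k F p cf.J1 * N12 * (xP k F p cf.J1)⁻¹).trace = N12.trace at h1
    change (xP k F p cf.J2 * N23 * (xP k F p cf.J2)⁻¹).trace = N23.trace at h2
    change (xP k F p cf.J1 * N13 * (xP k F p cf.J1)⁻¹).trace = N13.trace at h3
    rw [h1, h2, h3, t12, t13, t23]; ring

end

end Pool.Agent.Totaro

end

/-! ## NoLift -/

section

set_option linter.unusedSectionVars false

namespace Pool.Agent.Totaro

section

variable (p : ℕ) [Fact p.Prime] {k : Type*} [Field k] [CharP k p] [PerfectRing k p]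

/-- A `W(k)`-algebra in which `p = 0` is a `k`-algebra. -/
lemma exists_j {A : Type*} [CommRing A] (w : WittVector p k →+* A) (hp : (p : A) = 0) :
    ∃ j : k →+* A, ∀ x : WittVector p k, j (x.coeff 0) = w x := by
  have h : ∀ x ∈ Ideal.span {(p : WittVector p k)}, w x = 0 := by
    intro x hx
    rw [Ideal.mem_span_singleton] at hx
    obtain ⟨y, rfl⟩ := hx
    rw [map_mul, map_natCast, hp, zero_mul]
  refine ⟨(Ideal.Quotient.lift _ w h).comp
    (WittVector.quotientPEquiv (p := p) (k := k)).symm.toRingHom, ?_⟩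
  intro x
  have h1 : (WittVector.quotientPEquiv (p := p) (k := k)).symm (x.coeff 0) =
      Ideal.Quotient.mk _ x := by
    rw [RingEquiv.symm_apply_eq]
    rfl
  change Ideal.Quotient.lift _ w h ((WittVector.quotientPEquiv (p := p) (k := k)).symm
    (x.coeff 0)) = w x
  rw [h1, Ideal.Quotient.lift_mk]

end

section

variable {A : Type*} [CommRing A] [IsLocalRing A] [IsArtinianRing A]

/-- reduction to the case where `p` is killed by the maximal ideal -/
lemma exists_max_ideal (q : A) (hq : q ≠ 0) : ∃ I : Ideal A, q ∉ I ∧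
    ∀ x ∈ IsLocalRing.maximalIdeal A, x * q ∈ I := by
  let T : Set (Ideal A) := {I | q ∉ I}
  have hT : T.Nonempty := ⟨⊥, by simpa [T] using hq⟩
  obtain ⟨I, hI, hmax⟩ := WellFounded.has_min (wellFounded_gt (α := Ideal A)) T hT
  refine ⟨I, hI, ?_⟩
  intro x hx
  by_contra hcon
  have h1 : I < I ⊔ Ideal.span {x * q} := by
    refine lt_of_le_of_ne le_sup_left ?_
    intro he
    apply hcon
    rw [he]
    exact Ideal.mem_sup_right (Ideal.mem_span_singleton_self _)
  have h2 : q ∈ I ⊔ Ideal.span {x * q} := by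
    by_contra h3
    exact hmax _ h3 h1
  rw [Submodule.mem_sup] at h2
  obtain ⟨i, hi, y, hy, e⟩ := h2
  rw [Ideal.mem_span_singleton] at hy
  obtain ⟨a, rfl⟩ := hy
  have h3 : (1 - x * a) * q = i := by
    linear_combination -e
  have h4 : IsUnit (1 - x * a) := by
    by_contra h5
    have h6 : 1 - x * a ∈ IsLocalRing.maximalIdeal A := h5
    have h7 : (1 : A) ∈ IsLocalRing.maximalIdeal A := by
      have := add_mem h6 (Ideal.mul_mem_right a _ hx)
      rwa [sub_add_cancel] at this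
    exact (Ideal.ne_top_iff_one _).mp (IsLocalRing.maximalIdeal.isMaximal A).ne_top h7
  apply hI
  rw [← h3] at hi
  exact (Ideal.unit_mul_mem_iff_mem _ h4).mp hi

end

section

open MvPolynomial

variable {k : Type*} [Field k] {ι : Type*} [Fintype ι] [DecidableEq ι]
  {F : Type*} [Field F] [Algebra k F]
  [Algebra (SS k ι) F] [IsScalarTower k (SS k ι) F]
  [IsFractionRing (SS k ι) F]
variable (p : ℕ) [Fact p.Prime] [CharP k p]
variable {L : Type*} [Field L] [Algebra F L] [Algebra k L] [IsScalarTower k F L] {s : L}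
variable [Infinite k] {hs : Transcendental F s} {cf : Cfg ι} {hk2 : (2 : k) ≠ 0}
  {hk3 : (3 : k) ≠ 0}
  {A : Type*} [CommRing A] [IsLocalRing A] [IsArtinianRing A] {K : Type*} [CommRing K]
  [Algebra A K]

lemma natCast_mem_max {C : Type*} {E : Type*} [Field E] [Algebra k E] {𝒜 : Atl k E C}
    (S : Sys 𝒜 A K) : (p : A) ∈ IsLocalRing.maximalIdeal A := by
  rw [← S.res_eq_zero, map_natCast, CharP.cast_eq_zero]

/-- No deformation of Totaro's variety over a ring with `p ≠ 0`. -/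
theorem p_eq_zero [PerfectRing k p] (S : Sys (atlX p hs cf hk2 hk3) A K)
    (w : WittVector p k →+* A) (hw : ∀ x, S.res (w x) = x.coeff 0) : (p : A) = 0 := by
  by_contra hp0
  obtain ⟨I, hI, hIm⟩ := exists_max_ideal (p : A) hp0
  have hI' : Nontrivial (A ⧸ I) := by
    rw [Ideal.Quotient.nontrivial_iff]
    intro htop
    apply hI
    rw [htop]; trivial
  -- the quotient
  set S1 := S.quot I with hS1
  have hp1 : (p : A ⧸ I) ≠ 0 := by
    intro h
    apply hI
    rw [← Ideal.Quotient.eq_zero_iff_mem, map_natCast]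
    exact h
  have hpm : ∀ x ∈ IsLocalRing.maximalIdeal (A ⧸ I), x * (p : A ⧸ I) = 0 := by
    intro x hx
    obtain ⟨x, rfl⟩ := Ideal.Quotient.mk_surjective x
    have := hIm x (Sys.mem_max_quot.mp hx)
    rw [← Ideal.Quotient.eq_zero_iff_mem, map_mul, map_natCast] at this
    exact this
  have hpmem : (p : A ⧸ I) ∈ IsLocalRing.maximalIdeal (A ⧸ I) := natCast_mem_max p S1
  have hI2 : Nontrivial ((A ⧸ I) ⧸ Ideal.span {(p : A ⧸ I)}) := by
    rw [Ideal.Quotient.nontrivial_iff]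
    intro htop
    have h1 : Ideal.span {(p : A ⧸ I)} ≤ IsLocalRing.maximalIdeal (A ⧸ I) := by
      rw [Ideal.span_singleton_le_iff_mem]; exact hpmem
    rw [htop, top_le_iff] at h1
    exact (IsLocalRing.maximalIdeal.isMaximal (A ⧸ I)).ne_top h1
  set S2 := S1.quot (Ideal.span {(p : A ⧸ I)}) with hS2
  obtain ⟨j, hj⟩ := exists_j p (k := k)
    ((Ideal.Quotient.mk (Ideal.span {(p : A ⧸ I)})).comp ((Ideal.Quotient.mk I).comp w)) (by
      rw [← map_natCast (Ideal.Quotient.mk (Ideal.span {(p : A ⧸ I)})),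
        Ideal.Quotient.eq_zero_iff_mem]
      exact Ideal.mem_span_singleton_self _)
  have hj2 : ∀ c, S2.res (j c) = c := by
    intro c
    have h1 := hj (WittVector.teichmuller p c)
    rw [WittVector.teichmuller_coeff_zero] at h1
    rw [h1]
    change S.res (w _) = c
    rw [hw, WittVector.teichmuller_coeff_zero]
  have : Nonempty (Ch ι) := ⟨(cf.K1, 0)⟩
  obtain ⟨Θ, hΘ1, -, hΘ2⟩ := S2.trivial_of_algebra j hj2
  have T : S1.PD p :=
    { hp := Fact.out
      hp0 := hp1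
      hpm := hpm
      hpmem := hpmem
      Θ := Θ
      Θρ := by
        intro y z hz
        rw [← hΘ1 y, ← hz]
        rfl
      ΘB := by
        intro a b y hy
        obtain ⟨z, hz, e⟩ := hΘ2 a b y hy
        exact ⟨z, hz, e⟩ }
  exact no_PD p T

/-- Deformations of Totaro's variety are trivial. -/
theorem trivial_def [PerfectRing k p] (S : Sys (atlX p hs cf hk2 hk3) A K)
    (w : WittVector p k →+* A) (hw : ∀ x, S.res (w x) = x.coeff 0) :
    ∃ (j : k →+* A) (Θ : EE k ι F p s →+* K), (∀ x, j (x.coeff 0) = w x) ∧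
      (∀ y, S.ρ (Θ y) = y) ∧
      (∀ c, Θ (algebraMap k _ c) = algebraMap A K (j c)) ∧
      ∀ a b, ∀ y ∈ PE k F p s a b, Θ y ∈ S.B a b := by
  obtain ⟨j, hj⟩ := exists_j p w (p_eq_zero p S w hw)
  have hj2 : ∀ c, S.res (j c) = c := by
    intro c
    have h1 := hj (WittVector.teichmuller p c)
    rw [WittVector.teichmuller_coeff_zero] at h1
    rw [h1, hw, WittVector.teichmuller_coeff_zero]
  have : Nonempty (Ch ι) := ⟨(cf.K1, 0)⟩
  obtain ⟨Θ, hΘ1, hΘ3, hΘ2⟩ := S.trivial_of_algebra j hj2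
  exact ⟨j, Θ, hj, hΘ1, hΘ3, hΘ2⟩

end

end Pool.Agent.Totaro

end
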