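import Mathlib

set_option linter.unusedSectionVars false

namespace Pool.Agent.Totaro

open Matrix

section Grp

variable {k : Type*} [Field k]

/-- diagonal matrix -/
def gD (a b : kˣ) : GL (Fin 2) k :=
  ⟨!![(a : k), 0; 0, (b : k)], !![((a⁻¹ : kˣ) : k), 0; 0, ((b⁻¹ : kˣ) : k)],
    by ext i j; fin_cases i <;> fin_cases j <;> simp [Matrix.mul_apply, Fin.sum_univ_two],
    by ext i j; fin_cases i <;> fin_cases j <;> simp [Matrix.mul_apply, Fin.sum_univ_two]⟩

/-- upper unipotent matrix -/
def gU (a : k) : GL (Fin 2) k :=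
  ⟨!![1, a; 0, 1], !![1, -a; 0, 1],
    by ext i j; fin_cases i <;> fin_cases j <;> simp [Matrix.mul_apply, Fin.sum_univ_two],
    by ext i j; fin_cases i <;> fin_cases j <;> simp [Matrix.mul_apply, Fin.sum_univ_two]⟩

/-- lower unipotent matrix -/
def gL (a : k) : GL (Fin 2) k :=
  ⟨!![1, 0; a, 1], !![1, 0; -a, 1],
    by ext i j; fin_cases i <;> fin_cases j <;> simp [Matrix.mul_apply, Fin.sum_univ_two],
    by ext i j; fin_cases i <;> fin_cases j <;> simp [Matrix.mul_apply, Fin.sum_univ_two]⟩

/-- swap matrix -/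
def gP : GL (Fin 2) k :=
  ⟨!![0, 1; 1, 0], !![0, 1; 1, 0],
    by ext i j; fin_cases i <;> fin_cases j <;> simp [Matrix.mul_apply, Fin.sum_univ_two],
    by ext i j; fin_cases i <;> fin_cases j <;> simp [Matrix.mul_apply, Fin.sum_univ_two]⟩

@[simp] lemma gD_val (a b : kˣ) : ((gD a b : GL (Fin 2) k) : Matrix (Fin 2) (Fin 2) k) =
  !![(a : k), 0; 0, (b : k)] := rfl
@[simp] lemma gU_val (a : k) : ((gU a : GL (Fin 2) k) : Matrix (Fin 2) (Fin 2) k) =
  !![1, a; 0, 1] := rfl
@[simp] lemma gL_val (a : k) : ((gL a : GL (Fin 2) k) : Matrix (Fin 2) (Fin 2) k) =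
  !![1, 0; a, 1] := rfl
@[simp] lemma gP_val : ((gP : GL (Fin 2) k) : Matrix (Fin 2) (Fin 2) k) =
  !![0, 1; 1, 0] := rfl

/-- the matrix `φ(g)` -/
def frobM (φ : k →+* k) (g : GL (Fin 2) k) : Matrix (Fin 2) (Fin 2) k :=
  (g : Matrix (Fin 2) (Fin 2) k).map φ

lemma frobM_mul (φ : k →+* k) (g h : GL (Fin 2) k) :
    frobM φ (g * h) = frobM φ g * frobM φ h := by
  simp [frobM, Matrix.map_mul]

lemma frobM_det (φ : k →+* k) (g : GL (Fin 2) k) : (frobM φ g).det ≠ 0 := by
  have : (frobM φ g).det = φ (g : Matrix (Fin 2) (Fin 2) k).det := by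
    simp [frobM, RingHom.map_det]
  rw [this]
  intro h
  have h2 : (g : Matrix (Fin 2) (Fin 2) k).det ≠ 0 := by
    have := g.isUnit.map (Matrix.detMonoidHom (n := Fin 2) (R := k))
    simpa using this.ne_zero
  exact h2 (φ.injective (by rw [h, map_zero]))

lemma frobM_cancel (φ : k →+* k) (g : GL (Fin 2) k) {A B : Matrix (Fin 2) (Fin 2) k}
    (h : frobM φ g * A = frobM φ g * B) : A = B := by
  have hu : IsUnit (frobM φ g) := by
    rw [Matrix.isUnit_iff_isUnit_det]
    exact (frobM_det φ g).isUnit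
  exact hu.mul_left_cancel h

/-- The (twisted) cocycle relation. -/
def IsCoc (φ : k →+* k) (ψ : GL (Fin 2) k → GL (Fin 2) k → Matrix (Fin 2) (Fin 2) k)
    (c : GL (Fin 2) k → Matrix (Fin 2) (Fin 2) k) : Prop :=
  ∀ g h, frobM φ h * c (g * h) = c g * frobM φ h + frobM φ h * (c h + ψ g h)

variable {φ : k →+* k} {ψ : GL (Fin 2) k → GL (Fin 2) k → Matrix (Fin 2) (Fin 2) k}
  {c : GL (Fin 2) k → Matrix (Fin 2) (Fin 2) k}

lemma coc_torus_left (hc : IsCoc φ ψ c) (hT : ∀ a b, c (gD a b) = 0)
    (hψ : ∀ a b g, ψ (gD a b) g = 0) (a b : kˣ) (g : GL (Fin 2) k) :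
    c (gD a b * g) = c g := by
  have h := hc (gD a b) g
  rw [hT, hψ, zero_mul, zero_add, add_zero] at h
  exact frobM_cancel φ g h

lemma coc_torus_right (hc : IsCoc φ ψ c) (hT : ∀ a b, c (gD a b) = 0)
    (hψ : ∀ a b g, ψ g (gD a b) = 0) (a b : kˣ) (g : GL (Fin 2) k) :
    frobM φ (gD a b) * c (g * gD a b) = c g * frobM φ (gD a b) := by
  have h := hc g (gD a b)
  rwa [hT, hψ, add_zero, mul_zero, add_zero] at h

/-- Shape of the cocycle on the upper unipotent subgroup. -/
lemma coc_unip (hc : IsCoc φ ψ c) (hT : ∀ a b, c (gD a b) = 0)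
    (hψ1 : ∀ a b g, ψ (gD a b) g = 0) (hψ2 : ∀ a b g, ψ g (gD a b) = 0)
    (ω : k → k → k) (hω : ∀ a b, ψ (gU a) (gU b) = !![0, ω a b; 0, 0])
    (h2 : (2 : k) ≠ 0) (h3 : (3 : k) ≠ 0) :
    ∃ κ : k, (∀ a : k, a ≠ 0 → c (gU a) = !![0, κ * φ a; 0, 0]) ∧
      ∀ a b : k, a ≠ 0 → b ≠ 0 → a + b ≠ 0 → ω a b = 0 := by
  -- weights
  have hw : ∀ s : kˣ, c (gU (s : k)) =
      !![c (gU 1) 0 0, c (gU 1) 0 1 * φ s; c (gU 1) 1 0 * φ (s : k)⁻¹, c (gU 1) 1 1] := by
    intro s
    have e1 : gU (1 : k) * gD 1 s = gD 1 s * gU (s : k) := by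
      apply Units.ext
      ext i j
      fin_cases i <;> fin_cases j <;> simp [Matrix.mul_apply, Fin.sum_univ_two]
    have e2 := coc_torus_right hc hT hψ2 1 s (gU 1)
    rw [e1, coc_torus_left hc hT hψ1] at e2
    have hs : φ (s : k) ≠ 0 := by simp
    have h00 := congrFun (congrFun e2 0) 0
    have h01 := congrFun (congrFun e2 0) 1
    have h10 := congrFun (congrFun e2 1) 0
    have h11 := congrFun (congrFun e2 1) 1
    simp only [frobM, gD_val, Matrix.mul_apply, Fin.sum_univ_two, Matrix.map_apply,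
      Matrix.of_apply, Matrix.cons_val', Matrix.cons_val_zero, Matrix.cons_val_one,
      Matrix.cons_val_fin_one, Units.val_one, map_one, map_zero, mul_one, one_mul, mul_zero,
      zero_mul, add_zero, zero_add] at h00 h01 h10 h11
    ext i j
    fin_cases i <;> fin_cases j
    · simpa using h00
    · simpa using h01
    · simp only [map_inv₀]
      simp only [Fin.mk_one, Fin.zero_eta, Matrix.of_apply, Matrix.cons_val', Matrix.cons_val_zero,
        Matrix.cons_val_one, Matrix.cons_val_fin_one]
      rw [← h10]; field_simp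
    · have := mul_left_cancel₀ hs (h11.trans (mul_comm _ _))
      simpa using this
  -- additivity
  have hadd : ∀ a b : k, gU a * gU b = gU (a + b) := by
    intro a b
    apply Units.ext
    ext i j
    fin_cases i <;> fin_cases j <;> simp [Matrix.mul_apply, Fin.sum_univ_two, add_comm]
  have key : ∀ a b : k, frobM φ (gU b) * c (gU (a + b)) =
      c (gU a) * frobM φ (gU b) + frobM φ (gU b) * (c (gU b) + !![0, ω a b; 0, 0]) := by
    intro a b
    have := hc (gU a) (gU b)
    rwa [hadd, hω] at this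
  have key' : ∀ a b : k, a ≠ 0 → b ≠ 0 → a + b ≠ 0 →
      (c (gU 1) 1 0 * (φ (a + b))⁻¹ = c (gU 1) 1 0 * (φ a)⁻¹ + c (gU 1) 1 0 * (φ b)⁻¹) ∧
      (c (gU 1) 0 0 + φ b * (c (gU 1) 1 0 * (φ (a + b))⁻¹) = c (gU 1) 0 0 +
        (c (gU 1) 0 0 + φ b * (c (gU 1) 1 0 * (φ b)⁻¹))) ∧
      (c (gU 1) 1 1 = c (gU 1) 1 0 * (φ a)⁻¹ * φ b + c (gU 1) 1 1 + c (gU 1) 1 1) ∧
      (c (gU 1) 0 1 * φ (a + b) + φ b * c (gU 1) 1 1 =
        c (gU 1) 0 0 * φ b + c (gU 1) 0 1 * φ a +
          (c (gU 1) 0 1 * φ b + ω a b + φ b * c (gU 1) 1 1)) := by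
    intro a b ha hb hab
    have := key a b
    have wa := hw (Units.mk0 a ha)
    have wb := hw (Units.mk0 b hb)
    have wab := hw (Units.mk0 (a + b) hab)
    simp only [Units.val_mk0] at wa wb wab
    rw [wa, wb, wab] at this
    have h00 := congrFun (congrFun this 0) 0
    have h01 := congrFun (congrFun this 0) 1
    have h10 := congrFun (congrFun this 1) 0
    have h11 := congrFun (congrFun this 1) 1
    simp only [frobM, gU_val, Matrix.mul_apply, Fin.sum_univ_two, Matrix.map_apply,
      Matrix.of_apply, Matrix.cons_val', Matrix.cons_val_zero, Matrix.cons_val_one,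
      Matrix.cons_val_fin_one, map_one, map_zero, mul_one, one_mul, mul_zero,
      zero_mul, add_zero, zero_add, Matrix.add_apply, map_inv₀] at h00 h01 h10 h11
    refine ⟨h10, h00, ?_, ?_⟩
    · exact h11
    · exact h01
  have h11' : (1 : k) + 1 ≠ 0 := by rwa [one_add_one_eq_two]
  have hφ2 : φ (1 + 1) = 2 := by rw [map_add, map_one, one_add_one_eq_two]
  obtain ⟨ha, hb, hcc, -⟩ := key' 1 1 one_ne_zero one_ne_zero h11'
  rw [hφ2, map_one, inv_one] at ha hb
  rw [map_one, inv_one] at hcc
  have k10 : c (gU 1) 1 0 = 0 := by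
    have : (3 : k) * c (gU 1) 1 0 = 0 := by
      field_simp at ha
      linear_combination -ha
    rcases mul_eq_zero.mp this with h | h
    · exact absurd h h3
    · exact h
  have k00 : c (gU 1) 0 0 = 0 := by
    rw [k10] at hb
    linear_combination -hb
  have k11 : c (gU 1) 1 1 = 0 := by
    rw [k10] at hcc
    linear_combination -hcc
  refine ⟨c (gU 1) 0 1, ?_, ?_⟩
  · intro a ha
    have := hw (Units.mk0 a ha)
    simp only [Units.val_mk0] at this
    rw [this, k10, k00, k11]
    simp
  · intro a b ha hb hab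
    obtain ⟨-, -, -, h4⟩ := key' a b ha hb hab
    rw [k00, k11, map_add] at h4
    linear_combination -h4

lemma coc_unip_zero (hc : IsCoc φ (fun _ _ => 0) c) (hT : ∀ a b, c (gD a b) = 0)
    (h2 : (2 : k) ≠ 0) (h3 : (3 : k) ≠ 0) :
    ∃ κ : k, ∀ a : k, c (gU a) = !![0, κ * φ a; 0, 0] := by
  obtain ⟨κ, hκ, -⟩ := coc_unip hc hT (fun _ _ _ => rfl) (fun _ _ _ => rfl) (fun _ _ => 0)
    (fun a b => by ext i j; fin_cases i <;> fin_cases j <;> simp) h2 h3
  refine ⟨κ, fun a => ?_⟩
  by_cases ha : a = 0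
  · subst ha
    have h1 : (gU (0 : k)) = gD 1 1 := by
      apply Units.ext
      ext i j
      fin_cases i <;> fin_cases j <;> simp
    rw [h1, hT]
    ext i j
    fin_cases i <;> fin_cases j <;> simp
  · exact hκ a ha

lemma coc_swap (hc : IsCoc φ (fun _ _ => 0) c) :
    IsCoc φ (fun _ _ => 0) (fun g => (gP : GL (Fin 2) k).val * c (gP * g * gP) *
      (gP : GL (Fin 2) k).val) := by
  have hPP : (gP : GL (Fin 2) k) * gP = 1 := by
    apply Units.ext
    ext i j
    fin_cases i <;> fin_cases j <;> simp [Matrix.mul_apply, Fin.sum_univ_two]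
  have hPPv : (gP : GL (Fin 2) k).val * (gP : GL (Fin 2) k).val = 1 := by
    have := congrArg Units.val hPP
    simpa using this
  have hfP : frobM φ (gP : GL (Fin 2) k) = (gP : GL (Fin 2) k).val := by
    ext i j
    fin_cases i <;> fin_cases j <;> simp [frobM]
  intro g h
  have e1 : gP * (g * h) * gP = (gP * g * gP) * (gP * h * gP) := by
    calc gP * (g * h) * gP = gP * g * 1 * h * gP := by group
      _ = gP * g * (gP * gP) * h * gP := by rw [hPP]
      _ = _ := by group
  have h1 := hc (gP * g * gP) (gP * h * gP)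
  rw [← e1] at h1
  simp only [frobM_mul, hfP] at h1
  set P := (gP : GL (Fin 2) k).val
  have h2 := congrArg (fun A => P * A * P) h1
  simp only [add_zero] at h2 ⊢
  have s1 : P * (P * frobM φ h * P * c (gP * (g * h) * gP)) * P =
      frobM φ h * (P * c (gP * (g * h) * gP) * P) := by
    calc _ = (P * P) * frobM φ h * P * c (gP * (g * h) * gP) * P := by noncomm_ring
      _ = _ := by rw [hPPv]; noncomm_ring
  have s2 : P * (c (gP * g * gP) * (P * frobM φ h * P) + P * frobM φ h * P * c (gP * h * gP)) * P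
      = P * c (gP * g * gP) * P * frobM φ h + frobM φ h * (P * c (gP * h * gP) * P) := by
    calc _ = P * c (gP * g * gP) * P * frobM φ h * (P * P) +
          (P * P) * frobM φ h * P * c (gP * h * gP) * P := by noncomm_ring
      _ = _ := by rw [hPPv]; noncomm_ring
  rw [← s1, ← s2]
  exact h2

/-- coboundaries are cocycles -/
lemma coc_sub_cob (hc : IsCoc φ (fun _ _ => 0) c) (m : Matrix (Fin 2) (Fin 2) k)
    (c' : GL (Fin 2) k → Matrix (Fin 2) (Fin 2) k)
    (hc' : ∀ g, frobM φ g * c' g = frobM φ g * c g - (m * frobM φ g - frobM φ g * m)) :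
    IsCoc φ (fun _ _ => 0) c' := by
  intro g h
  apply frobM_cancel φ g
  have e1 := hc' (g * h)
  have e2 := hc' g
  have e3 := hc' h
  have e4 := hc g h
  rw [frobM_mul] at e1
  simp only [add_zero] at e4 ⊢
  calc frobM φ g * (frobM φ h * c' (g * h)) = frobM φ g * frobM φ h * c' (g * h) := by
        noncomm_ring
    _ = frobM φ g * (frobM φ h * c (g * h)) -
          (m * (frobM φ g * frobM φ h) - frobM φ g * frobM φ h * m) := by
        rw [e1]; noncomm_ring
    _ = (frobM φ g * c g - (m * frobM φ g - frobM φ g * m)) * frobM φ h +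
          frobM φ g * (frobM φ h * c h - (m * frobM φ h - frobM φ h * m)) := by
        rw [e4]; noncomm_ring
    _ = _ := by rw [← e2, ← e3]; noncomm_ring

/-- A cocycle `GL_2(k) → M_2(k)` for the action of `GL_2` through `φ` which is trivial on the
diagonal torus is the coboundary of a diagonal matrix. -/
theorem coc_trivial (hc : IsCoc φ (fun _ _ => 0) c) (hT : ∀ a b, c (gD a b) = 0)
    (h2 : (2 : k) ≠ 0) (h3 : (3 : k) ≠ 0) :
    ∃ m : Matrix (Fin 2) (Fin 2) k, ∀ g, frobM φ g * c g = m * frobM φ g - frobM φ g * m := by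
  obtain ⟨κ, hκ⟩ := coc_unip_zero hc hT h2 h3
  refine ⟨!![κ, 0; 0, 0], ?_⟩
  set m : Matrix (Fin 2) (Fin 2) k := !![κ, 0; 0, 0] with hm
  -- the corrected cocycle
  let c' : GL (Fin 2) k → Matrix (Fin 2) (Fin 2) k := fun g =>
    c g - ((frobM φ g)⁻¹ * m * frobM φ g - m)
  have hinv : ∀ g, frobM φ g * (frobM φ g)⁻¹ = 1 := fun g =>
    Matrix.mul_nonsing_inv _ (frobM_det φ g).isUnit
  have hc'rel : ∀ g, frobM φ g * c' g = frobM φ g * c g - (m * frobM φ g - frobM φ g * m) := by
    intro g
    calc frobM φ g * c' g = frobM φ g * c g -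
          ((frobM φ g * (frobM φ g)⁻¹) * m * frobM φ g - frobM φ g * m) := by
            simp only [c']; noncomm_ring
      _ = _ := by rw [hinv, one_mul]
  have hc' : IsCoc φ (fun _ _ => 0) c' := coc_sub_cob hc m c' hc'rel
  have hT' : ∀ a b, c' (gD a b) = 0 := by
    intro a b
    apply frobM_cancel φ (gD a b)
    rw [hc'rel, hT]
    ext i j
    fin_cases i <;> fin_cases j <;>
    simp [frobM, m, Matrix.mul_apply, Matrix.vecMul, dotProduct, Fin.sum_univ_two, mul_comm]
  have hU' : ∀ a, c' (gU a) = 0 := by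
    intro a
    apply frobM_cancel φ (gU a)
    rw [hc'rel, hκ]
    ext i j
    fin_cases i <;> fin_cases j <;>
    simp [frobM, m, Matrix.mul_apply, Matrix.vecMul, dotProduct, Fin.sum_univ_two]
  -- the lower unipotents
  have hL'' : ∃ κ' : k, ∀ a : k, c' (gL a) = !![0, 0; κ' * φ a, 0] := by
    obtain ⟨κ', hκ'⟩ := coc_unip_zero (coc_swap hc') (by
      intro a b
      have : gP * gD a b * gP = gD b a := by
        apply Units.ext
        ext i j
        fin_cases i <;> fin_cases j <;> simp [Matrix.mul_apply, Fin.sum_univ_two]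
      simp only [this, hT']
      simp) h2 h3
    refine ⟨κ', fun a => ?_⟩
    have e1 : gP * gU a * gP = gL a := by
      apply Units.ext
      ext i j
      fin_cases i <;> fin_cases j <;> simp [Matrix.mul_apply, Fin.sum_univ_two]
    have h := hκ' a
    simp only [e1] at h
    have h00 := congrFun (congrFun h 0) 0
    have h01 := congrFun (congrFun h 0) 1
    have h10 := congrFun (congrFun h 1) 0
    have h11 := congrFun (congrFun h 1) 1
    simp [Matrix.mul_apply, Matrix.vecMul, dotProduct, Fin.sum_univ_two] at h00 h01 h10 h11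
    ext i j
    fin_cases i <;> fin_cases j
    · simpa using h11
    · simpa using h10
    · simpa using h01
    · simpa using h00
  obtain ⟨κ', hκ'⟩ := hL''
  -- the Weyl element
  have hUL : c' (gU 1 * gL (-1)) = c' (gL (-1)) := by
    have := hc' (gU 1) (gL (-1))
    rw [hU'] at this
    simp only [zero_mul, zero_add, add_zero] at this
    exact frobM_cancel φ _ this
  have hw1 : frobM φ (gU 1) * c' (gU 1 * gL (-1) * gU 1) = c' (gL (-1)) * frobM φ (gU 1) := by
    have := hc' (gU 1 * gL (-1)) (gU 1)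
    rw [hU', hUL] at this
    simpa using this
  have hk : κ' = 0 := by
    set w := gU 1 * gL (-1) * gU (1 : k) with hw
    have hwt : w * gD 1 (Units.mk0 2 h2) = gD (Units.mk0 2 h2) 1 * w := by
      apply Units.ext
      ext i j
      fin_cases i <;> fin_cases j <;> simp [hw, Matrix.mul_apply, Fin.sum_univ_two]
    have h1 := coc_torus_right hc' hT' (fun _ _ _ => rfl) 1 (Units.mk0 2 h2) w
    rw [hwt, coc_torus_left hc' hT' (fun _ _ _ => rfl)] at h1
    have h01 := congrFun (congrFun h1 0) 1
    simp only [frobM, gD_val, Matrix.mul_apply, Fin.sum_univ_two, Matrix.map_apply,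
      Matrix.of_apply, Matrix.cons_val', Matrix.cons_val_zero, Matrix.cons_val_one,
      Matrix.cons_val_fin_one, Units.val_one, map_one, map_zero, mul_one, one_mul, mul_zero,
      zero_mul, add_zero, zero_add, Units.val_mk0] at h01
    have hφ2 : φ 2 = 2 := by
      rw [← one_add_one_eq_two, map_add, map_one]
    rw [hφ2] at h01
    have hw01 : c' w 0 1 = 0 := by linear_combination -h01
    rw [hκ'] at hw1
    have g01 := congrFun (congrFun hw1 0) 1
    have g11 := congrFun (congrFun hw1 1) 1
    have g10 := congrFun (congrFun hw1 1) 0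
    simp only [frobM, gU_val, Matrix.mul_apply, Fin.sum_univ_two, Matrix.map_apply,
      Matrix.of_apply, Matrix.cons_val', Matrix.cons_val_zero, Matrix.cons_val_one,
      Matrix.cons_val_fin_one, map_one, map_zero, mul_one, one_mul, mul_zero,
      zero_mul, add_zero, zero_add, map_neg] at g01 g11 g10
    rw [hw01] at g01
    linear_combination g11 - g01
  have hL' : ∀ a, c' (gL a) = 0 := by
    intro a
    rw [hκ', hk]
    ext i j
    fin_cases i <;> fin_cases j <;> simp
  -- generation
  have hmul : ∀ g h, c' g = 0 → c' h = 0 → c' (g * h) = 0 := by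
    intro g h hg hh
    have := hc' g h
    rw [hg, hh] at this
    simp only [zero_mul, zero_add, add_zero] at this
    exact frobM_cancel φ h (by rw [this, mul_zero])
  have hall : ∀ g, c' g = 0 := by
    intro g
    have hdet : (g : Matrix (Fin 2) (Fin 2) k).det ≠ 0 := by
      have := g.isUnit.map (Matrix.detMonoidHom (n := Fin 2) (R := k))
      simpa using this.ne_zero
    have key := Matrix.diagonal_transvection_induction_of_det_ne_zero
      (fun M : Matrix (Fin 2) (Fin 2) k => ∀ g : GL (Fin 2) k, g.val = M → c' g = 0)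
      g.val hdet ?_ ?_ ?_
    · exact key g rfl
    · intro D hD g hg
      rw [Matrix.det_diagonal, Fin.prod_univ_two] at hD
      have hD0 : D 0 ≠ 0 := left_ne_zero_of_mul hD
      have hD1 : D 1 ≠ 0 := right_ne_zero_of_mul hD
      have : g = gD (Units.mk0 _ hD0) (Units.mk0 _ hD1) := by
        apply Units.ext
        rw [hg]
        ext i j
        fin_cases i <;> fin_cases j <;> simp
      rw [this, hT']
    · intro t g hg
      obtain ⟨i, j, hij, a⟩ := t
      fin_cases i <;> fin_cases j
      · exact absurd rfl hij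
      · have : g = gU a := by
          apply Units.ext
          rw [hg]
          ext i j
          fin_cases i <;> fin_cases j <;> simp [Matrix.TransvectionStruct.toMatrix,
            Matrix.transvection]
        rw [this, hU']
      · have : g = gL a := by
          apply Units.ext
          rw [hg]
          ext i j
          fin_cases i <;> fin_cases j <;> simp [Matrix.TransvectionStruct.toMatrix,
            Matrix.transvection]
        rw [this, hL']
      · exact absurd rfl hij
    · intro A B hA hB PA PB g hg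
      let gA : GL (Fin 2) k := Matrix.GeneralLinearGroup.mkOfDetNeZero A hA
      let gB : GL (Fin 2) k := Matrix.GeneralLinearGroup.mkOfDetNeZero B hB
      have : g = gA * gB := by
        apply Units.ext
        rw [hg]; rfl
      rw [this]
      exact hmul _ _ (PA gA rfl) (PB gB rfl)
  intro g
  have := hc'rel g
  rw [hall, mul_zero] at this
  exact (sub_eq_zero.mp this.symm)

end Grp

end Pool.Agent.Totaro
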