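import Pool.Agent.TotaroVar.A01Loc
import Pool.Agent.TotaroVar.A02Group

/-! ## Act -/

section

set_option linter.unusedSectionVars false

namespace Pool.Agent.Totaro

open MvPolynomial Matrix

section Act

variable {k : Type*} [Field k] {ι : Type*}

/-- The substitution `x ↦ g x` on `k[x_{ri}]`. -/
noncomputable def sigS (ι : Type*) (g : Matrix (Fin 2) (Fin 2) k) : SS k ι →ₐ[k] SS k ι :=
  aeval (fun v => ∑ s, C (g v.1 s) * X (s, v.2))

lemma sigS_X (g : Matrix (Fin 2) (Fin 2) k) (r : Fin 2) (i : ι) :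
    sigS ι g (X (r, i)) = ∑ s, C (g r s) * X (s, i) := by
  simp [sigS]

lemma sigS_comp (g h : Matrix (Fin 2) (Fin 2) k) (s : SS k ι) :
    sigS ι h (sigS ι g s) = sigS ι (g * h) s := by
  have : (sigS ι h).comp (sigS ι g) = sigS ι (g * h) := by
    apply MvPolynomial.algHom_ext
    rintro ⟨r, i⟩
    simp only [AlgHom.comp_apply, sigS_X, map_mul, Fin.sum_univ_two, Matrix.mul_apply,
      map_add]
    have hC : ∀ c : k, sigS ι h (C c) = C c := fun c => by
      rw [← MvPolynomial.algebraMap_eq, AlgHom.commutes]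
    simp only [hC]
    ring
  exact congrArg (fun f => f s) this

lemma sigS_one (s : SS k ι) : sigS ι (1 : Matrix (Fin 2) (Fin 2) k) s = s := by
  have : sigS ι (1 : Matrix (Fin 2) (Fin 2) k) = AlgHom.id k _ := by
    apply MvPolynomial.algHom_ext
    rintro ⟨r, i⟩
    rw [sigS_X, Fin.sum_univ_two]
    fin_cases r
    · change C ((1 : Matrix (Fin 2) (Fin 2) k) 0 0) * X (0, i) +
        C ((1 : Matrix (Fin 2) (Fin 2) k) 0 1) * X (1, i) = X (0, i)
      simp
    · change C ((1 : Matrix (Fin 2) (Fin 2) k) 1 0) * X (0, i) +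
        C ((1 : Matrix (Fin 2) (Fin 2) k) 1 1) * X (1, i) = X (1, i)
      simp
  rw [this]; rfl

lemma sigS_mnr (g : Matrix (Fin 2) (Fin 2) k) (J : Fin 2 → ι) :
    sigS ι g (mnr k J) = C g.det * mnr k J := by
  simp only [mnr, map_sub, map_mul, sigS_X, Fin.sum_univ_two, Matrix.det_fin_two]
  ring

lemma eval_sigS (g : Matrix (Fin 2) (Fin 2) k) (s : SS k ι) (y : Fin 2 × ι → k) :
    eval y (sigS ι g s) = eval (fun v => ∑ r, g v.1 r * y (r, v.2)) s := by
  have : (aeval y : SS k ι →ₐ[k] k).comp (sigS ι g) =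
      aeval (fun v : Fin 2 × ι => ∑ r, g v.1 r * y (r, v.2)) := by
    apply MvPolynomial.algHom_ext
    rintro ⟨r, i⟩
    simp [sigS_X, Fin.sum_univ_two]
  have := congrArg (fun f => f s) this
  simpa [MvPolynomial.coe_aeval_eq_eval] using this

variable (F : Type*) [Field F] [Algebra k F]
  [Algebra (SS k ι) F] [IsScalarTower k (SS k ι) F]
  [IsFractionRing (SS k ι) F]

lemma sigS_inj (g : GL (Fin 2) k) : Function.Injective (sigS ι (g : Matrix (Fin 2) (Fin 2) k)) := by
  intro a b hab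
  have h := congrArg (sigS ι ((g⁻¹ : GL (Fin 2) k) : Matrix (Fin 2) (Fin 2) k)) hab
  rw [sigS_comp, sigS_comp, ← Units.val_mul, mul_inv_cancel, Units.val_one, sigS_one,
    sigS_one] at h
  exact h

/-- The action `σ_g : f(x) ↦ f(g x)` of `GL_2(k)` on the function field `F`. -/
noncomputable def sigF (g : GL (Fin 2) k) : F →+* F :=
  IsFractionRing.lift (A := SS k ι) (K := F) (L := F)
    (g := (algebraMap (SS k ι) F).comp (sigS ι (g : Matrix (Fin 2) (Fin 2) k)).toRingHom)
    ((IsFractionRing.injective (SS k ι) F).comp (sigS_inj g))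

variable {F}

@[simp] lemma sigF_algebraMap (g : GL (Fin 2) k) (s : SS k ι) :
    sigF (ι := ι) F g (algebraMap (SS k ι) F s) =
      algebraMap (SS k ι) F (sigS ι (g : Matrix (Fin 2) (Fin 2) k) s) := by
  simp [sigF]

@[simp] lemma sigF_const (g : GL (Fin 2) k) (c : k) :
    sigF (ι := ι) F g (algebraMap k F c) = algebraMap k F c := by
  rw [IsScalarTower.algebraMap_apply k (SS k ι) F, sigF_algebraMap, AlgHom.commutes]

lemma sigF_comp (g h : GL (Fin 2) k) (z : F) :
    sigF (ι := ι) F h (sigF (ι := ι) F g z) = sigF (ι := ι) F (g * h) z := by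
  obtain ⟨a, b, hb, rfl⟩ := IsFractionRing.div_surjective (A := SS k ι) z
  simp only [map_div₀, sigF_algebraMap, sigS_comp, Units.val_mul]

lemma sigF_one (z : F) : sigF (ι := ι) F (1 : GL (Fin 2) k) z = z := by
  obtain ⟨a, b, hb, rfl⟩ := IsFractionRing.div_surjective (A := SS k ι) z
  simp only [map_div₀, sigF_algebraMap, Units.val_one, sigS_one]

/-- The generic matrix over `F`. -/
noncomputable def xm (k : Type*) [Field k] (ι : Type*) (F : Type*) [Field F] [Algebra (SS k ι) F] :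
    Matrix (Fin 2) ι F :=
  Matrix.of fun r i => algebraMap (SS k ι) F (X (r, i))

/-- The `2×2` block `x_J`. -/
noncomputable def xJ (k : Type*) [Field k] {ι : Type*} (F : Type*) [Field F] [Algebra (SS k ι) F]
    (J : Fin 2 → ι) : Matrix (Fin 2) (Fin 2) F := (xm k ι F).submatrix id J

/-- The normalised matrix `Y_J = x_J⁻¹ x`. -/
noncomputable def YJ (k : Type*) [Field k] {ι : Type*} (F : Type*) [Field F] [Algebra (SS k ι) F]
    (J : Fin 2 → ι) : Matrix (Fin 2) ι F := (xJ k F J)⁻¹ * xm k ι F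

lemma xJ_det (J : Fin 2 → ι) : (xJ k F J).det = algebraMap (SS k ι) F (mnr k J) := by
  simp [xJ, xm, Matrix.det_fin_two, mnr]

lemma mnr_ne (J : Fin 2 → ι) (hJ : Function.Injective J) :
    algebraMap (SS k ι) F (mnr k J) ≠ 0 := by
  intro h
  exact mnr_ne_zero (k := k) J hJ (IsFractionRing.injective (SS k ι) F (by rw [h, map_zero]))

lemma xJ_isUnit (J : Fin 2 → ι) (hJ : Function.Injective J) : IsUnit (xJ k F J).det := by
  rw [xJ_det]; exact (mnr_ne J hJ).isUnit

lemma xJ_mul_YJ (J : Fin 2 → ι) (hJ : Function.Injective J) :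
    xJ k F J * YJ k F J = xm k ι F := by
  rw [YJ, ← Matrix.mul_assoc, Matrix.mul_nonsing_inv _ (xJ_isUnit J hJ), Matrix.one_mul]

lemma map_sigF_xm (g : GL (Fin 2) k) :
    (xm k ι F).map (sigF (ι := ι) F g) =
      (g : Matrix (Fin 2) (Fin 2) k).map (algebraMap k F) * xm k ι F := by
  ext r i
  simp only [Matrix.map_apply, xm, Matrix.of_apply, sigF_algebraMap, sigS_X, map_sum, map_mul,
    Matrix.mul_apply]
  apply Finset.sum_congr rfl
  intro s _
  rw [← MvPolynomial.algebraMap_eq, ← IsScalarTower.algebraMap_apply]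

lemma map_sigF_xJ (g : GL (Fin 2) k) (J : Fin 2 → ι) :
    (xJ k F J).map (sigF (ι := ι) F g) =
      (g : Matrix (Fin 2) (Fin 2) k).map (algebraMap k F) * xJ k F J := by
  have h := map_sigF_xm (F := F) (ι := ι) g
  ext r i
  have := congrFun (congrFun h r) (J i)
  simpa [xJ, Matrix.mul_apply] using this

lemma GL_det_ne (g : GL (Fin 2) k) : ((g : Matrix (Fin 2) (Fin 2) k)).det ≠ 0 := by
  have := g.isUnit.map (Matrix.detMonoidHom (n := Fin 2) (R := k))
  simpa using this.ne_zero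

lemma sigS_fprod (g : GL (Fin 2) k) (Js : Multiset (Fin 2 → ι)) :
    ∃ c : k, c ≠ 0 ∧ sigS ι (g : Matrix (Fin 2) (Fin 2) k) (fprod k Js) = C c * fprod k Js := by
  induction Js using Multiset.induction_on with
  | empty => exact ⟨1, one_ne_zero, by simp [fprod]⟩
  | cons J Js ih =>
    obtain ⟨c, hc, h⟩ := ih
    refine ⟨(g : Matrix (Fin 2) (Fin 2) k).det * c, mul_ne_zero (GL_det_ne g) hc, ?_⟩
    rw [← Multiset.singleton_add, fprod_add, map_mul, h, fprod_singleton, sigS_mnr, map_mul]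
    ring

lemma sigF_mem_Rsub (g : GL (Fin 2) k) {Js : Multiset (Fin 2 → ι)} {z : F}
    (hz : z ∈ Rsub (k := k) F Js) : sigF (ι := ι) F g z ∈ Rsub (k := k) F Js := by
  obtain ⟨c, hc, hcf⟩ := sigS_fprod g Js
  obtain ⟨n, s, hs⟩ := hz
  refine ⟨n, C (c⁻¹ ^ n) * sigS ι (g : Matrix (Fin 2) (Fin 2) k) s, ?_⟩
  have h := congrArg (sigF (ι := ι) F g) hs
  rw [map_mul, map_pow, sigF_algebraMap, sigF_algebraMap, hcf, map_mul, mul_pow] at h
  rw [map_mul, ← h]
  have hcF : algebraMap (SS k ι) F (C c) ≠ 0 := by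
    rw [← MvPolynomial.algebraMap_eq, ← IsScalarTower.algebraMap_apply]
    simpa using hc
  have e : algebraMap (SS k ι) F (C (c⁻¹ ^ n)) = (algebraMap (SS k ι) F (C c))⁻¹ ^ n := by
    rw [← MvPolynomial.algebraMap_eq, ← IsScalarTower.algebraMap_apply,
      ← IsScalarTower.algebraMap_apply, map_pow, map_inv₀]
  rw [e, inv_pow]
  field_simp

/-- A polynomial all of whose monomials have degree `0` is a constant. -/
lemma homog_zero_const {s : SS k ι}
    (h : IsWeightedHomogeneous (fun _ : Fin 2 × ι => (1 : ℤ)) s 0) : ∃ c : k, s = C c := by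
  refine ⟨coeff 0 s, ?_⟩
  classical
  ext m
  rw [coeff_C]
  split_ifs with hm
  · rw [hm]
  · by_contra hne
    have hw := h hne
    apply hm
    rw [Finsupp.weight_apply] at hw
    simp only [Finsupp.sum, nsmul_eq_mul, mul_one] at hw
    ext v
    have h1 : ∑ x ∈ m.support, m x = 0 := by exact_mod_cast hw
    by_cases hv : v ∈ m.support
    · rw [Finset.sum_eq_zero_iff] at h1
      simpa using (h1 v hv).symm
    · simpa using (Finsupp.notMem_support_iff.mp hv).symm

/-- A polynomial all of whose monomials have degree `1` is a linear form. -/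
lemma homog_one_lin [Fintype ι] {s : SS k ι}
    (h : IsWeightedHomogeneous (fun _ : Fin 2 × ι => (1 : ℤ)) s 1) :
    s = ∑ v : Fin 2 × ι, C (coeff (Finsupp.single v 1) s) * X v := by
  classical
  ext m
  rw [coeff_sum]
  simp_rw [coeff_C_mul, coeff_X]
  by_cases hm : ∃ v, Finsupp.single v 1 = m
  · obtain ⟨v, rfl⟩ := hm
    rw [Finset.sum_eq_single v]
    · simp
    · intro w _ hwv
      have : Finsupp.single w 1 ≠ (Finsupp.single v 1 : Fin 2 × ι →₀ ℕ) := by
        intro e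
        exact hwv ((Finsupp.single_left_inj one_ne_zero).mp e)
      simp [this]
    · intro h; exact absurd (Finset.mem_univ _) h
  · rw [Finset.sum_eq_zero]
    · by_contra hne
      have hw := h hne
      rw [Finsupp.weight_apply] at hw
      simp only [Finsupp.sum, nsmul_eq_mul, mul_one] at hw
      have h1 : ∑ x ∈ m.support, m x = 1 := by exact_mod_cast hw
      apply hm
      obtain ⟨v, hv⟩ := (Finsupp.sum_eq_one_iff _).mp h1
      exact ⟨v, hv.symm⟩
    · intro v _
      have : Finsupp.single v 1 ≠ m := fun e => hm ⟨v, e⟩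
      simp [this]

/-- the weights of the total grading -/
def wt1 : Fin 2 → ℤ := fun _ => 1

/-- the weights of the row bigrading -/
def wt2 : Fin 2 → ℤ × ℤ := ![(1, 0), (0, 1)]

lemma HasDeg.total {d : ℤ × ℤ} {z : F} (hz : HasDeg k ι wt2 d z) :
    HasDeg k ι wt1 (d.1 + d.2) z := by
  have := hz.map (M' := ℤ) (AddMonoidHom.fst ℤ ℤ + AddMonoidHom.snd ℤ ℤ) (wt' := wt1)
    (by intro r; fin_cases r <;> simp [wt1, wt2])
  simpa using this

/-- Elements of `R_1 ∩ R_2` are polynomials. -/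
lemma inter_polynomial (J1 J2 : Fin 2 → ι) (hJ1 : Function.Injective J1)
    (hJ2 : Function.Injective J2) (h12 : ∀ a b, J1 a ≠ J2 b) {z : F}
    (hz1 : z ∈ Rsub (k := k) F {J1}) (hz2 : z ∈ Rsub (k := k) F {J2}) :
    ∃ s : SS k ι, z = algebraMap (SS k ι) F s := by
  apply Rsub_zero
  apply Rsub_inter 0 J1 J2 hJ1 hJ2 h12
  · simpa using hz1
  · simpa using hz2

lemma HasDeg.poly {M : Type*} [AddCommGroup M] {wt : Fin 2 → M} {d : M} {s : SS k ι}
    (h : HasDeg k ι wt d (algebraMap (SS k ι) F s)) :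
    IsWeightedHomogeneous (fun v => wt v.1) s d := by
  have := h.numerator (Js := 0) (n := 0) (s := s) (by simp)
  simpa using this

/-- Elements of `R_1 ∩ R_2` of degree zero are constants. -/
lemma inter_const (J1 J2 : Fin 2 → ι) (hJ1 : Function.Injective J1)
    (hJ2 : Function.Injective J2) (h12 : ∀ a b, J1 a ≠ J2 b) {z : F}
    (hz1 : z ∈ Rsub (k := k) F {J1}) (hz2 : z ∈ Rsub (k := k) F {J2})
    (hd : HasDeg k ι wt1 0 z) : ∃ c : k, z = algebraMap k F c := by
  obtain ⟨s, rfl⟩ := inter_polynomial J1 J2 hJ1 hJ2 h12 hz1 hz2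
  obtain ⟨c, rfl⟩ := homog_zero_const hd.poly
  exact ⟨c, by rw [← MvPolynomial.algebraMap_eq, ← IsScalarTower.algebraMap_apply]⟩

/-- Elements of `R_1 ∩ R_2` of degree one are linear forms. -/
lemma inter_lin [Fintype ι] (J1 J2 : Fin 2 → ι) (hJ1 : Function.Injective J1)
    (hJ2 : Function.Injective J2) (h12 : ∀ a b, J1 a ≠ J2 b) {z : F}
    (hz1 : z ∈ Rsub (k := k) F {J1}) (hz2 : z ∈ Rsub (k := k) F {J2})
    (hd : HasDeg k ι wt1 1 z) : ∃ c : Fin 2 → ι → k,
      z = ∑ r, ∑ i, algebraMap k F (c r i) * xm k ι F r i := by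
  obtain ⟨s, rfl⟩ := inter_polynomial J1 J2 hJ1 hJ2 h12 hz1 hz2
  have h := homog_one_lin hd.poly
  refine ⟨fun r i => coeff (Finsupp.single (r, i) 1) s, ?_⟩
  conv_lhs => rw [h]
  rw [map_sum, Fintype.sum_prod_type]
  apply Finset.sum_congr rfl
  intro r _
  apply Finset.sum_congr rfl
  intro i _
  rw [map_mul, ← MvPolynomial.algebraMap_eq, ← IsScalarTower.algebraMap_apply]
  rfl

lemma sigS_homog {g : Matrix (Fin 2) (Fin 2) k} {s : SS k ι} {d : ℤ}
    (h : IsWeightedHomogeneous (fun v : Fin 2 × ι => wt1 v.1) s d) :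
    IsWeightedHomogeneous (fun v : Fin 2 × ι => wt1 v.1) (sigS ι g s) d := by
  classical
  rw [← MvPolynomial.support_sum_monomial_coeff s, map_sum]
  apply IsWeightedHomogeneous.sum
  intro m hm
  have hw := h (mem_support_iff.mp hm)
  rw [← hw, monomial_eq, map_mul, Finsupp.weight_apply]
  have : sigS ι g (C (coeff m s)) = C (coeff m s) := by
    rw [← MvPolynomial.algebraMap_eq, AlgHom.commutes]
  rw [this]
  apply IsWeightedHomogeneous.C_mul
  rw [Finsupp.prod, Finsupp.sum, map_prod]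
  apply IsWeightedHomogeneous.prod
  rintro ⟨r, i⟩ _
  rw [map_pow]
  apply IsWeightedHomogeneous.pow
  rw [sigS_X]
  apply IsWeightedHomogeneous.sum
  intro s _
  apply IsWeightedHomogeneous.C_mul
  exact isWeightedHomogeneous_X k _ (s, i)

lemma HasDeg.sigF {g : GL (Fin 2) k} {z : F} {d : ℤ} (h : HasDeg k ι wt1 d z) :
    HasDeg k ι wt1 d (sigF (ι := ι) F g z) := by
  obtain ⟨s, t, a, ht, hs1, ht1, h1⟩ := h
  refine ⟨sigS ι (g : Matrix (Fin 2) (Fin 2) k) s, sigS ι (g : Matrix (Fin 2) (Fin 2) k) t, a, ?_,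
    sigS_homog hs1, sigS_homog ht1, ?_⟩
  · intro h0
    exact ht (sigS_inj g (by rw [h0, map_zero]))
  · have := congrArg (Totaro.sigF (ι := ι) F g) h1
    rwa [map_mul, sigF_algebraMap, sigF_algebraMap] at this

/-- the character of the torus attached to a bidegree -/
noncomputable def chi (a b : kˣ) (d : ℤ × ℤ) : k := (((a ^ d.1 * b ^ d.2 : kˣ)) : k)

lemma chi_add (a b : kˣ) (d e : ℤ × ℤ) : chi a b (d + e) = chi a b d * chi a b e := by
  simp only [chi, Prod.fst_add, Prod.snd_add, _root_.zpow_add]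
  push_cast
  ring

lemma chi_ne (a b : kˣ) (d : ℤ × ℤ) : chi a b d ≠ 0 := Units.ne_zero _

lemma chi_zero (a b : kˣ) : chi a b 0 = 1 := by simp [chi]

lemma chi_nsmul (a b : kˣ) (n : ℕ) (d : ℤ × ℤ) : chi a b (n • d) = chi a b d ^ n := by
  induction n with
  | zero => simp [chi_zero]
  | succ n ih => rw [succ_nsmul, chi_add, ih, pow_succ]

lemma chi_sum {α : Type*} (T : Finset α) (a b : kˣ) (f : α → ℤ × ℤ) :
    chi a b (∑ x ∈ T, f x) = ∏ x ∈ T, chi a b (f x) := by
  classical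
  induction T using Finset.induction_on with
  | empty => simp [chi_zero]
  | insert x T hx ih => rw [Finset.sum_insert hx, Finset.prod_insert hx, chi_add, ih]

lemma sigS_torus (a b : kˣ) {s : SS k ι} {d : ℤ × ℤ}
    (h : IsWeightedHomogeneous (fun v : Fin 2 × ι => wt2 v.1) s d) :
    sigS ι ((gD a b : GL (Fin 2) k) : Matrix (Fin 2) (Fin 2) k) s = C (chi a b d) * s := by
  classical
  conv_lhs => rw [← MvPolynomial.support_sum_monomial_coeff s]
  conv_rhs => rw [← MvPolynomial.support_sum_monomial_coeff s]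
  rw [map_sum, Finset.mul_sum]
  apply Finset.sum_congr rfl
  intro m hm
  have hw := h (mem_support_iff.mp hm)
  rw [← hw, monomial_eq, map_mul, Finsupp.weight_apply]
  have : sigS ι ((gD a b : GL (Fin 2) k) : Matrix (Fin 2) (Fin 2) k) (C (coeff m s)) =
      C (coeff m s) := by
    rw [← MvPolynomial.algebraMap_eq, AlgHom.commutes]
  rw [this, Finsupp.prod, Finsupp.sum, map_prod, chi_sum, map_prod]
  rw [mul_comm (∏ x ∈ m.support, C (chi a b (m x • wt2 x.1))), mul_assoc, ← Finset.prod_mul_distrib]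
  congr 1
  apply Finset.prod_congr rfl
  rintro ⟨r, i⟩ _
  rw [map_pow, sigS_X, chi_nsmul, map_pow, ← mul_pow]
  congr 1
  fin_cases r
  · simp [Fin.sum_univ_two, wt2, chi, mul_comm]
  · simp [Fin.sum_univ_two, wt2, chi, mul_comm]

lemma HasDeg.torus {z : F} {d : ℤ × ℤ} (h : HasDeg k ι wt2 d z) (a b : kˣ) :
    Totaro.sigF (ι := ι) F (gD a b) z = algebraMap k F (chi a b d) * z := by
  obtain ⟨s, t, e, ht, hs1, ht1, h1⟩ := h
  have h2 := congrArg (Totaro.sigF (ι := ι) F (gD a b)) h1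
  rw [map_mul, sigF_algebraMap, sigF_algebraMap, sigS_torus a b hs1, sigS_torus a b ht1,
    map_mul, map_mul, ← h1] at h2
  have hC : ∀ c : k, algebraMap (SS k ι) F (C c) = algebraMap k F c := fun c => by
    rw [← MvPolynomial.algebraMap_eq, ← IsScalarTower.algebraMap_apply]
  rw [hC, hC, chi_add, map_mul] at h2
  have hc : algebraMap k F (chi a b e) ≠ 0 := by
    simpa using chi_ne a b e
  have htF : algebraMap (SS k ι) F t ≠ 0 := by
    intro h0
    exact ht (IsFractionRing.injective (SS k ι) F (by rw [h0, map_zero]))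
  apply mul_right_cancel₀ (mul_ne_zero hc htF)
  linear_combination h2

/-- The coordinate ring `O_J = k[Y_J]` inside `F`. -/
noncomputable def OJ (k : Type*) [Field k] {ι : Type*} (F : Type*) [Field F] [Algebra k F]
    [Algebra (SS k ι) F] (J : Fin 2 → ι) : Subalgebra k F :=
  Algebra.adjoin k (Set.range fun v : Fin 2 × ι => YJ k F J v.1 v.2)

lemma aeval_YJ_mem (J : Fin 2 → ι) (s : SS k ι) :
    aeval (fun v : Fin 2 × ι => YJ k F J v.1 v.2) s ∈ OJ k F J := by
  rw [OJ, Algebra.adjoin_range_eq_range_aeval]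
  exact ⟨s, rfl⟩

/-- the generic product `G x` -/
noncomputable def genS (k : Type*) [Field k] (ι : Type*) :
    SS k ι →ₐ[k] MvPolynomial ((Fin 2 × Fin 2) ⊕ (Fin 2 × ι)) k :=
  aeval (fun v : Fin 2 × ι => ∑ r, X (Sum.inl (v.1, r)) * X (Sum.inr (r, v.2)))

/-- the generic determinant -/
noncomputable def genD (k : Type*) [Field k] (ι : Type*) :
    MvPolynomial ((Fin 2 × Fin 2) ⊕ (Fin 2 × ι)) k :=
  X (Sum.inl (0, 0)) * X (Sum.inl (1, 1)) - X (Sum.inl (0, 1)) * X (Sum.inl (1, 0))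

lemma eval_genS (y : (Fin 2 × Fin 2) ⊕ (Fin 2 × ι) → k) (s : SS k ι) :
    eval y (genS k ι s) =
      eval (fun v : Fin 2 × ι => ∑ r, y (Sum.inl (v.1, r)) * y (Sum.inr (r, v.2))) s := by
  have : (aeval y : MvPolynomial ((Fin 2 × Fin 2) ⊕ (Fin 2 × ι)) k →ₐ[k] k).comp (genS k ι) =
      aeval (fun v : Fin 2 × ι => ∑ r, y (Sum.inl (v.1, r)) * y (Sum.inr (r, v.2))) := by
    apply MvPolynomial.algHom_ext
    rintro ⟨r, i⟩
    simp [genS, Fin.sum_univ_two]
  have := congrArg (fun f => f s) this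
  simpa [MvPolynomial.coe_aeval_eq_eval] using this

lemma generic_identity [Infinite k] (s : SS k ι) (n : ℕ)
    (h1 : ∀ g : GL (Fin 2) k, sigS ι (g : Matrix (Fin 2) (Fin 2) k) s =
      C ((g : Matrix (Fin 2) (Fin 2) k).det ^ n) * s) :
    genS k ι s = genD k ι ^ n * rename Sum.inr s := by
  have hP : genD k ι * (genS k ι s - genD k ι ^ n * rename Sum.inr s) = 0 := by
    apply MvPolynomial.funext
    intro y
    rw [map_mul, map_zero]
    by_cases hd : eval y (genD k ι) = 0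
    · rw [hd, zero_mul]
    · have hgm : (Matrix.of fun i j => y (Sum.inl (i, j)) : Matrix (Fin 2) (Fin 2) k).det =
          eval y (genD k ι) := by
        simp [genD, Matrix.det_fin_two]
      have h2 := congrArg (eval (fun v : Fin 2 × ι => y (Sum.inr v)))
        (h1 (Matrix.GeneralLinearGroup.mkOfDetNeZero
          (Matrix.of fun i j => y (Sum.inl (i, j))) (by rw [hgm]; exact hd)))
      rw [eval_sigS, map_mul, eval_C] at h2
      have h5 : ((Matrix.GeneralLinearGroup.mkOfDetNeZero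
          (Matrix.of fun i j => y (Sum.inl (i, j))) (by rw [hgm]; exact hd) : GL (Fin 2) k) :
            Matrix (Fin 2) (Fin 2) k) = Matrix.of fun i j => y (Sum.inl (i, j)) := rfl
      rw [h5, hgm] at h2
      simp only [Matrix.of_apply] at h2
      rw [map_sub, map_mul, map_pow, eval_genS, h2, eval_rename]
      simp only [Function.comp_def]
      rw [sub_self, mul_zero]
  have hdt : genD k ι ≠ 0 := by
    intro h0
    have := congrArg (eval (fun v => Sum.elim (fun w : Fin 2 × Fin 2 => if w.1 = w.2 then (1 : k)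
      else 0) (fun _ => 0) v)) h0
    simp [genD] at this
  exact sub_eq_zero.mp ((mul_eq_zero.mp hP).resolve_left hdt)

/-- specialisation `G ↦ x_J⁻¹`. -/
noncomputable def genEv (k : Type*) [Field k] {ι : Type*} (F : Type*) [Field F] [Algebra k F]
    [Algebra (SS k ι) F] (J : Fin 2 → ι) :
    MvPolynomial ((Fin 2 × Fin 2) ⊕ (Fin 2 × ι)) k →ₐ[k] F :=
  aeval (Sum.elim (fun w : Fin 2 × Fin 2 => (xJ k F J)⁻¹ w.1 w.2)
    (fun v : Fin 2 × ι => xm k ι F v.1 v.2))

lemma genEv_genS (J : Fin 2 → ι) (s : SS k ι) :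
    genEv k F J (genS k ι s) = aeval (fun v : Fin 2 × ι => YJ k F J v.1 v.2) s := by
  have : (genEv k F J).comp (genS k ι) = aeval (fun v : Fin 2 × ι => YJ k F J v.1 v.2) := by
    apply MvPolynomial.algHom_ext
    rintro ⟨r, i⟩
    simp [genEv, genS, YJ, Matrix.mul_apply]
  exact congrArg (fun f => f s) this

lemma genEv_rename (J : Fin 2 → ι) (s : SS k ι) :
    genEv k F J (rename Sum.inr s) = algebraMap (SS k ι) F s := by
  have : (genEv k F J).comp (rename Sum.inr) = IsScalarTower.toAlgHom k (SS k ι) F := by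
    apply MvPolynomial.algHom_ext
    rintro ⟨r, i⟩
    simp [genEv, xm]
  exact congrArg (fun f => f s) this

lemma genEv_genD (J : Fin 2 → ι) :
    genEv k F J (genD k ι) = (algebraMap (SS k ι) F (mnr k J))⁻¹ := by
  have : genEv k F J (genD k ι) = ((xJ k F J)⁻¹).det := by
    rw [Matrix.det_fin_two ((xJ k F J)⁻¹)]
    simp [genEv, genD]
  rw [this, Matrix.det_nonsing_inv, xJ_det, Ring.inverse_eq_inv']

/-- Invariants: a `GL_2(k)`-invariant element of `R_J` lies in `O_J`. -/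
lemma invariant_mem_OJ [Infinite k] (J : Fin 2 → ι) (hJ : Function.Injective J) {z : F}
    (hz : z ∈ Rsub (k := k) F {J}) (hinv : ∀ g : GL (Fin 2) k, sigF (ι := ι) F g z = z) :
    z ∈ OJ k F J := by
  obtain ⟨n, s, hs⟩ := hz
  rw [fprod_singleton] at hs
  -- polynomial identity for each g
  have h1 : ∀ g : GL (Fin 2) k, sigS ι (g : Matrix (Fin 2) (Fin 2) k) s =
      C ((g : Matrix (Fin 2) (Fin 2) k).det ^ n) * s := by
    intro g
    apply IsFractionRing.injective (SS k ι) F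
    have h := congrArg (sigF (ι := ι) F g) hs
    rw [map_mul, map_pow, sigF_algebraMap, sigF_algebraMap, hinv, sigS_mnr, map_mul,
      mul_pow] at h
    rw [← h, map_mul, ← hs, map_pow, map_pow]
    ring
  have h6 := congrArg (genEv k F J) (generic_identity s n h1)
  rw [map_mul, map_pow, genEv_genS, genEv_rename, genEv_genD] at h6
  have h7 : z = aeval (fun v : Fin 2 × ι => YJ k F J v.1 v.2) s := by
    rw [h6, ← hs, inv_pow]
    have := pow_ne_zero n (mnr_ne (k := k) (F := F) J hJ)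
    field_simp
  rw [h7]
  exact aeval_YJ_mem J s

end Act

end Pool.Agent.Totaro

end

/-! ## Cfg -/

section

set_option linter.unusedSectionVars false

namespace Pool.Agent.Totaro

open MvPolynomial Matrix

/-- Three pairs of columns, pairwise disjoint, and one further column. -/
structure Cfg (ι : Type*) where
  /-- first pair -/
  J1 : Fin 2 → ι
  /-- second pair -/
  J2 : Fin 2 → ι
  /-- third pair -/
  J3 : Fin 2 → ι
  /-- further column -/
  e : ι
  i1 : Function.Injective J1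
  i2 : Function.Injective J2
  i3 : Function.Injective J3
  h12 : ∀ a b, J1 a ≠ J2 b
  h13 : ∀ a b, J1 a ≠ J3 b
  h23 : ∀ a b, J2 a ≠ J3 b
  e1 : ∀ a, J1 a ≠ e
  e2 : ∀ a, e ≠ J2 a
  e3 : ∀ a, e ≠ J3 a

section

variable {k : Type*} [Field k] {ι : Type*}
  {F : Type*} [Field F] [Algebra k F]
  [Algebra (SS k ι) F] [IsScalarTower k (SS k ι) F]
  [IsFractionRing (SS k ι) F]

/-- the bidegree of the `(r,s)` entry of a matrix on which `GL_2` acts by conjugation through
`a ↦ a^q` -/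
def cd (q : ℕ) (r s : Fin 2) : ℤ × ℤ := q • (wt2 r - wt2 s)

lemma wt2_total (r : Fin 2) : (wt2 r).1 + (wt2 r).2 = 1 := by
  fin_cases r <;> simp [wt2]

lemma cd_total (q : ℕ) (r s : Fin 2) : (cd q r s).1 + (cd q r s).2 = 0 := by
  have h1 := wt2_total r
  have h2 := wt2_total s
  simp only [cd, Prod.smul_fst, Prod.smul_snd, Prod.fst_sub, Prod.snd_sub]
  rw [nsmul_eq_mul, nsmul_eq_mul]
  linear_combination (q : ℤ) * h1 - (q : ℤ) * h2

/-- `[g]` over `F`. -/
def gF (F : Type*) [Field F] [Algebra k F] (φ : k →+* k) (g : GL (Fin 2) k) :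
    Matrix (Fin 2) (Fin 2) F := (frobM φ g).map (algebraMap k F)

lemma gF_mul (φ : k →+* k) (g h : GL (Fin 2) k) : gF F φ (g * h) = gF F φ g * gF F φ h := by
  simp [gF, frobM_mul, Matrix.map_mul]

lemma gF_det (φ : k →+* k) (g : GL (Fin 2) k) : IsUnit (gF F φ g).det := by
  have : (gF F φ g).det = algebraMap k F (frobM φ g).det := by
    rw [gF, ← RingHom.mapMatrix_apply, ← RingHom.map_det]
  rw [this]
  exact ((frobM_det φ g).isUnit).map _

lemma gF_inv_mul (φ : k →+* k) (g : GL (Fin 2) k) : (gF F φ g)⁻¹ * gF F φ g = 1 :=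
  Matrix.nonsing_inv_mul _ (gF_det φ g)

lemma gF_mul_inv (φ : k →+* k) (g : GL (Fin 2) k) : gF F φ g * (gF F φ g)⁻¹ = 1 :=
  Matrix.mul_nonsing_inv _ (gF_det φ g)

lemma gF_sig (φ : k →+* k) (g h : GL (Fin 2) k) :
    (gF F φ g).map (sigF (ι := ι) F h) = gF F φ g := by
  ext r s
  simp [gF]

lemma gF_inv_const (φ : k →+* k) (g : GL (Fin 2) k) :
    ∃ c : Matrix (Fin 2) (Fin 2) k, (gF F φ g)⁻¹ = c.map (algebraMap k F) := by
  refine ⟨(frobM φ g)⁻¹, ?_⟩
  have h : frobM φ g * (frobM φ g)⁻¹ = 1 :=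
    Matrix.mul_nonsing_inv _ (frobM_det φ g).isUnit
  apply Matrix.inv_eq_right_inv
  rw [gF, ← Matrix.map_mul, h]
  simp

/-- (R1) for matrices. -/
lemma cech_one_mat (cf : Cfg ι) {m n : Type*} {M : Type*} [AddCommGroup M] {wt : Fin 2 → M}
    (d : m → n → M) (a12 a13 a23 : Matrix m n F)
    (m12 : ∀ r c, a12 r c ∈ Rsub (k := k) F ({cf.J1} + {cf.J2}))
    (m13 : ∀ r c, a13 r c ∈ Rsub (k := k) F ({cf.J1} + {cf.J3}))
    (m23 : ∀ r c, a23 r c ∈ Rsub (k := k) F ({cf.J2} + {cf.J3}))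
    (d12 : ∀ r c, HasDeg k ι wt (d r c) (a12 r c)) (d13 : ∀ r c, HasDeg k ι wt (d r c) (a13 r c))
    (h : a12 + a23 = a13) :
    ∃ a1 a2 a3 : Matrix m n F, (∀ r c, a1 r c ∈ Rsub (k := k) F {cf.J1}) ∧
      (∀ r c, a2 r c ∈ Rsub (k := k) F {cf.J2}) ∧ (∀ r c, a3 r c ∈ Rsub (k := k) F {cf.J3}) ∧
      (∀ r c, HasDeg k ι wt (d r c) (a1 r c)) ∧ (∀ r c, HasDeg k ι wt (d r c) (a2 r c)) ∧
      (∀ r c, HasDeg k ι wt (d r c) (a3 r c)) ∧ a12 = a1 - a2 ∧ a13 = a1 - a3 ∧
      a23 = a2 - a3 := by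
  have key := fun r c => cech_one (k := k) (F := F) cf.J1 cf.J2 cf.J3 cf.i1 cf.i2 cf.i3 cf.h12
    cf.h13 cf.h23 (m12 r c) (m13 r c) (m23 r c) (d12 r c) (d13 r c)
    (by rw [← h]; rfl)
  choose a1 a2 a3 p1 p2 p3 q1 q2 q3 e12 e13 e23 using key
  refine ⟨Matrix.of a1, Matrix.of a2, Matrix.of a3, p1, p2, p3, q1, q2, q3, ?_, ?_, ?_⟩ <;>
  · ext r c
    first | exact e12 r c | exact e13 r c | exact e23 r c

lemma Rsub_mul_const {Js : Multiset (Fin 2 → ι)} {l m n : Type*} [Fintype m]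
    (A : Matrix l m F) (B : Matrix m n F) (hA : ∀ r s, A r s ∈ Rsub (k := k) F Js)
    (hB : ∀ r s, B r s ∈ Rsub (k := k) F Js) : ∀ r s, (A * B) r s ∈ Rsub (k := k) F Js := by
  intro r s
  rw [Matrix.mul_apply]
  exact sum_mem fun j _ => mul_mem (hA r j) (hB j s)

lemma gF_mem (φ : k →+* k) (g : GL (Fin 2) k) (Js : Multiset (Fin 2 → ι)) (r s : Fin 2) :
    gF F φ g r s ∈ Rsub (k := k) F Js := by
  simp only [gF, Matrix.map_apply]
  exact Subalgebra.algebraMap_mem _ _

lemma gF_inv_mem (φ : k →+* k) (g : GL (Fin 2) k) (Js : Multiset (Fin 2 → ι)) (r s : Fin 2) :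
    (gF F φ g)⁻¹ r s ∈ Rsub (k := k) F Js := by
  obtain ⟨c, hc⟩ := gF_inv_const (F := F) φ g
  rw [hc]
  exact Subalgebra.algebraMap_mem _ _

lemma map_sig_mem {l m : Type*} (g : GL (Fin 2) k) {Js : Multiset (Fin 2 → ι)}
    {A : Matrix l m F} (hA : ∀ r s, A r s ∈ Rsub (k := k) F Js) :
    ∀ r s, (A.map (sigF (ι := ι) F g)) r s ∈ Rsub (k := k) F Js :=
  fun r s => sigF_mem_Rsub g (hA r s)

lemma HasDeg.const (M : Type*) [AddCommGroup M] (wt : Fin 2 → M) (c : k) :
    HasDeg k ι wt 0 (algebraMap k F c) := by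
  rw [IsScalarTower.algebraMap_apply k (SS k ι) F]
  exact HasDeg.of_homog (isWeightedHomogeneous_C _ c)

/-- total degree of matrix products with constants -/
lemma deg_mul_left {l m n : Type*} [Fintype m] {M : Type*} [AddCommGroup M] {wt : Fin 2 → M}
    {d : M} (A : Matrix l m k) (B : Matrix m n F)
    (hB : ∀ r s, HasDeg k ι wt d (B r s)) :
    ∀ r s, HasDeg k ι wt d ((A.map (algebraMap k F) * B) r s) := by
  intro r s
  rw [Matrix.mul_apply]
  apply HasDeg.sum
  intro j _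
  have := (HasDeg.const (k := k) (ι := ι) (F := F) M wt (A r j)).mul (hB j s)
  rwa [zero_add] at this

lemma deg_mul_right {l m n : Type*} [Fintype m] {M : Type*} [AddCommGroup M] {wt : Fin 2 → M}
    {d : M} (A : Matrix l m F) (B : Matrix m n k)
    (hA : ∀ r s, HasDeg k ι wt d (A r s)) :
    ∀ r s, HasDeg k ι wt d ((A * B.map (algebraMap k F)) r s) := by
  intro r s
  rw [Matrix.mul_apply]
  apply HasDeg.sum
  intro j _
  have := (hA r j).mul (HasDeg.const (k := k) (ι := ι) (F := F) M wt (B j s))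
  rwa [add_zero] at this

lemma deg_sig {l m : Type*} {d : ℤ} (g : GL (Fin 2) k) (A : Matrix l m F)
    (hA : ∀ r s, HasDeg k ι wt1 d (A r s)) :
    ∀ r s, HasDeg k ι wt1 d ((A.map (sigF (ι := ι) F g)) r s) := fun r s => (hA r s).sigF

end

end Pool.Agent.Totaro

end

/-! ## Vert -/

section

set_option linter.unusedSectionVars false

namespace Pool.Agent.Totaro

open MvPolynomial Matrix

section

variable {k : Type*} [Field k] {ι : Type*}
  {F : Type*} [Field F] [Algebra k F]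
  [Algebra (SS k ι) F] [IsScalarTower k (SS k ι) F]
  [IsFractionRing (SS k ι) F]

lemma gF_torus (φ : k →+* k) (a b : kˣ) :
    gF F φ (gD a b) = Matrix.diagonal (fun r => algebraMap k F (φ ((![a, b] r : kˣ) : k))) := by
  ext r s
  fin_cases r <;> fin_cases s <;> simp [gF, frobM, gD_val, Matrix.diagonal]

lemma chi_wt2 (a b : kˣ) (r : Fin 2) : chi a b (wt2 r) = ((![a, b] r : kˣ) : k) := by
  fin_cases r <;> simp [chi, wt2]

lemma chi_neg (a b : kˣ) (d : ℤ × ℤ) : chi a b (-d) = (chi a b d)⁻¹ := by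
  have h := chi_add a b d (-d)
  rw [add_neg_cancel, chi_zero] at h
  exact (inv_eq_of_mul_eq_one_right h.symm).symm

lemma chi_cd (a b : kˣ) (q : ℕ) (r s : Fin 2) :
    chi a b (cd q r s) = ((![a, b] r : kˣ) : k) ^ q * (((![a, b] s : kˣ) : k) ^ q)⁻¹ := by
  rw [cd, chi_nsmul, sub_eq_add_neg, chi_add, chi_neg, chi_wt2, chi_wt2, mul_pow, inv_pow]

/-- Torus equivariance of matrices with the right bidegrees. -/
lemma torus_conj (φ : k →+* k) (q : ℕ) (hφ : ∀ a, φ a = a ^ q) (E : Matrix (Fin 2) (Fin 2) F)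
    (hE : ∀ r s, HasDeg k ι wt2 (cd q r s) (E r s)) (a b : kˣ) :
    E.map (sigF (ι := ι) F (gD a b)) * gF F φ (gD a b) = gF F φ (gD a b) * E := by
  rw [gF_torus]
  ext r s
  rw [Matrix.mul_diagonal, Matrix.diagonal_mul, Matrix.map_apply, (hE r s).torus, chi_cd, hφ, hφ]
  have : ((![a, b] s : kˣ) : k) ^ q ≠ 0 := pow_ne_zero _ (Units.ne_zero _)
  have h2 : algebraMap k F (((![a, b] s : kˣ) : k) ^ q) ≠ 0 := by simp
  rw [map_mul, map_inv₀]
  field_simp

lemma cancel_gF (φ : k →+* k) (g : GL (Fin 2) k) {n : Type*} {A B : Matrix (Fin 2) n F}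
    (h : gF F φ g * A = gF F φ g * B) : A = B := by
  have h2 := congrArg (fun M => (gF F φ g)⁻¹ * M) h
  simpa only [← Matrix.mul_assoc, gF_inv_mul, Matrix.one_mul] using h2

/-- From a strict cocycle of matrices which is equivariant up to an explicit coboundary to a
function `e : GL_2(k) → M_2(k)`. -/
lemma vert_common (cf : Cfg ι) (φ : k →+* k) (q : ℕ) (hφ : ∀ a, φ a = a ^ q)
    (u12 u13 u23 : Matrix (Fin 2) (Fin 2) F)
    (m12 : ∀ r c, u12 r c ∈ Rsub (k := k) F ({cf.J1} + {cf.J2}))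
    (m13 : ∀ r c, u13 r c ∈ Rsub (k := k) F ({cf.J1} + {cf.J3}))
    (m23 : ∀ r c, u23 r c ∈ Rsub (k := k) F ({cf.J2} + {cf.J3}))
    (d12 : ∀ r c, HasDeg k ι wt2 (cd q r c) (u12 r c))
    (d13 : ∀ r c, HasDeg k ι wt2 (cd q r c) (u13 r c))
    (h : u12 + u23 = u13)
    (ρ1 ρ2 ρ3 : GL (Fin 2) k → Matrix (Fin 2) (Fin 2) F)
    (r1 : ∀ g r c, ρ1 g r c ∈ Rsub (k := k) F {cf.J1})
    (r2 : ∀ g r c, ρ2 g r c ∈ Rsub (k := k) F {cf.J2})
    (rd1 : ∀ g r c, HasDeg k ι wt1 0 (ρ1 g r c))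
    (hρ12 : ∀ g, u12.map (sigF (ι := ι) F g) * gF F φ g = gF F φ g * (u12 + (ρ1 g - ρ2 g)))
    (hρ13 : ∀ g, u13.map (sigF (ι := ι) F g) * gF F φ g = gF F φ g * (u13 + (ρ1 g - ρ3 g)))
    (hT : ∀ a b, ρ1 (gD a b) = 0) :
    ∃ (E1 E2 E3 : Matrix (Fin 2) (Fin 2) F) (e : GL (Fin 2) k → Matrix (Fin 2) (Fin 2) k),
      (∀ r c, E1 r c ∈ Rsub (k := k) F {cf.J1}) ∧ (∀ r c, E2 r c ∈ Rsub (k := k) F {cf.J2}) ∧
      (∀ r c, E3 r c ∈ Rsub (k := k) F {cf.J3}) ∧ u12 = E1 - E2 ∧ u13 = E1 - E3 ∧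
      u23 = E2 - E3 ∧
      (∀ g, E1.map (sigF (ι := ι) F g) * gF F φ g =
        gF F φ g * (E1 + ρ1 g + (e g).map (algebraMap k F))) ∧
      (∀ g, E2.map (sigF (ι := ι) F g) * gF F φ g =
        gF F φ g * (E2 + ρ2 g + (e g).map (algebraMap k F))) ∧
      (∀ g, E3.map (sigF (ι := ι) F g) * gF F φ g =
        gF F φ g * (E3 + ρ3 g + (e g).map (algebraMap k F))) ∧
      (∀ a b, e (gD a b) = 0) := by
  obtain ⟨E1, E2, E3, p1, p2, p3, q1, q2, q3, e12, e13, e23⟩ :=
    cech_one_mat (F := F) cf (fun r c => cd q r c) u12 u13 u23 m12 m13 m23 d12 d13 h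
  -- the defect
  let df : Matrix (Fin 2) (Fin 2) F → Matrix (Fin 2) (Fin 2) F → GL (Fin 2) k →
      Matrix (Fin 2) (Fin 2) F := fun E ρ g =>
    (gF F φ g)⁻¹ * (E.map (sigF (ι := ι) F g) * gF F φ g) - E - ρ
  have hdf : ∀ E ρ g, E.map (sigF (ι := ι) F g) * gF F φ g = gF F φ g * (E + ρ + df E ρ g) := by
    intro E ρ g
    have : E + ρ + df E ρ g = (gF F φ g)⁻¹ * (E.map (sigF (ι := ι) F g) * gF F φ g) := by
      simp only [df]; abel
    rw [this, ← Matrix.mul_assoc, gF_mul_inv, Matrix.one_mul]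
  have h12 : ∀ g, df E1 (ρ1 g) g = df E2 (ρ2 g) g := by
    intro g
    apply cancel_gF φ g
    have a1 := hdf E1 (ρ1 g) g
    have a2 := hdf E2 (ρ2 g) g
    have a3 := hρ12 g
    have a4 : u12.map (sigF (ι := ι) F g) = E1.map (sigF (ι := ι) F g) -
        E2.map (sigF (ι := ι) F g) := by
      rw [e12]; ext r s; simp
    rw [a4, Matrix.sub_mul, a1, a2, e12] at a3
    have : gF F φ g * df E1 (ρ1 g) g - gF F φ g * df E2 (ρ2 g) g = 0 := by
      have := sub_eq_zero.mpr a3
      rw [← this]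
      noncomm_ring
    exact sub_eq_zero.mp this
  have h13 : ∀ g, df E1 (ρ1 g) g = df E3 (ρ3 g) g := by
    intro g
    apply cancel_gF φ g
    have a1 := hdf E1 (ρ1 g) g
    have a2 := hdf E3 (ρ3 g) g
    have a3 := hρ13 g
    have a4 : u13.map (sigF (ι := ι) F g) = E1.map (sigF (ι := ι) F g) -
        E3.map (sigF (ι := ι) F g) := by
      rw [e13]; ext r s; simp
    rw [a4, Matrix.sub_mul, a1, a2, e13] at a3
    have : gF F φ g * df E1 (ρ1 g) g - gF F φ g * df E3 (ρ3 g) g = 0 := by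
      have := sub_eq_zero.mpr a3
      rw [← this]
      noncomm_ring
    exact sub_eq_zero.mp this
  -- membership
  have hmem : ∀ (J : Fin 2 → ι) (E ρ : Matrix (Fin 2) (Fin 2) F) (g),
      (∀ r c, E r c ∈ Rsub (k := k) F {J}) → (∀ r c, ρ r c ∈ Rsub (k := k) F {J}) →
      ∀ r c, df E ρ g r c ∈ Rsub (k := k) F {J} := by
    intro J E ρ g hE hρ r c
    refine sub_mem (sub_mem ?_ (hE r c)) (hρ r c)
    exact Rsub_mul_const _ _ (gF_inv_mem φ g _)
      (Rsub_mul_const _ _ (map_sig_mem g hE) (gF_mem φ g _)) r c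
  have hdeg : ∀ g r c, HasDeg k ι wt1 0 (df E1 (ρ1 g) g r c) := by
    intro g r c
    have t1 : ∀ r c, HasDeg k ι wt1 0 (E1 r c) := by
      intro r c
      have := (q1 r c).total
      rwa [cd_total] at this
    refine ((?_ : HasDeg k ι wt1 0 _).sub (t1 r c)).sub (rd1 g r c)
    obtain ⟨c1, hc1⟩ := gF_inv_const (F := F) φ g
    rw [hc1]
    exact deg_mul_left _ _ (deg_mul_right _ _ (deg_sig g _ t1)) r c
  have hconst : ∀ g r c, ∃ x : k, df E1 (ρ1 g) g r c = algebraMap k F x := by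
    intro g r c
    refine inter_const cf.J1 cf.J2 cf.i1 cf.i2 cf.h12 (hmem _ _ _ g p1 (r1 g) r c) ?_ (hdeg g r c)
    rw [h12]
    exact hmem _ _ _ g p2 (r2 g) r c
  choose e he using hconst
  have he' : ∀ g, df E1 (ρ1 g) g = (Matrix.of (e g)).map (algebraMap k F) := by
    intro g; ext r c; exact he g r c
  refine ⟨E1, E2, E3, fun g => Matrix.of (e g), p1, p2, p3, e12, e13, e23, ?_, ?_, ?_, ?_⟩
  · intro g
    rw [← he']; exact hdf _ _ _
  · intro g
    rw [← he', h12]; exact hdf _ _ _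
  · intro g
    rw [← he', h13]; exact hdf _ _ _
  · intro a b
    have h1 := hdf E1 (ρ1 (gD a b)) (gD a b)
    rw [torus_conj φ q hφ E1 q1 a b, hT, add_zero] at h1
    have h2 := cancel_gF φ _ h1
    have h3 : df E1 0 (gD a b) = 0 := by
      have := sub_eq_zero.mpr h2
      rw [sub_eq_zero] at this
      simpa using this
    have h4 := he' (gD a b)
    rw [hT, h3] at h4
    ext r s
    have := congrFun (congrFun h4 r) s
    simp only [Matrix.zero_apply, Matrix.map_apply] at this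
    exact ((map_eq_zero _).mp this.symm)

/-- Equivariant solution of the vertical problem. -/
theorem vert_solve (cf : Cfg ι) (φ : k →+* k) (q : ℕ) (hφ : ∀ a, φ a = a ^ q)
    (hk2 : (2 : k) ≠ 0) (hk3 : (3 : k) ≠ 0)
    (u12 u13 u23 : Matrix (Fin 2) (Fin 2) F)
    (m12 : ∀ r c, u12 r c ∈ Rsub (k := k) F ({cf.J1} + {cf.J2}))
    (m13 : ∀ r c, u13 r c ∈ Rsub (k := k) F ({cf.J1} + {cf.J3}))
    (m23 : ∀ r c, u23 r c ∈ Rsub (k := k) F ({cf.J2} + {cf.J3}))
    (d12 : ∀ r c, HasDeg k ι wt2 (cd q r c) (u12 r c))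
    (d13 : ∀ r c, HasDeg k ι wt2 (cd q r c) (u13 r c))
    (h : u12 + u23 = u13)
    (h12 : ∀ g, u12.map (sigF (ι := ι) F g) * gF F φ g = gF F φ g * u12)
    (h13 : ∀ g, u13.map (sigF (ι := ι) F g) * gF F φ g = gF F φ g * u13) :
    ∃ (E1 E2 E3 : Matrix (Fin 2) (Fin 2) F),
      (∀ r c, E1 r c ∈ Rsub (k := k) F {cf.J1}) ∧ (∀ r c, E2 r c ∈ Rsub (k := k) F {cf.J2}) ∧
      (∀ r c, E3 r c ∈ Rsub (k := k) F {cf.J3}) ∧ u12 = E1 - E2 ∧ u13 = E1 - E3 ∧
      u23 = E2 - E3 ∧
      (∀ g, E1.map (sigF (ι := ι) F g) * gF F φ g = gF F φ g * E1) ∧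
      (∀ g, E2.map (sigF (ι := ι) F g) * gF F φ g = gF F φ g * E2) ∧
      (∀ g, E3.map (sigF (ι := ι) F g) * gF F φ g = gF F φ g * E3) := by
  obtain ⟨E1, E2, E3, e, p1, p2, p3, e12, e13, e23, f1, f2, f3, eT⟩ :=
    vert_common cf φ q hφ u12 u13 u23 m12 m13 m23 d12 d13 h (fun _ => 0) (fun _ => 0)
      (fun _ => 0) (fun _ _ _ => zero_mem _) (fun _ _ _ => zero_mem _)
      (fun _ _ _ => HasDeg.zero) (by simpa using h12) (by simpa using h13) (fun _ _ => rfl)
  simp only [add_zero] at f1 f2 f3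
  -- e is a cocycle
  have hcoc : IsCoc φ (fun _ _ => 0) e := by
    intro g h'
    have a1 := f1 (g * h')
    have a2 := f1 g
    have a3 := f1 h'
    have a4 := congrArg (fun M : Matrix (Fin 2) (Fin 2) F => M.map (sigF (ι := ι) F h')) a2
    simp only [Matrix.map_mul, gF_sig] at a4
    have a5 : (E1.map (sigF (ι := ι) F g)).map (sigF (ι := ι) F h') =
        E1.map (sigF (ι := ι) F (g * h')) := by
      ext r s; simp [sigF_comp]
    have a6 : ((E1 + (e g).map (algebraMap k F))).map (sigF (ι := ι) F h') =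
        E1.map (sigF (ι := ι) F h') + (e g).map (algebraMap k F) := by
      ext r s; simp
    rw [a5, a6] at a4
    rw [gF_mul] at a1
    -- [g][h] (E + e(gh)) = σ_{gh}(E) [g][h] = [g] (σ_h E + e(g)) [h]
    have a7 : gF F φ g * (gF F φ h' * (E1 + (e (g * h')).map (algebraMap k F))) =
        gF F φ g * (gF F φ h' * (E1 + (e h').map (algebraMap k F)) +
          (e g).map (algebraMap k F) * gF F φ h') := by
      calc _ = gF F φ g * gF F φ h' * (E1 + (e (g * h')).map (algebraMap k F)) := by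
            noncomm_ring
        _ = E1.map (sigF (ι := ι) F (g * h')) * gF F φ g * gF F φ h' := by
            rw [← a1, Matrix.mul_assoc]
        _ = gF F φ g * (E1.map (sigF (ι := ι) F h') * gF F φ h' +
              (e g).map (algebraMap k F) * gF F φ h') := by
            rw [a4]; noncomm_ring
        _ = _ := by rw [a3]
    have a8 := cancel_gF φ g a7
    have a9 : gF F φ h' * (e (g * h')).map (algebraMap k F) =
        (e g).map (algebraMap k F) * gF F φ h' + gF F φ h' * (e h').map (algebraMap k F) := by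
      have := sub_eq_zero.mpr a8
      rw [← sub_eq_zero, ← this]
      noncomm_ring
    have a10 : (frobM φ h' * e (g * h')).map (algebraMap k F) =
        (e g * frobM φ h' + frobM φ h' * (e h' + 0)).map (algebraMap k F) := by
      rw [add_zero, Matrix.map_mul]
      have : (e g * frobM φ h' + frobM φ h' * e h').map (algebraMap k F) =
          (e g * frobM φ h').map (algebraMap k F) + (frobM φ h' * e h').map (algebraMap k F) := by
        ext r s; simp only [Matrix.map_apply, Matrix.add_apply, map_add]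
      rw [this, Matrix.map_mul, Matrix.map_mul]
      exact a9
    ext r s
    have := congrFun (congrFun a10 r) s
    simp only [Matrix.map_apply] at this
    exact (algebraMap k F).injective this
  obtain ⟨m, hm⟩ := coc_trivial hcoc eT hk2 hk3
  set mF := m.map (algebraMap k F) with hmF
  have hm' : ∀ g, gF F φ g * (e g).map (algebraMap k F) = mF * gF F φ g - gF F φ g * mF := by
    intro g
    have := congrArg (fun M : Matrix (Fin 2) (Fin 2) k => M.map (algebraMap k F)) (hm g)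
    have e1 : (m * frobM φ g - frobM φ g * m).map (algebraMap k F) =
      (m * frobM φ g).map (algebraMap k F) - (frobM φ g * m).map (algebraMap k F) := by
      ext r s; simp only [Matrix.map_apply, Matrix.sub_apply, map_sub]
    simp only [e1, Matrix.map_mul] at this
    exact this
  have hfin : ∀ E : Matrix (Fin 2) (Fin 2) F, (∀ g, E.map (sigF (ι := ι) F g) * gF F φ g =
      gF F φ g * (E + (e g).map (algebraMap k F))) →
      ∀ g, (E - mF).map (sigF (ι := ι) F g) * gF F φ g = gF F φ g * (E - mF) := by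
    intro E hE g
    have e1 : (E - mF).map (sigF (ι := ι) F g) = E.map (sigF (ι := ι) F g) - mF := by
      ext r s; simp [mF]
    rw [e1, Matrix.sub_mul, hE, Matrix.mul_add, hm']
    noncomm_ring
  have hmm : ∀ (Js : Multiset (Fin 2 → ι)) r c, mF r c ∈ Rsub (k := k) F Js := fun Js r c =>
    Subalgebra.algebraMap_mem _ _
  refine ⟨E1 - mF, E2 - mF, E3 - mF, fun r c => sub_mem (p1 r c) (hmm _ r c),
    fun r c => sub_mem (p2 r c) (hmm _ r c), fun r c => sub_mem (p3 r c) (hmm _ r c), ?_, ?_, ?_,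
    hfin E1 f1, hfin E2 f2, hfin E3 f3⟩
  · rw [e12]; abel
  · rw [e13]; abel
  · rw [e23]; abel

end

end Pool.Agent.Totaro

end

/-! ## Horiz -/

section

set_option linter.unusedSectionVars false

namespace Pool.Agent.Totaro

open MvPolynomial Matrix

section

variable {k : Type*} [Field k] {ι : Type*} [Fintype ι] [DecidableEq ι]
  {F : Type*} [Field F] [Algebra k F]
  [Algebra (SS k ι) F] [IsScalarTower k (SS k ι) F]
  [IsFractionRing (SS k ι) F]

lemma xm_linIndep (a : Fin 2 → ι → k)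
    (h : ∑ s, ∑ j, algebraMap k F (a s j) * xm k ι F s j = 0) : ∀ s j, a s j = 0 := by
  intro s j
  have h1 : algebraMap (SS k ι) F (∑ s, ∑ j, C (a s j) * X (s, j)) = 0 := by
    rw [← h, map_sum]
    apply Finset.sum_congr rfl
    intro s _
    rw [map_sum]
    apply Finset.sum_congr rfl
    intro j _
    rw [map_mul, ← MvPolynomial.algebraMap_eq, ← IsScalarTower.algebraMap_apply]
    rfl
  have h2 : (∑ s, ∑ j, C (a s j) * X (s, j) : SS k ι) = 0 :=
    IsFractionRing.injective (SS k ι) F (by rw [h1, map_zero])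
  have h3 := congrArg (eval (fun v : Fin 2 × ι => if v = (s, j) then (1 : k) else 0)) h2
  simp only [map_sum, map_mul, eval_C, eval_X, map_zero] at h3
  rw [Finset.sum_eq_single s, Finset.sum_eq_single j] at h3
  · simpa using h3
  · intro b _ hb; simp [hb]
  · intro hb; exact absurd (Finset.mem_univ _) hb
  · intro b _ hb
    apply Finset.sum_eq_zero
    intro c _
    simp [hb]
  · intro hb; exact absurd (Finset.mem_univ _) hb

/-- the matrix of linear forms attached to `m`. -/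
noncomputable def linM (F : Type*) [Field F] [Algebra k F] [Algebra (SS k ι) F]
    (m : ι → ι → Matrix (Fin 2) (Fin 2) k) : Matrix (Fin 2) ι F :=
  Matrix.of fun r c => ∑ j, ((m j c).map (algebraMap k F) * xm k ι F) r j

lemma linM_apply (m : ι → ι → Matrix (Fin 2) (Fin 2) k) (r : Fin 2) (c : ι) :
    linM F m r c = ∑ j, ((m j c).map (algebraMap k F) * xm k ι F) r j := rfl

lemma linM_add (m m' : ι → ι → Matrix (Fin 2) (Fin 2) k) :
    linM F (fun j c => m j c + m' j c) = linM F m + linM F m' := by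
  ext r c
  simp only [linM_apply, Matrix.add_apply, ← Finset.sum_add_distrib]
  apply Finset.sum_congr rfl
  intro j _
  simp only [Matrix.mul_apply, Matrix.map_apply, Matrix.add_apply, map_add, add_mul,
    Finset.sum_add_distrib]

lemma linM_neg (m : ι → ι → Matrix (Fin 2) (Fin 2) k) :
    linM F (fun j c => - m j c) = - linM F m := by
  ext r c
  simp only [linM_apply, Matrix.neg_apply, ← Finset.sum_neg_distrib]
  apply Finset.sum_congr rfl
  intro j _
  simp only [Matrix.mul_apply, Matrix.map_apply, Matrix.neg_apply, map_neg, neg_mul,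
    Finset.sum_neg_distrib]

lemma linM_sub (m m' : ι → ι → Matrix (Fin 2) (Fin 2) k) :
    linM F (fun j c => m j c - m' j c) = linM F m - linM F m' := by
  simp only [sub_eq_add_neg]
  rw [linM_add, linM_neg]

lemma gF_mul_linM (φ : k →+* k) (g : GL (Fin 2) k) (m : ι → ι → Matrix (Fin 2) (Fin 2) k) :
    gF F φ g * linM F m = linM F (fun j c => frobM φ g * m j c) := by
  ext r c
  simp only [linM_apply, Matrix.map_mul, Matrix.mul_assoc]
  rw [Matrix.mul_apply]
  simp only [linM_apply]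
  simp only [gF]
  rw [Finset.sum_congr rfl (fun s _ => Finset.mul_sum _ _ _), Finset.sum_comm]
  apply Finset.sum_congr rfl
  intro j _
  exact (Matrix.mul_apply).symm

lemma sig_linM (g : GL (Fin 2) k) (m : ι → ι → Matrix (Fin 2) (Fin 2) k) :
    (linM F m).map (sigF (ι := ι) F g) = linM F (fun j c => m j c * frobM (RingHom.id k) g) := by
  ext r c
  simp only [Matrix.map_apply, linM_apply, map_sum]
  apply Finset.sum_congr rfl
  intro j _
  have h := map_sigF_xm (F := F) (ι := ι) g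
  have h1 : frobM (RingHom.id k) g = (g : Matrix (Fin 2) (Fin 2) k) := by
    ext r s; simp [frobM]
  rw [h1, Matrix.map_mul, Matrix.mul_assoc, ← h, Matrix.mul_apply, Matrix.mul_apply, map_sum]
  apply Finset.sum_congr rfl
  intro s _
  simp

lemma linM_scalar (B : Matrix (Fin 2) (Fin 2) k) :
    linM F (fun j c => if j = c then B else 0) = B.map (algebraMap k F) * xm k ι F := by
  ext r c
  rw [linM_apply, Finset.sum_eq_single c]
  · simp
  · intro j _ hj
    simp [hj, Matrix.mul_apply]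
  · intro h; exact absurd (Finset.mem_univ _) h

lemma linM_inj {m m' : ι → ι → Matrix (Fin 2) (Fin 2) k} (h : linM F m = linM F m') :
    m = m' := by
  have h0 : linM F (fun j c => m j c - m' j c) = 0 := by rw [linM_sub, h, sub_self]
  funext j c
  ext r s
  have h1 := congrFun (congrFun h0 r) c
  rw [linM_apply] at h1
  have h2 := xm_linIndep (F := F) (fun s j => (m j c - m' j c) r s) (by
    rw [Finset.sum_comm]
    rw [← h1.trans (Matrix.zero_apply r c)]
    apply Finset.sum_congr rfl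
    intro j _
    simp [Matrix.mul_apply])
  have := h2 s j
  simpa [sub_eq_zero] using this

/-- the rank-one gauge correction -/
lemma exists_linM (cf : Cfg ι) (Z : Matrix (Fin 2) ι F)
    (h1 : ∀ r c, Z r c ∈ Rsub (k := k) F {cf.J1}) (h2 : ∀ r c, Z r c ∈ Rsub (k := k) F {cf.J2})
    (hd : ∀ r c, HasDeg k ι wt1 1 (Z r c)) :
    ∃ m : ι → ι → Matrix (Fin 2) (Fin 2) k, Z = linM F m := by
  have key := fun r c => inter_lin cf.J1 cf.J2 cf.i1 cf.i2 cf.h12 (h1 r c) (h2 r c) (hd r c)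
  choose a ha using key
  refine ⟨fun j c => Matrix.of fun r s => a r c s j, ?_⟩
  ext r c
  rw [ha, linM_apply, Finset.sum_comm]
  apply Finset.sum_congr rfl
  intro j _
  simp [Matrix.mul_apply]

lemma deg_mul_xm {M : Type*} [AddCommGroup M] {wt : Fin 2 → M} {d : Fin 2 → M}
    (B : Matrix (Fin 2) (Fin 2) F) (hB : ∀ r s, HasDeg k ι wt (d r - wt s) (B r s)) :
    ∀ r c, HasDeg k ι wt (d r) ((B * xm k ι F) r c) := by
  intro r c
  rw [Matrix.mul_apply]
  apply HasDeg.sum
  intro s _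
  have h1 : HasDeg k ι wt (wt s) (xm k ι F s c) :=
    HasDeg.of_homog (isWeightedHomogeneous_X k _ (s, c))
  have := (hB r s).mul h1
  rwa [sub_add_cancel] at this

lemma mem_mul_xm {Js : Multiset (Fin 2 → ι)} (B : Matrix (Fin 2) (Fin 2) F)
    (hB : ∀ r s, B r s ∈ Rsub (k := k) F Js) :
    ∀ r c, (B * xm k ι F) r c ∈ Rsub (k := k) F Js :=
  Rsub_mul_const _ _ hB (fun _ _ => algebraMap_mem_Rsub _ _)

/-- Step 1: splitting of the gauge 2-cocycle. -/
lemma horiz_step1 (cf : Cfg ι)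
    (M12 M13 M23 : Matrix (Fin 2) ι F) (A : Matrix (Fin 2) (Fin 2) F)
    (m12 : ∀ r c, M12 r c ∈ Rsub (k := k) F ({cf.J1} + {cf.J2}))
    (m13 : ∀ r c, M13 r c ∈ Rsub (k := k) F ({cf.J1} + {cf.J3}))
    (m23 : ∀ r c, M23 r c ∈ Rsub (k := k) F ({cf.J2} + {cf.J3}))
    (mA : ∀ r c, A r c ∈ Rsub (k := k) F ({cf.J1} + {cf.J2} + {cf.J3}))
    (dA : ∀ r s, HasDeg k ι wt2 (cd 1 r s) (A r s))
    (h : M12 + M23 - M13 = A * xm k ι F) :
    ∃ B12 B13 B23 : Matrix (Fin 2) (Fin 2) F,
      (∀ r c, B12 r c ∈ Rsub (k := k) F ({cf.J1} + {cf.J2})) ∧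
      (∀ r c, B13 r c ∈ Rsub (k := k) F ({cf.J1} + {cf.J3})) ∧
      (∀ r c, B23 r c ∈ Rsub (k := k) F ({cf.J2} + {cf.J3})) ∧
      (∀ r s, HasDeg k ι wt2 (cd 1 r s) (B12 r s)) ∧
      (∀ r s, HasDeg k ι wt2 (cd 1 r s) (B13 r s)) ∧
      (∀ r s, HasDeg k ι wt2 (cd 1 r s) (B23 r s)) ∧ A = B12 + B23 - B13 := by
  let J' : Fin 2 → ι := ![cf.J1 0, cf.e]
  have hJ' : Function.Injective J' := by
    intro a b hab
    fin_cases a <;> fin_cases b
    · rfl
    · exact absurd hab (cf.e1 0)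
    · exact absurd hab.symm (cf.e1 0)
    · rfl
  have h01 : cf.J1 1 ≠ cf.J1 0 := fun e => by simpa using cf.i1 e
  have hrow : ∀ r c, (A * xm k ι F) r c = A r 0 * xm k ι F 0 c + A r 1 * xm k ι F 1 c := by
    intro r c; rw [Matrix.mul_apply, Fin.sum_univ_two]
  have hrow' : ∀ r c, M12 r c + M23 r c - M13 r c =
      A r 0 * xm k ι F 0 c + A r 1 * xm k ι F 1 c := by
    intro r c; rw [← hrow, ← h]; rfl
  have hmn : algebraMap (SS k ι) F (mnr k J') = xm k ι F 0 (cf.J1 0) * xm k ι F 1 cf.e -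
      xm k ι F 0 cf.e * xm k ι F 1 (cf.J1 0) := by
    simp [mnr, xm, J']
  have key : ∀ r s, ∃ a12 a13 a23 : F, a12 ∈ Rsub (k := k) F ({cf.J1} + {cf.J2}) ∧
      a13 ∈ Rsub (k := k) F ({cf.J1} + {cf.J3}) ∧ a23 ∈ Rsub (k := k) F ({cf.J2} + {cf.J3}) ∧
      HasDeg k ι wt2 (cd 1 r s) a12 ∧ HasDeg k ι wt2 (cd 1 r s) a13 ∧
      HasDeg k ι wt2 (cd 1 r s) a23 ∧ A r s = a12 + a13 + a23 := by
    intro r s
    have hx : ∀ (Js : Multiset (Fin 2 → ι)) r c, xm k ι F r c ∈ Rsub (k := k) F Js :=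
      fun Js r c => algebraMap_mem_Rsub _ _
    have hs : s = 0 ∨ s = 1 := by fin_cases s <;> simp
    rcases hs with rfl | rfl
    · refine cech_two (k := k) (F := F) cf.J1 cf.J2 cf.J3 J' cf.i1 cf.i2 cf.i3 hJ' cf.h12 cf.h13
        cf.h23 ?_ ?_ 1 ?_ (mA r 0) (dA r 0)
        (b12 := M12 r (cf.J1 0) * xm k ι F 1 cf.e - M12 r cf.e * xm k ι F 1 (cf.J1 0))
        (b13 := -(M13 r (cf.J1 0) * xm k ι F 1 cf.e - M13 r cf.e * xm k ι F 1 (cf.J1 0)))
        (b23 := M23 r (cf.J1 0) * xm k ι F 1 cf.e - M23 r cf.e * xm k ι F 1 (cf.J1 0))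
        (sub_mem (mul_mem (m12 _ _) (hx _ _ _)) (mul_mem (m12 _ _) (hx _ _ _)))
        (neg_mem (sub_mem (mul_mem (m13 _ _) (hx _ _ _)) (mul_mem (m13 _ _) (hx _ _ _))))
        (sub_mem (mul_mem (m23 _ _) (hx _ _ _)) (mul_mem (m23 _ _) (hx _ _ _))) ?_
      · intro a b; fin_cases a
        · exact cf.h12 0 b
        · exact cf.e2 b
      · intro a b; fin_cases a
        · exact cf.h13 0 b
        · exact cf.e3 b
      · intro d; fin_cases d
        · exact h01
        · exact cf.e1 1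
      · rw [hmn]
        linear_combination (-xm k ι F 1 cf.e) * hrow' r (cf.J1 0) +
          xm k ι F 1 (cf.J1 0) * hrow' r cf.e
    · refine cech_two (k := k) (F := F) cf.J1 cf.J2 cf.J3 J' cf.i1 cf.i2 cf.i3 hJ' cf.h12 cf.h13
        cf.h23 ?_ ?_ 1 ?_ (mA r 1) (dA r 1)
        (b12 := M12 r cf.e * xm k ι F 0 (cf.J1 0) - M12 r (cf.J1 0) * xm k ι F 0 cf.e)
        (b13 := -(M13 r cf.e * xm k ι F 0 (cf.J1 0) - M13 r (cf.J1 0) * xm k ι F 0 cf.e))
        (b23 := M23 r cf.e * xm k ι F 0 (cf.J1 0) - M23 r (cf.J1 0) * xm k ι F 0 cf.e)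
        (sub_mem (mul_mem (m12 _ _) (hx _ _ _)) (mul_mem (m12 _ _) (hx _ _ _)))
        (neg_mem (sub_mem (mul_mem (m13 _ _) (hx _ _ _)) (mul_mem (m13 _ _) (hx _ _ _))))
        (sub_mem (mul_mem (m23 _ _) (hx _ _ _)) (mul_mem (m23 _ _) (hx _ _ _))) ?_
      · intro a b; fin_cases a
        · exact cf.h12 0 b
        · exact cf.e2 b
      · intro a b; fin_cases a
        · exact cf.h13 0 b
        · exact cf.e3 b
      · intro d; fin_cases d
        · exact h01
        · exact cf.e1 1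
      · rw [hmn]
        linear_combination (-xm k ι F 0 (cf.J1 0)) * hrow' r cf.e +
          xm k ι F 0 cf.e * hrow' r (cf.J1 0)
  choose a12 a13 a23 p12 p13 p23 q12 q13 q23 he using key
  refine ⟨Matrix.of a12, -Matrix.of a13, Matrix.of a23, p12, fun r c => neg_mem (p13 r c), p23,
    q12, fun r c => (q13 r c).neg, q23, ?_⟩
  ext r s
  rw [he]
  simp only [Matrix.add_apply, Matrix.sub_apply, Matrix.of_apply, Matrix.neg_apply]
  ring

/-- Equivariant (up to gauge) solution of the horizontal problem. -/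
theorem horiz_solve (cf : Cfg ι) (hk2 : (2 : k) ≠ 0) (hk3 : (3 : k) ≠ 0)
    (M12 M13 M23 : Matrix (Fin 2) ι F) (A : Matrix (Fin 2) (Fin 2) F)
    (m12 : ∀ r c, M12 r c ∈ Rsub (k := k) F ({cf.J1} + {cf.J2}))
    (m13 : ∀ r c, M13 r c ∈ Rsub (k := k) F ({cf.J1} + {cf.J3}))
    (m23 : ∀ r c, M23 r c ∈ Rsub (k := k) F ({cf.J2} + {cf.J3}))
    (mA : ∀ r c, A r c ∈ Rsub (k := k) F ({cf.J1} + {cf.J2} + {cf.J3}))
    (d12 : ∀ r c, HasDeg k ι wt2 (wt2 r) (M12 r c))
    (d13 : ∀ r c, HasDeg k ι wt2 (wt2 r) (M13 r c))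
    (dA : ∀ r s, HasDeg k ι wt2 (cd 1 r s) (A r s))
    (h : M12 + M23 - M13 = A * xm k ι F)
    (e12 : ∀ g, M12.map (sigF (ι := ι) F g) = gF F (RingHom.id k) g * M12)
    (e13 : ∀ g, M13.map (sigF (ι := ι) F g) = gF F (RingHom.id k) g * M13)
    (eA : ∀ g, A.map (sigF (ι := ι) F g) * gF F (RingHom.id k) g =
      gF F (RingHom.id k) g * A) :
    ∃ E1 E2 E3 : Matrix (Fin 2) ι F,
      (∀ r c, E1 r c ∈ Rsub (k := k) F {cf.J1}) ∧ (∀ r c, E2 r c ∈ Rsub (k := k) F {cf.J2}) ∧
      (∀ r c, E3 r c ∈ Rsub (k := k) F {cf.J3}) ∧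
      (∃ B : Matrix (Fin 2) (Fin 2) F, M12 = E1 - E2 + B * xm k ι F) ∧
      (∃ B : Matrix (Fin 2) (Fin 2) F, M13 = E1 - E3 + B * xm k ι F) ∧
      (∃ B : Matrix (Fin 2) (Fin 2) F, M23 = E2 - E3 + B * xm k ι F) ∧
      (∀ g, ∃ B : Matrix (Fin 2) (Fin 2) F,
        E1.map (sigF (ι := ι) F g) = gF F (RingHom.id k) g * (E1 + B * xm k ι F)) ∧
      (∀ g, ∃ B : Matrix (Fin 2) (Fin 2) F,
        E2.map (sigF (ι := ι) F g) = gF F (RingHom.id k) g * (E2 + B * xm k ι F)) ∧
      (∀ g, ∃ B : Matrix (Fin 2) (Fin 2) F,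
        E3.map (sigF (ι := ι) F g) = gF F (RingHom.id k) g * (E3 + B * xm k ι F)) := by
  classical
  set φ : k →+* k := RingHom.id k with hφdef
  have hφ : ∀ a : k, φ a = a ^ 1 := fun a => by simp [hφdef]
  obtain ⟨B12, B13, B23, mB12, mB13, mB23, dB12, dB13, dB23, hAB⟩ :=
    horiz_step1 cf M12 M13 M23 A m12 m13 m23 mA dA h
  have hcd : ∀ r s : Fin 2, cd 1 r s = wt2 r - wt2 s := fun r s => by simp [cd]
  -- step 2
  have hU : (M12 - B12 * xm k ι F) + (M23 - B23 * xm k ι F) = M13 - B13 * xm k ι F := by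
    have h' := h
    rw [hAB, Matrix.sub_mul, Matrix.add_mul, sub_eq_iff_eq_add] at h'
    have : M12 + M23 = B12 * xm k ι F + B23 * xm k ι F - B13 * xm k ι F + M13 := h'
    calc _ = (M12 + M23) - (B12 * xm k ι F + B23 * xm k ι F) := by abel
      _ = _ := by rw [this]; abel
  obtain ⟨E1, E2, E3, mE1, mE2, mE3, dE1, dE2, dE3, hE12, hE13, hE23⟩ :=
    cech_one_mat (F := F) cf (wt := wt2) (fun r (_ : ι) => wt2 r)
      (M12 - B12 * xm k ι F) (M13 - B13 * xm k ι F) (M23 - B23 * xm k ι F)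
      (fun r c => sub_mem (m12 r c) (mem_mul_xm B12 mB12 r c))
      (fun r c => sub_mem (m13 r c) (mem_mul_xm B13 mB13 r c))
      (fun r c => sub_mem (m23 r c) (mem_mul_xm B23 mB23 r c))
      (fun r c => (d12 r c).sub (deg_mul_xm (d := wt2) B12
        (fun r s => by rw [← hcd]; exact dB12 r s) r c))
      (fun r c => (d13 r c).sub (deg_mul_xm (d := wt2) B13
        (fun r s => by rw [← hcd]; exact dB13 r s) r c)) hU
  -- step 3 : the gauge cocycles
  let bb : Matrix (Fin 2) (Fin 2) F → GL (Fin 2) k → Matrix (Fin 2) (Fin 2) F := fun B g =>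
    (gF F φ g)⁻¹ * (B.map (sigF (ι := ι) F g) * gF F φ g) - B
  have hbb : ∀ B g, B.map (sigF (ι := ι) F g) * gF F φ g = gF F φ g * (B + bb B g) := by
    intro B g
    have : B + bb B g = (gF F φ g)⁻¹ * (B.map (sigF (ι := ι) F g) * gF F φ g) := by
      simp only [bb]; abel
    rw [this, ← Matrix.mul_assoc, gF_mul_inv, Matrix.one_mul]
  have hbbm : ∀ (Js : Multiset (Fin 2 → ι)) B g, (∀ r c, B r c ∈ Rsub (k := k) F Js) →
      ∀ r c, bb B g r c ∈ Rsub (k := k) F Js := by
    intro Js B g hB r c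
    refine sub_mem ?_ (hB r c)
    exact Rsub_mul_const _ _ (gF_inv_mem φ g _)
      (Rsub_mul_const _ _ (map_sig_mem g hB) (gF_mem φ g _)) r c
  have hbbd : ∀ B g, (∀ r s, HasDeg k ι wt2 (cd 1 r s) (B r s)) →
      ∀ r c, HasDeg k ι wt1 0 (bb B g r c) := by
    intro B g hB r c
    have t1 : ∀ r c, HasDeg k ι wt1 0 (B r c) := by
      intro r c
      have := (hB r c).total
      rwa [cd_total] at this
    refine (?_ : HasDeg k ι wt1 0 _).sub (t1 r c)
    obtain ⟨c1, hc1⟩ := gF_inv_const (F := F) φ g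
    rw [hc1]
    exact deg_mul_left _ _ (deg_mul_right _ _ (deg_sig g _ t1)) r c
  have hbbadd : ∀ B B' g, bb (B + B') g = bb B g + bb B' g := by
    intro B B' g
    simp only [bb]
    have : (B + B').map (sigF (ι := ι) F g) = B.map (sigF (ι := ι) F g) +
        B'.map (sigF (ι := ι) F g) := by ext r s; simp
    rw [this]; noncomm_ring
  have hbbneg : ∀ B g, bb (-B) g = - bb B g := by
    intro B g
    simp only [bb]
    have : (-B).map (sigF (ι := ι) F g) = - B.map (sigF (ι := ι) F g) := by ext r s; simp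
    rw [this]; noncomm_ring
  have hbbT : ∀ B a b, (∀ r s, HasDeg k ι wt2 (cd 1 r s) (B r s)) → bb B (gD a b) = 0 := by
    intro B a b hB
    have h1 := hbb B (gD a b)
    rw [torus_conj φ 1 hφ B hB a b] at h1
    have h2 := cancel_gF φ _ h1
    simpa using h2
  have hb : ∀ g, bb B12 g + bb B23 g = bb B13 g := by
    intro g
    have h1 : bb A g = 0 := by
      have h2 := hbb A g
      rw [eA g] at h2
      have h3 := cancel_gF φ _ h2
      simpa using h3
    rw [hAB, sub_eq_add_neg, hbbadd, hbbadd, hbbneg] at h1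
    rw [← sub_eq_add_neg] at h1
    exact sub_eq_zero.mp h1
  have hβ : ∀ g : GL (Fin 2) k, ∃ β1 β2 β3 : Matrix (Fin 2) (Fin 2) F,
      (∀ r c, β1 r c ∈ Rsub (k := k) F {cf.J1}) ∧ (∀ r c, β2 r c ∈ Rsub (k := k) F {cf.J2}) ∧
      (∀ r c, HasDeg k ι wt1 0 (β1 r c)) ∧
      bb B12 g = β1 - β2 ∧ bb B13 g = β1 - β3 ∧
      ((∃ a b, g = gD a b) → β1 = 0 ∧ β2 = 0 ∧ β3 = 0) := by
    intro g
    by_cases hg : ∃ a b, g = gD a b
    · obtain ⟨a, b, rfl⟩ := hg
      refine ⟨0, 0, 0, fun _ _ => zero_mem _, fun _ _ => zero_mem _, fun _ _ => HasDeg.zero,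
        ?_, ?_, fun _ => ⟨rfl, rfl, rfl⟩⟩
      · rw [hbbT _ _ _ dB12, sub_zero]
      · rw [hbbT _ _ _ dB13, sub_zero]
    · obtain ⟨β1, β2, β3, q1, q2, q3, t1, t2, t3, w12, w13, w23⟩ :=
        cech_one_mat (F := F) cf (wt := wt1) (fun _ _ => (0 : ℤ)) (bb B12 g) (bb B13 g) (bb B23 g)
          (hbbm _ _ g mB12) (hbbm _ _ g mB13) (hbbm _ _ g mB23) (hbbd _ g dB12) (hbbd _ g dB13)
          (hb g)
      exact ⟨β1, β2, β3, q1, q2, t1, w12, w13, fun h => absurd h hg⟩
  choose β1 β2 β3 mβ1 mβ2 dβ1 hβ12 hβ13 hβT using hβ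
  -- step 4
  let CC : Matrix (Fin 2) ι F → Matrix (Fin 2) (Fin 2) F → GL (Fin 2) k →
      Matrix (Fin 2) ι F := fun E β g =>
    (gF F φ g)⁻¹ * E.map (sigF (ι := ι) F g) - E + β * xm k ι F
  have hCC : ∀ E β g, E.map (sigF (ι := ι) F g) =
      gF F φ g * (E + CC E β g - β * xm k ι F) := by
    intro E β g
    have : E + CC E β g - β * xm k ι F = (gF F φ g)⁻¹ * E.map (sigF (ι := ι) F g) := by
      simp only [CC]; abel
    rw [this, ← Matrix.mul_assoc, gF_mul_inv, Matrix.one_mul]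
  have hxm : ∀ g, (xm k ι F).map (sigF (ι := ι) F g) = gF F φ g * xm k ι F := by
    intro g
    rw [map_sigF_xm]
    rfl
  -- the comparison of the two defects
  have hcomp : ∀ (M : Matrix (Fin 2) ι F) (B : Matrix (Fin 2) (Fin 2) F)
      (E E' : Matrix (Fin 2) ι F) (β β' : GL (Fin 2) k → Matrix (Fin 2) (Fin 2) F),
      (∀ g, M.map (sigF (ι := ι) F g) = gF F φ g * M) → M - B * xm k ι F = E - E' →
      (∀ g, bb B g = β g - β' g) → ∀ g, CC E (β g) g = CC E' (β' g) g := by
    intro M B E E' β β' hM hME hB g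
    apply cancel_gF φ g
    have a1 := hCC E (β g) g
    have a2 := hCC E' (β' g) g
    have a3 : (E - E').map (sigF (ι := ι) F g) = E.map (sigF (ι := ι) F g) -
      E'.map (sigF (ι := ι) F g) := by ext r s; simp
    have a4 : (E - E').map (sigF (ι := ι) F g) = gF F φ g * M -
        (B.map (sigF (ι := ι) F g) * gF F φ g) * xm k ι F := by
      rw [← hME, Matrix.mul_assoc, ← hxm, ← hM, ← Matrix.map_mul]
      ext r s; simp only [Matrix.map_apply, Matrix.sub_apply, map_sub]
    rw [a3, a1, a2, hbb, hB] at a4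
    have a5 : M = E - E' + B * xm k ι F := by rw [← hME]; abel
    rw [a5] at a4
    have : gF F φ g * CC E (β g) g - gF F φ g * CC E' (β' g) g = 0 := by
      have h9 := sub_eq_zero.mpr a4
      rw [← h9]
      simp only [Matrix.mul_add, Matrix.mul_sub, Matrix.add_mul, Matrix.sub_mul, Matrix.mul_assoc]
      abel
    exact sub_eq_zero.mp this
  have hC12 := hcomp M12 B12 E1 E2 β1 β2 e12 hE12 hβ12
  have hC13 := hcomp M13 B13 E1 E3 β1 β3 e13 hE13 hβ13
  have hCCm : ∀ (J : Fin 2 → ι) E β g, (∀ r c, E r c ∈ Rsub (k := k) F {J}) →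
      (∀ r c, β r c ∈ Rsub (k := k) F {J}) → ∀ r c, CC E β g r c ∈ Rsub (k := k) F {J} := by
    intro J E β g hE hβ r c
    refine add_mem (sub_mem ?_ (hE r c)) (mem_mul_xm β hβ r c)
    exact Rsub_mul_const _ _ (gF_inv_mem φ g _) (map_sig_mem g hE) r c
  have hwt : ∀ r : Fin 2, (wt2 r).1 + (wt2 r).2 = 1 := wt2_total
  have hlin : ∀ g, ∃ c : ι → ι → Matrix (Fin 2) (Fin 2) k, CC E1 (β1 g) g = linM F c := by
    intro g
    apply exists_linM cf
    · exact hCCm _ _ _ g mE1 (mβ1 g)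
    · intro r c
      rw [hC12]
      exact hCCm _ _ _ g mE2 (mβ2 g) r c
    · intro r c
      have t1 : ∀ r c, HasDeg k ι wt1 1 (E1 r c) := by
        intro r c
        have := (dE1 r c).total
        rwa [hwt] at this
      have t2 : HasDeg k ι wt1 1 ((β1 g * xm k ι F) r c) := by
        refine deg_mul_xm (wt := wt1) (d := fun _ => 1) _ ?_ r c
        intro r s
        simpa [wt1] using dβ1 g r s
      refine ((?_ : HasDeg k ι wt1 1 _).sub (t1 r c)).add t2
      obtain ⟨c1, hc1⟩ := gF_inv_const (F := F) φ g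
      rw [hc1]
      exact deg_mul_left _ _ (deg_sig g _ t1) r c
  choose c hc using hlin
  -- torus
  have hcT : ∀ a b, c (gD a b) = fun _ _ => 0 := by
    intro a b
    apply linM_inj (F := F)
    rw [← hc, (hβT _ ⟨a, b, rfl⟩).1]
    have h1 := hCC E1 0 (gD a b)
    have h2 : E1.map (sigF (ι := ι) F (gD a b)) = gF F φ (gD a b) * E1 := by
      rw [gF_torus]
      ext r s
      rw [Matrix.diagonal_mul, Matrix.map_apply, (dE1 r s).torus, chi_wt2]
      simp [hφdef]
    rw [h2] at h1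
    have h3 := cancel_gF φ _ h1
    rw [Matrix.zero_mul, sub_zero] at h3
    have h4 : CC E1 0 (gD a b) = 0 := by simpa using h3
    rw [h4]
    ext r s
    simp [linM_apply, Matrix.mul_apply]
  -- step 5 : cocycle relation
  have hcoc : ∀ g h' : GL (Fin 2) k, ∃ B : Matrix (Fin 2) (Fin 2) k, ∀ j i,
      frobM φ h' * c (g * h') j i = c g j i * frobM φ h' + frobM φ h' * (c h' j i) +
        frobM φ h' * (if j = i then B else 0) := by
    intro g h'
    -- the remainder
    have hbcoc : ∀ B : Matrix (Fin 2) (Fin 2) F, gF F φ h' * bb B (g * h') =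
        (bb B g).map (sigF (ι := ι) F h') * gF F φ h' + gF F φ h' * bb B h' := by
      intro B
      apply cancel_gF φ g
      have a1 := hbb B (g * h')
      have a2 := hbb B g
      have a3 := hbb B h'
      have a4 := congrArg (fun M : Matrix (Fin 2) (Fin 2) F => M.map (sigF (ι := ι) F h')) a2
      simp only [Matrix.map_mul, gF_sig] at a4
      have a5 : (B.map (sigF (ι := ι) F g)).map (sigF (ι := ι) F h') =
          B.map (sigF (ι := ι) F (g * h')) := by
        ext r s; simp [sigF_comp]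
      have a6 : ((B + bb B g)).map (sigF (ι := ι) F h') =
          B.map (sigF (ι := ι) F h') + (bb B g).map (sigF (ι := ι) F h') := by
        ext r s; simp only [Matrix.map_apply, Matrix.add_apply, map_add]
      rw [a5, a6] at a4
      rw [gF_mul] at a1
      have a7 : gF F φ g * gF F φ h' * (B + bb B (g * h')) =
          gF F φ g * (B.map (sigF (ι := ι) F h') * gF F φ h' +
            (bb B g).map (sigF (ι := ι) F h') * gF F φ h') := by
        rw [← a1, ← Matrix.mul_assoc, a4]; noncomm_ring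
      rw [a3] at a7
      have a8 := sub_eq_zero.mpr a7
      rw [← sub_eq_zero, ← a8]
      noncomm_ring
    let RR : (GL (Fin 2) k → Matrix (Fin 2) (Fin 2) F) → Matrix (Fin 2) (Fin 2) F := fun β =>
      β (g * h') - β h' - (gF F φ h')⁻¹ * ((β g).map (sigF (ι := ι) F h') * gF F φ h')
    have hRR : ∀ β, gF F φ h' * RR β = gF F φ h' * β (g * h') - gF F φ h' * β h' -
        (β g).map (sigF (ι := ι) F h') * gF F φ h' := by
      intro β
      simp only [RR]
      rw [Matrix.mul_sub, Matrix.mul_sub, ← Matrix.mul_assoc (gF F φ h') (gF F φ h')⁻¹,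
        gF_mul_inv, Matrix.one_mul]
    have hR12 : RR β1 = RR β2 := by
      apply cancel_gF φ h'
      have h1 := hbcoc B12
      rw [hβ12, hβ12, hβ12] at h1
      have h2 : (β1 g - β2 g).map (sigF (ι := ι) F h') = (β1 g).map (sigF (ι := ι) F h') -
          (β2 g).map (sigF (ι := ι) F h') := by ext r s; simp
      rw [h2] at h1
      rw [hRR, hRR, ← sub_eq_zero]
      have h3 := sub_eq_zero.mpr h1
      rw [← h3]
      noncomm_ring
    have hRm : ∀ (J : Fin 2 → ι) (β : GL (Fin 2) k → Matrix (Fin 2) (Fin 2) F),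
        (∀ g r c, β g r c ∈ Rsub (k := k) F {J}) → ∀ r c, RR β r c ∈ Rsub (k := k) F {J} := by
      intro J β hβ r c
      refine sub_mem (sub_mem (hβ _ _ _) (hβ _ _ _)) ?_
      exact Rsub_mul_const _ _ (gF_inv_mem φ h' _)
        (Rsub_mul_const _ _ (map_sig_mem h' (hβ g)) (gF_mem φ h' _)) r c
    have hRc : ∀ r s, ∃ x : k, RR β1 r s = algebraMap k F x := by
      intro r s
      refine inter_const cf.J1 cf.J2 cf.i1 cf.i2 cf.h12 (hRm _ _ mβ1 r s) ?_ ?_
      · rw [hR12]; exact hRm _ _ mβ2 r s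
      · refine ((dβ1 _ _ _).sub (dβ1 _ _ _)).sub ?_
        obtain ⟨c1, hc1⟩ := gF_inv_const (F := F) φ h'
        rw [hc1]
        exact deg_mul_left _ _ (deg_mul_right _ _ (deg_sig h' _ (dβ1 g))) r s
    choose B hB using hRc
    have hB' : RR β1 = (Matrix.of B).map (algebraMap k F) := by
      ext r s; exact hB r s
    refine ⟨Matrix.of B, ?_⟩
    -- linear forms identity
    have key : gF F φ h' * linM F (c (g * h')) = gF F φ h' * linM F (c h') +
        (linM F (c g)).map (sigF (ι := ι) F h') +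
        gF F φ h' * ((Matrix.of B).map (algebraMap k F) * xm k ι F) := by
      rw [← hc, ← hc, ← hc, ← hB']
      apply cancel_gF φ g
      have a1 := hCC E1 (β1 (g * h')) (g * h')
      have a2 := hCC E1 (β1 g) g
      have a3 := hCC E1 (β1 h') h'
      have a4 := congrArg (fun M : Matrix (Fin 2) ι F => M.map (sigF (ι := ι) F h')) a2
      simp only [Matrix.map_mul, gF_sig] at a4
      have a5 : (E1.map (sigF (ι := ι) F g)).map (sigF (ι := ι) F h') =
          E1.map (sigF (ι := ι) F (g * h')) := by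
        ext r s; simp [sigF_comp]
      have a6 : ((E1 + CC E1 (β1 g) g - β1 g * xm k ι F)).map (sigF (ι := ι) F h') =
          E1.map (sigF (ι := ι) F h') + (CC E1 (β1 g) g).map (sigF (ι := ι) F h') -
          ((β1 g).map (sigF (ι := ι) F h') * gF F φ h') * xm k ι F := by
        rw [Matrix.mul_assoc, ← hxm, ← Matrix.map_mul]
        ext r s
        simp only [Matrix.map_apply, Matrix.add_apply, Matrix.sub_apply, map_add, map_sub]
      rw [a5, a6, a3, a1, gF_mul] at a4
      have a7 := hRR β1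
      have a8 : (β1 g).map (sigF (ι := ι) F h') * gF F φ h' =
          gF F φ h' * β1 (g * h') - gF F φ h' * β1 h' - gF F φ h' * RR β1 := by
        rw [a7]; abel
      rw [a8] at a4
      have a9 := sub_eq_zero.mpr a4
      rw [← sub_eq_zero, ← a9]
      simp only [Matrix.mul_add, Matrix.mul_sub, Matrix.sub_mul, Matrix.mul_assoc]
      abel
    rw [gF_mul_linM, gF_mul_linM, sig_linM, ← linM_scalar, gF_mul_linM, ← linM_add,
      ← linM_add] at key
    have key2 := linM_inj key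
    intro j i
    have := congrFun (congrFun key2 j) i
    rw [this]
    abel
  -- step 6, 7
  let c' : GL (Fin 2) k → ι → ι → Matrix (Fin 2) (Fin 2) k := fun g j i =>
    c g j i - (if j = i then c g cf.e cf.e else 0)
  have hc' : ∀ j i, IsCoc φ (fun _ _ => 0) (fun g => c' g j i) := by
    intro j i g h'
    obtain ⟨B, hB⟩ := hcoc g h'
    have h1 := hB j i
    have h2 := hB cf.e cf.e
    simp only [if_true] at h2
    simp only [c', add_zero]
    by_cases hji : j = i
    · simp only [hji, if_true] at h1 ⊢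
      rw [Matrix.mul_sub, h1, h2]
      noncomm_ring
    · simp only [hji, if_false] at h1 ⊢
      rw [Matrix.mul_sub, h1]
      noncomm_ring
  have hc'T : ∀ j i a b, c' (gD a b) j i = 0 := by
    intro j i a b
    simp only [c', hcT]
    simp
  have hm := fun j i => coc_trivial (hc' j i) (hc'T j i) hk2 hk3
  choose m hm using hm
  -- step 8
  have hfin : ∀ (E : Matrix (Fin 2) ι F) (β : GL (Fin 2) k → Matrix (Fin 2) (Fin 2) F),
      (∀ g, CC E (β g) g = linM F (c g)) → ∀ g, ∃ B : Matrix (Fin 2) (Fin 2) F,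
        (E - linM F m).map (sigF (ι := ι) F g) =
          gF F φ g * ((E - linM F m) + B * xm k ι F) := by
    intro E β hE g
    refine ⟨(c g cf.e cf.e).map (algebraMap k F) - β g, ?_⟩
    have a1 : (E - linM F m).map (sigF (ι := ι) F g) = E.map (sigF (ι := ι) F g) -
        (linM F m).map (sigF (ι := ι) F g) := by
      ext r s; simp only [Matrix.map_apply, Matrix.sub_apply, map_sub]
    have a2 : linM F (fun j i => frobM φ g * c' g j i) = linM F (fun j i => m j i * frobM φ g) -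
        linM F (fun j i => frobM φ g * m j i) := by
      rw [← linM_sub]
      congr 1
      funext j i
      exact hm j i g
    have a3 : linM F (fun j i => frobM φ g * c' g j i) = gF F φ g * (linM F (c g) -
        (c g cf.e cf.e).map (algebraMap k F) * xm k ι F) := by
      rw [← gF_mul_linM, ← linM_scalar, ← linM_sub]
    rw [a1, hCC E (β g) g, hE, sig_linM, ← hφdef]
    have a4 : linM F (fun j i => m j i * frobM φ g) = gF F φ g * (linM F (c g) -
        (c g cf.e cf.e).map (algebraMap k F) * xm k ι F) + gF F φ g * linM F m := by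
      rw [← a3, a2, gF_mul_linM]; abel
    rw [a4]
    simp only [Matrix.mul_add, Matrix.mul_sub, Matrix.sub_mul]
    abel
  have hmL : ∀ (Js : Multiset (Fin 2 → ι)) r i, linM F m r i ∈ Rsub (k := k) F Js := by
    intro Js r i
    rw [linM_apply]
    refine sum_mem fun j _ => ?_
    exact mem_mul_xm _ (fun r s => Subalgebra.algebraMap_mem _ _) r j
  refine ⟨E1 - linM F m, E2 - linM F m, E3 - linM F m, fun r i => sub_mem (mE1 r i) (hmL _ r i),
    fun r i => sub_mem (mE2 r i) (hmL _ r i), fun r i => sub_mem (mE3 r i) (hmL _ r i),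
    ⟨B12, ?_⟩, ⟨B13, ?_⟩, ⟨B23, ?_⟩, hfin E1 β1 hc, hfin E2 β2 (fun g => by rw [← hc, hC12]),
    hfin E3 β3 (fun g => by rw [← hc, hC13])⟩
  · have : M12 = E1 - E2 + B12 * xm k ι F := by rw [← hE12]; abel
    rw [this]; abel
  · have : M13 = E1 - E3 + B13 * xm k ι F := by rw [← hE13]; abel
    rw [this]; abel
  · have : M23 = E2 - E3 + B23 * xm k ι F := by rw [← hE23]; abel
    rw [this]; abel

end

end Pool.Agent.Totaro

end
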