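import Pool.Agent.TotaroVar.A04Lift
import Pool.Agent.TotaroVar.A03Horiz

/-! ## Tau -/

section

set_option linter.unusedSectionVars false

namespace Pool.Agent.Totaro

open MvPolynomial Matrix

section

variable {k : Type*} [Field k] {ι : Type*}
  {F : Type*} [Field F] [Algebra k F]
  [Algebra (SS k ι) F] [IsScalarTower k (SS k ι) F]
  [IsFractionRing (SS k ι) F]

/-- The transition matrix `θ_{JK} = x_J⁻¹ x_K`. -/
noncomputable def th (k : Type*) [Field k] {ι : Type*} (F : Type*) [Field F] [Algebra (SS k ι) F]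
    (J K : Fin 2 → ι) : Matrix (Fin 2) (Fin 2) F := (YJ k F J).submatrix id K

lemma xJ_mul_th (J K : Fin 2 → ι) (hJ : Function.Injective J) :
    xJ k F J * th k F J K = xJ k F K := by
  ext r c
  have := congrFun (congrFun (xJ_mul_YJ (k := k) (F := F) J hJ) r) (K c)
  simpa [Matrix.mul_apply, th, xJ] using this

lemma th_eq (J K : Fin 2 → ι) (hJ : Function.Injective J) :
    th k F J K = (xJ k F J)⁻¹ * xJ k F K := by
  rw [← xJ_mul_th J K hJ, ← Matrix.mul_assoc, Matrix.nonsing_inv_mul _ (xJ_isUnit J hJ),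
    Matrix.one_mul]

lemma th_mul (J K M : Fin 2 → ι) (hJ : Function.Injective J) (hK : Function.Injective K) :
    th k F J K * th k F K M = th k F J M := by
  rw [th_eq J K hJ, th_eq K M hK, th_eq J M hJ]
  rw [Matrix.mul_assoc, ← Matrix.mul_assoc (xJ k F K), Matrix.mul_nonsing_inv _ (xJ_isUnit K hK),
    Matrix.one_mul]

lemma th_self (J : Fin 2 → ι) (hJ : Function.Injective J) : th k F J J = 1 := by
  rw [th_eq J J hJ, Matrix.nonsing_inv_mul _ (xJ_isUnit J hJ)]

lemma th_mul_YJ (J K : Fin 2 → ι) (hJ : Function.Injective J) (hK : Function.Injective K) :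
    th k F J K * YJ k F K = YJ k F J := by
  rw [th_eq J K hJ, YJ, YJ, Matrix.mul_assoc, ← Matrix.mul_assoc (xJ k F K),
    Matrix.mul_nonsing_inv _ (xJ_isUnit K hK), Matrix.one_mul]

lemma th_det (J K : Fin 2 → ι) (hJ : Function.Injective J) (hK : Function.Injective K) :
    (th k F J K).det * (th k F K J).det = 1 := by
  rw [← Matrix.det_mul, th_mul J K J hJ hK, th_self J hJ, Matrix.det_one]

lemma th_det_ne (J K : Fin 2 → ι) (hJ : Function.Injective J) (hK : Function.Injective K) :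
    (th k F J K).det ≠ 0 := left_ne_zero_of_mul_eq_one (th_det J K hJ hK)

lemma YJ_mem (J : Fin 2 → ι) (r : Fin 2) (i : ι) : YJ k F J r i ∈ OJ k F J :=
  Algebra.subset_adjoin ⟨(r, i), rfl⟩

lemma th_mem (J K : Fin 2 → ι) (r c : Fin 2) : th k F J K r c ∈ OJ k F J := YJ_mem J r (K c)

variable (p : ℕ) [Fact p.Prime] [CharP k p]
variable {L : Type*} [Field L] [Algebra F L] [Algebra k L] [IsScalarTower k F L] (s : L)

/-- `(v_J)_c = ((1, s) · F(x_J))_c`. -/
noncomputable def vv (k : Type*) [Field k] {ι : Type*} (F : Type*) [Field F]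
    [Algebra (SS k ι) F] (p : ℕ) {L : Type*} [Field L] [Algebra F L] (s : L)
    (J : Fin 2 → ι) (c : Fin 2) : L :=
  algebraMap F L (xJ k F J 0 c ^ p) + s * algebraMap F L (xJ k F J 1 c ^ p)

/-- the fibre coordinates `(v_J)_c / (v_J)_ε`. -/
noncomputable def wv (k : Type*) [Field k] {ι : Type*} (F : Type*) [Field F]
    [Algebra (SS k ι) F] (p : ℕ) {L : Type*} [Field L] [Algebra F L] (s : L)
    (J : Fin 2 → ι) (ε c : Fin 2) : L := vv k F p s J c / vv k F p s J ε

lemma charF (k : Type*) [Field k] (p : ℕ) [CharP k p] (F : Type*) [Field F] [Algebra k F] :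
    CharP F p := charP_of_injective_algebraMap (algebraMap k F).injective p

lemma x_ne (r : Fin 2) (i : ι) : xm k ι F r i ≠ 0 := by
  intro h
  have h2 : (X (r, i) : SS k ι) = 0 :=
    IsFractionRing.injective (SS k ι) F (by rw [map_zero]; exact h)
  exact MvPolynomial.X_ne_zero _ h2

variable {s}

include p in
lemma vv_ne (hs : Transcendental F s) (J : Fin 2 → ι) (c : Fin 2) : vv k F p s J c ≠ 0 := by
  intro h
  apply hs
  have hx : algebraMap F L (xJ k F J 1 c ^ p) ≠ 0 := by
    simp only [map_pow]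
    apply pow_ne_zero
    rw [Ne, FaithfulSMul.algebraMap_eq_zero_iff]
    exact x_ne 1 (J c)
  have h2 : s = algebraMap F L (-(xJ k F J 0 c ^ p) / (xJ k F J 1 c ^ p)) := by
    rw [map_div₀, map_neg, eq_div_iff hx]
    have := h
    unfold vv at this
    linear_combination this
  rw [h2]
  exact isAlgebraic_algebraMap _

lemma vv_trans (J K : Fin 2 → ι) (hJ : Function.Injective J) (c : Fin 2) :
    vv k F p s K c = ∑ d, vv k F p s J d * algebraMap F L (th k F J K d c ^ p) := by
  have := charF k p F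
  have : ExpChar F p := ExpChar.prime Fact.out
  have h := xJ_mul_th (k := k) (F := F) J K hJ
  have h0 : xJ k F K 0 c ^ p = xJ k F J 0 0 ^ p * th k F J K 0 c ^ p +
      xJ k F J 0 1 ^ p * th k F J K 1 c ^ p := by
    rw [← h, Matrix.mul_apply, Fin.sum_univ_two, add_pow_expChar, mul_pow, mul_pow]
  have h1 : xJ k F K 1 c ^ p = xJ k F J 1 0 ^ p * th k F J K 0 c ^ p +
      xJ k F J 1 1 ^ p * th k F J K 1 c ^ p := by
    rw [← h, Matrix.mul_apply, Fin.sum_univ_two, add_pow_expChar, mul_pow, mul_pow]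
  rw [Fin.sum_univ_two, vv, h0, h1, vv, vv]
  simp only [map_add, map_mul]
  ring

lemma wv_self (hs : Transcendental F s) (J : Fin 2 → ι) (ε : Fin 2) :
    wv k F p s J ε ε = 1 := div_self (vv_ne p hs J ε)

lemma wv_trans (J K : Fin 2 → ι) (hJ : Function.Injective J)
    (ε c : Fin 2) :
    vv k F p s K c / vv k F p s J ε =
      ∑ d, wv k F p s J ε d * algebraMap F L (th k F J K d c ^ p) := by
  rw [vv_trans p J K hJ, Finset.sum_div]
  apply Finset.sum_congr rfl
  intro d _
  rw [wv]; ring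

/-- the Möbius coordinate is transcendental over `F`. -/
lemma wv_transcendental (hs : Transcendental F s) (J : Fin 2 → ι) (hJ : Function.Injective J)
    (ε c : Fin 2) (hc : c ≠ ε) : Transcendental F (wv k F p s J ε c) := by
  intro halg
  apply hs
  have := charF k p F
  have : ExpChar F p := ExpChar.prime Fact.out
  set w := wv k F p s J ε c with hw
  have hv := vv_ne (k := k) p hs J ε
  -- w * (x0ε + s x1ε) = x0c + s x1c
  have h1 : w * vv k F p s J ε = vv k F p s J c := div_mul_cancel₀ _ hv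
  unfold vv at h1
  have hdet : xJ k F J 0 ε ^ p * xJ k F J 1 c ^ p - xJ k F J 0 c ^ p * xJ k F J 1 ε ^ p ≠ 0 := by
    have h2 := (xJ_isUnit (k := k) (F := F) J hJ).ne_zero
    rw [Matrix.det_fin_two] at h2
    rw [← mul_pow, ← mul_pow, ← sub_pow_expChar]
    apply pow_ne_zero
    fin_cases ε <;> fin_cases c
    · exact absurd rfl hc
    · exact h2
    · simp only [Fin.mk_one, Fin.zero_eta]
      intro h3
      apply h2
      linear_combination -h3
    · exact absurd rfl hc
  set A := xJ k F J 0 ε ^ p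
  set B := xJ k F J 1 ε ^ p
  set Cc := xJ k F J 0 c ^ p
  set D := xJ k F J 1 c ^ p
  -- s (D - w B) = w A - C
  have h3 : s * (algebraMap F L D - w * algebraMap F L B) =
      w * algebraMap F L A - algebraMap F L Cc := by linear_combination -h1
  have h4 : algebraMap F L D - w * algebraMap F L B ≠ 0 := by
    intro h0
    rw [h0, mul_zero] at h3
    apply hdet
    have h5 : algebraMap F L (A * D - Cc * B) = 0 := by
      rw [map_sub, map_mul, map_mul]
      linear_combination (algebraMap F L A) * h0 + (algebraMap F L B) * h3.symm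
    exact (FaithfulSMul.algebraMap_eq_zero_iff F L).mp h5
  have h5 : s = (w * algebraMap F L A - algebraMap F L Cc) *
      (algebraMap F L D - w * algebraMap F L B)⁻¹ := by
    rw [← h3, mul_assoc, mul_inv_cancel₀ h4, mul_one]
  rw [h5]
  exact ((halg.mul (isAlgebraic_algebraMap _)).sub (isAlgebraic_algebraMap _)).mul
    (((isAlgebraic_algebraMap _).sub (halg.mul (isAlgebraic_algebraMap _))).inv)

/-- generators of the chart ring `P_{J,ε}` -/
def gens (k : Type*) [Field k] {ι : Type*} (F : Type*) [Field F]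
    [Algebra (SS k ι) F] (p : ℕ) {L : Type*} [Field L] [Algebra F L] (s : L)
    (J : Fin 2 → ι) (ε : Fin 2) : Set L :=
  Set.range (fun v : Fin 2 × ι => algebraMap F L (YJ k F J v.1 v.2)) ∪
    Set.range (fun c => wv k F p s J ε c)

lemma vratio_mem_AT (hs : Transcendental F s) (J K : Fin 2 → ι) (hJ : Function.Injective J)
    (ε ε' c : Fin 2) (hε : ε' ≠ ε) :
    vv k F p s K c / vv k F p s J ε ∈ AT (OJ k F J ⊔ OJ k F K) (wv k F p s J ε ε') := by
  rw [wv_trans p J K hJ]
  refine sum_mem fun d _ => ?_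
  refine mul_mem ?_ (algebraMap_mem_AT _ ?_)
  · by_cases hd : d = ε
    · rw [hd, wv_self p hs]; exact one_mem _
    · have : d = ε' := by
        revert hd hε
        fin_cases d <;> fin_cases ε <;> fin_cases ε' <;> simp
      rw [this]
      exact self_mem_AT _ _
  · exact pow_mem ((le_sup_left : OJ k F J ≤ _) (th_mem J K _ _)) _

/-- clearing denominators on the overlap of two charts -/
lemma clear_denom (hs : Transcendental F s) (J K : Fin 2 → ι) (hJ : Function.Injective J)
    (ε ε' : Fin 2) (hε : ε' ≠ ε) (δ : Fin 2) {z : L}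
    (hz : z ∈ Algebra.adjoin k (gens k F p s J ε ∪ gens k F p s K δ)) :
    ∃ n : ℕ, (vv k F p s K δ / vv k F p s J ε) ^ n * z ∈
      AT (OJ k F J ⊔ OJ k F K) (wv k F p s J ε ε') := by
  have hu := vratio_mem_AT (k := k) p hs J K hJ ε ε' δ hε
  induction hz using Algebra.adjoin_induction with
  | mem x hx =>
    rcases hx with (⟨v, rfl⟩ | ⟨c, rfl⟩) | (⟨v, rfl⟩ | ⟨c, rfl⟩)
    · refine ⟨0, ?_⟩
      rw [pow_zero, one_mul]
      exact algebraMap_mem_AT _ ((le_sup_left : OJ k F J ≤ _) (YJ_mem J _ _))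
    · refine ⟨0, ?_⟩
      rw [pow_zero, one_mul]
      by_cases hd : c = ε
      · simp only [hd, wv_self p hs]; exact one_mem _
      · have : c = ε' := by
          revert hd hε
          fin_cases c <;> fin_cases ε <;> fin_cases ε' <;> simp
        simp only [this]
        exact self_mem_AT _ _
    · refine ⟨0, ?_⟩
      rw [pow_zero, one_mul]
      exact algebraMap_mem_AT _ ((le_sup_right : OJ k F K ≤ _) (YJ_mem K _ _))
    · refine ⟨1, ?_⟩
      have hv := vv_ne (k := k) p hs K δ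
      have : (vv k F p s K δ / vv k F p s J ε) ^ 1 * wv k F p s K δ c =
          vv k F p s K c / vv k F p s J ε := by
        rw [pow_one, wv]; field_simp
      simp only [this]
      exact vratio_mem_AT (k := k) p hs J K hJ ε ε' c hε
  | algebraMap r => exact ⟨0, by simp⟩
  | add x y hx hy ihx ihy =>
    obtain ⟨n, hn⟩ := ihx
    obtain ⟨m, hm⟩ := ihy
    refine ⟨n + m, ?_⟩
    have : (vv k F p s K δ / vv k F p s J ε) ^ (n + m) * (x + y) =
        ((vv k F p s K δ / vv k F p s J ε) ^ n * x) * (vv k F p s K δ / vv k F p s J ε) ^ m +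
        ((vv k F p s K δ / vv k F p s J ε) ^ m * y) * (vv k F p s K δ / vv k F p s J ε) ^ n := by
      ring
    rw [this]
    exact add_mem (mul_mem hn (pow_mem hu _)) (mul_mem hm (pow_mem hu _))
  | mul x y hx hy ihx ihy =>
    obtain ⟨n, hn⟩ := ihx
    obtain ⟨m, hm⟩ := ihy
    refine ⟨n + m, ?_⟩
    have : (vv k F p s K δ / vv k F p s J ε) ^ (n + m) * (x * y) =
        ((vv k F p s K δ / vv k F p s J ε) ^ n * x) *
        ((vv k F p s K δ / vv k F p s J ε) ^ m * y) := by
      ring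
    rw [this]
    exact mul_mem hn hm

/-- Elements regular over `(G_J ∩ G_K) × (chart ε of the fibre)`. -/
lemma overlap_mem_AT (hs : Transcendental F s) (J K : Fin 2 → ι) (hJ : Function.Injective J)
    (hK : Function.Injective K) (ε ε' : Fin 2) (hε : ε' ≠ ε) {z : L}
    (hz : ∀ δ, z ∈ Algebra.adjoin k (gens k F p s J ε ∪ gens k F p s K δ)) :
    z ∈ AT (OJ k F J ⊔ OJ k F K) (wv k F p s J ε ε') := by
  obtain ⟨n, hn⟩ := clear_denom p hs J K hJ ε ε' hε 0 (hz 0)
  obtain ⟨m, hm⟩ := clear_denom p hs J K hJ ε ε' hε 1 (hz 1)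
  have hv := vv_ne (k := k) p hs J ε
  have h1 : algebraMap F L (th k F K J 0 ε ^ p) * (vv k F p s K 0 / vv k F p s J ε) +
      algebraMap F L (th k F K J 1 ε ^ p) * (vv k F p s K 1 / vv k F p s J ε) = 1 := by
    have h2 := vv_trans (s := s) (k := k) (F := F) (L := L) p K J hK ε
    rw [Fin.sum_univ_two] at h2
    field_simp
    rw [h2]; ring
  refine mem_of_unimodular (k := k) _ (vratio_mem_AT (k := k) p hs J K hJ ε ε' 0 hε)
    (vratio_mem_AT (k := k) p hs J K hJ ε ε' 1 hε) ?_ ?_ h1 hn hm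
  · exact algebraMap_mem_AT _ (pow_mem ((le_sup_right : OJ k F K ≤ _) (th_mem K J _ _)) _)
  · exact algebraMap_mem_AT _ (pow_mem ((le_sup_right : OJ k F K ≤ _) (th_mem K J _ _)) _)

lemma wv_inv (J : Fin 2 → ι) : (wv k F p s J 0 1)⁻¹ = wv k F p s J 1 0 := by
  rw [wv, wv, inv_div]

/-- Functions regular over all of `π⁻¹(G_J ∩ G_K)`. -/
lemma overlap_const (hs : Transcendental F s) (J K : Fin 2 → ι) (hJ : Function.Injective J)
    (hK : Function.Injective K) {z : L}
    (hz : ∀ ε δ, z ∈ Algebra.adjoin k (gens k F p s J ε ∪ gens k F p s K δ)) :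
    ∃ a ∈ OJ k F J ⊔ OJ k F K, z = algebraMap F L a := by
  refine AT_inter_zero (wv_transcendental (k := k) p hs J hJ 0 1 (by simp))
    (overlap_mem_AT p hs J K hJ hK 0 1 (by simp) (hz 0)) ?_
  rw [wv_inv]
  exact overlap_mem_AT p hs J K hJ hK 1 0 (by simp) (hz 1)

/-- Vertical fields regular over all of `π⁻¹(G_J ∩ G_K)`. -/
lemma overlap_quad (hs : Transcendental F s) (J K : Fin 2 → ι) (hJ : Function.Injective J)
    (hK : Function.Injective K) {z : L}
    (hz0 : ∀ δ, z ∈ Algebra.adjoin k (gens k F p s J 0 ∪ gens k F p s K δ))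
    (hz1 : ∀ δ, z * (wv k F p s J 1 0) ^ 2 ∈
      Algebra.adjoin k (gens k F p s J 1 ∪ gens k F p s K δ)) :
    ∃ a ∈ OJ k F J ⊔ OJ k F K, ∃ b ∈ OJ k F J ⊔ OJ k F K, ∃ c ∈ OJ k F J ⊔ OJ k F K,
      z = algebraMap F L a + algebraMap F L b * wv k F p s J 0 1 +
        algebraMap F L c * wv k F p s J 0 1 ^ 2 := by
  refine AT_inter_two (wv_transcendental (k := k) p hs J hJ 0 1 (by simp))
    (overlap_mem_AT p hs J K hJ hK 0 1 (by simp) hz0) ?_
  rw [wv_inv]
  exact overlap_mem_AT p hs J K hJ hK 1 0 (by simp) hz1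

end

end Pool.Agent.Totaro

end

/-! ## Fld -/

section

set_option linter.unusedSectionVars false

namespace Pool.Agent.Totaro

open MvPolynomial Matrix

section

variable {k : Type*} [Field k] {ι : Type*}
  {F : Type*} [Field F] [Algebra k F]
  [Algebra (SS k ι) F] [IsScalarTower k (SS k ι) F]
  [IsFractionRing (SS k ι) F]

/-- the specialisation `x_J = 1`. -/
noncomputable def spJ (k : Type*) [Field k] {ι : Type*} [DecidableEq ι] (J : Fin 2 → ι) :
    SS k ι →ₐ[k] MvPolynomial (Fin 2 × {i : ι // i ∉ Set.range J}) k :=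
  open Classical in
  aeval (fun v => if h : v.2 ∈ Set.range J then (if J v.1 = v.2 then 1 else 0)
    else X (v.1, ⟨v.2, h⟩))

lemma spJ_mnr [DecidableEq ι] (J : Fin 2 → ι) (hJ : Function.Injective J) :
    spJ k J (mnr k J) = 1 := by
  have h01 : J 0 ≠ J 1 := fun e => by simpa using hJ e
  simp [spJ, mnr, h01, h01.symm]

lemma YJ_apply_mul (J : Fin 2 → ι) (hJ : Function.Injective J) (r : Fin 2) (i : ι) :
    YJ k F J r i * algebraMap (SS k ι) F (mnr k J) =
      algebraMap (SS k ι) F (∑ c, (Matrix.adjugate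
        (Matrix.of fun r c => (X (r, J c) : SS k ι))) r c * X (c, i)) := by
  have hne := mnr_ne (k := k) (F := F) J hJ
  have h1 : (Matrix.of fun r c => (X (r, J c) : SS k ι)).map (algebraMap (SS k ι) F) =
      xJ k F J := by
    ext r c; simp [xJ, xm]
  rw [YJ, Matrix.inv_def, xJ_det, Ring.inverse_eq_inv', Matrix.smul_mul, Matrix.smul_apply,
    smul_eq_mul, map_sum, Matrix.mul_apply]
  rw [mul_comm, ← mul_assoc, mul_inv_cancel₀ hne, one_mul]
  apply Finset.sum_congr rfl
  intro c _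
  rw [map_mul, ← h1]
  congr 1
  have := RingHom.map_adjugate (algebraMap (SS k ι) F)
    (Matrix.of fun r c => (X (r, J c) : SS k ι))
  have := congrFun (congrFun this r) c
  simp only [RingHom.mapMatrix_apply] at this
  rw [← this]
  rfl

lemma YJ_algIndep [DecidableEq ι] (J : Fin 2 → ι) (hJ : Function.Injective J) :
    AlgebraicIndependent k
      (fun v : Fin 2 × {i : ι // i ∉ Set.range J} => YJ k F J v.1 (v.2 : ι)) := by
  classical
  let T := MvPolynomial (Fin 2 × {i : ι // i ∉ Set.range J}) k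
  let loc := Localization.Away (mnr k J)
  have hu : IsUnit ((spJ k J).toRingHom (mnr k J)) := by
    have : (spJ k J).toRingHom (mnr k J) = 1 := spJ_mnr J hJ
    rw [this]; exact isUnit_one
  let sp' : loc →+* T := IsLocalization.Away.lift (mnr k J) hu
  have hu2 : IsUnit (algebraMap (SS k ι) F (mnr k J)) := (mnr_ne J hJ).isUnit
  let emb : loc →+* F := IsLocalization.Away.lift (mnr k J) hu2
  have hemb : Function.Injective emb := by
    rw [injective_iff_map_eq_zero]
    intro z hz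
    obtain ⟨⟨a, b, n, rfl⟩, hab⟩ := IsLocalization.surj (Submonoid.powers (mnr k J)) z
    simp only at hab
    have h1 := congrArg emb hab
    rw [map_mul, hz, zero_mul] at h1
    have h2 : emb (algebraMap (SS k ι) loc a) = algebraMap (SS k ι) F a :=
      IsLocalization.Away.lift_eq _ _ _
    rw [h2] at h1
    have h3 : a = 0 := IsFractionRing.injective (SS k ι) F (by rw [← h1, map_zero])
    rw [h3, map_zero] at hab
    have h4 : IsUnit (algebraMap (SS k ι) loc (mnr k J ^ n)) :=
      IsLocalization.map_units loc (⟨_, n, rfl⟩ : Submonoid.powers (mnr k J))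
    exact (h4.mul_left_eq_zero).mp hab
  let Y' : Fin 2 × {i : ι // i ∉ Set.range J} → loc := fun v =>
    algebraMap (SS k ι) loc (∑ c, (Matrix.adjugate
        (Matrix.of fun r c => (X (r, J c) : SS k ι))) v.1 c * X (c, (v.2 : ι))) *
      IsLocalization.Away.invSelf (mnr k J)
  have hY1 : ∀ v, emb (Y' v) = YJ k F J v.1 (v.2 : ι) := by
    intro v
    have h1 : emb (algebraMap (SS k ι) loc (∑ c, (Matrix.adjugate
        (Matrix.of fun r c => (X (r, J c) : SS k ι))) v.1 c * X (c, (v.2 : ι)))) = _ :=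
      IsLocalization.Away.lift_eq _ _ _
    have h2 : algebraMap (SS k ι) F (mnr k J) *
        emb (IsLocalization.Away.invSelf (mnr k J)) = 1 := by
      have h3 : emb (algebraMap (SS k ι) loc (mnr k J)) = algebraMap (SS k ι) F (mnr k J) :=
        IsLocalization.Away.lift_eq _ _ _
      rw [← h3, ← map_mul, IsLocalization.Away.mul_invSelf, map_one]
    simp only [Y']
    rw [map_mul, h1, ← YJ_apply_mul J hJ, mul_assoc, h2, mul_one]
  have hY2 : ∀ v, sp' (Y' v) = X v := by
    intro v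
    have h1 : sp' (algebraMap (SS k ι) loc (∑ c, (Matrix.adjugate
        (Matrix.of fun r c => (X (r, J c) : SS k ι))) v.1 c * X (c, (v.2 : ι)))) =
        spJ k J _ :=
      IsLocalization.Away.lift_eq _ _ _
    have h2 : sp' (IsLocalization.Away.invSelf (mnr k J)) = 1 := by
      have h3 : sp' (algebraMap (SS k ι) loc (mnr k J)) = spJ k J (mnr k J) :=
        IsLocalization.Away.lift_eq _ _ _
      have h4 := congrArg sp' (IsLocalization.Away.mul_invSelf (S := loc) (mnr k J))
      rw [map_mul, h3, spJ_mnr J hJ, one_mul, map_one] at h4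
      exact h4
    simp only [Y']
    rw [map_mul, h1, h2, mul_one]
    obtain ⟨r, i, hi⟩ := v
    have h01 : J 0 ≠ J 1 := fun e => by simpa using hJ e
    have hi1 : ¬ (J 0 = i ∨ J 1 = i) := by
      rintro (h | h)
      · exact hi ⟨_, h⟩
      · exact hi ⟨_, h⟩
    rw [Matrix.adjugate_fin_two, Fin.sum_univ_two, map_add, map_mul, map_mul]
    fin_cases r
    · simp [spJ, h01, hi1]
    · simp [spJ, h01.symm, hi1]
  -- conclusion
  rw [algebraicIndependent_iff]
  intro q hq
  have e1 : aeval (fun v : Fin 2 × {i : ι // i ∉ Set.range J} => YJ k F J v.1 (v.2 : ι)) q =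
      emb (eval₂ ((algebraMap (SS k ι) loc).comp C) Y' q) := by
    rw [MvPolynomial.aeval_def, ← MvPolynomial.coe_eval₂Hom, ← MvPolynomial.coe_eval₂Hom,
      ← RingHom.comp_apply]
    congr 1
    apply MvPolynomial.ringHom_ext
    · intro c
      simp only [MvPolynomial.coe_eval₂Hom, eval₂_C, RingHom.comp_apply]
      have : emb (algebraMap (SS k ι) loc (C c)) = algebraMap (SS k ι) F (C c) :=
        IsLocalization.Away.lift_eq _ _ _
      rw [this, ← MvPolynomial.algebraMap_eq, ← IsScalarTower.algebraMap_apply]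
    · intro v
      simp [hY1]
  have e2 : sp' (eval₂ ((algebraMap (SS k ι) loc).comp C) Y' q) = q := by
    rw [← MvPolynomial.coe_eval₂Hom, ← RingHom.comp_apply]
    conv_rhs => rw [← RingHom.id_apply q]
    congr 1
    apply MvPolynomial.ringHom_ext
    · intro c
      simp only [MvPolynomial.coe_eval₂Hom, eval₂_C, RingHom.comp_apply]
      have : sp' (algebraMap (SS k ι) loc (C c)) = spJ k J (C c) :=
        IsLocalization.Away.lift_eq _ _ _
      rw [this, ← MvPolynomial.algebraMap_eq, AlgHom.commutes]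
      rfl
    · intro v
      simp [hY2]
  rw [e1] at hq
  have h0 := hemb (hq.trans (map_zero emb).symm)
  rw [h0, map_zero] at e2
  exact e2.symm

variable (p : ℕ) [Fact p.Prime] [CharP k p]
variable {L : Type*} [Field L] [Algebra F L] [Algebra k L] [IsScalarTower k F L] {s : L}

/-- the index set of generators of the chart with pair `J` -/
abbrev GIdx {ι : Type*} (J : Fin 2 → ι) := Unit ⊕ (Fin 2 × {i : ι // i ∉ Set.range J})

/-- the other element of `Fin 2` -/
def oth (ε : Fin 2) : Fin 2 := 1 - ε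

lemma oth_ne (ε : Fin 2) : oth ε ≠ ε := by
  fin_cases ε <;> simp [oth]

lemma eq_oth {ε c : Fin 2} (h : c ≠ ε) : c = oth ε := by
  revert h
  fin_cases ε <;> fin_cases c <;> simp [oth]

/-- free generators of the chart ring -/
noncomputable def genL (k : Type*) [Field k] {ι : Type*} (F : Type*) [Field F]
    [Algebra (SS k ι) F] (p : ℕ) {L : Type*} [Field L] [Algebra F L] (s : L)
    (J : Fin 2 → ι) (ε : Fin 2) : GIdx J → L :=
  Sum.elim (fun _ => wv k F p s J ε (oth ε)) (fun v => algebraMap F L (YJ k F J v.1 (v.2 : ι)))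

lemma genL_algIndep (hs : Transcendental F s) (J : Fin 2 → ι) (hJ : Function.Injective J)
    (ε : Fin 2) : AlgebraicIndependent k (genL k F p s J ε) := by
  classical
  have h1 := YJ_algIndep (k := k) (F := F) J hJ
  have h2 : AlgebraicIndependent F (fun _ : Unit => wv k F p s J ε (oth ε)) := by
    rw [algebraicIndependent_unique_type_iff]
    exact wv_transcendental p hs J hJ ε (oth ε) (oth_ne ε)
  exact h1.sumElim_comp h2

lemma YJ_self (J : Fin 2 → ι) (hJ : Function.Injective J) (r c : Fin 2) :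
    YJ k F J r (J c) = if r = c then 1 else 0 := by
  have := congrFun (congrFun (th_self (k := k) (F := F) J hJ) r) c
  rw [Matrix.one_apply] at this
  exact this

/-- the free generators generate the same algebra as all the matrix entries. -/
lemma adjoin_gens (hs : Transcendental F s) (J : Fin 2 → ι) (hJ : Function.Injective J)
    (ε : Fin 2) : Algebra.adjoin k (gens k F p s J ε) =
      Algebra.adjoin k (Set.range (genL k F p s J ε)) := by
  apply le_antisymm
  · rw [Algebra.adjoin_le_iff]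
    rintro _ (⟨⟨r, i⟩, rfl⟩ | ⟨c, rfl⟩)
    · by_cases hi : i ∈ Set.range J
      · obtain ⟨c, rfl⟩ := hi
        simp only [YJ_self J hJ]
        split_ifs
        · rw [map_one]; exact one_mem _
        · rw [map_zero]; exact zero_mem _
      · exact Algebra.subset_adjoin ⟨Sum.inr (r, ⟨i, hi⟩), rfl⟩
    · by_cases hc : c = ε
      · simp only [hc, wv_self p hs]; exact one_mem _
      · rw [eq_oth hc]
        exact Algebra.subset_adjoin ⟨Sum.inl (), rfl⟩
  · rw [Algebra.adjoin_le_iff]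
    rintro _ ⟨(_ | v), rfl⟩
    · exact Algebra.subset_adjoin (Or.inr ⟨oth ε, rfl⟩)
    · exact Algebra.subset_adjoin (Or.inl ⟨(v.1, (v.2 : ι)), rfl⟩)

/-- inverse of a `2×2` matrix, entrywise -/
lemma YK_formula (J K : Fin 2 → ι) (hJ : Function.Injective J) (hK : Function.Injective K)
    (r : Fin 2) (i : ι) : YJ k F K r i * (th k F J K).det =
      ∑ c, (Matrix.adjugate (th k F J K)) r c * YJ k F J c i := by
  have h := th_mul_YJ (k := k) (F := F) J K hJ hK
  have h2 : Matrix.adjugate (th k F J K) * YJ k F J = (th k F J K).det • YJ k F K := by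
    rw [← h, ← Matrix.mul_assoc, Matrix.adjugate_mul, Matrix.smul_mul, Matrix.one_mul]
  have h3 := congrFun (congrFun h2 r) i
  rw [Matrix.mul_apply, Matrix.smul_apply, smul_eq_mul] at h3
  rw [h3]; ring

/-- index set of the charts -/
abbrev Ch (ι : Type*) := {J : Fin 2 → ι // Function.Injective J} × Fin 2

/-- the coordinate ring of the intersection of two charts, inside `L` -/
noncomputable def PL (k : Type*) [Field k] {ι : Type*} (F : Type*) [Field F]
    [Algebra (SS k ι) F] (p : ℕ) {L : Type*} [Field L] [Algebra F L] [Algebra k L] (s : L)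
    (a b : Ch ι) : Subalgebra k L :=
  Algebra.adjoin k (gens k F p s a.1.1 a.2 ∪ gens k F p s b.1.1 b.2)

lemma PL_left (a b : Ch ι) : PL k F p s a a ≤ PL k F p s a b := by
  apply Algebra.adjoin_mono
  rw [Set.union_self]; exact Set.subset_union_left

lemma PL_right (a b : Ch ι) : PL k F p s b b ≤ PL k F p s a b := by
  apply Algebra.adjoin_mono
  rw [Set.union_self]; exact Set.subset_union_right

lemma PL_symm (a b : Ch ι) : PL k F p s a b = PL k F p s b a := by
  unfold PL; rw [Set.union_comm]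

lemma th_mem_PL (a b : Ch ι) (K : Fin 2 → ι) (r c : Fin 2) :
    algebraMap F L (th k F a.1.1 K r c) ∈ PL k F p s a b :=
  Algebra.subset_adjoin (Or.inl (Or.inl ⟨(r, K c), rfl⟩))

lemma det_mem {A : Subalgebra k L} {M : Matrix (Fin 2) (Fin 2) F}
    (h : ∀ r c, algebraMap F L (M r c) ∈ A) : algebraMap F L M.det ∈ A := by
  rw [Matrix.det_fin_two, map_sub, map_mul, map_mul]
  exact sub_mem (mul_mem (h _ _) (h _ _)) (mul_mem (h _ _) (h _ _))

lemma adj_mem {A : Subalgebra k L} {M : Matrix (Fin 2) (Fin 2) F}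
    (h : ∀ r c, algebraMap F L (M r c) ∈ A) (r c : Fin 2) :
    algebraMap F L (M.adjugate r c) ∈ A := by
  rw [Matrix.adjugate_fin_two]
  fin_cases r <;> fin_cases c <;> simp only [Matrix.of_apply, Matrix.cons_val', Fin.mk_one,
    Fin.zero_eta, Matrix.cons_val_zero, Matrix.cons_val_one, Matrix.cons_val_fin_one, map_neg]
  · exact h _ _
  · exact neg_mem (h _ _)
  · exact neg_mem (h _ _)
  · exact h _ _

lemma vratio_mem_PL (a : Ch ι) (K : Fin 2 → ι) (c : Fin 2) :
    vv k F p s K c / vv k F p s a.1.1 a.2 ∈ PL k F p s a a := by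
  rw [wv_trans p a.1.1 K a.1.2]
  refine sum_mem fun d _ => mul_mem ?_ ?_
  · exact Algebra.subset_adjoin (Or.inl (Or.inr ⟨d, rfl⟩))
  · rw [map_pow]; exact pow_mem (th_mem_PL p a a K d c) _

/-- The overlap is a localisation of each chart. -/
lemma PL_frac (hs : Transcendental F s) (a b : Ch ι) {y : L} (hy : y ∈ PL k F p s a b) :
    ∃ z ∈ PL k F p s a a, ∃ h ∈ PL k F p s a a, h ≠ 0 ∧ h⁻¹ ∈ PL k F p s a b ∧ y * h = z := by
  unfold PL at hy
  induction hy using Algebra.adjoin_induction with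
  | mem x hx =>
    rcases hx with hx | hx
    · exact ⟨x, Algebra.subset_adjoin (Or.inl hx), 1, one_mem _, one_ne_zero,
        by rw [inv_one]; exact one_mem _, mul_one _⟩
    · rcases hx with ⟨⟨r, i⟩, rfl⟩ | ⟨c, rfl⟩
      · refine ⟨_, ?_, algebraMap F L (th k F a.1.1 b.1.1).det, ?_, ?_, ?_, rfl⟩
        · simp only
          rw [← map_mul, YK_formula _ _ a.1.2 b.1.2, map_sum]
          refine sum_mem fun c _ => ?_
          rw [map_mul]
          exact mul_mem (adj_mem (th_mem_PL p a a _) _ _)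
            (Algebra.subset_adjoin (Or.inl (Or.inl ⟨(c, i), rfl⟩)))
        · exact det_mem (th_mem_PL p a a _)
        · rw [Ne, FaithfulSMul.algebraMap_eq_zero_iff]
          exact th_det_ne _ _ a.1.2 b.1.2
        · rw [← map_inv₀, inv_eq_of_mul_eq_one_right (th_det _ _ a.1.2 b.1.2)]
          rw [PL_symm]
          exact det_mem (th_mem_PL p b a _)
      · refine ⟨_, ?_, vv k F p s b.1.1 b.2 / vv k F p s a.1.1 a.2,
          vratio_mem_PL p a _ _, div_ne_zero (vv_ne p hs _ _) (vv_ne p hs _ _), ?_, rfl⟩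
        · have h1 := vv_ne (k := k) p hs b.1.1 b.2
          have : wv k F p s b.1.1 b.2 c * (vv k F p s b.1.1 b.2 / vv k F p s a.1.1 a.2) =
              vv k F p s b.1.1 c / vv k F p s a.1.1 a.2 := by
            rw [wv]; field_simp
          simp only [this]
          exact vratio_mem_PL p a _ _
        · rw [inv_div]
          exact PL_right p a b (vratio_mem_PL p b _ _)
  | algebraMap r => exact ⟨_, Subalgebra.algebraMap_mem _ r, 1, one_mem _, one_ne_zero,
        by rw [inv_one]; exact one_mem _, mul_one _⟩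
  | add x y hx hy ihx ihy =>
    obtain ⟨z, hz, h, hh, h0, hi, e⟩ := ihx
    obtain ⟨z', hz', h', hh', h0', hi', e'⟩ := ihy
    refine ⟨z * h' + z' * h, add_mem (mul_mem hz hh') (mul_mem hz' hh), h * h',
      mul_mem hh hh', mul_ne_zero h0 h0', ?_, ?_⟩
    · rw [mul_inv]; exact mul_mem hi hi'
    · rw [← e, ← e']; ring
  | mul x y hx hy ihx ihy =>
    obtain ⟨z, hz, h, hh, h0, hi, e⟩ := ihx
    obtain ⟨z', hz', h', hh', h0', hi', e'⟩ := ihy
    refine ⟨z * z', mul_mem hz hz', h * h',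
      mul_mem hh hh', mul_ne_zero h0 h0', ?_, ?_⟩
    · rw [mul_inv]; exact mul_mem hi hi'
    · rw [← e, ← e']; ring

/-- the function field of `X`, inside `L` -/
noncomputable def EL (k : Type*) [Field k] {ι : Type*} (F : Type*) [Field F]
    [Algebra (SS k ι) F] (p : ℕ) {L : Type*} [Field L] [Algebra F L] [Algebra k L] (s : L) :
    IntermediateField k L :=
  IntermediateField.adjoin k (⋃ a : Ch ι, gens k F p s a.1.1 a.2)

lemma gens_subset_EL (a : Ch ι) : gens k F p s a.1.1 a.2 ⊆ EL (ι := ι) k F p s := by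
  intro y hy
  apply IntermediateField.subset_adjoin
  exact Set.mem_iUnion.mpr ⟨a, hy⟩

lemma PL_le_EL (a b : Ch ι) :
    PL k F p s a b ≤ (EL (ι := ι) k F p s).toSubalgebra := by
  unfold PL
  rw [Algebra.adjoin_le_iff]
  exact Set.union_subset (gens_subset_EL p a) (gens_subset_EL p b)

/-- every chart generates the function field -/
lemma adjoin_genL (hs : Transcendental F s) (a : Ch ι) :
    IntermediateField.adjoin k (Set.range (genL k F p s a.1.1 a.2)) = EL (ι := ι) k F p s := by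
  apply le_antisymm
  · rw [IntermediateField.adjoin_le_iff]
    rintro _ ⟨(_ | v), rfl⟩
    · exact gens_subset_EL p a (Or.inr ⟨oth a.2, rfl⟩)
    · exact gens_subset_EL p a (Or.inl ⟨(v.1, (v.2 : ι)), rfl⟩)
  · unfold EL
    rw [IntermediateField.adjoin_le_iff]
    set M := IntermediateField.adjoin k (Set.range (genL k F p s a.1.1 a.2)) with hM
    have hP : PL k F p s a a ≤ M.toSubalgebra := by
      unfold PL
      rw [Set.union_self, adjoin_gens p hs _ a.1.2, Algebra.adjoin_le_iff]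
      exact IntermediateField.subset_adjoin _ _
    intro y hy
    obtain ⟨b, hb⟩ := Set.mem_iUnion.mp hy
    obtain ⟨z, hz, h, hh, h0, hi, e⟩ := PL_frac p hs a b
      (Algebra.subset_adjoin (Or.inr hb) : y ∈ PL k F p s a b)
    have : y = z * h⁻¹ := by rw [← e]; field_simp
    rw [this]
    exact mul_mem (hP hz) (inv_mem (hP hh))

end

end Pool.Agent.Totaro

end

/-! ## Inv -/

section

set_option linter.unusedSectionVars false

namespace Pool.Agent.Totaro

open MvPolynomial Matrix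

section

variable {k : Type*} [Field k] {ι : Type*}
  {F : Type*} [Field F] [Algebra k F]
  [Algebra (SS k ι) F] [IsScalarTower k (SS k ι) F]
  [IsFractionRing (SS k ι) F]

lemma xJ_mem (J : Fin 2 → ι) (Js : Multiset (Fin 2 → ι)) (r c : Fin 2) :
    xJ k F J r c ∈ Rsub (k := k) F Js := algebraMap_mem_Rsub _ _

lemma mnr_inv_mem (J : Fin 2 → ι) (hJ : Function.Injective J) :
    (algebraMap (SS k ι) F (mnr k J))⁻¹ ∈ Rsub (k := k) F {J} :=
  ⟨1, 1, by rw [fprod_singleton, pow_one, inv_mul_cancel₀ (mnr_ne J hJ), map_one]⟩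

lemma inv_mem_Rsub {Js : Multiset (Fin 2 → ι)} (M : Matrix (Fin 2) (Fin 2) F)
    (h : ∀ r c, M r c ∈ Rsub (k := k) F Js) (hd : M.det⁻¹ ∈ Rsub (k := k) F Js) (r c : Fin 2) :
    M⁻¹ r c ∈ Rsub (k := k) F Js := by
  rw [Matrix.inv_def, Ring.inverse_eq_inv', Matrix.smul_apply, smul_eq_mul,
    Matrix.adjugate_fin_two]
  refine mul_mem hd ?_
  fin_cases r <;> fin_cases c <;> simp only [Matrix.of_apply, Matrix.cons_val', Fin.mk_one,
    Fin.zero_eta, Matrix.cons_val_zero, Matrix.cons_val_one, Matrix.cons_val_fin_one]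
  · exact h _ _
  · exact neg_mem (h _ _)
  · exact neg_mem (h _ _)
  · exact h _ _

lemma xJ_inv_mem (J : Fin 2 → ι) (hJ : Function.Injective J) (r c : Fin 2) :
    (xJ k F J)⁻¹ r c ∈ Rsub (k := k) F {J} :=
  inv_mem_Rsub _ (xJ_mem J _) (by rw [xJ_det]; exact mnr_inv_mem J hJ) r c

lemma YJ_mem_Rsub (J : Fin 2 → ι) (hJ : Function.Injective J) (r : Fin 2) (i : ι) :
    YJ k F J r i ∈ Rsub (k := k) F {J} :=
  Rsub_mul_const _ _ (xJ_inv_mem J hJ) (fun _ _ => algebraMap_mem_Rsub _ _) r i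

lemma OJ_le_Rsub (J : Fin 2 → ι) (hJ : Function.Injective J) :
    OJ k F J ≤ Rsub (k := k) F {J} := by
  unfold OJ
  rw [Algebra.adjoin_le_iff]
  rintro _ ⟨v, rfl⟩
  exact YJ_mem_Rsub J hJ _ _

lemma OJJ_le_Rsub (J K : Fin 2 → ι) (hJ : Function.Injective J) (hK : Function.Injective K) :
    OJ k F J ⊔ OJ k F K ≤ Rsub (k := k) F ({J} + {K}) :=
  sup_le ((OJ_le_Rsub J hJ).trans (Rsub_mono (by simp)))
    ((OJ_le_Rsub K hK).trans (Rsub_mono (by simp)))

lemma xm_deg {M : Type*} [AddCommGroup M] (wt : Fin 2 → M) (r : Fin 2) (i : ι) :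
    HasDeg k ι wt (wt r) (xm k ι F r i) :=
  HasDeg.of_homog (isWeightedHomogeneous_X k _ (r, i))

lemma mnr_deg {M : Type*} [AddCommGroup M] (wt : Fin 2 → M) (J : Fin 2 → ι) :
    HasDeg k ι wt (wt 0 + wt 1) (algebraMap (SS k ι) F (mnr k J)) :=
  HasDeg.of_homog (mnr_homog wt J)

/-- entries of the inverse of a `2×2` matrix whose rows have degrees `e 0`, `e 1` -/
lemma inv_deg {M : Type*} [AddCommGroup M] (wt : Fin 2 → M) (e : Fin 2 → M)
    (A : Matrix (Fin 2) (Fin 2) F) (hA : ∀ r c, HasDeg k ι wt (e r) (A r c)) (c r : Fin 2) :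
    HasDeg k ι wt (-e r) (A⁻¹ c r) := by
  have hdet : HasDeg k ι wt (e 0 + e 1) A.det := by
    rw [Matrix.det_fin_two]
    refine ((hA 0 0).mul (hA 1 1)).sub ?_
    exact (hA 0 1).mul (hA 1 0)
  rw [Matrix.inv_def, Ring.inverse_eq_inv', Matrix.smul_apply, smul_eq_mul,
    Matrix.adjugate_fin_two]
  fin_cases c <;> fin_cases r <;> simp only [Matrix.of_apply, Matrix.cons_val', Fin.mk_one,
    Fin.zero_eta, Matrix.cons_val_zero, Matrix.cons_val_one, Matrix.cons_val_fin_one]
  · have := hdet.inv.mul (hA 1 1)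
    rwa [show -(e 0 + e 1) + e 1 = -e 0 by abel] at this
  · have := hdet.inv.mul (hA 0 1).neg
    rwa [show -(e 0 + e 1) + e 0 = -e 1 by abel] at this
  · have := hdet.inv.mul (hA 1 0).neg
    rwa [show -(e 0 + e 1) + e 1 = -e 0 by abel] at this
  · have := hdet.inv.mul (hA 0 0)
    rwa [show -(e 0 + e 1) + e 0 = -e 1 by abel] at this

lemma xJ_deg {M : Type*} [AddCommGroup M] (wt : Fin 2 → M) (J : Fin 2 → ι) (r c : Fin 2) :
    HasDeg k ι wt (wt r) (xJ k F J r c) := xm_deg wt r (J c)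

lemma YJ_deg {M : Type*} [AddCommGroup M] (wt : Fin 2 → M) (J : Fin 2 → ι) (c : Fin 2) (i : ι) :
    HasDeg k ι wt 0 (YJ k F J c i) := by
  rw [YJ, Matrix.mul_apply]
  apply HasDeg.sum
  intro r _
  have := (inv_deg wt wt (xJ k F J) (xJ_deg wt J) c r).mul (xm_deg (F := F) wt r i)
  rwa [neg_add_cancel] at this

/-- the subalgebra of elements of degree zero -/
def degZero (k : Type*) [Field k] (ι : Type*) (F : Type*) [Field F] [Algebra k F]
    [Algebra (SS k ι) F] [IsScalarTower k (SS k ι) F] [IsFractionRing (SS k ι) F]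
    {M : Type*} [AddCommGroup M] (wt : Fin 2 → M) : Subalgebra k F where
  carrier := {z | HasDeg k ι wt 0 z}
  mul_mem' := by
    intro a b ha hb
    have := HasDeg.mul (k := k) (ι := ι) ha hb
    rwa [add_zero] at this
  add_mem' := fun ha hb => HasDeg.add ha hb
  algebraMap_mem' := fun c => HasDeg.const M wt c

lemma OJ_deg {M : Type*} [AddCommGroup M] (wt : Fin 2 → M) (J : Fin 2 → ι) :
    OJ k F J ≤ degZero k ι F wt := by
  unfold OJ
  rw [Algebra.adjoin_le_iff]
  rintro _ ⟨v, rfl⟩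
  exact YJ_deg wt J _ _

lemma OJJ_deg {M : Type*} [AddCommGroup M] (wt : Fin 2 → M) (J K : Fin 2 → ι) {z : F}
    (hz : z ∈ OJ k F J ⊔ OJ k F K) : HasDeg k ι wt 0 z :=
  (sup_le (OJ_deg wt J) (OJ_deg wt K) : OJ k F J ⊔ OJ k F K ≤ degZero k ι F wt) hz

lemma gF_id (g : GL (Fin 2) k) : gF F (RingHom.id k) g =
    (g : Matrix (Fin 2) (Fin 2) k).map (algebraMap k F) := rfl

lemma sig_xJ (g : GL (Fin 2) k) (J : Fin 2 → ι) :
    (xJ k F J).map (sigF (ι := ι) F g) = gF F (RingHom.id k) g * xJ k F J := map_sigF_xJ g J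

lemma sig_xm (g : GL (Fin 2) k) :
    (xm k ι F).map (sigF (ι := ι) F g) = gF F (RingHom.id k) g * xm k ι F := map_sigF_xm g

lemma map_inv_sig (g : GL (Fin 2) k) (A : Matrix (Fin 2) (Fin 2) F) :
    (A⁻¹).map (sigF (ι := ι) F g) = (A.map (sigF (ι := ι) F g))⁻¹ := by
  have hdet : (A.map (sigF (ι := ι) F g)).det = sigF (ι := ι) F g A.det := by
    rw [← RingHom.mapMatrix_apply, ← RingHom.map_det]
  rw [Matrix.inv_def, Matrix.inv_def, Ring.inverse_eq_inv', hdet]
  ext r c
  rw [Matrix.map_apply, Matrix.smul_apply, Matrix.smul_apply, smul_eq_mul, smul_eq_mul, map_mul,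
    map_inv₀]
  congr 1
  have := RingHom.map_adjugate (sigF (ι := ι) F g) A
  have := congrFun (congrFun this r) c
  simp only [RingHom.mapMatrix_apply, Matrix.map_apply] at this
  exact this

lemma sig_YJ (g : GL (Fin 2) k) (J : Fin 2 → ι) (hJ : Function.Injective J) :
    (YJ k F J).map (sigF (ι := ι) F g) = YJ k F J := by
  have h1 := congrArg (fun M : Matrix (Fin 2) ι F => M.map (sigF (ι := ι) F g))
    (xJ_mul_YJ (k := k) (F := F) J hJ)
  simp only [Matrix.map_mul, sig_xJ, sig_xm] at h1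
  have h2 := cancel_gF _ g ((Matrix.mul_assoc _ _ _).symm.trans h1)
  rw [← xJ_mul_YJ (k := k) (F := F) J hJ] at h2
  have h3 := congrArg (fun M => (xJ k F J)⁻¹ * M) h2
  simpa only [← Matrix.mul_assoc, Matrix.nonsing_inv_mul _ (xJ_isUnit J hJ),
    Matrix.one_mul] using h3

lemma sig_OJ (g : GL (Fin 2) k) (J : Fin 2 → ι) (hJ : Function.Injective J) {z : F}
    (hz : z ∈ OJ k F J) : sigF (ι := ι) F g z = z := by
  unfold OJ at hz
  induction hz using Algebra.adjoin_induction with
  | mem x hx =>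
    obtain ⟨v, rfl⟩ := hx
    exact congrFun (congrFun (sig_YJ (F := F) g J hJ) v.1) v.2
  | algebraMap r => simp
  | add x y hx hy ihx ihy => rw [map_add, ihx, ihy]
  | mul x y hx hy ihx ihy => rw [map_mul, ihx, ihy]

lemma sig_OJJ (g : GL (Fin 2) k) (J K : Fin 2 → ι) (hJ : Function.Injective J)
    (hK : Function.Injective K) {z : F}
    (hz : z ∈ OJ k F J ⊔ OJ k F K) : sigF (ι := ι) F g z = z := by
  have hz' : z ∈ Algebra.adjoin k ((OJ k F J : Set F) ∪ (OJ k F K : Set F)) := by
    rw [Algebra.adjoin_union, Algebra.adjoin_eq, Algebra.adjoin_eq]; exact hz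
  induction hz' using Algebra.adjoin_induction with
  | mem x hx =>
    rcases hx with hx | hx
    · exact sig_OJ g J hJ hx
    · exact sig_OJ g K hK hx
  | algebraMap r => simp
  | add x y hx hy ihx ihy => 
    have e1 : x ∈ OJ k F J ⊔ OJ k F K := by
      have : Algebra.adjoin k ((OJ k F J : Set F) ∪ (OJ k F K : Set F)) = OJ k F J ⊔ OJ k F K := by
        rw [Algebra.adjoin_union, Algebra.adjoin_eq, Algebra.adjoin_eq]
      rw [← this]; exact hx
    have e2 : y ∈ OJ k F J ⊔ OJ k F K := by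
      have : Algebra.adjoin k ((OJ k F J : Set F) ∪ (OJ k F K : Set F)) = OJ k F J ⊔ OJ k F K := by
        rw [Algebra.adjoin_union, Algebra.adjoin_eq, Algebra.adjoin_eq]
      rw [← this]; exact hy
    rw [map_add, ihx e1, ihy e2]
  | mul x y hx hy ihx ihy =>
    have e1 : x ∈ OJ k F J ⊔ OJ k F K := by
      have : Algebra.adjoin k ((OJ k F J : Set F) ∪ (OJ k F K : Set F)) = OJ k F J ⊔ OJ k F K := by
        rw [Algebra.adjoin_union, Algebra.adjoin_eq, Algebra.adjoin_eq]
      rw [← this]; exact hx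
    have e2 : y ∈ OJ k F J ⊔ OJ k F K := by
      have : Algebra.adjoin k ((OJ k F J : Set F) ∪ (OJ k F K : Set F)) = OJ k F J ⊔ OJ k F K := by
        rw [Algebra.adjoin_union, Algebra.adjoin_eq, Algebra.adjoin_eq]
      rw [← this]; exact hy
    rw [map_mul, ihx e1, ihy e2]

/-- The gluing lemma `O_{J1} ∩ O_{J2} = O_J`. -/
lemma OJ_inter [Infinite k] (J K1 K2 : Fin 2 → ι) (hJ : Function.Injective J)
    (hK1 : Function.Injective K1) (hK2 : Function.Injective K2) (h12 : ∀ a b, K1 a ≠ K2 b) {z : F}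
    (h1 : z ∈ OJ k F J ⊔ OJ k F K1) (h2 : z ∈ OJ k F J ⊔ OJ k F K2) : z ∈ OJ k F J := by
  refine invariant_mem_OJ J hJ ?_ (fun g => sig_OJJ g J K1 hJ hK1 h1)
  exact Rsub_inter {J} K1 K2 hK1 hK2 h12 (OJJ_le_Rsub J K1 hJ hK1 h1) (OJJ_le_Rsub J K2 hJ hK2 h2)

/-- `V_J(M) = x_J⁻¹ (M - M_J Y_J)`. -/
noncomputable def VJ (k : Type*) [Field k] {ι : Type*} {F : Type*} [Field F]
    [Algebra (SS k ι) F] (J : Fin 2 → ι) (M : Matrix (Fin 2) ι F) : Matrix (Fin 2) ι F :=
  (xJ k F J)⁻¹ * (M - M.submatrix id J * YJ k F J)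

lemma submatrix_mul' (A : Matrix (Fin 2) (Fin 2) F) (B : Matrix (Fin 2) ι F) (J : Fin 2 → ι) :
    (A * B).submatrix id J = A * B.submatrix id J := by
  ext r c; simp [Matrix.mul_apply]

lemma YJ_sub (J : Fin 2 → ι) (hJ : Function.Injective J) : (YJ k F J).submatrix id J = 1 :=
  th_self J hJ

lemma VJ_sub (J : Fin 2 → ι) (hJ : Function.Injective J) (M : Matrix (Fin 2) ι F) :
    (VJ k J M).submatrix id J = 0 := by
  have h1 : (M - M.submatrix id J * YJ k F J).submatrix id J =
      M.submatrix id J - (M.submatrix id J * YJ k F J).submatrix id J := rfl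
  rw [VJ, submatrix_mul', h1, submatrix_mul', YJ_sub J hJ, Matrix.mul_one, sub_self,
    Matrix.mul_zero]

lemma VJ_gauge (J : Fin 2 → ι) (hJ : Function.Injective J) (B : Matrix (Fin 2) (Fin 2) F) :
    VJ k J (B * xm k ι F) = 0 := by
  rw [VJ, submatrix_mul']
  have : (xm k ι F).submatrix id J = xJ k F J := rfl
  rw [this, Matrix.mul_assoc, xJ_mul_YJ J hJ, sub_self, Matrix.mul_zero]

lemma VJ_add (J : Fin 2 → ι) (M N : Matrix (Fin 2) ι F) :
    VJ k J (M + N) = VJ k J M + VJ k J N := by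
  have h1 : (M + N).submatrix id J = M.submatrix id J + N.submatrix id J := rfl
  rw [VJ, VJ, VJ, h1, Matrix.add_mul, ← Matrix.mul_add]
  congr 1; abel

lemma VJ_zero (J : Fin 2 → ι) : VJ k J (0 : Matrix (Fin 2) ι F) = 0 := by
  have h1 : (0 : Matrix (Fin 2) ι F).submatrix id J = 0 := rfl
  rw [VJ, h1, Matrix.zero_mul, sub_zero, Matrix.mul_zero]

lemma VJ_neg (J : Fin 2 → ι) (M : Matrix (Fin 2) ι F) :
    VJ k J (-M) = -VJ k J M := by
  refine eq_neg_of_add_eq_zero_left ?_
  rw [← VJ_add, neg_add_cancel, VJ_zero]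

lemma VJ_sub' (J : Fin 2 → ι) (M N : Matrix (Fin 2) ι F) :
    VJ k J (M - N) = VJ k J M - VJ k J N := by
  rw [sub_eq_add_neg, VJ_add, VJ_neg, sub_eq_add_neg]

/-- the transformation rule -/
lemma VJ_trans (J K : Fin 2 → ι) (hJ : Function.Injective J) (hK : Function.Injective K)
    (M : Matrix (Fin 2) ι F) :
    th k F J K * VJ k K M = VJ k J M - (VJ k J M).submatrix id K * YJ k F K := by
  have h0 : (M - M.submatrix id J * YJ k F J).submatrix id K =
      M.submatrix id K - M.submatrix id J * th k F J K := by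
    have h1 : (M - M.submatrix id J * YJ k F J).submatrix id K =
      M.submatrix id K - (M.submatrix id J * YJ k F J).submatrix id K := rfl
    rw [h1, submatrix_mul']; rfl
  have h1 : th k F J K * VJ k K M = (xJ k F J)⁻¹ * (M - M.submatrix id K * YJ k F K) := by
    rw [th_eq J K hJ, VJ, Matrix.mul_assoc, ← Matrix.mul_assoc (xJ k F K),
      Matrix.mul_nonsing_inv _ (xJ_isUnit K hK), Matrix.one_mul]
  rw [h1, VJ, submatrix_mul', h0, Matrix.mul_assoc, ← Matrix.mul_sub]
  congr 1
  rw [Matrix.sub_mul, Matrix.mul_assoc (M.submatrix id J), th_mul_YJ J K hJ hK]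
  abel

lemma VJ_eq_zero (J : Fin 2 → ι) (hJ : Function.Injective J) (M : Matrix (Fin 2) ι F)
    (h : VJ k J M = 0) : M = (M.submatrix id J * (xJ k F J)⁻¹) * xm k ι F := by
  have h1 := congrArg (fun N => xJ k F J * N) h
  simp only [VJ, ← Matrix.mul_assoc, Matrix.mul_nonsing_inv _ (xJ_isUnit J hJ), Matrix.one_mul,
    Matrix.mul_zero] at h1
  have h2 := sub_eq_zero.mp h1
  rw [Matrix.mul_assoc]
  exact h2

lemma VJ_self (J : Fin 2 → ι) (hJ : Function.Injective J) (Z : Matrix (Fin 2) ι F)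
    (hZ : Z.submatrix id J = 0) : VJ k J (xJ k F J * Z) = Z := by
  rw [VJ, submatrix_mul', hZ, Matrix.mul_zero, Matrix.zero_mul, sub_zero, ← Matrix.mul_assoc,
    Matrix.nonsing_inv_mul _ (xJ_isUnit J hJ), Matrix.one_mul]

lemma VJ_mem (J : Fin 2 → ι) (hJ : Function.Injective J) (M : Matrix (Fin 2) ι F)
    (hM : ∀ r c, M r c ∈ Rsub (k := k) F {J}) (r : Fin 2) (c : ι) :
    VJ k J M r c ∈ Rsub (k := k) F {J} := by
  refine Rsub_mul_const _ _ (xJ_inv_mem J hJ) ?_ r c
  intro r c
  refine sub_mem (hM r c) ?_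
  exact Rsub_mul_const _ _ (fun r c => hM r (J c)) (YJ_mem_Rsub J hJ) r c

/-- invariance of `V_J(E)` for `E` equivariant up to gauge -/
lemma VJ_sig (J : Fin 2 → ι) (hJ : Function.Injective J) (E : Matrix (Fin 2) ι F)
    (g : GL (Fin 2) k) (B : Matrix (Fin 2) (Fin 2) F)
    (h : E.map (sigF (ι := ι) F g) = gF F (RingHom.id k) g * (E + B * xm k ι F)) :
    (VJ k J E).map (sigF (ι := ι) F g) = VJ k J E := by
  have h1 : (E - E.submatrix id J * YJ k F J).map (sigF (ι := ι) F g) =
      gF F (RingHom.id k) g * ((E + B * xm k ι F) -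
        (E + B * xm k ι F).submatrix id J * YJ k F J) := by
    have h2 : (E - E.submatrix id J * YJ k F J).map (sigF (ι := ι) F g) =
        E.map (sigF (ι := ι) F g) - (E.map (sigF (ι := ι) F g)).submatrix id J *
          (YJ k F J).map (sigF (ι := ι) F g) := by
      have h3 : (E.map (sigF (ι := ι) F g)).submatrix id J =
        (E.submatrix id J).map (sigF (ι := ι) F g) := rfl
      rw [h3, ← Matrix.map_mul]
      ext r c; simp only [Matrix.map_apply, Matrix.sub_apply, map_sub]
    rw [h2, sig_YJ g J hJ, h, submatrix_mul', Matrix.mul_sub, Matrix.mul_assoc]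
  have h4 : VJ k J (E + B * xm k ι F) = VJ k J E := by
    rw [VJ_add, VJ_gauge J hJ, add_zero]
  rw [VJ, Matrix.map_mul, h1, map_inv_sig, sig_xJ, Matrix.mul_inv_rev, Matrix.mul_assoc,
    ← Matrix.mul_assoc _ (gF F (RingHom.id k) g), gF_inv_mul, Matrix.one_mul]
  exact h4

end

end Pool.Agent.Totaro

end

/-! ## EE -/

section

set_option linter.unusedSectionVars false

namespace Pool.Agent.Totaro

open MvPolynomial Matrix

section

variable {k : Type*} [Field k] {ι : Type*}
  {F : Type*} [Field F] [Algebra k F]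
  [Algebra (SS k ι) F] [IsScalarTower k (SS k ι) F]
  [IsFractionRing (SS k ι) F]
variable (p : ℕ) [Fact p.Prime] [CharP k p]
variable {L : Type*} [Field L] [Algebra F L] [Algebra k L] [IsScalarTower k F L] (s : L)

/-- injective pairs of columns -/
abbrev IJ (ι : Type*) := {J : Fin 2 → ι // Function.Injective J}

/-- the function field of `X`, as a type -/
abbrev EE (k : Type*) [Field k] (ι : Type*) (F : Type*) [Field F]
    [Algebra (SS k ι) F] (p : ℕ) {L : Type*} [Field L] [Algebra F L] [Algebra k L] (s : L) :=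
  ↥(EL (ι := ι) k F p s)

/-- the entry of `Y_J` in the function field -/
noncomputable def YE (k : Type*) [Field k] {ι : Type*} (F : Type*) [Field F]
    [Algebra (SS k ι) F] (p : ℕ) {L : Type*} [Field L] [Algebra F L] [Algebra k L] (s : L)
    (J : IJ ι) (r : Fin 2) (i : ι) : EE k ι F p s :=
  ⟨algebraMap F L (YJ k F J.1 r i), IntermediateField.subset_adjoin _ _
    (Set.mem_iUnion.mpr ⟨(J, 0), Or.inl ⟨(r, i), rfl⟩⟩)⟩

/-- the fibre coordinates in the function field -/
noncomputable def wE (k : Type*) [Field k] {ι : Type*} (F : Type*) [Field F]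
    [Algebra (SS k ι) F] (p : ℕ) {L : Type*} [Field L] [Algebra F L] [Algebra k L] (s : L)
    (J : IJ ι) (ε c : Fin 2) : EE k ι F p s :=
  ⟨wv k F p s J.1 ε c, IntermediateField.subset_adjoin _ _
    (Set.mem_iUnion.mpr ⟨(J, ε), Or.inr ⟨c, rfl⟩⟩)⟩

@[simp] lemma YE_coe (J : IJ ι) (r : Fin 2) (i : ι) :
    ((YE k F p s J r i : EE k ι F p s) : L) = algebraMap F L (YJ k F J.1 r i) := rfl

@[simp] lemma wE_coe (J : IJ ι) (ε c : Fin 2) :
    ((wE k F p s J ε c : EE k ι F p s) : L) = wv k F p s J.1 ε c := rfl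

/-- the coordinate ring of the intersection of two charts, in the function field -/
noncomputable def PE (k : Type*) [Field k] {ι : Type*} (F : Type*) [Field F]
    [Algebra (SS k ι) F] (p : ℕ) {L : Type*} [Field L] [Algebra F L] [Algebra k L] (s : L)
    (a b : Ch ι) : Subalgebra k (EE k ι F p s) :=
  (PL k F p s a b).comap (EL (ι := ι) k F p s).val

variable {s}

lemma mem_PE {a b : Ch ι} {y : EE k ι F p s} : y ∈ PE k F p s a b ↔ (y : L) ∈ PL k F p s a b :=
  Iff.rfl

/-- generators of a chart ring -/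
def gensE (k : Type*) [Field k] {ι : Type*} (F : Type*) [Field F]
    [Algebra (SS k ι) F] (p : ℕ) {L : Type*} [Field L] [Algebra F L] [Algebra k L] (s : L)
    (a : Ch ι) : Set (EE k ι F p s) :=
  Set.range (fun v : Fin 2 × ι => YE k F p s a.1 v.1 v.2) ∪
    Set.range (fun c => wE k F p s a.1 a.2 c)

lemma gensE_image (a : Ch ι) : (EL (ι := ι) k F p s).val '' gensE k F p s a =
    gens k F p s a.1.1 a.2 := by
  unfold gensE gens
  rw [Set.image_union, ← Set.range_comp, ← Set.range_comp]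
  rfl

lemma PE_eq_adjoin (a b : Ch ι) :
    PE k F p s a b = Algebra.adjoin k (gensE k F p s a ∪ gensE k F p s b) := by
  have h1 : (Algebra.adjoin k (gensE k F p s a ∪ gensE k F p s b)).map
      (EL (ι := ι) k F p s).val = PL k F p s a b := by
    rw [AlgHom.map_adjoin, Set.image_union, gensE_image, gensE_image]; rfl
  unfold PE
  rw [← h1]
  ext y
  rw [Subalgebra.mem_comap, Subalgebra.mem_map]
  constructor
  · rintro ⟨z, hz, e⟩
    rwa [← (EL (ι := ι) k F p s).val.injective e]
  · intro hy; exact ⟨y, hy, rfl⟩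

lemma PE_eq_adjoin_self (a : Ch ι) :
    PE k F p s a a = Algebra.adjoin k (gensE k F p s a) := by
  rw [PE_eq_adjoin, Set.union_self]

lemma PE_left (a b : Ch ι) : PE k F p s a a ≤ PE k F p s a b := fun _ hy => PL_left p a b hy

lemma PE_right (a b : Ch ι) : PE k F p s b b ≤ PE k F p s a b := fun _ hy => PL_right p a b hy

lemma PE_symm (a b : Ch ι) : PE k F p s a b = PE k F p s b a := by
  unfold PE; rw [PL_symm]

lemma PE_frac (hs : Transcendental F s) (a b : Ch ι) {y : EE k ι F p s}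
    (hy : y ∈ PE k F p s a b) :
    ∃ z ∈ PE k F p s a a, ∃ h ∈ PE k F p s a a, h ≠ 0 ∧ h⁻¹ ∈ PE k F p s a b ∧ y * h = z := by
  obtain ⟨z, hz, h, hh, h0, hi, e⟩ := PL_frac p hs a b hy
  refine ⟨⟨z, PL_le_EL p a a hz⟩, hz, ⟨h, PL_le_EL p a a hh⟩, hh, ?_, hi, ?_⟩
  · intro h1; apply h0; exact congrArg Subtype.val h1
  · exact Subtype.ext e

/-- free generators of a chart ring -/
noncomputable def genE (k : Type*) [Field k] {ι : Type*} (F : Type*) [Field F]
    [Algebra (SS k ι) F] (p : ℕ) {L : Type*} [Field L] [Algebra F L] [Algebra k L] (s : L)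
    (a : Ch ι) : GIdx a.1.1 → EE k ι F p s :=
  Sum.elim (fun _ => wE k F p s a.1 a.2 (oth a.2)) (fun v => YE k F p s a.1 v.1 (v.2 : ι))

lemma genE_coe (a : Ch ι) :
    (EL (ι := ι) k F p s).val ∘ genE k F p s a = genL k F p s a.1.1 a.2 := by
  funext v
  rcases v with v | v <;> rfl

lemma genE_algIndep (hs : Transcendental F s) (a : Ch ι) :
    AlgebraicIndependent k (genE k F p s a) := by
  have h := genL_algIndep (k := k) p hs a.1.1 a.1.2 a.2
  rw [← genE_coe] at h
  exact (AlgHom.algebraicIndependent_iff _ (EL (ι := ι) k F p s).val.injective).mp h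

lemma adjoin_genE (hs : Transcendental F s) (a : Ch ι) :
    IntermediateField.adjoin k (Set.range (genE k F p s a)) = ⊤ := by
  have h := adjoin_genL (k := k) p hs a
  rw [← genE_coe, Set.range_comp] at h
  have h2 := IntermediateField.adjoin_map k (Set.range (genE k F p s a)) (EL (ι := ι) k F p s).val
  rw [h] at h2
  rw [eq_top_iff]
  intro y _
  have h3 : (y : L) ∈ (IntermediateField.adjoin k (Set.range (genE k F p s a))).map
      (EL (ι := ι) k F p s).val := by rw [h2]; exact y.2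
  obtain ⟨z, hz, e⟩ := h3
  rwa [← (EL (ι := ι) k F p s).val.injective e]

lemma PE_eq_adjoin_gen (hs : Transcendental F s) (a : Ch ι) :
    PE k F p s a a = Algebra.adjoin k (Set.range (genE k F p s a)) := by
  have h1 : (Algebra.adjoin k (Set.range (genE k F p s a))).map
      (EL (ι := ι) k F p s).val = PL k F p s a a := by
    rw [AlgHom.map_adjoin, ← Set.range_comp, genE_coe, ← adjoin_gens p hs _ a.1.2, PL,
      Set.union_self]
  unfold PE
  rw [← h1]
  ext y
  rw [Subalgebra.mem_comap, Subalgebra.mem_map]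
  constructor
  · rintro ⟨z, hz, e⟩
    rwa [← (EL (ι := ι) k F p s).val.injective e]
  · intro hy; exact ⟨y, hy, rfl⟩

lemma YE_self (J : IJ ι) (r c : Fin 2) : YE k F p s J r (J.1 c) = if r = c then 1 else 0 := by
  apply Subtype.ext
  rw [YE_coe, YJ_self J.1 J.2]
  split_ifs <;> simp

lemma wE_self (hs : Transcendental F s) (J : IJ ι) (ε : Fin 2) : wE k F p s J ε ε = 1 :=
  Subtype.ext (wv_self p hs J.1 ε)

lemma wE_mul (hs : Transcendental F s) (J : IJ ι) : wE k F p s J 1 0 * wE k F p s J 0 1 = 1 := by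
  apply Subtype.ext
  change wv k F p s J.1 1 0 * wv k F p s J.1 0 1 = 1
  have h0 := vv_ne (k := k) p hs J.1 0
  have h1 := vv_ne (k := k) p hs J.1 1
  rw [wv, wv]; field_simp

/-- two derivations agree as soon as they agree on the coordinates of one chart -/
lemma der_ext_chart (hs : Transcendental F s) (J : IJ ι)
    (D D' : Derivation k (EE k ι F p s) (EE k ι F p s))
    (hY : ∀ r i, D (YE k F p s J r i) = D' (YE k F p s J r i))
    (hw : D (wE k F p s J 0 1) = D' (wE k F p s J 0 1)) : D = D' := by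
  apply der_ext_gen (adjoin_genE p hs (J, 0))
  rintro (_ | v)
  · exact hw
  · exact hY _ _

/-- a derivation is regular on a chart if it preserves it on the coordinates -/
lemma der_reg_chart (hs : Transcendental F s) (a b : Ch ι)
    (D : Derivation k (EE k ι F p s) (EE k ι F p s))
    (hY : ∀ r i, D (YE k F p s a.1 r i) ∈ PE k F p s a b)
    (hw : D (wE k F p s a.1 a.2 (oth a.2)) ∈ PE k F p s a b) {y : EE k ι F p s}
    (hy : y ∈ PE k F p s a b) : D y ∈ PE k F p s a b := by
  have h1 : ∀ y ∈ PE k F p s a a, D y ∈ PE k F p s a b := by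
    intro y hy
    rw [PE_eq_adjoin_gen p hs] at hy
    induction hy using Algebra.adjoin_induction with
    | mem x hx =>
      obtain ⟨(_ | v), rfl⟩ := hx
      · exact hw
      · exact hY _ _
    | algebraMap r => simp
    | add x y hx hy ihx ihy => rw [map_add]; exact add_mem ihx ihy
    | mul x y hx hy ihx ihy =>
      rw [Derivation.leibniz]
      rw [← PE_eq_adjoin_gen p hs] at hx hy
      exact add_mem (mul_mem (PE_left p a b hx) ihy) (mul_mem (PE_left p a b hy) ihx)
  obtain ⟨z, hz, h, hh, h0, hinv, e⟩ := PE_frac p hs a b hy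
  have h3 : D y * h = D z - y * D h := by
    rw [← e, Derivation.leibniz]
    simp only [smul_eq_mul]; ring
  have h2 : D y = (D z - y * D h) * h⁻¹ := by
    rw [← h3]; field_simp
  rw [h2]
  exact mul_mem (sub_mem (h1 z hz) (mul_mem hy (h1 h hh))) hinv

lemma der_reg_mono (hs : Transcendental F s) (a b : Ch ι)
    (D : Derivation k (EE k ι F p s) (EE k ι F p s))
    (hD : ∀ y ∈ PE k F p s a a, D y ∈ PE k F p s a a) {y : EE k ι F p s}
    (hy : y ∈ PE k F p s a b) : D y ∈ PE k F p s a b :=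
  der_mem_frac D _ _ (PE_left p a b) (fun _ h => PE_frac p hs a b h) hD hy

lemma der_reg_mono' (hs : Transcendental F s) (a b : Ch ι)
    (D : Derivation k (EE k ι F p s) (EE k ι F p s))
    (hD : ∀ y ∈ PE k F p s b b, D y ∈ PE k F p s b b) {y : EE k ι F p s}
    (hy : y ∈ PE k F p s a b) : D y ∈ PE k F p s a b := by
  rw [PE_symm] at hy ⊢
  exact der_reg_mono p hs b a D hD hy

end

end Pool.Agent.Totaro

end

/-! ## P1 -/

section

set_option linter.unusedSectionVars false

namespace Pool.Agent.Totaro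

open MvPolynomial Matrix

section

variable {k : Type*} [Field k] {ι : Type*}
  {F : Type*} [Field F] [Algebra k F]
  [Algebra (SS k ι) F] [IsScalarTower k (SS k ι) F]
  [IsFractionRing (SS k ι) F]
variable (p : ℕ) [Fact p.Prime] [CharP k p]
variable {L : Type*} [Field L] [Algebra F L] [Algebra k L] [IsScalarTower k F L] {s : L}

lemma OJ_map_le_PL (a b : Ch ι) {x : F} (hx : x ∈ OJ k F a.1.1) :
    algebraMap F L x ∈ PL k F p s a b := by
  unfold OJ at hx
  induction hx using Algebra.adjoin_induction with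
  | mem x hx =>
    obtain ⟨v, rfl⟩ := hx
    exact Algebra.subset_adjoin (Or.inl (Or.inl ⟨v, rfl⟩))
  | algebraMap r => rw [← IsScalarTower.algebraMap_apply]; exact Subalgebra.algebraMap_mem _ _
  | add x y hx hy ihx ihy => rw [map_add]; exact add_mem ihx ihy
  | mul x y hx hy ihx ihy => rw [map_mul]; exact mul_mem ihx ihy

lemma OJJ_map_le_PL (a b : Ch ι) {x : F} (hx : x ∈ OJ k F a.1.1 ⊔ OJ k F b.1.1) :
    algebraMap F L x ∈ PL k F p s a b := by
  have hx' : x ∈ Algebra.adjoin k ((OJ k F a.1.1 : Set F) ∪ (OJ k F b.1.1 : Set F)) := by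
    rw [Algebra.adjoin_union, Algebra.adjoin_eq, Algebra.adjoin_eq]; exact hx
  clear hx
  induction hx' using Algebra.adjoin_induction with
  | mem x hx =>
    rcases hx with hx | hx
    · exact OJ_map_le_PL p a b hx
    · rw [PL_symm]; exact OJ_map_le_PL p b a hx
  | algebraMap r => rw [← IsScalarTower.algebraMap_apply]; exact Subalgebra.algebraMap_mem _ _
  | add x y hx hy ihx ihy => rw [map_add]; exact add_mem ihx ihy
  | mul x y hx hy ihx ihy => rw [map_mul]; exact mul_mem ihx ihy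

lemma wv_mem_PL (a b : Ch ι) (c : Fin 2) : wv k F p s a.1.1 a.2 c ∈ PL k F p s a b :=
  Algebra.subset_adjoin (Or.inl (Or.inr ⟨c, rfl⟩))

lemma AT_le_PL (a b : Ch ι) (c : Fin 2) {z : L}
    (hz : z ∈ AT (OJ k F a.1.1) (wv k F p s a.1.1 a.2 c)) : z ∈ PL k F p s a b := by
  rw [mem_AT] at hz
  obtain ⟨q, hq, rfl⟩ := hz
  rw [Polynomial.aeval_eq_sum_range]
  refine sum_mem fun i _ => ?_
  rw [Algebra.smul_def]
  exact mul_mem (OJ_map_le_PL p a b (hq i)) (pow_mem (wv_mem_PL p a b c) _)

lemma PL_split (hs : Transcendental F s) (J : IJ ι) {z : L}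
    (hz : z ∈ PL k F p s (J, 0) (J, 1)) :
    ∃ z0 ∈ PL k F p s (J, 0) (J, 0), ∃ z1 ∈ PL k F p s (J, 1) (J, 1), z = z0 + z1 := by
  have hw0 : wv k F p s J.1 0 1 ≠ 0 := by
    rw [wv]; exact div_ne_zero (vv_ne p hs _ _) (vv_ne p hs _ _)
  have hS : ∀ y ∈ gens k F p s J.1 0 ∪ gens k F p s J.1 1,
      (∃ a ∈ OJ k F J.1, y = algebraMap F L a) ∨ y = wv k F p s J.1 0 1 ∨
        y = (wv k F p s J.1 0 1)⁻¹ := by
    rintro y ((⟨v, rfl⟩ | ⟨c, rfl⟩) | (⟨v, rfl⟩ | ⟨c, rfl⟩))
    · exact Or.inl ⟨_, YJ_mem J.1 _ _, rfl⟩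
    · fin_cases c
      · left
        exact ⟨1, one_mem _, by simp [wv_self p hs]⟩
      · right; left; rfl
    · exact Or.inl ⟨_, YJ_mem J.1 _ _, rfl⟩
    · fin_cases c
      · right; right
        rw [wv_inv]; rfl
      · left
        exact ⟨1, one_mem _, by simp [wv_self p hs]⟩
  obtain ⟨z0, h0, z1, h1, e⟩ := split_mem (k := k) (F := F) (A := OJ k F J.1) hw0 hS hz
  refine ⟨z0, AT_le_PL p (J, 0) (J, 0) 1 h0, z1, ?_, e⟩
  rw [wv_inv] at h1
  exact AT_le_PL p (J, 1) (J, 1) 0 h1

lemma PE_split (hs : Transcendental F s) (J : IJ ι) {z : EE k ι F p s}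
    (hz : z ∈ PE k F p s (J, 0) (J, 1)) :
    ∃ z0 ∈ PE k F p s (J, 0) (J, 0), ∃ z1 ∈ PE k F p s (J, 1) (J, 1), z = z0 + z1 := by
  obtain ⟨z0, h0, z1, h1, e⟩ := PL_split p hs J hz
  exact ⟨⟨z0, PL_le_EL p _ _ h0⟩, h0, ⟨z1, PL_le_EL p _ _ h1⟩, h1, Subtype.ext e⟩

lemma YE_mem (a b : Ch ι) (r : Fin 2) (i : ι) : YE k F p s a.1 r i ∈ PE k F p s a b :=
  OJ_map_le_PL p a b (YJ_mem a.1.1 r i)

lemma wE_mem (a b : Ch ι) (c : Fin 2) : wE k F p s a.1 a.2 c ∈ PE k F p s a b :=
  wv_mem_PL p a b c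

/-- the derivative of `w⁻¹` -/
lemma der_wE_inv (hs : Transcendental F s) (J : IJ ι)
    (D : Derivation k (EE k ι F p s) (EE k ι F p s)) :
    D (wE k F p s J 1 0) = -(wE k F p s J 1 0) ^ 2 * D (wE k F p s J 0 1) := by
  have h := congrArg D (wE_mul p hs J)
  rw [Derivation.leibniz, Derivation.map_one_eq_zero, smul_eq_mul, smul_eq_mul] at h
  have h2 := wE_mul (k := k) p hs J
  linear_combination (wE k F p s J 1 0) * h - D (wE k F p s J 1 0) * h2

/-- The `P¹` step. -/
lemma p1_step (hs : Transcendental F s) (J : IJ ι)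
    (D : Derivation k (EE k ι F p s) (EE k ι F p s))
    (hD : ∀ y ∈ PE k F p s (J, 0) (J, 1), D y ∈ PE k F p s (J, 0) (J, 1)) :
    ∃ D0 D1 : Derivation k (EE k ι F p s) (EE k ι F p s), D = D0 - D1 ∧
      (∀ y ∈ PE k F p s (J, 0) (J, 0), D0 y ∈ PE k F p s (J, 0) (J, 0)) ∧
      (∀ y ∈ PE k F p s (J, 1) (J, 1), D1 y ∈ PE k F p s (J, 1) (J, 1)) := by
  have hYs : ∀ v : Fin 2 × ι, ∃ z0 ∈ PE k F p s (J, 0) (J, 0), ∃ z1 ∈ PE k F p s (J, 1) (J, 1),
      D (YE k F p s J v.1 v.2) = z0 + z1 ∧ ((∃ c, J.1 c = v.2) → z0 = 0 ∧ z1 = 0) := by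
    intro v
    by_cases hv : ∃ c, J.1 c = v.2
    · obtain ⟨c, hc⟩ := hv
      refine ⟨0, zero_mem _, 0, zero_mem _, ?_, fun _ => ⟨rfl, rfl⟩⟩
      rw [← hc, YE_self]
      split_ifs <;> simp
    · obtain ⟨z0, h0, z1, h1, e⟩ := PE_split p hs J (hD _ (YE_mem p (J, 0) (J, 1) v.1 v.2))
      exact ⟨z0, h0, z1, h1, e, fun h => absurd h hv⟩
  choose a ha b hb hab hab0 using hYs
  obtain ⟨aw, haw, bw, hbw, hw⟩ := PE_split p hs J (hD _ (wE_mem p (J, 0) (J, 1) 1))
  obtain ⟨D0, hD0⟩ := exists_der (genE_algIndep (k := k) p hs (J, 0)) (adjoin_genE p hs (J, 0))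
    (Sum.elim (fun _ => aw) (fun v => a (v.1, (v.2 : ι))))
  have hD0w : D0 (wE k F p s J 0 1) = aw := hD0 (Sum.inl ())
  have hD0Y : ∀ r i, D0 (YE k F p s J r i) = a (r, i) := by
    intro r i
    by_cases hi : ∃ c, J.1 c = i
    · obtain ⟨c, hc⟩ := hi
      rw [(hab0 (r, i) ⟨c, hc⟩).1, ← hc, YE_self]
      split_ifs <;> simp
    · exact hD0 (Sum.inr (r, ⟨i, hi⟩))
  refine ⟨D0, D0 - D, by abel, ?_, ?_⟩
  · intro y hy
    refine der_reg_chart p hs (J, 0) (J, 0) D0 ?_ ?_ hy
    · intro r i; rw [hD0Y]; exact ha _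
    · change D0 (wE k F p s J 0 1) ∈ _
      rw [hD0w]; exact haw
  · intro y hy
    refine der_reg_chart p hs (J, 1) (J, 1) (D0 - D) ?_ ?_ hy
    · intro r i
      have h1 : D (YE k F p s J r i) = a (r, i) + b (r, i) := hab (r, i)
      change (D0 - D) (YE k F p s J r i) ∈ _
      rw [Derivation.sub_apply, hD0Y, h1]
      rw [sub_add_cancel_left]
      exact neg_mem (hb _)
    · change (D0 - D) (wE k F p s J 1 0) ∈ _
      rw [der_wE_inv p hs, Derivation.sub_apply, hD0w]
      have : D (wE k F p s J 0 1) = aw + bw := hw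
      rw [this, sub_add_cancel_left]
      exact mul_mem (neg_mem (pow_mem (wE_mem p (J, 1) (J, 1) 0) _)) (neg_mem hbw)

end

end Pool.Agent.Totaro

end
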