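import Pool.Agent.TotaroVar.Defs
import Pool.Agent.TotaroVar.A05P1

/-! ## Pts -/

section

set_option linter.unusedSectionVars false

namespace Pool.Agent.Totaro

section

variable {R : Type*} [CommRing R] {ι : Type*} [Fintype ι]

/-- normalised families of rows -/
def Nrm {d : ℕ} (J : Fin d → ι) (y : Fin d → ι → R) : Prop :=
  ∀ r c, y r (J c) = if r = c then 1 else 0

/-- the span of a family of rows -/
def rowSpan {d : ℕ} (y : Fin d → ι → R) : Submodule R (ι → R) := Submodule.span R (Set.range y)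

lemma mem_rowSpan {d : ℕ} {y : Fin d → ι → R} {v : ι → R} :
    v ∈ rowSpan y ↔ ∃ c : Fin d → R, ∑ r, c r • y r = v := by
  unfold rowSpan
  exact Submodule.mem_span_range_iff_exists_fun R

lemma sum_apply_J {d : ℕ} {J : Fin d → ι} {y : Fin d → ι → R} (h : Nrm J y) (c : Fin d → R)
    (r : Fin d) : (∑ a, c a • y a) (J r) = c r := by
  rw [Finset.sum_apply]
  simp only [Pi.smul_apply, h _ r, smul_eq_mul, mul_ite, mul_one, mul_zero]
  rw [Finset.sum_ite_eq' Finset.univ r c]
  simp

lemma mem_rowSpan_iff {d : ℕ} {J : Fin d → ι} {y : Fin d → ι → R} (h : Nrm J y) {v : ι → R} :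
    v ∈ rowSpan y ↔ ∑ r, v (J r) • y r = v := by
  rw [mem_rowSpan]
  constructor
  · rintro ⟨c, rfl⟩
    apply Finset.sum_congr rfl
    intro r _
    rw [sum_apply_J h]
  · intro e; exact ⟨_, e⟩

lemma row_mem {d : ℕ} (y : Fin d → ι → R) (r : Fin d) : y r ∈ rowSpan y :=
  Submodule.subset_span ⟨r, rfl⟩

lemma Nrm.eq {d : ℕ} {J : Fin d → ι} {y y' : Fin d → ι → R} (h : Nrm J y) (h' : Nrm J y')
    (e : rowSpan y = rowSpan y') : y = y' := by
  funext r
  have h1 : y r ∈ rowSpan y' := e ▸ row_mem y r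
  rw [mem_rowSpan_iff h'] at h1
  rw [← h1]
  simp only [h r]
  simp

/-- the projection off `J` along the rows -/
def offJ {d : ℕ} (J : Fin d → ι) (y : Fin d → ι → R) :
    (ι → R) →ₗ[R] ({i // i ∉ Set.range J} → R) where
  toFun v i := v i - ∑ r, v (J r) * y r i
  map_add' v w := by
    funext i
    simp only [Pi.add_apply, add_mul, Finset.sum_add_distrib]
    ring
  map_smul' c v := by
    funext i
    simp only [Pi.smul_apply, smul_eq_mul, RingHom.id_apply, mul_sub, Finset.mul_sum, mul_assoc]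

lemma offJ_surj {d : ℕ} (J : Fin d → ι) (y : Fin d → ι → R) : Function.Surjective (offJ J y) := by
  classical
  intro u
  refine ⟨fun i => if h : i ∉ Set.range J then u ⟨i, h⟩ else 0, ?_⟩
  funext i
  have h0 : ∀ r, (if h : J r ∉ Set.range J then u ⟨J r, h⟩ else 0) = 0 := fun r =>
    dif_neg (fun h => h ⟨r, rfl⟩)
  simp only [offJ, LinearMap.coe_mk, AddHom.coe_mk, h0, zero_mul, Finset.sum_const_zero, sub_zero]
  exact dif_pos i.2

lemma ker_offJ {d : ℕ} {J : Fin d → ι} {y : Fin d → ι → R} (h : Nrm J y) :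
    LinearMap.ker (offJ J y) = rowSpan y := by
  ext v
  rw [LinearMap.mem_ker, mem_rowSpan_iff h]
  constructor
  · intro e
    funext i
    by_cases hi : i ∈ Set.range J
    · obtain ⟨r, rfl⟩ := hi
      rw [sum_apply_J h]
    · have := congrFun e ⟨i, hi⟩
      simp only [offJ, LinearMap.coe_mk, AddHom.coe_mk, Pi.zero_apply, sub_eq_zero] at this
      rw [this, Finset.sum_apply]
      rfl
  · intro e
    funext i
    have := congrFun e i
    rw [Finset.sum_apply] at this
    simp only [offJ, LinearMap.coe_mk, AddHom.coe_mk, Pi.zero_apply, sub_eq_zero]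
    rw [← this]
    rfl

/-- the quotient by a normalised row span is free -/
noncomputable def quotEquiv {d : ℕ} {J : Fin d → ι} {y : Fin d → ι → R} (h : Nrm J y) :
    ((ι → R) ⧸ rowSpan y) ≃ₗ[R] ({i // i ∉ Set.range J} → R) :=
  (Submodule.quotEquivOfEq _ _ (ker_offJ h).symm).trans
    ((offJ J y).quotKerEquivOfSurjective (offJ_surj J y))

lemma card_off {d : ℕ} {J : Fin d → ι} (hJ : Function.Injective J)
    [Fintype {i // i ∉ Set.range J}] :
    Fintype.card {i // i ∉ Set.range J} = Fintype.card ι - d := by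
  classical
  have h1 : Fintype.card {i // i ∈ Set.range J} = d := by
    have := Set.card_range_of_injective hJ
    rw [Fintype.card_fin] at this
    exact (Fintype.card_congr (Equiv.refl _)).trans this
  rw [Fintype.card_subtype_compl, h1]

/-- the point of the Grassmannian given by a normalised family of rows -/
noncomputable def grRow {d m : ℕ} {J : Fin d → ι} (hJ : Function.Injective J)
    (hm : Fintype.card ι - d = m) {y : Fin d → ι → R} (h : Nrm J y) :
    Module.Grassmannian R (ι → R) m where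
  toSubmodule := rowSpan y
  finite_quotient := by
    classical
    exact Module.Finite.equiv (quotEquiv h).symm
  projective_quotient := by
    classical
    exact Module.Projective.of_equiv (quotEquiv h).symm
  rankAtStalk_eq := fun q => by
    classical
    have : Nontrivial R := q.nontrivial
    rw [Module.rankAtStalk_eq_of_equiv (quotEquiv h), Module.rankAtStalk_eq_finrank_of_free]
    simp only [Module.finrank_fintype_fun_eq_card, Pi.natCast_apply]
    rw [card_off hJ, hm]
    rfl

/-- a point of the Grassmannian containing a normalised family of rows is spanned by it -/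
lemma eq_rowSpan {d m : ℕ} {J : Fin d → ι} (hJ : Function.Injective J)
    (hm : Fintype.card ι - d = m) {y : Fin d → ι → R} (h : Nrm J y)
    (W : Module.Grassmannian R (ι → R) m) (hW : ∀ r, y r ∈ W.toSubmodule) :
    W.toSubmodule = rowSpan y := by
  have hle : rowSpan y ≤ W.toSubmodule := by
    unfold rowSpan
    rw [Submodule.span_le]
    rintro _ ⟨r, rfl⟩
    exact hW r
  let G := grRow hJ hm h
  have hf := G.finite_quotient
  have hp := G.projective_quotient
  have hf2 := W.finite_quotient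
  have hp2 := W.projective_quotient
  have hbij := Module.bijective_of_surjective_of_rankAtStalk_eq
    (φ := Submodule.factor (p := G.toSubmodule) (p' := W.toSubmodule) hle)
    (Submodule.factor_surjective _) (fun 𝔪 _ => by
      rw [G.rankAtStalk_eq, W.rankAtStalk_eq])
  apply le_antisymm _ hle
  intro v hv
  have h1 : Submodule.factor (p := G.toSubmodule) (p' := W.toSubmodule) hle
      (Submodule.Quotient.mk v) = 0 := by
    change (Submodule.Quotient.mk v : (ι → R) ⧸ W.toSubmodule) = 0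
    rwa [Submodule.Quotient.mk_eq_zero]
  have h2 := hbij.1 (h1.trans (map_zero _).symm)
  rwa [Submodule.Quotient.mk_eq_zero] at h2

end

end Pool.Agent.Totaro

end

/-! ## Pts2 -/

section

set_option linter.unusedSectionVars false

namespace Pool.Agent.Totaro

section

variable {R R' R'' : Type*} [CommRing R] [CommRing R'] [CommRing R''] {ι : Type*} [Fintype ι]
  {p : ℕ}

lemma TPt.ext' {t t' : TPt p ι R} (h1 : t.W.toSubmodule = t'.W.toSubmodule)
    (h2 : t.L.toSubmodule = t'.L.toSubmodule) : t = t' := by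
  obtain ⟨W, L, h⟩ := t
  obtain ⟨W', L', h'⟩ := t'
  have e1 : W = W' := Module.Grassmannian.ext h1
  have e2 : L = L' := Module.Grassmannian.ext h2
  subst e1
  subst e2
  rfl

lemma bc_span (φ : R →+* R') (S : Set (ι → R)) :
    bc φ (Submodule.span R S) = Submodule.span R' ((fun v i => φ (v i)) '' S) := by
  apply le_antisymm
  · unfold bc
    rw [Submodule.span_le]
    rintro _ ⟨v, hv, rfl⟩
    have hv' : v ∈ Submodule.span R S := hv
    change (fun i => φ (v i)) ∈ _
    refine Submodule.span_induction (p := fun v _ => (fun i => φ (v i)) ∈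
      Submodule.span R' ((fun v i => φ (v i)) '' S)) ?_ ?_ ?_ ?_ hv'
    · intro v hv
      exact Submodule.subset_span ⟨v, hv, rfl⟩
    · have : (fun i => φ ((0 : ι → R) i)) = 0 := by funext i; simp
      rw [this]; exact zero_mem _
    · intro a b _ _ ha hb
      have : (fun i => φ ((a + b) i)) = (fun i => φ (a i)) + (fun i => φ (b i)) := by
        funext i; simp
      rw [this]; exact add_mem ha hb
    · intro c a _ ha
      have : (fun i => φ ((c • a) i)) = φ c • (fun i => φ (a i)) := by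
        funext i; simp
      rw [this]; exact Submodule.smul_mem _ _ ha
  · apply Submodule.span_mono
    exact Set.image_mono Submodule.subset_span

lemma bc_rowSpan (φ : R →+* R') {d : ℕ} (y : Fin d → ι → R) :
    bc φ (rowSpan y) = rowSpan (fun r i => φ (y r i)) := by
  unfold rowSpan
  rw [bc_span, ← Set.range_comp]
  rfl

lemma bc_comp (φ : R →+* R') (ψ : R' →+* R'') (W : Submodule R (ι → R)) :
    bc (ψ.comp φ) W = bc ψ (bc φ W) := by
  have h : bc ψ (bc φ W) = Submodule.span R'' ((fun v i => ψ (v i)) ''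
      ((fun v i => φ (v i)) '' (W : Set (ι → R)))) := bc_span ψ _
  rw [h, ← Set.image_comp]
  rfl

lemma TPt.IsMap.unique {φ : R →+* R'} {t : TPt p ι R} {t' t'' : TPt p ι R'} (h : IsMap φ t t')
    (h' : IsMap φ t t'') : t' = t'' :=
  TPt.ext' (h.1.trans h'.1.symm) (h.2.trans h'.2.symm)

lemma TPt.IsMap.comp {φ : R →+* R'} {ψ : R' →+* R''} {t : TPt p ι R} {t' : TPt p ι R'}
    {t'' : TPt p ι R''} (h : IsMap φ t t') (h' : IsMap ψ t' t'') : IsMap (ψ.comp φ) t t'' :=
  ⟨by rw [h'.1, h.1, bc_comp], by rw [h'.2, h.2, bc_comp]⟩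

lemma frobSpan_rowSpan (hp : p.Prime) (h0 : (p : R) = 0) {d : ℕ} (y : Fin d → ι → R) :
    frobSpan p (rowSpan y) = rowSpan (fun r i => y r i ^ p) := by
  rcases subsingleton_or_nontrivial R with hR | hR
  · ext v
    rw [Subsingleton.elim v 0]
    simp
  · have : CharP R p := (CharP.charP_iff_prime_eq_zero hp).mpr h0
    have : Fact p.Prime := ⟨hp⟩
    have h1 : (fun (v : ι → R) i => v i ^ p) = fun v i => frobenius R p (v i) := rfl
    have h2 : frobSpan p (rowSpan y) = bc (frobenius R p) (rowSpan y) := rfl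
    rw [h2, bc_rowSpan]
    rfl

lemma Nrm.pow {d : ℕ} {J : Fin d → ι} {y : Fin d → ι → R} (h : Nrm J y) (hp : p ≠ 0) :
    Nrm J (fun r i => y r i ^ p) := by
  intro r c
  simp only [h r c, ite_pow, one_pow, zero_pow hp]

lemma Nrm.map {d : ℕ} {J : Fin d → ι} {y : Fin d → ι → R} (h : Nrm J y) (φ : R →+* R') :
    Nrm J (fun r i => φ (y r i)) := by
  intro r c
  simp only [h r c]
  split_ifs <;> simp

variable (p) in
/-- the generator of the line -/
def ell (Y : Fin 2 → ι → R) (w : Fin 2 → R) : ι → R := fun i => ∑ r, w r * Y r i ^ p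

lemma ell_J {J : Fin 2 → ι} {Y : Fin 2 → ι → R} (hp : p ≠ 0) (h : Nrm J Y) (w : Fin 2 → R)
    (c : Fin 2) : ell p Y w (J c) = w c := by
  have := sum_apply_J (h.pow hp) w c
  rw [Finset.sum_apply] at this
  exact this

/-- points of a chart -/
structure CPt (J : Fin 2 → ι) (ε : Fin 2) (R : Type*) [CommRing R] where
  /-- normalised matrix -/
  Y : Fin 2 → ι → R
  /-- normalised fibre coordinates -/
  w : Fin 2 → R
  hY : Nrm J Y
  hw : w ε = 1

lemma CPt.ext' {J : Fin 2 → ι} {ε : Fin 2} {c c' : CPt J ε R} (h1 : c.Y = c'.Y)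
    (h2 : c.w = c'.w) : c = c' := by
  cases c; cases c'; simp_all

/-- base change -/
def CPt.map {J : Fin 2 → ι} {ε : Fin 2} (φ : R →+* R') (c : CPt J ε R) : CPt J ε R' where
  Y r i := φ (c.Y r i)
  w r := φ (c.w r)
  hY := c.hY.map φ
  hw := by rw [c.hw, map_one]

lemma CPt.nrm_ell {J : Fin 2 → ι} {ε : Fin 2} (hp : p ≠ 0) (c : CPt J ε R) :
    Nrm (fun _ : Fin 1 => J ε) (fun _ : Fin 1 => ell p c.Y c.w) := by
  intro r s
  rw [if_pos (Subsingleton.elim _ _)]
  exact (ell_J hp c.hY _ _).trans c.hw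

lemma inj_fin1 {α : Type*} (a : α) : Function.Injective (fun _ : Fin 1 => a) :=
  fun _ _ _ => Subsingleton.elim _ _

/-- the point attached to chart coordinates -/
noncomputable def CPt.toT {J : Fin 2 → ι} (hJ : Function.Injective J) {ε : Fin 2} (hp : p ≠ 0)
    (c : CPt J ε R) : TPt p ι R where
  W := grRow hJ rfl c.hY
  L := grRow (inj_fin1 _) rfl (c.nrm_ell hp)
  le := by
    change rowSpan _ ≤ frobSpan p (rowSpan c.Y)
    unfold rowSpan
    rw [Submodule.span_le]
    rintro _ ⟨_, rfl⟩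
    have h1 : ell p c.Y c.w = ∑ r, c.w r • (fun i => c.Y r i ^ p) := by
      funext i
      rw [Finset.sum_apply]; rfl
    change ell p c.Y c.w ∈ _
    rw [h1]
    refine sum_mem fun r _ => Submodule.smul_mem _ _ (Submodule.subset_span ⟨c.Y r, ?_, rfl⟩)
    exact row_mem c.Y r

lemma CPt.toT_W {J : Fin 2 → ι} (hJ : Function.Injective J) {ε : Fin 2} (hp : p ≠ 0)
    (c : CPt J ε R) : (c.toT hJ hp).W.toSubmodule = rowSpan c.Y := rfl

lemma CPt.toT_L {J : Fin 2 → ι} (hJ : Function.Injective J) {ε : Fin 2} (hp : p ≠ 0)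
    (c : CPt J ε R) : (c.toT hJ hp).L.toSubmodule = rowSpan (fun _ : Fin 1 => ell p c.Y c.w) := rfl

lemma CPt.toT_inj {J : Fin 2 → ι} (hJ : Function.Injective J) {ε : Fin 2} (hp : p ≠ 0)
    {c c' : CPt J ε R} (h : c.toT hJ hp = c'.toT hJ hp) : c = c' := by
  have h1 : rowSpan c.Y = rowSpan c'.Y := congrArg (fun t => t.W.toSubmodule) h
  have h2 : rowSpan (fun _ : Fin 1 => ell p c.Y c.w) = rowSpan (fun _ : Fin 1 => ell p c'.Y c'.w) :=
    congrArg (fun t => t.L.toSubmodule) h
  have e1 := c.hY.eq c'.hY h1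
  have e2 := (c.nrm_ell hp).eq (c'.nrm_ell hp) h2
  refine CPt.ext' e1 ?_
  funext r
  have e3 := congrFun (congrFun e2 0) (J r)
  rwa [ell_J hp c.hY, ell_J hp c'.hY] at e3

lemma map_ell (φ : R →+* R') (Y : Fin 2 → ι → R) (w : Fin 2 → R) :
    (fun i => φ (ell p Y w i)) = ell p (fun r i => φ (Y r i)) (fun r => φ (w r)) := by
  funext i
  simp [ell]

lemma CPt.isMap {J : Fin 2 → ι} (hJ : Function.Injective J) {ε : Fin 2} (hp : p ≠ 0)
    (c : CPt J ε R) (φ : R →+* R') : TPt.IsMap φ (c.toT hJ hp) ((c.map φ).toT hJ hp) := by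
  constructor
  · rw [CPt.toT_W, CPt.toT_W, bc_rowSpan]; rfl
  · rw [CPt.toT_L, CPt.toT_L, bc_rowSpan]
    congr 1
    funext r
    exact (map_ell φ c.Y c.w).symm

/-- the overlap of two charts -/
lemma CPt.unit_of_eq {J K : Fin 2 → ι} (hJ : Function.Injective J) (hK : Function.Injective K)
    {ε δ : Fin 2} (hp : p ≠ 0) (c : CPt J ε R) (c' : CPt K δ R)
    (h : c.toT hJ hp = c'.toT hK hp) :
    IsUnit ((Matrix.of c.Y).submatrix id K).det ∧ IsUnit (ell p c.Y c.w (K δ)) := by
  have h1 : rowSpan c.Y = rowSpan c'.Y := congrArg (fun t => t.W.toSubmodule) h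
  have h2 : rowSpan (fun _ : Fin 1 => ell p c.Y c.w) = rowSpan (fun _ : Fin 1 => ell p c'.Y c'.w) :=
    congrArg (fun t => t.L.toSubmodule) h
  constructor
  · have h3 : ∀ r, ∑ s, c'.Y r (J s) • c.Y s = c'.Y r := by
      intro r
      rw [← mem_rowSpan_iff c.hY, h1]
      exact row_mem _ _
    have h4 : (Matrix.of c'.Y).submatrix id J * (Matrix.of c.Y).submatrix id K = 1 := by
      ext r s
      have := congrFun (h3 r) (K s)
      rw [Finset.sum_apply, c'.hY] at this
      rw [Matrix.mul_apply, Matrix.one_apply]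
      exact this
    have h5 := congrArg Matrix.det h4
    rw [Matrix.det_mul, Matrix.det_one] at h5
    exact IsUnit.of_mul_eq_one_right _ h5
  · have h3 : ell p c'.Y c'.w ∈ rowSpan (fun _ : Fin 1 => ell p c.Y c.w) := by
      rw [h2]
      exact row_mem (fun _ : Fin 1 => ell p c'.Y c'.w) 0
    rw [mem_rowSpan] at h3
    obtain ⟨u, hu⟩ := h3
    have h4 := congrFun hu (K δ)
    rw [ell_J hp c'.hY, c'.hw] at h4
    simp only [Finset.univ_unique, Fin.default_eq_zero, Finset.sum_singleton, Pi.smul_apply,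
      smul_eq_mul] at h4
    exact IsUnit.of_mul_eq_one_right _ h4

/-- a point lies in a chart as soon as the relevant minors are units -/
lemma exists_CPt (hp : p.Prime) (h0 : (p : R) = 0) (t : TPt p ι R) {J : Fin 2 → ι}
    (hJ : Function.Injective J) (ε : Fin 2) (u : Fin 2 → ι → R)
    (hu : ∀ r, u r ∈ t.W.toSubmodule) (hdet : IsUnit ((Matrix.of u).submatrix id J).det)
    (l : ι → R) (hl : l ∈ t.L.toSubmodule) (hl' : IsUnit (l (J ε))) :
    ∃ c : CPt J ε R, c.toT hJ hp.ne_zero = t := by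
  set M := (Matrix.of u).submatrix id J with hM
  let Y : Fin 2 → ι → R := fun r => ∑ s, M⁻¹ r s • u s
  have hY : Nrm J Y := by
    intro r c
    have h1 : (M⁻¹ * M) r c = if r = c then 1 else 0 := by
      rw [Matrix.nonsing_inv_mul _ hdet, Matrix.one_apply]
    rw [← h1, Matrix.mul_apply]
    simp only [Y]
    rw [Finset.sum_apply]
    rfl
  have hYW : ∀ r, Y r ∈ t.W.toSubmodule := fun r =>
    sum_mem fun s _ => Submodule.smul_mem _ _ (hu s)
  have hW := eq_rowSpan hJ rfl hY t.W hYW
  obtain ⟨v, hv⟩ := hl'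
  let l' : ι → R := ((v⁻¹ : Rˣ) : R) • l
  have hl1 : l' (J ε) = 1 := by
    simp only [l', Pi.smul_apply, smul_eq_mul]
    rw [← hv, Units.inv_mul]
  have hl2 : l' ∈ t.L.toSubmodule := Submodule.smul_mem _ _ hl
  have hN : Nrm (fun _ : Fin 1 => J ε) (fun _ : Fin 1 => l') := by
    intro r s
    rw [if_pos (Subsingleton.elim _ _)]
    exact hl1
  have hL := eq_rowSpan (inj_fin1 _) rfl hN t.L (fun _ => hl2)
  have h3 := t.le hl2
  rw [hW, frobSpan_rowSpan hp h0, mem_rowSpan_iff (hY.pow hp.ne_zero)] at h3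
  let c : CPt J ε R := ⟨Y, fun r => l' (J r), hY, hl1⟩
  have h4 : ell p c.Y c.w = l' := by
    rw [← h3]
    funext i
    rw [Finset.sum_apply]
    simp only [Pi.smul_apply, smul_eq_mul]
    rfl
  refine ⟨c, TPt.ext' ?_ ?_⟩
  · rw [CPt.toT_W, hW]
  · rw [CPt.toT_L, h4, hL]

end

end Pool.Agent.Totaro

end

/-! ## Pts3 -/

section

set_option linter.unusedSectionVars false

namespace Pool.Agent.Totaro

section field

variable {K : Type*} [Field K] {ι : Type*} [Fintype ι] {p : ℕ}

lemma finrank_gr (d : ℕ) (hd : d ≤ Fintype.card ι)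
    (W : Module.Grassmannian K (ι → K) (Fintype.card ι - d)) :
    Module.finrank K W.toSubmodule = d := by
  have h1 := Submodule.finrank_quotient_add_finrank W.toSubmodule
  rw [Module.finrank_fintype_fun_eq_card] at h1
  have h2 := W.rankAtStalk_eq ⟨⊥, Ideal.isPrime_bot⟩
  rw [Module.rankAtStalk_eq_finrank_of_free] at h2
  have h3 : Module.finrank K ((ι → K) ⧸ W.toSubmodule) = Fintype.card ι - d := h2
  omega

lemma exists_minor (hι : 2 ≤ Fintype.card ι)
    (W : Module.Grassmannian K (ι → K) (Fintype.card ι - 2)) :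
    ∃ (J : Fin 2 → ι), Function.Injective J ∧ ∃ u : Fin 2 → ι → K, (∀ r, u r ∈ W.toSubmodule) ∧
      ((Matrix.of u).submatrix id J).det ≠ 0 := by
  let b := Module.finBasisOfFinrankEq K W.toSubmodule (finrank_gr 2 hι W)
  have hli : LinearIndependent K (fun r => ((b r : W.toSubmodule) : ι → K)) :=
    b.linearIndependent.map' W.toSubmodule.subtype (Submodule.ker_subtype _)
  by_contra hcon
  have h0 : ∀ i j, (b 0 : ι → K) i * (b 1 : ι → K) j = (b 0 : ι → K) j * (b 1 : ι → K) i := by
    intro i j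
    by_cases hij : i = j
    · rw [hij]
    · by_contra h
      apply hcon
      refine ⟨![i, j], ?_, fun r => b r, fun r => (b r).2, ?_⟩
      · intro a c hac
        fin_cases a <;> fin_cases c <;> simp_all
      · rw [Matrix.det_fin_two]
        simp only [Matrix.submatrix_apply, Matrix.of_apply, id, Matrix.cons_val_zero,
          Matrix.cons_val_one]
        exact sub_ne_zero.mpr h
  rw [Fintype.linearIndependent_iff] at hli
  have h1 : ∀ i, (b 0 : ι → K) i = 0 := by
    intro i
    have := hli ![(b 1 : ι → K) i, -(b 0 : ι → K) i] (by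
      funext j
      simp only [Fin.sum_univ_two, Matrix.cons_val_zero, Matrix.cons_val_one, Pi.add_apply,
        Pi.smul_apply, smul_eq_mul, Pi.zero_apply]
      linear_combination -(h0 i j)) 1
    simpa using this
  have := hli ![1, 0] (by
    funext j
    simp only [Fin.sum_univ_two, Matrix.cons_val_zero, Matrix.cons_val_one, Pi.add_apply,
      Pi.smul_apply, smul_eq_mul, Pi.zero_apply, h1 j]
    ring) 0
  simp at this

/-- every field-valued point lies in a chart -/
lemma field_chart (hp : p.Prime) (h0 : (p : K) = 0) (hι : 2 ≤ Fintype.card ι) (t : TPt p ι K) :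
    ∃ (J : Fin 2 → ι), Function.Injective J ∧ ∃ (ε : Fin 2) (u : Fin 2 → ι → K),
      (∀ r, u r ∈ t.W.toSubmodule) ∧ ((Matrix.of u).submatrix id J).det ≠ 0 ∧
      ∃ l ∈ t.L.toSubmodule, l (J ε) ≠ 0 := by
  obtain ⟨J, hJ, u, hu, hdet⟩ := exists_minor hι t.W
  refine ⟨J, hJ, ?_⟩
  by_contra hcon
  -- normalise
  set M := (Matrix.of u).submatrix id J with hM
  have hdet' : IsUnit M.det := isUnit_iff_ne_zero.mpr hdet
  let Y : Fin 2 → ι → K := fun r => ∑ s, M⁻¹ r s • u s
  have hY : Nrm J Y := by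
    intro r c
    have h1 : (M⁻¹ * M) r c = if r = c then 1 else 0 := by
      rw [Matrix.nonsing_inv_mul _ hdet', Matrix.one_apply]
    rw [← h1, Matrix.mul_apply]
    simp only [Y]
    rw [Finset.sum_apply]
    rfl
  have hYW : ∀ r, Y r ∈ t.W.toSubmodule := fun r =>
    sum_mem fun s _ => Submodule.smul_mem _ _ (hu s)
  have hW := eq_rowSpan hJ rfl hY t.W hYW
  have hL : t.L.toSubmodule = ⊥ := by
    rw [eq_bot_iff]
    intro l hl
    have h3 := t.le hl
    rw [hW, frobSpan_rowSpan hp h0, mem_rowSpan_iff (hY.pow hp.ne_zero)] at h3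
    have h4 : ∀ ε, l (J ε) = 0 := by
      intro ε
      by_contra h
      exact hcon ⟨ε, u, hu, hdet, l, hl, h⟩
    simp only [h4, zero_smul, Finset.sum_const_zero] at h3
    rw [← h3]; exact zero_mem _
  have h5 := finrank_gr 1 (le_trans one_le_two hι) t.L
  rw [hL, finrank_bot] at h5
  exact zero_ne_one h5

end field

section spread

variable {R K : Type*} [CommRing R] [Field K] {ι : Type*} [Fintype ι] {p : ℕ}

lemma minor_span {J : Fin 2 → ι} {S : Set (ι → K)}
    (h : ∀ a ∈ S, ∀ b ∈ S, a (J 0) * b (J 1) - a (J 1) * b (J 0) = 0) :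
    ∀ a ∈ Submodule.span K S, ∀ b ∈ Submodule.span K S,
      a (J 0) * b (J 1) - a (J 1) * b (J 0) = 0 := by
  have h1 : ∀ a ∈ S, ∀ b ∈ Submodule.span K S, a (J 0) * b (J 1) - a (J 1) * b (J 0) = 0 := by
    intro a ha b hb
    refine Submodule.span_induction (p := fun b _ => a (J 0) * b (J 1) - a (J 1) * b (J 0) = 0)
      ?_ ?_ ?_ ?_ hb
    · intro b hb; exact h a ha b hb
    · simp
    · intro x y _ _ hx hy
      simp only [Pi.add_apply]; linear_combination hx + hy
    · intro c x _ hx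
      simp only [Pi.smul_apply, smul_eq_mul]; linear_combination c * hx
  intro a ha b hb
  refine Submodule.span_induction (p := fun a _ => a (J 0) * b (J 1) - a (J 1) * b (J 0) = 0)
      ?_ ?_ ?_ ?_ ha
  · intro a ha; exact h1 a ha b hb
  · simp
  · intro x y _ _ hx hy
    simp only [Pi.add_apply]; linear_combination hx + hy
  · intro c x _ hx
    simp only [Pi.smul_apply, smul_eq_mul]; linear_combination c * hx

/-- spreading out: near a field-valued point, one finds chart data over the base -/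
lemma spread (hp : p.Prime) (h0 : (p : K) = 0) (hι : 2 ≤ Fintype.card ι) (φ : R →+* K)
    (t : TPt p ι R) (t' : TPt p ι K) (h : TPt.IsMap φ t t') :
    ∃ (J : Fin 2 → ι), Function.Injective J ∧ ∃ (ε : Fin 2) (u : Fin 2 → ι → R),
      (∀ r, u r ∈ t.W.toSubmodule) ∧ φ ((Matrix.of u).submatrix id J).det ≠ 0 ∧
      ∃ l ∈ t.L.toSubmodule, φ (l (J ε)) ≠ 0 := by
  obtain ⟨J, hJ, ε, u, hu, hdet, l, hl, hl'⟩ := field_chart hp h0 hι t'
  refine ⟨J, hJ, ε, ?_⟩
  have h1 : ∃ u : Fin 2 → ι → R, (∀ r, u r ∈ t.W.toSubmodule) ∧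
      φ ((Matrix.of u).submatrix id J).det ≠ 0 := by
    by_contra hcon
    apply hdet
    rw [Matrix.det_fin_two]
    have h2 := minor_span (K := K) (J := J)
      (S := (fun (v : ι → R) i => φ (v i)) '' (t.W.toSubmodule : Set (ι → R))) (by
        rintro _ ⟨a, ha, rfl⟩ _ ⟨b, hb, rfl⟩
        by_contra hne
        apply hcon
        refine ⟨![a, b], ?_, ?_⟩
        · intro r; fin_cases r
          · exact ha
          · exact hb
        · rw [Matrix.det_fin_two]
          simp only [Matrix.submatrix_apply, Matrix.of_apply, id, Matrix.cons_val_zero,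
            Matrix.cons_val_one, map_sub, map_mul]
          exact hne)
      (u 0) (by have := hu 0; rw [h.1] at this; exact this)
      (u 1) (by have := hu 1; rw [h.1] at this; exact this)
    simp only [Matrix.submatrix_apply, Matrix.of_apply, id]
    exact h2
  obtain ⟨u, hu, hdet⟩ := h1
  refine ⟨u, hu, hdet, ?_⟩
  by_contra hcon
  apply hl'
  rw [h.2] at hl
  have h3 : ∀ v ∈ t.L.toSubmodule, φ (v (J ε)) = 0 := by
    intro v hv
    by_contra hne
    exact hcon ⟨v, hv, hne⟩
  refine Submodule.span_induction (p := fun v _ => v (J ε) = 0) ?_ ?_ ?_ ?_ hl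
  · rintro _ ⟨v, hv, rfl⟩
    exact h3 v hv
  · rfl
  · intro a b _ _ ha hb
    rw [Pi.add_apply, ha, hb, add_zero]
  · intro c a _ ha
    rw [Pi.smul_apply, ha, smul_zero]

end spread

end Pool.Agent.Totaro

end

/-! ## Pts4 -/

section

set_option linter.unusedSectionVars false

namespace Pool.Agent.Totaro

open MvPolynomial Matrix

section

variable {k : Type*} [Field k] {ι : Type*} [Fintype ι]
  {F : Type*} [Field F] [Algebra k F]
  [Algebra (SS k ι) F] [IsScalarTower k (SS k ι) F]
  [IsFractionRing (SS k ι) F]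
variable (p : ℕ) [Fact p.Prime] [CharP k p]
variable {L : Type*} [Field L] [Algebra F L] [Algebra k L] [IsScalarTower k F L] {s : L}

lemma YE_mul' (J K' : IJ ι) (r : Fin 2) (i : ι) : YE k F p s J r i =
    ∑ c, YE k F p s J r (K'.1 c) * YE k F p s K' c i := by
  rw [Fin.sum_univ_two]
  apply Subtype.ext
  push_cast
  simp only [YE_coe]
  rw [← map_mul, ← map_mul, ← map_add]
  congr 1
  have := congrFun (congrFun (th_mul_YJ (k := k) (F := F) J.1 K'.1 J.2 K'.2) r) i
  rw [← this, Matrix.mul_apply, Fin.sum_univ_two]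
  rfl

lemma isLoc_aux {k E : Type*} [Field k] [Field E] [Algebra k E] {A B : Subalgebra k E}
    (hAB : A ≤ B) {h : E} (hA : h ∈ A) (h0 : h ≠ 0) (hB : h⁻¹ ∈ B)
    (H : ∀ y ∈ B, ∃ n : ℕ, y * h ^ n ∈ A) :
    @IsLocalization.Away _ _ (⟨h, hA⟩ : A) B _ (Subalgebra.inclusion hAB).toRingHom.toAlgebra := by
  let _ := (Subalgebra.inclusion hAB).toRingHom.toAlgebra
  have hmap : ∀ x : A, ((algebraMap A B x : B) : E) = x := fun _ => rfl
  refine ⟨?_, ?_, ?_⟩
  · rintro ⟨_, n, rfl⟩
    rw [map_pow]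
    apply IsUnit.pow
    refine IsUnit.of_mul_eq_one (⟨h⁻¹, hB⟩ : B) ?_
    apply Subtype.ext
    exact mul_inv_cancel₀ h0
  · rintro ⟨y, hy⟩
    obtain ⟨n, hn⟩ := H y hy
    refine ⟨⟨⟨_, hn⟩, ⟨_, n, rfl⟩⟩, ?_⟩
    apply Subtype.ext
    rw [map_pow]
    push_cast
    rw [hmap, hmap]
  · intro x y h
    refine ⟨1, ?_⟩
    have h2 := congrArg (fun z : B => (z : E)) h
    simp only [hmap] at h2
    have : x = y := Subtype.ext h2
    rw [this]

/-- `ℓ` of the universal point of a chart -/
noncomputable def eE (k : Type*) [Field k] {ι : Type*} [Fintype ι] (F : Type*) [Field F]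
    [Algebra (SS k ι) F] (p : ℕ) {L : Type*} [Field L] [Algebra F L] [Algebra k L] (s : L)
    (a : Ch ι) (i : ι) : EE k ι F p s :=
  ell p (YE k F p s a.1) (wE k F p s a.1 a.2) i

lemma eE_coe (a : Ch ι) (i : ι) : ((eE k F p s a i : EE k ι F p s) : L) =
    vv k F p s (fun _ => i) 0 / vv k F p s a.1.1 a.2 := by
  have h1 := vv_trans (k := k) (F := F) (L := L) (s := s) p a.1.1 (fun _ => i) a.1.2 0
  have e : ((eE k F p s a i : EE k ι F p s) : L) =
      ∑ r, wv k F p s a.1.1 a.2 r * algebraMap F L (YJ k F a.1.1 r i) ^ p := by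
    unfold eE ell
    push_cast
    rfl
  rw [h1, Finset.sum_div, e]
  apply Finset.sum_congr rfl
  intro r _
  have h2 : algebraMap F L (th k F a.1.1 (fun _ => i) r 0 ^ p) =
      algebraMap F L (YJ k F a.1.1 r i) ^ p := by rw [map_pow]; rfl
  rw [h2, wv]
  ring

lemma eE_mul (hs : Transcendental F s) (a b : Ch ι) (i : ι) : eE k F p s a i =
    eE k F p s a (b.1.1 b.2) * eE k F p s b i := by
  apply Subtype.ext
  push_cast
  rw [eE_coe, eE_coe, eE_coe]
  have h1 : vv k F p s (fun _ => b.1.1 b.2) 0 = vv k F p s b.1.1 b.2 := rfl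
  have h2 := vv_ne (k := k) p hs b.1.1 b.2
  rw [h1]
  field_simp

lemma nrm_YE (J : IJ ι) : Nrm J.1 (YE k F p s J) := fun r c => YE_self p J r c

lemma eE_J (a : Ch ι) (c : Fin 2) : eE k F p s a (a.1.1 c) = wE k F p s a.1 a.2 c :=
  ell_J (Nat.Prime.ne_zero Fact.out) (nrm_YE p a.1) _ _

lemma eE_self (hs : Transcendental F s) (a : Ch ι) : eE k F p s a (a.1.1 a.2) = 1 := by
  rw [eE_J, wE_self p hs]

/-- transition determinant -/
noncomputable def dE (k : Type*) [Field k] {ι : Type*} (F : Type*) [Field F]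
    [Algebra (SS k ι) F] (p : ℕ) {L : Type*} [Field L] [Algebra F L] [Algebra k L] (s : L)
    (a b : Ch ι) : EE k ι F p s :=
  ((Matrix.of (YE k F p s a.1)).submatrix id b.1.1).det

lemma dE_mul (a b : Ch ι) : dE k F p s a b * dE k F p s b a = 1 := by
  unfold dE
  rw [← Matrix.det_mul]
  have : (Matrix.of (YE k F p s a.1)).submatrix id b.1.1 *
      (Matrix.of (YE k F p s b.1)).submatrix id a.1.1 = 1 := by
    ext r c
    rw [Matrix.mul_apply, Matrix.one_apply, ← YE_self p a.1 r c, YE_mul' p a.1 b.1 r (a.1.1 c)]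
    rfl
  rw [this, Matrix.det_one]

/-- the function cutting out the overlap -/
noncomputable def hE (k : Type*) [Field k] {ι : Type*} [Fintype ι] (F : Type*) [Field F]
    [Algebra (SS k ι) F] (p : ℕ) {L : Type*} [Field L] [Algebra F L] [Algebra k L] (s : L)
    (a b : Ch ι) : EE k ι F p s := dE k F p s a b * eE k F p s a (b.1.1 b.2)

lemma hE_mul (hs : Transcendental F s) (a b : Ch ι) :
    hE k F p s a b * hE k F p s b a = 1 := by
  have h1 := dE_mul (k := k) (F := F) (s := s) p a b
  have h2 : eE k F p s a (b.1.1 b.2) * eE k F p s b (a.1.1 a.2) = 1 := by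
    rw [← eE_mul p hs, eE_self p hs]
  unfold hE
  linear_combination (eE k F p s a (b.1.1 b.2) * eE k F p s b (a.1.1 a.2)) * h1 + h2

lemma dE_mem (a b : Ch ι) : dE k F p s a b ∈ PE k F p s a a := by
  unfold dE
  rw [Matrix.det_fin_two]
  exact sub_mem (mul_mem (YE_mem p a a _ _) (YE_mem p a a _ _))
    (mul_mem (YE_mem p a a _ _) (YE_mem p a a _ _))

lemma eE_mem (a : Ch ι) (i : ι) : eE k F p s a i ∈ PE k F p s a a := by
  unfold eE ell
  exact sum_mem fun r _ => mul_mem (wE_mem p a a _) (pow_mem (YE_mem p a a _ _) _)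

lemma hE_mem (a b : Ch ι) : hE k F p s a b ∈ PE k F p s a a :=
  mul_mem (dE_mem p a b) (eE_mem p a _)

lemma hE_ne (hs : Transcendental F s) (a b : Ch ι) : hE k F p s a b ≠ 0 :=
  left_ne_zero_of_mul_eq_one (hE_mul p hs a b)

lemma hE_inv_mem (hs : Transcendental F s) (a b : Ch ι) :
    (hE k F p s a b)⁻¹ ∈ PE k F p s a b := by
  rw [inv_eq_of_mul_eq_one_right (hE_mul p hs a b)]
  exact PE_right p a b (hE_mem p b a)

/-- Cramer -/
lemma YE_cramer (a b : Ch ι) (r : Fin 2) (i : ι) :
    YE k F p s b.1 r i * dE k F p s a b ∈ PE k F p s a a := by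
  have h : (Matrix.of (YE k F p s a.1)).submatrix id b.1.1 * Matrix.of (YE k F p s b.1) =
      Matrix.of (YE k F p s a.1) := by
    ext r c
    rw [Matrix.mul_apply]
    exact congrArg Subtype.val (YE_mul' (k := k) (F := F) (s := s) p a.1 b.1 r c).symm
  have h2 : Matrix.adjugate ((Matrix.of (YE k F p s a.1)).submatrix id b.1.1) *
      Matrix.of (YE k F p s a.1) = (dE k F p s a b) • Matrix.of (YE k F p s b.1) := by
    have h5 : Matrix.adjugate ((Matrix.of (YE k F p s a.1)).submatrix id b.1.1) *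
        ((Matrix.of (YE k F p s a.1)).submatrix id b.1.1 * Matrix.of (YE k F p s b.1)) =
        Matrix.adjugate ((Matrix.of (YE k F p s a.1)).submatrix id b.1.1) *
          Matrix.of (YE k F p s a.1) := by rw [h]
    rw [← h5, ← Matrix.mul_assoc, Matrix.adjugate_mul, Matrix.smul_mul, Matrix.one_mul]
    rfl
  have h3 := congrFun (congrFun h2 r) i
  rw [Matrix.smul_apply, smul_eq_mul, mul_comm] at h3
  have h4 : YE k F p s b.1 r i * dE k F p s a b =
      (Matrix.adjugate ((Matrix.of (YE k F p s a.1)).submatrix id b.1.1) *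
      Matrix.of (YE k F p s a.1)) r i := h3.symm
  rw [h4, Matrix.mul_apply]
  refine sum_mem fun c _ => mul_mem ?_ (YE_mem p a a _ _)
  rw [Matrix.adjugate_fin_two]
  fin_cases r <;> fin_cases c <;>
    simp only [Matrix.of_apply, Matrix.cons_val', Fin.mk_one, Fin.zero_eta, Matrix.cons_val_zero,
      Matrix.cons_val_one, Matrix.cons_val_fin_one, Matrix.submatrix_apply, id]
  · exact YE_mem p a a _ _
  · exact neg_mem (YE_mem p a a _ _)
  · exact neg_mem (YE_mem p a a _ _)
  · exact YE_mem p a a _ _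

/-- clearing denominators -/
lemma exists_pow_mem (hs : Transcendental F s) (a b : Ch ι) {y : EE k ι F p s}
    (hy : y ∈ PE k F p s a b) : ∃ n : ℕ, y * hE k F p s a b ^ n ∈ PE k F p s a a := by
  have hh := hE_mem (k := k) (F := F) (s := s) p a b
  rw [PE_eq_adjoin] at hy
  induction hy using Algebra.adjoin_induction with
  | mem x hx =>
    rcases hx with hx | hx
    · refine ⟨0, ?_⟩
      rw [pow_zero, mul_one, PE_eq_adjoin_self]
      exact Algebra.subset_adjoin hx
    · rcases hx with ⟨⟨r, i⟩, rfl⟩ | ⟨c, rfl⟩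
      · refine ⟨1, ?_⟩
        rw [pow_one, hE, ← mul_assoc]
        exact mul_mem (YE_cramer p a b r i) (eE_mem p a _)
      · refine ⟨1, ?_⟩
        have h1 : wE k F p s b.1 b.2 c * hE k F p s a b ^ 1 =
            dE k F p s a b * eE k F p s a (b.1.1 c) := by
          rw [← eE_J, eE_mul p hs a b (b.1.1 c), hE]; ring
        simp only [h1]
        exact mul_mem (dE_mem p a b) (eE_mem p a _)
  | algebraMap r => exact ⟨0, by rw [pow_zero, mul_one]; exact Subalgebra.algebraMap_mem _ r⟩
  | add x y hx hy ihx ihy =>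
    obtain ⟨n, hn⟩ := ihx
    obtain ⟨m, hm⟩ := ihy
    refine ⟨n + m, ?_⟩
    have : (x + y) * hE k F p s a b ^ (n + m) = (x * hE k F p s a b ^ n) * hE k F p s a b ^ m +
        (y * hE k F p s a b ^ m) * hE k F p s a b ^ n := by rw [pow_add]; ring
    rw [this]
    exact add_mem (mul_mem hn (pow_mem hh _)) (mul_mem hm (pow_mem hh _))
  | mul x y hx hy ihx ihy =>
    obtain ⟨n, hn⟩ := ihx
    obtain ⟨m, hm⟩ := ihy
    refine ⟨n + m, ?_⟩
    have : (x * y) * hE k F p s a b ^ (n + m) = (x * hE k F p s a b ^ n) *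
        (y * hE k F p s a b ^ m) := by rw [pow_add]; ring
    rw [this]
    exact mul_mem hn hm

/-- The overlap ring is a localisation of the chart ring. -/
lemma isLoc (hs : Transcendental F s) (a b : Ch ι) :
    @IsLocalization.Away _ _ (⟨hE k F p s a b, hE_mem p a b⟩ : PE k F p s a a)
      (PE k F p s a b) _
      (Subalgebra.inclusion (PE_left (k := k) (F := F) (s := s) p a b)).toRingHom.toAlgebra :=
  isLoc_aux (PE_left p a b) (hE_mem p a b) (hE_ne p hs a b) (hE_inv_mem p hs a b)
    (fun _ hy => exists_pow_mem p hs a b hy)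

/-- the universal point of a chart, over any larger ring -/
noncomputable def uc (hs : Transcendental F s) (a : Ch ι) (S : Subalgebra k (EE k ι F p s))
    (hS : PE k F p s a a ≤ S) : CPt a.1.1 a.2 S where
  Y r i := ⟨YE k F p s a.1 r i, hS (YE_mem p a a r i)⟩
  w c := ⟨wE k F p s a.1 a.2 c, hS (wE_mem p a a c)⟩
  hY := by
    intro r c
    apply Subtype.ext
    simp only [YE_self]
    split_ifs <;> rfl
  hw := Subtype.ext (wE_self p hs a.1 a.2)

lemma uc_ell (hs : Transcendental F s) (a : Ch ι) (S : Subalgebra k (EE k ι F p s))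
    (hS : PE k F p s a a ≤ S) (i : ι) :
    ((ell p (uc p hs a S hS).Y (uc p hs a S hS).w i : S) : EE k ι F p s) = eE k F p s a i := by
  unfold ell eE ell
  push_cast
  rfl

lemma uc_le (hs : Transcendental F s) (hp : p ≠ 0) (a b : Ch ι)
    (S : Subalgebra k (EE k ι F p s))
    (ha : PE k F p s a a ≤ S) (hb : PE k F p s b b ≤ S) :
    ((uc p hs a S ha).toT a.1.2 hp).W.toSubmodule ≤ ((uc p hs b S hb).toT b.1.2 hp).W.toSubmodule ∧
    ((uc p hs a S ha).toT a.1.2 hp).L.toSubmodule ≤
      ((uc p hs b S hb).toT b.1.2 hp).L.toSubmodule := by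
  constructor
  · rw [CPt.toT_W, CPt.toT_W]
    conv_lhs => unfold rowSpan
    rw [Submodule.span_le]
    rintro _ ⟨r, rfl⟩
    change (uc p hs a S ha).Y r ∈ rowSpan _
    rw [mem_rowSpan]
    refine ⟨fun c => (uc p hs a S ha).Y r (b.1.1 c), ?_⟩
    funext i
    apply Subtype.ext
    rw [Finset.sum_apply]
    push_cast
    exact (YE_mul' p a.1 b.1 r i).symm
  · rw [CPt.toT_L, CPt.toT_L]
    conv_lhs => unfold rowSpan
    rw [Submodule.span_le]
    rintro _ ⟨r, rfl⟩
    change ell p (uc p hs a S ha).Y (uc p hs a S ha).w ∈ rowSpan _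
    rw [mem_rowSpan]
    refine ⟨fun _ => ell p (uc p hs a S ha).Y (uc p hs a S ha).w (b.1.1 b.2), ?_⟩
    funext i
    apply Subtype.ext
    simp only [Finset.univ_unique, Fin.default_eq_zero, Finset.sum_singleton, Pi.smul_apply,
      smul_eq_mul]
    change ((_ : S) : EE k ι F p s) * ((_ : S) : EE k ι F p s) = _
    rw [uc_ell, uc_ell, uc_ell]
    exact (eE_mul p hs a b i).symm

/-- the universal points of two charts agree over the overlap -/
lemma uc_toT (hs : Transcendental F s) (hp : p ≠ 0) (a b : Ch ι)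
    (S : Subalgebra k (EE k ι F p s))
    (ha : PE k F p s a a ≤ S) (hb : PE k F p s b b ≤ S) :
    (uc p hs a S ha).toT a.1.2 hp = (uc p hs b S hb).toT b.1.2 hp :=
  TPt.ext' (le_antisymm (uc_le p hs hp a b S ha hb).1 (uc_le p hs hp b a S hb ha).1)
    (le_antisymm (uc_le p hs hp a b S ha hb).2 (uc_le p hs hp b a S hb ha).2)

/-- chart points over `R` are given by ring homomorphisms -/
lemma exists_hom (hs : Transcendental F s) (a : Ch ι) {R : Type*} [CommRing R] (c : k →+* R)
    (x : CPt a.1.1 a.2 R) : ∃ φ : PE k F p s a a →+* R,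
      φ.comp (algebraMap k _) = c ∧ (uc p hs a (PE k F p s a a) le_rfl).map φ = x := by
  let e : MvPolynomial (GIdx a.1.1) k ≃ₐ[k] Algebra.adjoin k (Set.range (genE k F p s a)) :=
    (genE_algIndep p hs a).aevalEquiv
  let e' : PE k F p s a a ≃ₐ[k] Algebra.adjoin k (Set.range (genE k F p s a)) :=
    Subalgebra.equivOfEq _ _ (PE_eq_adjoin_gen p hs a)
  let v : GIdx a.1.1 → R := Sum.elim (fun _ => x.w (oth a.2)) (fun v => x.Y v.1 (v.2 : ι))
  let φ : PE k F p s a a →+* R :=
    (MvPolynomial.eval₂Hom c v).comp ((e'.trans e.symm).toAlgHom.toRingHom)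
  have hgen : ∀ g (hg : genE k F p s a g ∈ PE k F p s a a), φ ⟨genE k F p s a g, hg⟩ = v g := by
    intro g hg
    have h1 : e (X g) = e' ⟨genE k F p s a g, hg⟩ := by
      apply Subtype.ext
      change ((e (X g) : Algebra.adjoin k (Set.range (genE k F p s a))) : EE k ι F p s) =
        genE k F p s a g
      have := AlgebraicIndependent.algebraMap_aevalEquiv (genE_algIndep (k := k) p hs a) (X g)
      rw [MvPolynomial.aeval_X] at this
      exact this
    change MvPolynomial.eval₂Hom c v (e.symm (e' ⟨genE k F p s a g, hg⟩)) = v g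
    rw [← h1, AlgEquiv.symm_apply_apply]
    simp
  have hφ : φ.comp (algebraMap k _) = c := by
    ext y
    change MvPolynomial.eval₂Hom c v ((e'.trans e.symm) (algebraMap k _ y)) = c y
    rw [AlgEquiv.commutes, MvPolynomial.algebraMap_eq]
    simp
  refine ⟨φ, hφ, CPt.ext' ?_ ?_⟩
  · funext r i
    change φ ⟨YE k F p s a.1 r i, _⟩ = x.Y r i
    by_cases hi : i ∈ Set.range a.1.1
    · obtain ⟨c, rfl⟩ := hi
      rw [x.hY r c]
      simp only [YE_self]
      split_ifs with h
      · exact map_one φ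
      · exact map_zero φ
    · exact hgen (Sum.inr (r, ⟨i, hi⟩)) (YE_mem p a a r i)
  · funext c
    change φ ⟨wE k F p s a.1 a.2 c, _⟩ = x.w c
    by_cases hc : c = a.2
    · subst hc
      rw [x.hw]
      simp only [wE_self p hs]
      exact map_one φ
    · have := eq_oth hc
      subst this
      exact hgen (Sum.inl ()) (wE_mem p a a _)

lemma hom_ext_uc (hs : Transcendental F s) (a : Ch ι) {R : Type*} [CommRing R]
    (φ ψ : PE k F p s a a →+* R) (h0 : φ.comp (algebraMap k _) = ψ.comp (algebraMap k _))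
    (h : (uc p hs a (PE k F p s a a) le_rfl).map φ = (uc p hs a (PE k F p s a a) le_rfl).map ψ) :
    φ = ψ := by
  have hY : ∀ r i, φ ⟨YE k F p s a.1 r i, YE_mem p a a r i⟩ =
      ψ ⟨YE k F p s a.1 r i, YE_mem p a a r i⟩ := fun r i =>
    congrFun (congrFun (congrArg CPt.Y h) r) i
  have hw : ∀ c, φ ⟨wE k F p s a.1 a.2 c, wE_mem p a a c⟩ =
      ψ ⟨wE k F p s a.1 a.2 c, wE_mem p a a c⟩ := fun c =>
    congrFun (congrArg CPt.w h) c
  have key : ∀ y (hy : y ∈ Algebra.adjoin k (gensE k F p s a)) (hy' : y ∈ PE k F p s a a),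
      φ ⟨y, hy'⟩ = ψ ⟨y, hy'⟩ := by
    intro y hy
    refine Algebra.adjoin_induction (p := fun y _ => ∀ hy' : y ∈ PE k F p s a a,
      φ ⟨y, hy'⟩ = ψ ⟨y, hy'⟩) ?_ ?_ ?_ ?_ hy
    · rintro _ (⟨v, rfl⟩ | ⟨c, rfl⟩) hy'
      · exact hY v.1 v.2
      · exact hw c
    · intro r hy'
      exact congrArg (fun g => g r) h0
    · intro x y hx hy ihx ihy hy'
      have hx' : x ∈ PE k F p s a a := by rw [PE_eq_adjoin_self]; exact hx
      have hy'' : y ∈ PE k F p s a a := by rw [PE_eq_adjoin_self]; exact hy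
      have e : (⟨x + y, hy'⟩ : PE k F p s a a) = ⟨x, hx'⟩ + ⟨y, hy''⟩ := rfl
      rw [e, map_add, map_add, ihx, ihy]
    · intro x y hx hy ihx ihy hy'
      have hx' : x ∈ PE k F p s a a := by rw [PE_eq_adjoin_self]; exact hx
      have hy'' : y ∈ PE k F p s a a := by rw [PE_eq_adjoin_self]; exact hy
      have e : (⟨x * y, hy'⟩ : PE k F p s a a) = ⟨x, hx'⟩ * ⟨y, hy''⟩ := rfl
      rw [e, map_mul, map_mul, ihx, ihy]
  ext ⟨y, hy⟩
  exact key y (by rw [← PE_eq_adjoin_self]; exact hy) hy

end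

end Pool.Agent.Totaro

end
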