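import Mathlib

/-!
# Totaro's variety and its deformation functor: definitions

* `TPt p ι R` : pairs `(W, L)` with `W ⊆ R^ι` a direct summand of rank `2` and
  `L ⊆ R^ι` a direct summand of rank `1` contained in the Frobenius pull-back `F^*W ⊆ R^ι`;
* `TotaroVariety p k s` : the `k`-scheme `s : X ⟶ Spec k` represents `R ↦ TPt p (Fin (p+2)) R`,
  that is, `X` is the projective bundle `P(F^*S)` over `Gr(2, p+2)`;
* `Defo s res` : deformations of `X` over a ring `A` with residue map `res : A → k`;
* `ArtW p k` : the category of local Artinian `W(k)`-algebras with residue field `k`;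
* `defFunctor p s` : the deformation functor on `ArtW p k`;
* `spfFunctor p k` : the functor `Spf k = Hom_{W(k)}(k, -)` on `ArtW p k`.
-/

set_option linter.unusedSectionVars false
set_option backward.isDefEq.respectTransparency false
set_option backward.isDefEq.respectTransparency.types false

open AlgebraicGeometry CategoryTheory Limits

universe u v

namespace Pool.Agent.Totaro

section points

variable {R R' : Type*} [CommRing R] [CommRing R'] {ι : Type*} [Fintype ι]

/-- The submodule of `R^ι` spanned by the entrywise `p`-th powers of the elements of `W`. For a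
direct summand `W` of `R^ι` and a ring `R` of characteristic `p` it is the Frobenius pull-back
`F^*W ⊆ F^*(R^ι) = R^ι`. -/
def frobSpan (p : ℕ) (W : Submodule R (ι → R)) : Submodule R (ι → R) :=
  Submodule.span R ((fun v i => v i ^ p) '' (W : Set (ι → R)))

/-- The `R`-valued points of `P(F^*S)` over `Gr(2, ι)`: a submodule `W ⊆ R^ι` whose quotient is
finite projective of constant rank `|ι| - 2`, and a submodule `L ⊆ F^*W` for which `R^ι / L` is
finite projective of constant rank `|ι| - 1`. -/
structure TPt (p : ℕ) (ι : Type*) [Fintype ι] (R : Type*) [CommRing R] where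
  /-- the plane -/
  W : Module.Grassmannian R (ι → R) (Fintype.card ι - 2)
  /-- the line -/
  L : Module.Grassmannian R (ι → R) (Fintype.card ι - 1)
  le : L.toSubmodule ≤ frobSpan p W.toSubmodule

/-- Base change of a submodule of `R^ι` along `φ : R → R'`: the submodule of `R'^ι` spanned by the
image. (For a direct summand `W` this is `W ⊗ R'`.) -/
def bc (φ : R →+* R') (W : Submodule R (ι → R)) : Submodule R' (ι → R') :=
  Submodule.span R' ((fun v i => φ (v i)) '' (W : Set (ι → R)))

/-- The point `t'` over `R'` is the base change of the point `t` over `R`. -/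
def TPt.IsMap {p : ℕ} (φ : R →+* R') (t : TPt p ι R) (t' : TPt p ι R') : Prop :=
  t'.W.toSubmodule = bc φ t.W.toSubmodule ∧ t'.L.toSubmodule = bc φ t.L.toSubmodule

end points

/-- **Totaro's variety**, by its functor of points: to every morphism `x : Spec R ⟶ X` is attached
a pair `pt x = (W, L)` in `TPt p (Fin (p + 2)) R`, compatibly with base change (`nat`), such that for
every `k`-algebra `R` (with structure homomorphism `c : k → R`) this is a bijection from the
`k`-morphisms `Spec R ⟶ X` onto the pairs (`bij`). In other words the `k`-scheme `s : X ⟶ Spec k`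
represents the functor `R ↦ TPt p (Fin (p + 2)) R`: it is `P(F^*S)` over `Gr(2, p + 2)`. -/
structure TotaroVariety (p : ℕ) {k : Type u} [Field k] {X : Scheme.{u}}
    (s : X ⟶ Spec (.of k)) where
  /-- the pair attached to a morphism -/
  pt : ∀ {R : CommRingCat.{u}}, (Spec R ⟶ X) → TPt p (Fin (p + 2)) R
  bij : ∀ {R : CommRingCat.{u}} (c : CommRingCat.of k ⟶ R) (t : TPt p (Fin (p + 2)) R),
    ∃! x : Spec R ⟶ X, x ≫ s = Spec.map c ∧ pt x = t
  nat : ∀ {R R' : CommRingCat.{u}} (φ : R ⟶ R') (x : Spec R ⟶ X),
    TPt.IsMap φ.hom (pt x) (pt (Spec.map φ ≫ x))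

/-- A deformation of the `k`-scheme `s : X ⟶ Spec k` over a ring `A` with residue map
`res : A → k`: a flat `A`-scheme `𝒳` with a cartesian square identifying `X` with the base change
of `𝒳` along `res`. -/
structure Defo {k : Type u} [Field k] {X : Scheme.{u}} (s : X ⟶ Spec (.of k)) {A : Type u}
    [CommRing A] (res : A →+* k) where
  /-- the total space -/
  𝒳 : Scheme.{u}
  /-- the structure morphism -/
  f : 𝒳 ⟶ Spec (.of A)
  /-- the inclusion of the closed fibre -/
  i : X ⟶ 𝒳
  flat : Flat f
  cart : IsPullback i s f (Spec.map (CommRingCat.ofHom res))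

/-- Isomorphism of deformations: an isomorphism of `A`-schemes compatible with the
identifications of the closed fibres with `X`. -/
def Defo.Iso {k : Type u} [Field k] {X : Scheme.{u}} {s : X ⟶ Spec (.of k)} {A : Type u}
    [CommRing A] {res : A →+* k} (D D' : Defo s res) : Prop :=
  ∃ α : D.𝒳 ≅ D'.𝒳, α.hom ≫ D'.f = D.f ∧ D.i ≫ α.hom = D'.i

section defo

variable {k : Type u} [Field k] {X : Scheme.{u}} {s : X ⟶ Spec (.of k)} {A B C : Type u}
  [CommRing A] [CommRing B] [CommRing C] {res : A →+* k} {res' : B →+* k} {res'' : C →+* k}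

lemma Defo.Iso.rfl' (D : Defo s res) : D.Iso D := ⟨CategoryTheory.Iso.refl _, by simp, by simp⟩

lemma Defo.Iso.symm' {D D' : Defo s res} (h : D.Iso D') : D'.Iso D := by
  obtain ⟨α, h1, h2⟩ := h
  exact ⟨α.symm, by rw [← h1]; simp, by rw [← h2]; simp⟩

lemma Defo.Iso.trans' {D D' D'' : Defo s res} (h : D.Iso D') (h' : D'.Iso D'') : D.Iso D'' := by
  obtain ⟨α, h1, h2⟩ := h
  obtain ⟨β, h3, h4⟩ := h'
  exact ⟨α ≪≫ β, by simp [h1, h3], by rw [Iso.trans_hom, ← Category.assoc, h2, h4]⟩

/-- deformations up to isomorphism -/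
instance defoSetoid (s : X ⟶ Spec (.of k)) (res : A →+* k) : Setoid (Defo s res) where
  r := Defo.Iso
  iseqv := ⟨Defo.Iso.rfl', Defo.Iso.symm', Defo.Iso.trans'⟩

/-- Base change of a deformation along a homomorphism compatible with the residue maps. -/
noncomputable def Defo.baseChange (D : Defo s res) (φ : A →+* B) (h : ∀ a, res' (φ a) = res a) :
    Defo s res' where
  𝒳 := pullback D.f (Spec.map (CommRingCat.ofHom φ))
  f := pullback.snd _ _
  i := pullback.lift D.i (s ≫ Spec.map (CommRingCat.ofHom res')) (by
    rw [D.cart.w, Category.assoc, ← Spec.map_comp]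
    congr 2
    ext a
    exact (h a).symm)
  flat := by
    have := D.flat
    infer_instance
  cart := by
    have h1 := IsPullback.of_hasPullback D.f (Spec.map (CommRingCat.ofHom φ))
    refine IsPullback.of_right (h₁₂ := pullback.fst _ _) (h₂₂ := Spec.map (CommRingCat.ofHom φ))
      (v₁₃ := D.f) ?_ ?_ h1
    · rw [pullback.lift_fst, ← Spec.map_comp]
      have : CommRingCat.ofHom φ ≫ CommRingCat.ofHom res' = CommRingCat.ofHom res := by
        ext a
        exact h a
      rw [this]
      exact D.cart
    · rw [pullback.lift_snd]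

lemma Defo.iso_of_isPullback (D : Defo s res) (φ : A →+* B) {E E' : Defo s res'}
    (g : E.𝒳 ⟶ D.𝒳) (g' : E'.𝒳 ⟶ D.𝒳) (h : IsPullback g E.f D.f (Spec.map (CommRingCat.ofHom φ)))
    (h' : IsPullback g' E'.f D.f (Spec.map (CommRingCat.ofHom φ))) (hi : E.i ≫ g = D.i)
    (hi' : E'.i ≫ g' = D.i) : E.Iso E' := by
  refine ⟨h.isoIsPullback _ _ h', ?_, ?_⟩
  · exact h.isoIsPullback_hom_snd _ _ h'
  · apply h'.hom_ext
    · rw [Category.assoc, h.isoIsPullback_hom_fst _ _ h', hi, hi']
    · rw [Category.assoc, h.isoIsPullback_hom_snd _ _ h', E.cart.w, E'.cart.w]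

lemma Defo.baseChange_isPullback (D : Defo s res) (φ : A →+* B) (h : ∀ a, res' (φ a) = res a) :
    IsPullback (pullback.fst D.f (Spec.map (CommRingCat.ofHom φ)))
      (D.baseChange (res' := res') φ h).f D.f (Spec.map (CommRingCat.ofHom φ)) :=
  IsPullback.of_hasPullback D.f (Spec.map (CommRingCat.ofHom φ))

lemma Defo.baseChange_i (D : Defo s res) (φ : A →+* B) (h : ∀ a, res' (φ a) = res a) :
    (D.baseChange (res' := res') φ h).i ≫ pullback.fst D.f (Spec.map (CommRingCat.ofHom φ)) =
      D.i := pullback.lift_fst _ _ _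

lemma Defo.baseChange_congr {D D' : Defo s res} (e : D.Iso D') (φ : A →+* B)
    (h : ∀ a, res' (φ a) = res a) :
    (D.baseChange (res' := res') φ h).Iso (D'.baseChange φ h) := by
  obtain ⟨α, h1, h2⟩ := e
  refine Defo.iso_of_isPullback D' φ (pullback.fst _ _ ≫ α.hom) (pullback.fst _ _) ?_
    (D'.baseChange_isPullback φ h) ?_ (D'.baseChange_i φ h)
  · have h3 := D.baseChange_isPullback (res' := res') φ h
    have h4 : IsPullback α.hom D.f D'.f (𝟙 _) :=
      IsPullback.of_horiz_isIso ⟨by rw [h1, Category.comp_id]⟩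
    have h5 := h3.paste_horiz h4
    rwa [Category.comp_id] at h5
  · rw [← Category.assoc, D.baseChange_i φ h, h2]

lemma Defo.baseChange_id (D : Defo s res) (h : ∀ a, res (RingHom.id A a) = res a) :
    (D.baseChange (res' := res) (RingHom.id A) h).Iso D := by
  refine Defo.iso_of_isPullback D (RingHom.id A) (pullback.fst _ _) (𝟙 _)
    (D.baseChange_isPullback _ h) ?_ (D.baseChange_i _ h) (Category.comp_id _)
  have h0 : Spec.map (CommRingCat.ofHom (RingHom.id A)) = 𝟙 _ := Spec.map_id _
  rw [h0]
  exact IsPullback.of_horiz_isIso ⟨by rw [Category.id_comp, Category.comp_id]⟩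

lemma Defo.baseChange_comp (D : Defo s res) (φ : A →+* B) (ψ : B →+* C)
    (h : ∀ a, res' (φ a) = res a) (h' : ∀ b, res'' (ψ b) = res' b)
    (h'' : ∀ a, res'' (ψ.comp φ a) = res a) :
    (D.baseChange (res' := res'') (ψ.comp φ) h'').Iso
      ((D.baseChange (res' := res') φ h).baseChange ψ h') := by
  refine Defo.iso_of_isPullback D (ψ.comp φ) (pullback.fst _ _)
    (pullback.fst _ _ ≫ pullback.fst D.f (Spec.map (CommRingCat.ofHom φ)))
    (D.baseChange_isPullback _ h'') ?_ (D.baseChange_i _ h'') ?_
  · have h1 := D.baseChange_isPullback (res' := res') φ h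
    have h2 := (D.baseChange (res' := res') φ h).baseChange_isPullback (res' := res'') ψ h'
    have h3 := h2.paste_horiz h1
    rwa [← Spec.map_comp] at h3
  · rw [← Category.assoc, (D.baseChange (res' := res') φ h).baseChange_i ψ h',
      D.baseChange_i φ h]

/-- Isomorphism classes of deformations of `X` over `A`. -/
def DefoClass (s : X ⟶ Spec (.of k)) {A : Type u} [CommRing A] (res : A →+* k) : Type (u + 1) :=
  Quotient (defoSetoid s res)

/-- Base change of isomorphism classes of deformations. -/
noncomputable def DefoClass.map (φ : A →+* B) (h : ∀ a, res' (φ a) = res a) :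
    DefoClass s res → DefoClass s res' :=
  Quotient.map' (fun D => D.baseChange φ h) (fun _ _ e => Defo.baseChange_congr e φ h)

lemma DefoClass.map_id (h : ∀ a, res (RingHom.id A a) = res a) (D : DefoClass s res) :
    DefoClass.map (res' := res) (RingHom.id A) h D = D := by
  induction D using Quotient.inductionOn with
  | h D => exact Quotient.sound (D.baseChange_id h)

lemma DefoClass.map_comp (φ : A →+* B) (ψ : B →+* C)
    (h : ∀ a, res' (φ a) = res a) (h' : ∀ b, res'' (ψ b) = res' b)
    (h'' : ∀ a, res'' (ψ.comp φ a) = res a) (D : DefoClass s res) :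
    DefoClass.map (ψ.comp φ) h'' D = DefoClass.map ψ h' (DefoClass.map φ h D) := by
  induction D using Quotient.inductionOn with
  | h D => exact Quotient.sound (D.baseChange_comp φ ψ h h' h'')

end defo

/-- The objects of `Art_{W(k)}`: local Artinian `W(k)`-algebras `A` with residue field `k`, the
residue map `res : A → k` being a homomorphism of `W(k)`-algebras, where `k` is a `W(k)`-algebra
via reduction. -/
structure ArtW (p : ℕ) [Fact p.Prime] (k : Type u) [Field k] where
  /-- the underlying ring -/
  A : Type u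
  [commRing : CommRing A]
  [isLocalRing : IsLocalRing A]
  [isArtinianRing : IsArtinianRing A]
  [algebra : Algebra (WittVector p k) A]
  /-- the residue map -/
  res : A →+* k
  res_alg : ∀ x : WittVector p k, res (algebraMap (WittVector p k) A x) = x.coeff 0

attribute [instance] ArtW.commRing ArtW.isLocalRing ArtW.isArtinianRing ArtW.algebra

/-- Morphisms of `Art_{W(k)}`: the homomorphisms of `W(k)`-algebras. They are automatically local
and compatible with the residue maps (`ArtW.res_ring`). -/
def ArtW.Hom {p : ℕ} [Fact p.Prime] {k : Type u} [Field k] (A B : ArtW p k) : Type u :=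
  A.A →ₐ[WittVector p k] B.A

/-- The underlying ring homomorphism of a morphism of `Art_{W(k)}`. -/
def ArtW.Hom.ring {p : ℕ} [Fact p.Prime] {k : Type u} [Field k] {A B : ArtW p k}
    (φ : ArtW.Hom A B) : A.A →+* B.A :=
  AlgHom.toRingHom φ

/-- The category `Art_{W(k)}`. -/
noncomputable instance (p : ℕ) [Fact p.Prime] (k : Type u) [Field k] : Category (ArtW p k) where
  Hom := ArtW.Hom
  id A := AlgHom.id (WittVector p k) A.A
  comp {A B C} f g := AlgHom.comp (A := A.A) (B := B.A) (C := C.A) g f

section functors

variable {p : ℕ} [Fact p.Prime] {k : Type u} [Field k]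

lemma ArtW.res_surj (A : ArtW p k) : Function.Surjective A.res := fun c =>
  ⟨algebraMap _ _ (WittVector.teichmuller p c), by
    rw [A.res_alg, WittVector.teichmuller_coeff_zero]⟩

lemma ArtW.nilp (A : ArtW p k) (a : A.A) (h : A.res a = 0) : IsNilpotent a := by
  have h1 : RingHom.ker A.res = IsLocalRing.maximalIdeal A.A :=
    IsLocalRing.eq_maximalIdeal (RingHom.ker_isMaximal_of_surjective A.res A.res_surj)
  have h2 : a ∈ IsLocalRing.maximalIdeal A.A := by rw [← h1]; exact h
  have h3 := IsArtinianRing.isNilpotent_jacobson_bot (R := A.A)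
  rw [IsLocalRing.jacobson_eq_maximalIdeal _ bot_ne_top] at h3
  obtain ⟨n, hn⟩ := h3
  refine ⟨n, ?_⟩
  have := Ideal.pow_mem_pow h2 n
  rwa [hn] at this

/-- morphisms are compatible with the residue maps -/
lemma ArtW.res_ring {A B : ArtW p k} (φ : ArtW.Hom A B) (a : A.A) :
    B.res (φ.ring a) = A.res a := by
  have h1 : A.res (a - algebraMap (WittVector p k) A.A (WittVector.teichmuller p (A.res a))) =
      0 := by
    rw [map_sub, A.res_alg, WittVector.teichmuller_coeff_zero, sub_self]
  have h2 := (A.nilp _ h1).map (B.res.comp φ.ring)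
  rw [isNilpotent_iff_eq_zero] at h2
  have h3 : φ.ring (algebraMap (WittVector p k) A.A (WittVector.teichmuller p (A.res a))) =
      algebraMap (WittVector p k) B.A (WittVector.teichmuller p (A.res a)) :=
    AlgHom.commutes (A := A.A) (B := B.A) φ _
  rw [RingHom.comp_apply, map_sub, map_sub, h3, B.res_alg, WittVector.teichmuller_coeff_zero,
    sub_eq_zero] at h2
  exact h2

/-- **The deformation functor** `Def_{X/W(k)} : Art_{W(k)} ⥤ Sets`: isomorphism classes of
deformations, with base change. -/
noncomputable def defFunctor {X : Scheme.{u}} (p : ℕ) [Fact p.Prime] (s : X ⟶ Spec (.of k)) :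
    ArtW p k ⥤ Type (u + 1) where
  obj A := DefoClass s A.res
  map {A B} φ := ↾(DefoClass.map (ArtW.Hom.ring φ) (ArtW.res_ring φ))
  map_id A := by
    ext D
    exact DefoClass.map_id _ D
  map_comp {A B C} φ ψ := by
    ext D
    exact DefoClass.map_comp (ArtW.Hom.ring φ) (ArtW.Hom.ring ψ) _ _ _ D

/-- The points of `Spf k` with values in `A`: the homomorphisms of `W(k)`-algebras `j : k → A`,
where `k` is a `W(k)`-algebra via reduction. -/
@[ext]
structure SpfPt (A : ArtW p k) : Type u where
  /-- the homomorphism -/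
  j : k →+* A.A
  comm : ∀ x : WittVector p k, j (x.coeff 0) = algebraMap (WittVector p k) A.A x

/-- Composition of a point of `Spf k` with a morphism of `Art_{W(k)}`. -/
def SpfPt.map {A B : ArtW p k} (φ : ArtW.Hom A B) (j : SpfPt A) : SpfPt B where
  j := (φ.ring).comp j.j
  comm x := by
    rw [RingHom.comp_apply, j.comm]
    exact AlgHom.commutes (A := A.A) (B := B.A) φ x

/-- **The formal spectrum of `k`** as a functor on `Art_{W(k)}`: `A ↦ Hom_{W(k)}(k, A)`. -/
def spfFunctor (p : ℕ) [Fact p.Prime] (k : Type u) [Field k] : ArtW p k ⥤ Type u where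
  obj A := SpfPt A
  map {A B} φ := ↾(SpfPt.map φ)

end functors

end Pool.Agent.Totaro
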