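import Pool.Agent.TotaroVar.A10AG
import Pool.Agent.TotaroVar.A09NoLift
import Pool.Agent.TotaroVar.Defs
import Pool.Agent.TotaroVar.A11Pts

/-! ## AG8 -/

section

set_option linter.unusedSectionVars false
set_option backward.isDefEq.respectTransparency false
set_option backward.isDefEq.respectTransparency.types false

open AlgebraicGeometry CategoryTheory Limits TopologicalSpace Opposite

universe u

namespace Pool.Agent.Totaro

variable {k : Type u} [Field k] {X : Scheme.{u}} {s : X ⟶ Spec (.of k)} {A : Type u} [CommRing A]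
  {res : A →+* k}

/-- The trivial deformation attached to a section `j : k → A` of the residue map. -/
noncomputable def trivDefo (s : X ⟶ Spec (.of k)) (res : A →+* k) (j : k →+* A)
    (hj : ∀ c, res (j c) = c) : Defo s res where
  𝒳 := pullback s (Spec.map (CommRingCat.ofHom j))
  f := pullback.snd _ _
  i := pullback.lift (𝟙 X) (s ≫ Spec.map (CommRingCat.ofHom res)) (by
    rw [Category.id_comp, Category.assoc, ← Spec.map_comp]
    have : CommRingCat.ofHom j ≫ CommRingCat.ofHom res = 𝟙 _ := by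
      ext c; exact hj c
    rw [this, Spec.map_id, Category.comp_id])
  flat := inferInstance
  cart := by
    have this : CommRingCat.ofHom j ≫ CommRingCat.ofHom res = 𝟙 _ := by
      ext c; exact hj c
    have h1 := IsPullback.of_hasPullback s (Spec.map (CommRingCat.ofHom j))
    refine IsPullback.of_right (h₁₂ := pullback.fst _ _) (h₂₂ := Spec.map (CommRingCat.ofHom j))
      (v₁₃ := s) ?_ ?_ h1
    · rw [pullback.lift_fst, ← Spec.map_comp, this, Spec.map_id]
      exact IsPullback.of_horiz_isIso ⟨by rw [Category.id_comp, Category.comp_id]⟩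
    · rw [pullback.lift_snd]

section triv

variable [IsLocalRing A] [IsArtinianRing A] (hres : Function.Surjective res)

include hres in
/-- A retraction onto `X` identifies a deformation with a trivial one. -/
lemma Defo.iso_triv (D : Defo s res) (j : k →+* A) (hj : ∀ c, res (j c) = c) (r : D.𝒳 ⟶ X)
    (hr : D.i ≫ r = 𝟙 X) (hr' : r ≫ s = D.f ≫ Spec.map (CommRingCat.ofHom j)) :
    D.Iso (trivDefo s res j hj) := by
  have := D.flat
  let g : D.𝒳 ⟶ (trivDefo s res j hj).𝒳 := pullback.lift r D.f hr'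
  have h1 : g ≫ (trivDefo s res j hj).f = D.f := pullback.lift_snd _ _ _
  have h2 : D.i ≫ g = (trivDefo s res j hj).i := by
    apply pullback.hom_ext
    · rw [Category.assoc]
      change D.i ≫ pullback.lift r D.f hr' ≫ pullback.fst _ _ =
        pullback.lift (𝟙 X) (s ≫ Spec.map (CommRingCat.ofHom res)) _ ≫ pullback.fst _ _
      rw [pullback.lift_fst, pullback.lift_fst, hr]
    · rw [Category.assoc]
      change D.i ≫ pullback.lift r D.f hr' ≫ pullback.snd _ _ =
        pullback.lift (𝟙 X) (s ≫ Spec.map (CommRingCat.ofHom res)) _ ≫ pullback.snd _ _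
      rw [pullback.lift_snd, pullback.lift_snd, D.cart.w]
  have h3 : IsIso g := defo_iso res hres D.cart (trivDefo s res j hj).cart g h1 h2
  exact ⟨asIso g, h1, h2⟩

end triv

section main

open MvPolynomial

variable {ι : Type*} [Fintype ι] [DecidableEq ι] [Infinite k]
  {F : Type u} [Field F] [Algebra k F]
  [Algebra (SS k ι) F] [IsScalarTower k (SS k ι) F]
  [IsFractionRing (SS k ι) F]
  (p : ℕ) [Fact p.Prime] [CharP k p] [PerfectRing k p]
  {L : Type u} [Field L] [Algebra F L] [Algebra k L] [IsScalarTower k F L] {t : L}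
  {ht : Transcendental F t} {cf : Cfg ι} {hk2 : (2 : k) ≠ 0} {hk3 : (3 : k) ≠ 0}
  (𝒟 : XAtl (atlX p ht cf hk2 hk3) X s)
  [IsLocalRing A] [IsArtinianRing A]

include 𝒟 in
/-- All deformations of a scheme with Totaro's atlas are trivial, and exist only over
`k`-algebras. -/
theorem Defo.classify (D : Defo s res) (w : WittVector p k →+* A)
    (hw : ∀ x, res (w x) = x.coeff 0) :
    ∃ (j : k →+* A) (hj : ∀ c, res (j c) = c), (∀ x, j (x.coeff 0) = w x) ∧
      D.Iso (trivDefo s res j hj) := by
  have hp : p.Prime := Fact.out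
  have hpk : (p : k) = 0 := CharP.cast_eq_zero k p
  have hres : Function.Surjective res := fun c =>
    ⟨w (WittVector.teichmuller p c), by rw [hw, WittVector.teichmuller_coeff_zero]⟩
  have := D.flat
  have := closed_i res hres D.cart
  have := surj_i res D.cart
  let a₀ : Ch ι := (cf.K1, 0)
  obtain ⟨j, Θ, h1, h2, h3, h4⟩ :=
    trivial_def p (dSys 𝒟 res hres D.f D.i a₀ p hp hpk D.cart) w hw
  have hj : ∀ c, res (j c) = c := by
    intro c
    have h5 := h1 (WittVector.teichmuller p c)
    rw [WittVector.teichmuller_coeff_zero] at h5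
    rw [h5, hw, WittVector.teichmuller_coeff_zero]
  obtain ⟨r, hr, hr'⟩ := exists_retraction 𝒟 res hres D.f D.i a₀ p hp hpk D.cart Θ h2 h4 j h3
  exact ⟨j, hj, h1, D.iso_triv hres j hj r hr hr'⟩

end main

end Pool.Agent.Totaro

end

/-! ## AG9 -/

section

set_option linter.unusedSectionVars false
set_option backward.isDefEq.respectTransparency false
set_option backward.isDefEq.respectTransparency.types false

open AlgebraicGeometry CategoryTheory Limits TopologicalSpace Opposite

universe u v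

namespace Pool.Agent.Totaro

/-- Representing `R ↦ TPt p ι R` on `k`-algebras, in terms of all morphisms `Spec R ⟶ X`. -/
structure RM (p : ℕ) (ι : Type v) [Fintype ι] {k : Type u} [Field k] {X : Scheme.{u}}
    (s : X ⟶ Spec (.of k)) where
  /-- the point attached to a morphism -/
  pt : ∀ {R : CommRingCat.{u}} (_ : Spec R ⟶ X), TPt p ι R
  inj : ∀ {R : CommRingCat.{u}} (x x' : Spec R ⟶ X), x ≫ s = x' ≫ s → pt x = pt x' → x = x'
  surj : ∀ {R : CommRingCat.{u}} (c : CommRingCat.of k ⟶ R) (t : TPt p ι R),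
    ∃ x : Spec R ⟶ X, x ≫ s = Spec.map c ∧ pt x = t
  nat : ∀ {R R' : CommRingCat.{u}} (φ : R ⟶ R') (x : Spec R ⟶ X),
    TPt.IsMap φ.hom (pt x) (pt (Spec.map φ ≫ x))

section sub

variable {k E : Type u} [Field k] [Field E] [Algebra k E] {A B : Subalgebra k E} (hAB : A ≤ B)
  {h : E} (hA : h ∈ A)
  (hloc : @IsLocalization.Away _ _ (⟨h, hA⟩ : A) B _
    (Subalgebra.inclusion hAB).toRingHom.toAlgebra)

include hloc in
lemma opn_sub :
    IsOpenImmersion (Spec.map (CommRingCat.ofHom (Subalgebra.inclusion hAB).toRingHom)) := by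
  let _ := (Subalgebra.inclusion hAB).toRingHom.toAlgebra
  have := hloc
  exact IsOpenImmersion.of_isLocalization (⟨h, hA⟩ : A)

include hloc in
lemma range_sub0 :
    Set.range (Spec.map (CommRingCat.ofHom (Subalgebra.inclusion hAB).toRingHom)) =
      (PrimeSpectrum.basicOpen (⟨h, hA⟩ : A) : Set (PrimeSpectrum A)) := by
  let _ := (Subalgebra.inclusion hAB).toRingHom.toAlgebra
  have := hloc
  exact PrimeSpectrum.localization_away_comap_range B (⟨h, hA⟩ : A)

end sub

section

open MvPolynomial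

variable {k : Type u} [Field k] {ι : Type v} [Fintype ι]
  {F : Type u} [Field F] [Algebra k F]
  [Algebra (SS k ι) F] [IsScalarTower k (SS k ι) F]
  [IsFractionRing (SS k ι) F]
  {p : ℕ} [Fact p.Prime] [CharP k p]
  {L : Type u} [Field L] [Algebra F L] [Algebra k L] [IsScalarTower k F L] {t : L}
  (ht : Transcendental F t)
  {X : Scheme.{u}} {s : X ⟶ Spec (.of k)} (M : RM p ι s)

/-- coordinate ring of a chart -/
noncomputable abbrev PR (k : Type u) [Field k] {ι : Type v} (F : Type u) [Field F]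
    [Algebra (SS k ι) F] (p : ℕ) {L : Type u} [Field L] [Algebra F L] [Algebra k L] (t : L)
    (a : Ch ι) : CommRingCat.{u} := .of (PE k F p t a a)

omit [CharP k p] in
lemma p_ne : p ≠ 0 := Nat.Prime.ne_zero Fact.out

namespace RM

/-- the chart morphisms -/
noncomputable def cp (a : Ch ι) : Spec (PR k F p t a) ⟶ X :=
  (M.surj (CommRingCat.ofHom (algebraMap k (PE k F p t a a)))
    ((uc p ht a (PE k F p t a a) le_rfl).toT a.1.2 p_ne)).choose

lemma cp_over (a : Ch ι) : M.cp ht a ≫ s =
    Spec.map (CommRingCat.ofHom (algebraMap k (PE k F p t a a))) :=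
  (M.surj (CommRingCat.ofHom (algebraMap k (PE k F p t a a)))
    ((uc p ht a (PE k F p t a a) le_rfl).toT a.1.2 p_ne)).choose_spec.1

lemma cp_pt (a : Ch ι) : M.pt (M.cp ht a) =
    (uc p ht a (PE k F p t a a) le_rfl).toT a.1.2 p_ne :=
  (M.surj (CommRingCat.ofHom (algebraMap k (PE k F p t a a)))
    ((uc p ht a (PE k F p t a a) le_rfl).toT a.1.2 p_ne)).choose_spec.2

lemma pt_comp {R : CommRingCat.{u}} (a : Ch ι) (φ : PR k F p t a ⟶ R) :
    M.pt (Spec.map φ ≫ M.cp ht a) =
      ((uc p ht a (PE k F p t a a) le_rfl).map φ.hom).toT a.1.2 p_ne := by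
  refine TPt.IsMap.unique (M.nat φ (M.cp ht a)) ?_
  rw [cp_pt]
  exact CPt.isMap _ _ _ _

lemma hom_ext_affine {R : CommRingCat.{u}} (a : Ch ι) (φ ψ : PR k F p t a ⟶ R)
    (h : Spec.map φ ≫ M.cp ht a = Spec.map ψ ≫ M.cp ht a) : φ = ψ := by
  have h1 : (uc p ht a (PE k F p t a a) le_rfl).map φ.hom =
      (uc p ht a (PE k F p t a a) le_rfl).map ψ.hom := by
    apply CPt.toT_inj a.1.2 (p := p) p_ne
    rw [← M.pt_comp ht, ← M.pt_comp ht, h]
  have h2 : CommRingCat.ofHom (algebraMap k (PE k F p t a a)) ≫ φ =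
      CommRingCat.ofHom (algebraMap k (PE k F p t a a)) ≫ ψ := by
    apply Spec.map_injective
    rw [Spec.map_comp, Spec.map_comp, ← M.cp_over ht, ← Category.assoc, h, Category.assoc]
  ext1
  apply hom_ext_uc p ht a _ _ _ h1
  exact congrArg CommRingCat.Hom.hom h2

/-- the charts are monomorphisms -/
lemma mono_cp (a : Ch ι) : Mono (M.cp ht a) := by
  constructor
  intro T g h e
  refine Scheme.Cover.hom_ext T.affineCover _ _ (fun i => ?_)
  obtain ⟨φ, hφ⟩ := Spec.map_surjective (T.affineCover.f i ≫ g)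
  obtain ⟨ψ, hψ⟩ := Spec.map_surjective (T.affineCover.f i ≫ h)
  rw [← hφ, ← hψ]
  congr 1
  apply M.hom_ext_affine ht
  rw [hφ, hψ, Category.assoc, Category.assoc, e]

variable (k F p t) in
/-- inclusion of the overlap -/
noncomputable def il (a b : Ch ι) : PR k F p t a ⟶ .of (PE k F p t a b) :=
  CommRingCat.ofHom (Subalgebra.inclusion (PE_left p a b)).toRingHom

variable (k F p t) in
/-- inclusion of the overlap -/
noncomputable def ir (a b : Ch ι) : PR k F p t b ⟶ .of (PE k F p t a b) :=
  CommRingCat.ofHom (Subalgebra.inclusion (PE_right p a b)).toRingHom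

lemma alg_il (a b : Ch ι) : CommRingCat.ofHom (algebraMap k (PE k F p t a a)) ≫ il k F p t a b =
    CommRingCat.ofHom (algebraMap k (PE k F p t a b)) := by
  unfold il
  rw [← CommRingCat.ofHom_comp]
  congr 1

lemma alg_ir (a b : Ch ι) : CommRingCat.ofHom (algebraMap k (PE k F p t b b)) ≫ ir k F p t a b =
    CommRingCat.ofHom (algebraMap k (PE k F p t a b)) := by
  unfold ir
  rw [← CommRingCat.ofHom_comp]
  congr 1

lemma uc_map (a : Ch ι) (S : Subalgebra k (EE k ι F p t)) (h : PE k F p t a a ≤ S) :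
    (uc p ht a (PE k F p t a a) le_rfl).map (Subalgebra.inclusion h).toRingHom =
      uc p ht a S h := by
  refine CPt.ext' ?_ ?_
  · funext r i
    exact Subtype.ext rfl
  · funext c
    exact Subtype.ext rfl

/-- the universal point over a larger ring -/
noncomputable def tp0 (a : Ch ι) (S : Subalgebra k (EE k ι F p t)) (h : PE k F p t a a ≤ S) :
    TPt p ι S :=
  ((uc p ht a (PE k F p t a a) le_rfl).map (Subalgebra.inclusion h).toRingHom).toT a.1.2
    (p := p) p_ne

lemma tp0_eq (a : Ch ι) (S : Subalgebra k (EE k ι F p t)) (h : PE k F p t a a ≤ S) :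
    tp0 ht a S h = (uc p ht a S h).toT a.1.2 (p := p) p_ne := by
  unfold tp0
  rw [uc_map]

lemma tp0_overlap (a b : Ch ι) (S : Subalgebra k (EE k ι F p t)) (h : PE k F p t a a ≤ S)
    (h' : PE k F p t b b ≤ S) : tp0 ht a S h = tp0 ht b S h' := by
  rw [tp0_eq, tp0_eq]
  exact uc_toT p ht p_ne a b S h h'

/-- the point of a homomorphism from a chart ring -/
noncomputable def tp {R : CommRingCat.{u}} {a : Ch ι} (ψ : PR k F p t a ⟶ R) : TPt p ι R :=
  ((uc p ht a (PE k F p t a a) le_rfl).map ψ.hom).toT a.1.2 p_ne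

lemma tp_il0 (a b : Ch ι) : tp ht (il k F p t a b) = tp ht (ir k F p t a b) :=
  tp0_overlap ht a b (PE k F p t a b) (PE_left p a b) (PE_right p a b)

lemma pt_comp' {R : CommRingCat.{u}} (a : Ch ι) (φ : PR k F p t a ⟶ R) :
    M.pt (Spec.map φ ≫ M.cp ht a) = tp ht φ := M.pt_comp ht a φ

lemma cp_st {R : CommRingCat.{u}} (a : Ch ι) (φ : PR k F p t a ⟶ R) :
    (Spec.map φ ≫ M.cp ht a) ≫ s =
      Spec.map (CommRingCat.ofHom (algebraMap k (PE k F p t a a)) ≫ φ) := by
  rw [Category.assoc, M.cp_over, ← Spec.map_comp]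

lemma cp_overlap (a b : Ch ι) : Spec.map (il k F p t a b) ≫ M.cp ht a =
    Spec.map (ir k F p t a b) ≫ M.cp ht b :=
  M.inj _ _
    ((M.cp_st ht a _).trans ((congrArg Spec.map ((alg_il a b).trans (alg_ir a b).symm)).trans
      (M.cp_st ht b _).symm))
    ((M.pt_comp' ht a _).trans ((tp_il0 ht a b).trans (M.pt_comp' ht b _).symm))

lemma opn_il (ht : Transcendental F t) (a b : Ch ι) :
    IsOpenImmersion (Spec.map (il k F p t a b)) :=
  opn_sub (PE_left p a b) (hE_mem p a b) (isLoc p ht a b)

lemma range_il (ht : Transcendental F t) (a b : Ch ι) : Set.range (Spec.map (il k F p t a b)) =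
    (PrimeSpectrum.basicOpen (⟨hE k F p t a b, hE_mem p a b⟩ : PE k F p t a a) :
      Set (PrimeSpectrum (PE k F p t a a))) :=
  range_sub0 (PE_left p a b) (hE_mem p a b) (isLoc p ht a b)

lemma map_hE {R : Type u} [CommRing R] (a b : Ch ι) (φ : PE k F p t a a →+* R) :
    φ ⟨hE k F p t a b, hE_mem p a b⟩ =
      ((Matrix.of ((uc p ht a (PE k F p t a a) le_rfl).map φ).Y).submatrix id b.1.1).det *
        ell p ((uc p ht a (PE k F p t a a) le_rfl).map φ).Y
          ((uc p ht a (PE k F p t a a) le_rfl).map φ).w (b.1.1 b.2) := by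
  have h1 : (⟨hE k F p t a b, hE_mem p a b⟩ : PE k F p t a a) =
      ((Matrix.of (uc p ht a (PE k F p t a a) le_rfl).Y).submatrix id b.1.1).det *
        ell p (uc p ht a (PE k F p t a a) le_rfl).Y
          (uc p ht a (PE k F p t a a) le_rfl).w (b.1.1 b.2) := by
    apply Subtype.ext
    simp only [hE, dE, Matrix.det_fin_two]
    push_cast
    rw [uc_ell]
    rfl
  rw [h1, map_mul]
  have h2 := congrFun (map_ell (p := p) φ (uc p ht a (PE k F p t a a) le_rfl).Y
    (uc p ht a (PE k F p t a a) le_rfl).w) (b.1.1 b.2)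
  rw [h2, Matrix.det_fin_two, Matrix.det_fin_two, map_sub, map_mul, map_mul]
  rfl

lemma range_sub {T : Scheme.{u}} (a b : Ch ι) (g : T ⟶ Spec (PR k F p t a))
    (h : T ⟶ Spec (PR k F p t b)) (e : g ≫ M.cp ht a = h ≫ M.cp ht b) :
    Set.range g ⊆ Set.range (Spec.map (il k F p t a b)) := by
  rintro _ ⟨τ, rfl⟩
  rw [range_il ht]
  obtain ⟨φ, hφ⟩ := Spec.map_surjective (T.fromSpecResidueField τ ≫ g)
  obtain ⟨ψ, hψ⟩ := Spec.map_surjective (T.fromSpecResidueField τ ≫ h)
  have e2 : Spec.map φ ≫ M.cp ht a = Spec.map ψ ≫ M.cp ht b := by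
    rw [hφ, hψ, Category.assoc, Category.assoc, e]
  have e3 : ((uc p ht a (PE k F p t a a) le_rfl).map φ.hom).toT a.1.2 (p := p) p_ne =
      ((uc p ht b (PE k F p t b b) le_rfl).map ψ.hom).toT b.1.2 p_ne := by
    rw [← M.pt_comp, ← M.pt_comp, e2]
  obtain ⟨h1, h2⟩ := CPt.unit_of_eq a.1.2 b.1.2 p_ne _ _ e3
  have h3 : φ.hom ⟨hE k F p t a b, hE_mem p a b⟩ ≠ 0 := by
    rw [map_hE ht]
    exact mul_ne_zero h1.ne_zero h2.ne_zero
  obtain ⟨z⟩ : Nonempty (PrimeSpectrum (T.residueField τ)) := inferInstance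
  have h4 : g τ = Spec.map φ z := by
    rw [hφ, Scheme.Hom.comp_apply]
    congr 1
    exact (T.fromSpecResidueField_apply τ z).symm
  rw [h4]
  change φ.hom _ ∉ z.asIdeal
  intro h5
  apply z.isPrime.ne_top
  rw [Ideal.eq_top_iff_one]
  have := Ideal.mul_mem_left z.asIdeal (φ.hom ⟨hE k F p t a b, hE_mem p a b⟩)⁻¹ h5
  rwa [inv_mul_cancel₀ h3] at this

/-- the overlaps are the fibre products -/
lemma isPullback_cp (a b : Ch ι) :
    IsPullback (Spec.map (il k F p t a b)) (Spec.map (ir k F p t a b)) (M.cp ht a)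
      (M.cp ht b) := by
  have := opn_il (k := k) (F := F) (p := p) ht a b
  have := M.mono_cp ht b
  refine ⟨⟨M.cp_overlap ht a b⟩, ⟨PullbackCone.IsLimit.mk _
    (fun c => IsOpenImmersion.lift (Spec.map (il k F p t a b)) c.fst
      (M.range_sub ht a b c.fst c.snd c.condition)) ?_ ?_ ?_⟩⟩
  · intro c
    exact IsOpenImmersion.lift_fac _ _ _
  · intro c
    rw [← cancel_mono (M.cp ht b), Category.assoc, ← M.cp_overlap, ← Category.assoc,
      IsOpenImmersion.lift_fac]
    exact c.condition
  · intro c m hm1 hm2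
    rw [← cancel_mono (Spec.map (il k F p t a b)), IsOpenImmersion.lift_fac]
    exact hm1

end RM

end

end Pool.Agent.Totaro

end

/-! ## AG10 -/

section

set_option linter.unusedSectionVars false
set_option backward.isDefEq.respectTransparency false
set_option backward.isDefEq.respectTransparency.types false

open AlgebraicGeometry CategoryTheory Limits TopologicalSpace Opposite

universe u v

namespace Pool.Agent.Totaro

/-- A morphism is an open immersion as soon as it is one after base change to charts through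
which the members of an open cover factor. -/
lemma opn_of_cover {X Y : Scheme.{u}} (f : Y ⟶ X)
    (H : ∀ x : X, ∃ (Z V W : Scheme.{u}) (j : Z ⟶ X) (g : Z ⟶ V) (χ : V ⟶ X) (w1 : W ⟶ V)
      (w2 : W ⟶ Y), IsOpenImmersion j ∧ IsOpenImmersion w1 ∧ IsPullback w1 w2 χ f ∧
      x ∈ Set.range j ∧ g ≫ χ = j) : IsOpenImmersion f := by
  choose Z V W j g χ w1 w2 hj hw pb hx hg using H
  let 𝒰 : X.OpenCover :=
    { I₀ := X
      X := fun x => Z x
      f := fun x => j x
      mem₀ := by
        rw [Scheme.presieve₀_mem_precoverage_iff]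
        exact ⟨fun x => ⟨x, hx x⟩, fun x => hj x⟩ }
  refine IsZariskiLocalAtTarget.of_openCover (P := @IsOpenImmersion) (𝒰 := 𝒰) ?_
  intro x
  change IsOpenImmersion (pullback.snd f (j x))
  have h2 := IsPullback.of_hasPullback (g x) (w1 x)
  have h3 := h2.flip.paste_horiz (pb x).flip
  have h4 : IsOpenImmersion (pullback.fst (g x) (w1 x)) := inferInstance
  rw [hg x] at h3
  rw [← h3.isoPullback_inv_snd]
  infer_instance

section

open MvPolynomial

variable {k : Type u} [Field k] {ι : Type v} [Fintype ι]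
  {F : Type u} [Field F] [Algebra k F]
  [Algebra (SS k ι) F] [IsScalarTower k (SS k ι) F]
  [IsFractionRing (SS k ι) F]
  {p : ℕ} [Fact p.Prime] [CharP k p]
  {L : Type u} [Field L] [Algebra F L] [Algebra k L] [IsScalarTower k F L] {t : L}
  (ht : Transcendental F t)
  {X : Scheme.{u}} {s : X ⟶ Spec (.of k)} (M : RM p ι s)

namespace RM

lemma p_zero {R : CommRingCat.{u}} (x : Spec R ⟶ X) (s : X ⟶ Spec (.of k)) :
    (p : R) = 0 := by
  obtain ⟨c, hc⟩ := Spec.map_surjective (x ≫ s)
  rw [← map_natCast c.hom, CharP.cast_eq_zero, map_zero]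

/-- a morphism lies in a chart as soon as its point does -/
lemma exists_factor {R : CommRingCat.{u}} (x : Spec R ⟶ X) (a : Ch ι) (c : CPt a.1.1 a.2 R)
    (h : c.toT a.1.2 (p := p) p_ne = M.pt x) :
    ∃ φ : PR k F p t a ⟶ R, Spec.map φ ≫ M.cp ht a = x := by
  obtain ⟨c0, hc0⟩ := Spec.map_surjective (x ≫ s)
  obtain ⟨φ, hφ, hφ2⟩ := exists_hom (k := k) (F := F) p ht a c0.hom c
  refine ⟨CommRingCat.ofHom φ, ?_⟩
  apply M.inj
  · rw [Category.assoc, M.cp_over, ← Spec.map_comp, ← hc0]
    congr 1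
    ext1
    exact hφ
  · rw [M.pt_comp, ← h]
    congr 1

/-- the charts cover -/
lemma cover_cp (hι : 2 ≤ Fintype.card ι) (x : X) :
    ∃ a : Ch ι, x ∈ Set.range (M.cp (F := F) ht a) := by
  have h0 : (p : X.residueField x) = 0 := p_zero (X.fromSpecResidueField x) s
  have hp : p.Prime := Fact.out
  obtain ⟨J, hJ, ε, u, hu, hdet, l, hl, hl'⟩ :=
    field_chart hp h0 hι (M.pt (X.fromSpecResidueField x))
  obtain ⟨c, hc⟩ := exists_CPt hp h0 (M.pt (X.fromSpecResidueField x)) hJ ε u hu
    (isUnit_iff_ne_zero.mpr hdet) l hl (isUnit_iff_ne_zero.mpr hl')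
  obtain ⟨φ, hφ⟩ := M.exists_factor (F := F) ht (X.fromSpecResidueField x) (⟨J, hJ⟩, ε) c hc
  obtain ⟨z⟩ : Nonempty (PrimeSpectrum (X.residueField x)) := inferInstance
  refine ⟨(⟨J, hJ⟩, ε), Spec.map φ z, ?_⟩
  rw [← Scheme.Hom.comp_apply, hφ]
  exact X.fromSpecResidueField_apply x z

/-- locally, every point has an affine neighbourhood mapping to a chart -/
lemma exists_nbhd (hι : 2 ≤ Fintype.card ι) (x : X) :
    ∃ (R : CommRingCat.{u}) (j : Spec R ⟶ X) (_ : IsOpenImmersion j) (a : Ch ι)
      (φ : PR k F p t a ⟶ R), x ∈ Set.range j ∧ Spec.map φ ≫ M.cp ht a = j := by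
  have hp : p.Prime := Fact.out
  obtain ⟨_, ⟨U, hU, rfl⟩, hx, -⟩ := X.isBasis_affineOpens.exists_subset_of_mem_open
    (Set.mem_univ x) isOpen_univ
  let 𝔭 := hU.primeIdealOf ⟨x, hx⟩
  let κ : CommRingCat.{u} := .of 𝔭.asIdeal.ResidueField
  let φ : Γ(X, U) ⟶ κ := CommRingCat.ofHom (algebraMap Γ(X, U) 𝔭.asIdeal.ResidueField)
  let tκ : TPt p ι 𝔭.asIdeal.ResidueField := M.pt (Spec.map φ ≫ hU.fromSpec)
  have hnat : TPt.IsMap (algebraMap Γ(X, U) 𝔭.asIdeal.ResidueField) (M.pt hU.fromSpec) tκ :=
    M.nat φ hU.fromSpec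
  have h0 : (p : 𝔭.asIdeal.ResidueField) = 0 := p_zero (R := κ) (Spec.map φ ≫ hU.fromSpec) s
  obtain ⟨J, hJ, ε, u, hu, hdet, l, hl, hl'⟩ := spread hp h0 hι _ _ _ hnat
  let g : Γ(X, U) := ((Matrix.of u).submatrix id J).det * l (J ε)
  have hg : g ∉ 𝔭.asIdeal := by
    rw [← Ideal.algebraMap_residueField_eq_zero, map_mul]
    exact mul_ne_zero hdet hl'
  let R : CommRingCat.{u} := .of (Localization.Away g)
  let ψ : Γ(X, U) ⟶ R := CommRingCat.ofHom (algebraMap Γ(X, U) (Localization.Away g))
  let j : Spec R ⟶ X := Spec.map ψ ≫ hU.fromSpec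
  have hψ : IsOpenImmersion (Spec.map ψ) := IsOpenImmersion.of_isLocalization g
  have hj : IsOpenImmersion j := inferInstance
  have hnat2 : TPt.IsMap ψ.hom (M.pt hU.fromSpec) (M.pt j) := M.nat ψ hU.fromSpec
  have h0' : (p : R) = 0 := p_zero (R := R) j s
  have hgu : IsUnit (ψ.hom g) := IsLocalization.Away.algebraMap_isUnit g
  have hgu2 : IsUnit (ψ.hom ((Matrix.of u).submatrix id J).det) ∧
      IsUnit (ψ.hom (l (J ε))) := by
    have : ψ.hom g = ψ.hom ((Matrix.of u).submatrix id J).det * ψ.hom (l (J ε)) := map_mul _ _ _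
    rw [this] at hgu
    exact ⟨isUnit_of_mul_isUnit_left hgu, isUnit_of_mul_isUnit_right hgu⟩
  obtain ⟨c, hc⟩ := exists_CPt (R := R) hp h0' (M.pt j) hJ ε (fun r i => ψ.hom (u r i))
    (fun r => by
      rw [hnat2.1]
      exact Submodule.subset_span ⟨u r, hu r, rfl⟩)
    (by
      have : ((Matrix.of (fun r i => ψ.hom (u r i))).submatrix id J).det =
          ψ.hom ((Matrix.of u).submatrix id J).det := by
        rw [Matrix.det_fin_two, Matrix.det_fin_two, map_sub, map_mul, map_mul]
        rfl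
      rw [this]
      exact hgu2.1)
    (fun i => ψ.hom (l i)) (by
      rw [hnat2.2]
      exact Submodule.subset_span ⟨l, hl, rfl⟩) hgu2.2
  obtain ⟨χ, hχ⟩ := M.exists_factor (F := F) ht j (⟨J, hJ⟩, ε) c hc
  refine ⟨R, j, hj, (⟨J, hJ⟩, ε), χ, ?_, hχ⟩
  have h1 : 𝔭 ∈ Set.range (Spec.map ψ) := by
    have : Set.range (Spec.map ψ) =
        (PrimeSpectrum.basicOpen g : Set (PrimeSpectrum Γ(X, U))) :=
      PrimeSpectrum.localization_away_comap_range (Localization.Away g) g
    rw [this]
    exact hg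
  obtain ⟨z, hz⟩ := h1
  refine ⟨z, ?_⟩
  change (Spec.map ψ ≫ hU.fromSpec) z = x
  rw [Scheme.Hom.comp_apply, hz]
  exact hU.fromSpec_primeIdealOf ⟨x, hx⟩

/-- the charts are open immersions -/
lemma opn_cp (hι : 2 ≤ Fintype.card ι) (b : Ch ι) : IsOpenImmersion (M.cp (F := F) ht b) := by
  apply opn_of_cover
  intro x
  obtain ⟨R, j, hj, a, φ, hx, hφ⟩ := M.exists_nbhd (F := F) ht hι x
  exact ⟨_, _, _, j, Spec.map φ, M.cp ht a, Spec.map (il k F p t a b), Spec.map (ir k F p t a b),
    hj, opn_il ht a b, M.isPullback_cp ht a b, hx, hφ⟩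

end RM

end

end Pool.Agent.Totaro

end

/-! ## AG11 -/

section

set_option linter.unusedSectionVars false
set_option backward.isDefEq.respectTransparency false
set_option backward.isDefEq.respectTransparency.types false

open AlgebraicGeometry CategoryTheory Limits TopologicalSpace Opposite

universe u v

namespace Pool.Agent.Totaro

section

open MvPolynomial

variable {k : Type u} [Field k] [Infinite k] {ι : Type v} [Fintype ι] [DecidableEq ι]
  {F : Type u} [Field F] [Algebra k F]
  [Algebra (SS k ι) F] [IsScalarTower k (SS k ι) F]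
  [IsFractionRing (SS k ι) F]
  {p : ℕ} [Fact p.Prime] [CharP k p]
  {L : Type u} [Field L] [Algebra F L] [Algebra k L] [IsScalarTower k F L] {t : L}
  (ht : Transcendental F t) (cf : Cfg ι) (hk2 : (2 : k) ≠ 0) (hk3 : (3 : k) ≠ 0)
  {X : Scheme.{u}} {s : X ⟶ Spec (.of k)} (M : RM p ι s)

/-- a scheme with the right functor of points has the atlas -/
noncomputable def RM.toXAtl (hι : 2 ≤ Fintype.card ι) : XAtl (atlX p ht cf hk2 hk3) X s where
  χ := M.cp ht
  opn := M.opn_cp ht hι
  hov := M.cp_over ht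
  pb := M.isPullback_cp ht
  cover := M.cover_cp ht hι

end

section fields

open MvPolynomial

/-- a configuration of columns -/
def mkCfg {n : ℕ} (h : 7 ≤ n) : Cfg (Fin n) where
  J1 := fun a => ⟨a.1, by omega⟩
  J2 := fun a => ⟨2 + a.1, by omega⟩
  J3 := fun a => ⟨4 + a.1, by omega⟩
  e := ⟨6, by omega⟩
  i1 := fun a b hab => by simpa [Fin.ext_iff] using hab
  i2 := fun a b hab => by simpa [Fin.ext_iff] using hab
  i3 := fun a b hab => by simpa [Fin.ext_iff] using hab
  h12 := fun a b => by simp only [ne_eq, Fin.mk.injEq]; omega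
  h13 := fun a b => by simp only [ne_eq, Fin.mk.injEq]; omega
  h23 := fun a b => by simp only [ne_eq, Fin.mk.injEq]; omega
  e1 := fun a => by simp only [ne_eq, Fin.mk.injEq]; omega
  e2 := fun a => by simp only [ne_eq, Fin.mk.injEq]; omega
  e3 := fun a => by simp only [ne_eq, Fin.mk.injEq]; omega

variable {k : Type u} [Field k] [IsAlgClosed k] {p : ℕ} [Fact p.Prime] [CharP k p]
  {X : Scheme.{u}} {s : X ⟶ Spec (.of k)}

lemma cast_ne_zero' {q : ℕ} (hq : q.Prime) (hqp : q < p) : (q : k) ≠ 0 := by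
  intro h
  have h1 := (CharP.cast_eq_zero_iff k p q).mp h
  exact absurd (Nat.le_of_dvd hq.pos h1) (not_le.mpr hqp)

/-- The classification of deformations of Totaro's variety. -/
theorem classify_main (hp : 5 ≤ p) (M : RM p (Fin (p + 2)) s) {A : Type u} [CommRing A]
    [IsLocalRing A] [IsArtinianRing A] {res : A →+* k} (D : Defo s res)
    (w : WittVector p k →+* A) (hw : ∀ x, res (w x) = x.coeff 0) :
    ∃ (j : k →+* A) (hj : ∀ c, res (j c) = c), (∀ x, j (x.coeff 0) = w x) ∧
      D.Iso (trivDefo s res j hj) := by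
  let F := FractionRing (SS k (Fin (p + 2)))
  let L := FractionRing (Polynomial F)
  let t : L := algebraMap (Polynomial F) L Polynomial.X
  have ht : Transcendental F t := by
    have h1 : Transcendental F (Polynomial.X : Polynomial F) := Polynomial.transcendental_X F
    exact (transcendental_algebraMap_iff (IsFractionRing.injective (Polynomial F) L)).mpr h1
  have hk2 : (2 : k) ≠ 0 := by
    have := cast_ne_zero' (k := k) (p := p) Nat.prime_two (by omega)
    exact_mod_cast this
  have hk3 : (3 : k) ≠ 0 := by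
    have := cast_ne_zero' (k := k) (p := p) Nat.prime_three (by omega)
    exact_mod_cast this
  have : Infinite k := IsAlgClosed.instInfinite
  have : PerfectRing k p := inferInstance
  let _ : Algebra k L := inferInstance
  have : IsScalarTower k F L := inferInstance
  exact Defo.classify p (M.toXAtl (F := F) ht (mkCfg (by omega)) hk2 hk3
    (by rw [Fintype.card_fin]; omega)) D w hw

end fields

end Pool.Agent.Totaro

end

/-! ## AG12 -/

section

set_option linter.unusedSectionVars false
set_option backward.isDefEq.respectTransparency false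
set_option backward.isDefEq.respectTransparency.types false

open AlgebraicGeometry CategoryTheory Limits TopologicalSpace Opposite

universe u v

namespace Pool.Agent.Totaro

section

variable {p : ℕ} {k : Type u} [Field k] {X : Scheme.{u}} {s : X ⟶ Spec (.of k)}

/-- the functor of points -/
noncomputable def TotaroVariety.toRM (M : TotaroVariety p s) : RM p (Fin (p + 2)) s where
  pt x := M.pt x
  inj {R} x x' h1 h2 := by
    obtain ⟨y, -, hy⟩ := M.bij (Spec.preimage (x' ≫ s)) (M.pt x')
    rw [hy x ⟨by rw [h1, Spec.map_preimage], h2⟩, hy x' ⟨by rw [Spec.map_preimage], rfl⟩]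
  surj {R} c t := (M.bij c t).exists
  nat {R R'} φ x := M.nat φ x

end

section main

variable (p : ℕ) [Fact p.Prime] {k : Type u} [Field k] [IsAlgClosed k] [CharP k p]
  {X : Scheme.{u}} (s : X ⟶ Spec (.of k))

/-- `Def_{X/W(k)}` is isomorphic to `Spf k`. -/
theorem def_iso_spf (hp : 5 ≤ p) (M : TotaroVariety p s) :
    Nonempty (defFunctor p s ≅ spfFunctor p k ⋙ uliftFunctor.{u + 1}) := by
  have hclass := fun (A : ArtW p k) (D : Defo s A.res) =>
    classify_main hp M.toRM D (algebraMap (WittVector p k) A.A) A.res_alg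
  have hsub : ∀ A : ArtW p k, Subsingleton (SpfPt A) := by
    intro A
    refine ⟨fun j j' => SpfPt.ext (RingHom.ext fun c => ?_)⟩
    have h1 := j.comm (WittVector.teichmuller p c)
    have h2 := j'.comm (WittVector.teichmuller p c)
    rw [WittVector.teichmuller_coeff_zero] at h1 h2
    rw [h1, h2]
  have hres : ∀ (A : ArtW p k) (j : SpfPt A) (c : k), A.res (j.j c) = c := by
    intro A j c
    have h1 := j.comm (WittVector.teichmuller p c)
    rw [WittVector.teichmuller_coeff_zero] at h1
    rw [h1, A.res_alg, WittVector.teichmuller_coeff_zero]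
  have hsub2 : ∀ A : ArtW p k, Subsingleton (DefoClass s A.res) := by
    intro A
    refine ⟨fun D D' => ?_⟩
    induction D using Quotient.inductionOn with
    | h D =>
      induction D' using Quotient.inductionOn with
      | h D' =>
        obtain ⟨j, hj, h1, h2⟩ := hclass A D
        obtain ⟨j', hj', h1', h2'⟩ := hclass A D'
        have e : j = j' := by
          have := (hsub A).elim ⟨j, h1⟩ ⟨j', h1'⟩
          exact congrArg SpfPt.j this
        subst e
        exact Quotient.sound (h2.trans' h2'.symm')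
  let F : ∀ A : ArtW p k, (defFunctor p s).obj A → ULift.{u + 1} ((spfFunctor p k).obj A) :=
    fun A D => ⟨⟨(hclass A (Quotient.out D)).choose,
      (hclass A (Quotient.out D)).choose_spec.choose_spec.1⟩⟩
  let G : ∀ A : ArtW p k, ULift.{u + 1} ((spfFunctor p k).obj A) → (defFunctor p s).obj A :=
    fun A j => Quotient.mk _ (trivDefo s A.res (SpfPt.j j.down) (hres A j.down))
  refine ⟨NatIso.ofComponents (fun A => Equiv.toIso
    (⟨F A, G A, fun _ => (hsub2 A).elim _ _, fun j => by
      have : Subsingleton ((spfFunctor p k).obj A) := hsub A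
      exact Subsingleton.elim _ _⟩ : (defFunctor p s).obj A ≃
        ULift.{u + 1} ((spfFunctor p k).obj A))) ?_⟩
  intro A B φ
  ext D
  have : Subsingleton ((spfFunctor p k).obj B) := hsub B
  exact Subsingleton.elim (α := ULift.{u + 1} ((spfFunctor p k).obj B)) _ _

end main

end Pool.Agent.Totaro

end
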