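import Mathlib

set_option linter.unusedSectionVars false
set_option backward.isDefEq.respectTransparency false
set_option backward.isDefEq.respectTransparency.types false

open AlgebraicGeometry CategoryTheory Limits TopologicalSpace Opposite

universe u

namespace Pool.Agent.Totaro

/-- Subrings of a field which are to be the coordinate rings of the charts of a scheme and of
their intersections. -/
structure SubGl (k E : Type u) [Field k] [Field E] [Algebra k E] (J : Type u) where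
  /-- the rings -/
  P : J → J → Subalgebra k E
  Pl : ∀ i j, P i i ≤ P i j
  Psymm : ∀ i j, P i j = P j i
  /-- the equations of the complements of the intersections -/
  h : J → J → E
  hmem : ∀ i j, h i j ∈ P i i
  h0 : ∀ i j, h i j ≠ 0
  hinv : ∀ i j, (h i j)⁻¹ ∈ P i j
  hfrac : ∀ i j, ∀ y ∈ P i j, ∃ n : ℕ, y * h i j ^ n ∈ P i i
  hmul : ∀ i j l, h j l = h j i * h i l

namespace SubGl

variable {k E : Type u} [Field k] [Field E] [Algebra k E] {J : Type u} (D : SubGl k E J)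

/-- inclusion morphisms -/
noncomputable def inc {A B : Subalgebra k E} (h : A ≤ B) :
    Spec (.of B) ⟶ Spec (.of A) :=
  Spec.map (CommRingCat.ofHom (Subalgebra.inclusion h).toRingHom)

lemma inc_refl (A : Subalgebra k E) (h : A ≤ A) : inc h = 𝟙 (Spec (.of A)) := by
  have : CommRingCat.ofHom (Subalgebra.inclusion h).toRingHom = 𝟙 (CommRingCat.of A) := by
    ext x; rfl
  rw [inc, this, Spec.map_id]

lemma inc_comp {A B C : Subalgebra k E} (h : A ≤ B) (h' : B ≤ C) :
    inc h' ≫ inc h = inc (h.trans h') := by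
  rw [inc, inc, ← Spec.map_comp]
  rfl

/-- the generic point -/
noncomputable def gen (A : Subalgebra k E) : Spec (.of E) ⟶ Spec (.of A) :=
  Spec.map (CommRingCat.ofHom A.val.toRingHom)

lemma gen_inc {A B : Subalgebra k E} (h : A ≤ B) : gen B ≫ inc h = gen A := by
  rw [gen, inc, ← Spec.map_comp]
  rfl

instance (A : Subalgebra k E) : IsDominant (gen A) := by
  constructor
  change DenseRange (PrimeSpectrum.comap A.val.toRingHom)
  rw [PrimeSpectrum.denseRange_comap_iff_ker_le_nilRadical]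
  intro x hx
  have : x = 0 := Subtype.ext hx
  rw [this]; exact zero_mem _

lemma Pr (i j : J) : D.P j j ≤ D.P i j := (D.Pl j i).trans (D.Psymm j i).le

lemma isLoc (i j : J) : @IsLocalization.Away _ _ (⟨D.h i j, D.hmem i j⟩ : D.P i i) (D.P i j) _
    (Subalgebra.inclusion (D.Pl i j)).toRingHom.toAlgebra := by
  let _ := (Subalgebra.inclusion (D.Pl i j)).toRingHom.toAlgebra
  have hmap : ∀ x : D.P i i, ((algebraMap (D.P i i) (D.P i j) x : D.P i j) : E) = x :=
    fun _ => rfl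
  refine ⟨?_, ?_, ?_⟩
  · rintro ⟨_, n, rfl⟩
    rw [map_pow]
    apply IsUnit.pow
    refine IsUnit.of_mul_eq_one (⟨(D.h i j)⁻¹, D.hinv i j⟩ : D.P i j) ?_
    apply Subtype.ext
    exact mul_inv_cancel₀ (D.h0 i j)
  · rintro ⟨y, hy⟩
    obtain ⟨n, hn⟩ := D.hfrac i j y hy
    refine ⟨⟨⟨_, hn⟩, ⟨_, n, rfl⟩⟩, ?_⟩
    apply Subtype.ext
    rw [map_pow]
    push_cast
    rw [hmap, hmap]
  · intro x y h
    refine ⟨1, ?_⟩
    have h2 := congrArg (fun z : D.P i j => (z : E)) h
    simp only [hmap] at h2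
    have : x = y := Subtype.ext h2
    rw [this]

instance opn (i j : J) : IsOpenImmersion (inc (D.Pl i j)) := by
  let _ := (Subalgebra.inclusion (D.Pl i j)).toRingHom.toAlgebra
  have := D.isLoc i j
  exact IsOpenImmersion.of_isLocalization (⟨D.h i j, D.hmem i j⟩ : D.P i i)

lemma range_inc (i j : J) : Set.range (inc (D.Pl i j)) =
    (PrimeSpectrum.basicOpen (⟨D.h i j, D.hmem i j⟩ : D.P i i) :
      Set (PrimeSpectrum (D.P i i))) := by
  let _ := (Subalgebra.inclusion (D.Pl i j)).toRingHom.toAlgebra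
  have := D.isLoc i j
  exact PrimeSpectrum.localization_away_comap_range (D.P i j)
    (⟨D.h i j, D.hmem i j⟩ : D.P i i)

/-- the transition maps -/
noncomputable def t (i j : J) : Spec (.of (D.P i j)) ⟶ Spec (.of (D.P j i)) :=
  inc (D.Psymm j i).le

lemma t_inc (i j : J) : D.t i j ≫ inc (D.Pl j i) = inc (D.Pr i j) := inc_comp _ _

lemma range_sub (i j l : J) : Set.range (pullback.fst (inc (D.Pl i j)) (inc (D.Pl i l)) ≫
    D.t i j ≫ inc (D.Pl j i)) ⊆ Set.range (inc (D.Pl j l)) := by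
  rintro _ ⟨z, rfl⟩
  rw [range_inc, t_inc]
  set z1 := pullback.fst (inc (D.Pl i j)) (inc (D.Pl i l)) z with hz1
  have e1 : (pullback.fst (inc (D.Pl i j)) (inc (D.Pl i l)) ≫ inc (D.Pr i j)) z =
      inc (D.Pr i j) z1 := Scheme.Hom.comp_apply _ _ _
  rw [e1]
  have h1 : inc (D.Pl i j) z1 ∈ Set.range (inc (D.Pl i l)) := by
    refine ⟨pullback.snd (inc (D.Pl i j)) (inc (D.Pl i l)) z, ?_⟩
    rw [hz1, ← Scheme.Hom.comp_apply, ← Scheme.Hom.comp_apply, pullback.condition]
  rw [range_inc] at h1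
  have h2 : (⟨D.h i l, D.Pl i j (D.hmem i l)⟩ : D.P i j) ∉ z1.asIdeal := h1
  change (⟨D.h j l, D.Pr i j (D.hmem j l)⟩ : D.P i j) ∉ z1.asIdeal
  intro h3
  have h4 : (⟨D.h j l, D.Pr i j (D.hmem j l)⟩ : D.P i j) =
      ⟨D.h j i, D.Pr i j (D.hmem j i)⟩ * ⟨D.h i l, D.Pl i j (D.hmem i l)⟩ :=
    Subtype.ext (D.hmul i j l)
  rw [h4] at h3
  rcases z1.isPrime.mem_or_mem h3 with h5 | h5
  · have h6 : (D.h j i)⁻¹ ∈ D.P i j := (D.Psymm j i).le (D.hinv j i)
    have h7 := Ideal.mul_mem_left z1.asIdeal ⟨(D.h j i)⁻¹, h6⟩ h5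
    have h8 : (⟨(D.h j i)⁻¹, h6⟩ : D.P i j) * ⟨D.h j i, D.Pr i j (D.hmem j i)⟩ = 1 :=
      Subtype.ext (inv_mul_cancel₀ (D.h0 j i))
    rw [h8] at h7
    exact z1.isPrime.one_notMem h7
  · exact h2 h5

/-- the transition maps on triple intersections -/
noncomputable def t' (i j l : J) : pullback (inc (D.Pl i j)) (inc (D.Pl i l)) ⟶
    pullback (inc (D.Pl j l)) (inc (D.Pl j i)) :=
  pullback.lift (IsOpenImmersion.lift (inc (D.Pl j l))
      (pullback.fst (inc (D.Pl i j)) (inc (D.Pl i l)) ≫ D.t i j ≫ inc (D.Pl j i))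
      (D.range_sub i j l))
    (pullback.fst (inc (D.Pl i j)) (inc (D.Pl i l)) ≫ D.t i j) (by
      rw [IsOpenImmersion.lift_fac, Category.assoc])

lemma t'_fac (i j l : J) : D.t' i j l ≫ pullback.snd _ _ = pullback.fst _ _ ≫ D.t i j :=
  pullback.lift_snd _ _ _

/-- generic point of the triple intersections -/
noncomputable def eta (i j l : J) : Spec (.of E) ⟶ pullback (inc (D.Pl i j)) (inc (D.Pl i l)) :=
  pullback.lift (gen (D.P i j)) (gen (D.P i l)) (by rw [gen_inc, gen_inc])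

instance (i j l : J) : IsDominant (D.eta i j l) := by
  have h1 : IsDominant (D.eta i j l ≫ pullback.fst (inc (D.Pl i j)) (inc (D.Pl i l))) := by
    rw [eta, pullback.lift_fst]; infer_instance
  exact IsDominant.of_comp_of_isOpenImmersion _
    (pullback.fst (inc (D.Pl i j)) (inc (D.Pl i l)))

lemma eta_t' (i j l : J) : D.eta i j l ≫ D.t' i j l = D.eta j l i := by
  rw [← cancel_mono (pullback.snd (inc (D.Pl j l)) (inc (D.Pl j i))), Category.assoc, t'_fac,
    ← Category.assoc, eta, eta, pullback.lift_fst, pullback.lift_snd]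
  exact gen_inc _

lemma cocycle (i j l : J) : D.t' i j l ≫ D.t' j l i ≫ D.t' l i j = 𝟙 _ := by
  have h1 : IsReduced (pullback (inc (D.Pl i j)) (inc (D.Pl i l))) :=
    isReduced_of_isOpenImmersion (pullback.fst (inc (D.Pl i j)) (inc (D.Pl i l)))
  refine ext_of_isDominant (D.eta i j l) ?_
  rw [← Category.assoc, ← Category.assoc, Category.comp_id, Category.assoc, Category.assoc,
    ← Category.assoc, eta_t', ← Category.assoc, eta_t', eta_t']

/-- the gluing data -/
noncomputable def gd : Scheme.GlueData.{u} where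
  J := J
  U i := Spec (.of (D.P i i))
  V ij := Spec (.of (D.P ij.1 ij.2))
  f i j := inc (D.Pl i j)
  f_id i := by
    rw [inc_refl]; infer_instance
  t i j := D.t i j
  t_id i := inc_refl _ _
  t' i j l := D.t' i j l
  t_fac i j l := D.t'_fac i j l
  cocycle i j l := D.cocycle i j l
  f_open i j := D.opn i j

lemma exists_glued : ∃ (X : Scheme.{u}) (s : X ⟶ Spec (.of k))
    (χ : ∀ i, Spec (.of (D.P i i)) ⟶ X), (∀ i, IsOpenImmersion (χ i)) ∧
    (∀ i, χ i ≫ s = Spec.map (CommRingCat.ofHom (algebraMap k (D.P i i)))) ∧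
    (∀ i j, IsPullback (inc (D.Pl i j)) (inc (D.Pr i j)) (χ i) (χ j)) ∧
    (∀ x : X, ∃ i, x ∈ Set.range (χ i)) := by
  have hs : ∀ (i j : J), inc (D.Pl i j) ≫ Spec.map (CommRingCat.ofHom (algebraMap k (D.P i i))) =
      Spec.map (CommRingCat.ofHom (algebraMap k (D.P i j))) := by
    intro i j
    rw [inc, ← Spec.map_comp]
    rfl
  have hs' : ∀ (i j : J), inc (D.Pr i j) ≫ Spec.map (CommRingCat.ofHom (algebraMap k (D.P j j))) =
      Spec.map (CommRingCat.ofHom (algebraMap k (D.P i j))) := by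
    intro i j
    rw [inc, ← Spec.map_comp]
    rfl
  refine ⟨D.gd.glued, Multicoequalizer.desc _ _
    (fun i => Spec.map (CommRingCat.ofHom (algebraMap k (D.P i i)))) ?_, D.gd.ι, ?_, ?_, ?_, ?_⟩
  · rintro ⟨i, j⟩
    change inc (D.Pl i j) ≫ Spec.map (CommRingCat.ofHom (algebraMap k (D.P i i))) =
      (D.t i j ≫ inc (D.Pl j i)) ≫ Spec.map (CommRingCat.ofHom (algebraMap k (D.P j j)))
    rw [t_inc, hs, hs']
  · intro i; infer_instance
  · intro i
    exact Multicoequalizer.π_desc _ _ _ _ _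
  · intro i j
    have h1 := D.gd.vPullbackConeIsLimit i j
    have h2 : IsPullback (D.gd.f i j) (D.gd.t i j ≫ D.gd.f j i) (D.gd.ι i) (D.gd.ι j) :=
      ⟨⟨(D.gd.glue_condition i j).symm.trans (Category.assoc _ _ _).symm⟩, ⟨h1⟩⟩
    have h3 : D.gd.t i j ≫ D.gd.f j i = inc (D.Pr i j) := D.t_inc i j
    rw [h3] at h2
    exact h2
  · intro x
    obtain ⟨i, y, hy⟩ := D.gd.ι_jointly_surjective x
    exact ⟨i, y, hy⟩

end SubGl

end Pool.Agent.Totaro
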