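import Pool.Agent.TotaroVar.A13Glue
import Pool.Agent.TotaroVar.A14SubGl
import Pool.Agent.TotaroVar.A12Main

/-! ## Glue4 -/

section

set_option linter.unusedSectionVars false
set_option backward.isDefEq.respectTransparency false
set_option backward.isDefEq.respectTransparency.types false

open AlgebraicGeometry CategoryTheory Limits TopologicalSpace Opposite

universe u v

namespace Pool.Agent.Totaro

section

open MvPolynomial

variable {k : Type u} [Field k] {ι : Type v} [Fintype ι]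
  {F : Type u} [Field F] [Algebra k F]
  [Algebra (SS k ι) F] [IsScalarTower k (SS k ι) F]
  [IsFractionRing (SS k ι) F]
  {p : ℕ} [Fact p.Prime] [CharP k p]
  {L : Type u} [Field L] [Algebra F L] [Algebra k L] [IsScalarTower k F L] {t : L}
  (ht : Transcendental F t)
  {X : Scheme.{u}} {s : X ⟶ Spec (.of k)}

variable (k F p t) in
/-- a scheme glued from the standard charts -/
structure GX (s : X ⟶ Spec (.of k)) where
  /-- the charts -/
  χ : ∀ a : Ch ι, Spec (PR k F p t a) ⟶ X
  opn : ∀ a, IsOpenImmersion (χ a)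
  hov : ∀ a, χ a ≫ s = Spec.map (CommRingCat.ofHom (algebraMap k (PE k F p t a a)))
  pb : ∀ a b, IsPullback (Spec.map (RM.il k F p t a b)) (Spec.map (RM.ir k F p t a b)) (χ a) (χ b)
  cover : ∀ x : X, ∃ a, x ∈ Set.range (χ a)

open RM (tp)

namespace GX

variable (G : GX k F p t (ι := ι) s)

lemma tp_map {R R' : CommRingCat.{u}} {a : Ch ι} (ψ : PR k F p t a ⟶ R) (α : R ⟶ R') :
    TPt.IsMap α.hom (tp ht ψ) (tp ht (ψ ≫ α)) :=
  CPt.isMap a.1.2 p_ne ((uc p ht a (PE k F p t a a) le_rfl).map ψ.hom) α.hom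

lemma tp_il {R : CommRingCat.{u}} (a b : Ch ι) (θ : .of (PE k F p t a b) ⟶ R) :
    tp ht (RM.il k F p t a b ≫ θ) = tp ht (RM.ir k F p t a b ≫ θ) := by
  have h2 : tp ht (RM.il k F p t a b) = tp ht (RM.ir k F p t a b) := RM.tp_il0 ht a b
  refine TPt.IsMap.unique (tp_map ht (RM.il k F p t a b) θ) ?_
  rw [h2]
  exact tp_map ht (RM.ir k F p t a b) θ

include G in
lemma tp_eq {R : CommRingCat.{u}} {a b : Ch ι} (ψ : PR k F p t a ⟶ R) (ψ' : PR k F p t b ⟶ R)
    (h : Spec.map ψ ≫ G.χ a = Spec.map ψ' ≫ G.χ b) : tp ht ψ = tp ht ψ' := by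
  obtain ⟨θ, hθ⟩ := Spec.map_surjective ((G.pb a b).lift (Spec.map ψ) (Spec.map ψ') h)
  have h1 : ψ = RM.il k F p t a b ≫ θ := by
    apply Spec.map_injective
    rw [Spec.map_comp, hθ, IsPullback.lift_fst]
  have h2 : ψ' = RM.ir k F p t a b ≫ θ := by
    apply Spec.map_injective
    rw [Spec.map_comp, hθ, IsPullback.lift_snd]
  rw [h1, h2]
  exact tp_il ht a b θ

/-- the structure map of a chart homomorphism -/
noncomputable def st {R : CommRingCat.{u}} {a : Ch ι} (ψ : PR k F p t a ⟶ R) :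
    CommRingCat.of k ⟶ R := CommRingCat.ofHom (algebraMap k (PE k F p t a a)) ≫ ψ

lemma st_il {R : CommRingCat.{u}} (a b : Ch ι) (θ : CommRingCat.of (PE k F p t a b) ⟶ R) :
    st (RM.il k F p t a b ≫ θ) = st (RM.ir k F p t a b ≫ θ) :=
  (Category.assoc _ _ _).symm.trans ((congrArg (· ≫ θ)
    ((RM.alg_il a b).trans (RM.alg_ir a b).symm)).trans (Category.assoc _ _ _))

lemma chi_st {R : CommRingCat.{u}} {a : Ch ι} (ψ : PR k F p t a ⟶ R) :
    Spec.map ψ ≫ G.χ a ≫ s = Spec.map (st ψ) := by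
  rw [G.hov, ← Spec.map_comp]
  rfl

lemma chi_eq {R : CommRingCat.{u}} {a b : Ch ι} (ψ : PR k F p t a ⟶ R) (ψ' : PR k F p t b ⟶ R)
    (h : tp ht ψ = tp ht ψ') (h0 : st ψ = st ψ') :
    Spec.map ψ ≫ G.χ a = Spec.map ψ' ≫ G.χ b := by
  obtain ⟨h1, h2⟩ := CPt.unit_of_eq a.1.2 b.1.2 p_ne _ _ h
  have h3 : IsUnit (ψ.hom ⟨hE k F p t a b, hE_mem p a b⟩) := by
    rw [RM.map_hE ht]
    exact h1.mul h2
  let _ := (Subalgebra.inclusion (PE_left (k := k) (F := F) (s := t) p a b)).toRingHom.toAlgebra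
  have := isLoc (k := k) (F := F) p ht a b
  let θ' : PE k F p t a b →+* R :=
    IsLocalization.Away.lift (⟨hE k F p t a b, hE_mem p a b⟩ : PE k F p t a a) h3
  let θ : CommRingCat.of (PE k F p t a b) ⟶ R := CommRingCat.ofHom θ'
  have h4 : RM.il k F p t a b ≫ θ = ψ := by
    ext1
    exact IsLocalization.Away.lift_comp (⟨hE k F p t a b, hE_mem p a b⟩ : PE k F p t a a) h3
  have h5 : RM.ir k F p t a b ≫ θ = ψ' := by
    ext1
    refine hom_ext_uc p ht b _ _ ?_ ?_
    · have e1 : st (RM.ir k F p t a b ≫ θ) = st ψ' :=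
        (st_il a b θ).symm.trans ((congrArg st h4).trans h0)
      exact congrArg CommRingCat.Hom.hom e1
    · apply CPt.toT_inj b.1.2 (p := p) p_ne
      change tp ht (RM.ir k F p t a b ≫ θ) = tp ht ψ'
      rw [← tp_il ht a b θ, h4, h]
  rw [← h4, ← h5, Spec.map_comp, Spec.map_comp, Category.assoc, Category.assoc, (G.pb a b).w]

/-- compatibility of a point with a morphism -/
def Rel {R : CommRingCat.{u}} (x : Spec R ⟶ X) (τ : TPt p ι R) : Prop :=
  ∀ (R' : CommRingCat.{u}) (φ : R ⟶ R') (a : Ch ι) (ψ : PR k F p t a ⟶ R'),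
    Spec.map ψ ≫ G.χ a = Spec.map φ ≫ x → TPt.IsMap φ.hom τ (tp ht ψ)

/-- the localisation map -/
noncomputable def lc (R : CommRingCat.{u}) (g : R) : R ⟶ .of (Localization.Away g) :=
  CommRingCat.ofHom (algebraMap R (Localization.Away g))

lemma exists_cov {R : CommRingCat.{u}} (x : Spec R ⟶ X) :
    ∃ (n : Type u) (_ : Finite n) (g : n → R) (a : n → Ch ι)
      (ψ : ∀ i, PR k F p t (a i) ⟶ .of (Localization.Away (g i))),
      Ideal.span (Set.range g) = ⊤ ∧
      ∀ i, Spec.map (ψ i) ≫ G.χ (a i) = Spec.map (lc R (g i)) ≫ x := by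
  let A : Set R := {g | ∃ (a : Ch ι) (ψ : PR k F p t a ⟶ .of (Localization.Away g)),
    Spec.map ψ ≫ G.χ a = Spec.map (lc R g) ≫ x}
  have hA : Ideal.span A = ⊤ := by
    by_contra hcon
    obtain ⟨m, hm, hle⟩ := Ideal.exists_le_maximal _ hcon
    let q : PrimeSpectrum R := ⟨m, hm.isPrime⟩
    obtain ⟨a, ha⟩ := G.cover (x q)
    have := G.opn a
    have h1 : q ∈ x ⁻¹ᵁ (G.χ a).opensRange := ha
    obtain ⟨_, ⟨_, ⟨g, rfl⟩, rfl⟩, hq, hg⟩ := PrimeSpectrum.isBasis_basic_opens.exists_subset_of_mem_open h1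
      (x ⁻¹ᵁ (G.χ a).opensRange).2
    have hrange : Set.range (Spec.map (lc R g)) =
        (PrimeSpectrum.basicOpen g : Set (PrimeSpectrum R)) :=
      PrimeSpectrum.localization_away_comap_range (Localization.Away g) g
    have h2 : Set.range (Spec.map (lc R g) ≫ x) ⊆ Set.range (G.χ a) := by
      rintro _ ⟨z, rfl⟩
      have h3 : Spec.map (lc R g) z ∈ (PrimeSpectrum.basicOpen g : Set (PrimeSpectrum R)) := by
        rw [← hrange]; exact ⟨z, rfl⟩
      have h4 := hg h3
      rw [Scheme.Hom.comp_apply]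
      exact h4
    obtain ⟨ψ, hψ⟩ := Spec.map_surjective (IsOpenImmersion.lift (G.χ a) _ h2)
    have hgA : g ∈ A := ⟨a, ψ, by rw [hψ, IsOpenImmersion.lift_fac]⟩
    exact hq (hle (Ideal.subset_span hgA))
  rw [Ideal.span_eq_top_iff_finite] at hA
  obtain ⟨B, hB, hspan⟩ := hA
  have hch : ∀ g : B, ∃ (a : Ch ι) (ψ : PR k F p t a ⟶ .of (Localization.Away (g : R))),
    Spec.map ψ ≫ G.χ a = Spec.map (lc R g) ≫ x := fun g => hB g.2
  choose a ψ h using hch
  refine ⟨B, inferInstance, fun g => g, a, ψ, ?_, h⟩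
  rw [Subtype.range_coe_subtype]
  exact hspan

lemma rel_of_cover {R : CommRingCat.{u}} (x : Spec R ⟶ X) (τ : TPt p ι R) {n : Type u}
    (g : n → R) (a : n → Ch ι) (ψ : ∀ i, PR k F p t (a i) ⟶ .of (Localization.Away (g i)))
    (hg : Ideal.span (Set.range g) = ⊤)
    (hψ : ∀ i, Spec.map (ψ i) ≫ G.χ (a i) = Spec.map (lc R (g i)) ≫ x)
    (h : ∀ i, TPt.IsMap (lc R (g i)).hom τ (tp ht (ψ i))) : G.Rel ht x τ := by
  intro R' φ b ψ' hψ'
  have hg' : Ideal.span (Set.range (fun i => φ.hom (g i))) = ⊤ := by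
    have := congrArg (Ideal.map φ.hom) hg
    rw [Ideal.map_span, Ideal.map_top, ← Set.range_comp] at this
    exact this
  have key : ∀ i, TPt.IsMap (lc R' (φ.hom (g i))).hom (tp ht ψ')
      (tp ht (ψ' ≫ lc R' (φ.hom (g i)))) ∧
      TPt.IsMap ((lc R' (φ.hom (g i))).hom.comp φ.hom) τ (tp ht (ψ' ≫ lc R' (φ.hom (g i)))) := by
    intro i
    refine ⟨tp_map ht ψ' _, ?_⟩
    have hu : IsUnit (((lc R' (φ.hom (g i))).hom.comp φ.hom) (g i)) :=
      IsLocalization.Away.algebraMap_isUnit (φ.hom (g i))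
    let α' : Localization.Away (g i) →+* Localization.Away (φ.hom (g i)) :=
      IsLocalization.Away.lift (g i) hu
    have hα' : α'.comp (lc R (g i)).hom = (lc R' (φ.hom (g i))).hom.comp φ.hom :=
      IsLocalization.Away.lift_comp (g i) hu
    let α : CommRingCat.of (Localization.Away (g i)) ⟶
      CommRingCat.of (Localization.Away (φ.hom (g i))) := CommRingCat.ofHom α'
    have hα : lc R (g i) ≫ α = φ ≫ lc R' (φ.hom (g i)) := by
      ext1; exact hα'
    have h1 : Spec.map (ψ i ≫ α) ≫ G.χ (a i) =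
        Spec.map (ψ' ≫ lc R' (φ.hom (g i))) ≫ G.χ b := by
      rw [Spec.map_comp, Spec.map_comp, Category.assoc, Category.assoc, hψ, hψ',
        ← Category.assoc, ← Category.assoc, ← Spec.map_comp, ← Spec.map_comp, hα]
    rw [← G.tp_eq ht _ _ h1, ← hα']
    exact (h i).comp (tp_map ht (ψ i) α)
  constructor
  · apply eq_of_bc_eq hg' (fun i => Localization.Away (φ.hom (g i)))
    intro i
    rw [← bc_comp]
    exact (key i).1.1.symm.trans (key i).2.1
  · apply eq_of_bc_eq hg' (fun i => Localization.Away (φ.hom (g i)))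
    intro i
    rw [← bc_comp]
    exact (key i).1.2.symm.trans (key i).2.2

end GX

end

end Pool.Agent.Totaro

end

/-! ## Glue6 -/

section

set_option linter.unusedSectionVars false
set_option backward.isDefEq.respectTransparency false
set_option backward.isDefEq.respectTransparency.types false

open AlgebraicGeometry CategoryTheory Limits TopologicalSpace Opposite

universe u v w

namespace Pool.Agent.Totaro

section zar

variable {R : CommRingCat.{u}} {Y : Scheme.{u}} {n : Type u} (g : n → R)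
  (hg : Ideal.span (Set.range g) = ⊤)

include hg in
/-- morphisms are determined locally -/
lemma hom_eq_of_cov (x x' : Spec R ⟶ Y)
    (h : ∀ i, Spec.map (GX.lc R (g i)) ≫ x = Spec.map (GX.lc R (g i)) ≫ x') : x = x' :=
  Scheme.Cover.hom_ext (Scheme.affineOpenCoverOfSpanRangeEqTop g hg).openCover x x' h

include hg in
/-- gluing of morphisms -/
lemma exists_hom_of_cov (x : ∀ i, Spec (.of (Localization.Away (g i))) ⟶ Y)
    (h : ∀ i j (T : CommRingCat.{u}) (α : .of (Localization.Away (g i)) ⟶ T)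
      (β : .of (Localization.Away (g j)) ⟶ T), GX.lc R (g i) ≫ α = GX.lc R (g j) ≫ β →
      Spec.map α ≫ x i = Spec.map β ≫ x j) :
    ∃ y : Spec R ⟶ Y, ∀ i, Spec.map (GX.lc R (g i)) ≫ y = x i := by
  have hf : ∀ i j, pullback.fst (Spec.map (GX.lc R (g i))) (Spec.map (GX.lc R (g j))) ≫ x i =
      pullback.snd (Spec.map (GX.lc R (g i))) (Spec.map (GX.lc R (g j))) ≫ x j := by
    intro i j
    set P := pullback (Spec.map (GX.lc R (g i))) (Spec.map (GX.lc R (g j))) with hP
    have hPa : IsAffine P := inferInstance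
    rw [← cancel_epi P.isoSpec.inv, ← Category.assoc, ← Category.assoc]
    obtain ⟨α, hα⟩ := Spec.map_surjective (P.isoSpec.inv ≫
      pullback.fst (Spec.map (GX.lc R (g i))) (Spec.map (GX.lc R (g j))))
    obtain ⟨β, hβ⟩ := Spec.map_surjective (P.isoSpec.inv ≫
      pullback.snd (Spec.map (GX.lc R (g i))) (Spec.map (GX.lc R (g j))))
    rw [← hα, ← hβ]
    apply h
    apply Spec.map_injective
    rw [Spec.map_comp, Spec.map_comp, hα, hβ, Category.assoc, Category.assoc, pullback.condition]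
  exact ⟨Scheme.Cover.glueMorphisms (Scheme.affineOpenCoverOfSpanRangeEqTop g hg).openCover x hf,
    fun i => Scheme.Cover.ι_glueMorphisms
      (Scheme.affineOpenCoverOfSpanRangeEqTop g hg).openCover x hf i⟩

end zar

end Pool.Agent.Totaro

end

/-! ## Glue7 -/

section

set_option linter.unusedSectionVars false
set_option backward.isDefEq.respectTransparency false
set_option backward.isDefEq.respectTransparency.types false

open AlgebraicGeometry CategoryTheory Limits TopologicalSpace Opposite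

universe u v

namespace Pool.Agent.Totaro

section

open MvPolynomial

variable {k : Type u} [Field k] {ι : Type v} [Fintype ι]
  {F : Type u} [Field F] [Algebra k F]
  [Algebra (SS k ι) F] [IsScalarTower k (SS k ι) F]
  [IsFractionRing (SS k ι) F]
  {p : ℕ} [Fact p.Prime] [CharP k p]
  {L : Type u} [Field L] [Algebra F L] [Algebra k L] [IsScalarTower k F L] {t : L}
  (ht : Transcendental F t)
  {X : Scheme.{u}} {s : X ⟶ Spec (.of k)}

open RM (tp)

namespace GX

variable (G : GX k F p t (ι := ι) s)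

lemma p_zero' {R : CommRingCat.{u}} (c : CommRingCat.of k ⟶ R) : (p : R) = 0 := by
  have h : c.hom ((p : ℕ) : k) = 0 := by rw [CharP.cast_eq_zero, map_zero]
  rwa [map_natCast] at h

/-- chart coordinates of a chart homomorphism -/
noncomputable def cc {R : CommRingCat.{u}} {a : Ch ι} (ψ : PR k F p t a ⟶ R) :
    CPt a.1.1 a.2 R :=
  (uc p ht a (PE k F p t a a) le_rfl).map ψ.hom

lemma tp_cc {R : CommRingCat.{u}} {a : Ch ι} (ψ : PR k F p t a ⟶ R) :
    tp ht ψ = (cc ht ψ).toT a.1.2 p_ne := rfl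

lemma tp_W {R : CommRingCat.{u}} {a : Ch ι} (ψ : PR k F p t a ⟶ R) :
    (tp ht ψ).W.toSubmodule = rowSpan (cc ht ψ).Y := rfl

lemma tp_L {R : CommRingCat.{u}} {a : Ch ι} (ψ : PR k F p t a ⟶ R) :
    (tp ht ψ).L.toSubmodule = rowSpan (fun _ : Fin 1 => ell p (cc ht ψ).Y (cc ht ψ).w) := rfl

include G in
/-- compatibility on overlaps -/
lemma cov_compat {R : CommRingCat.{u}} (x : Spec R ⟶ X) {n : Type u}
    (g : n → R) (a : n → Ch ι) (ψ : ∀ i, PR k F p t (a i) ⟶ .of (Localization.Away (g i)))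
    (hψ : ∀ i, Spec.map (ψ i) ≫ G.χ (a i) = Spec.map (lc R (g i)) ≫ x) (i j : n)
    (T : CommRingCat.{u}) (α : .of (Localization.Away (g i)) ⟶ T)
    (β : .of (Localization.Away (g j)) ⟶ T) (h : lc R (g i) ≫ α = lc R (g j) ≫ β) :
    tp ht (ψ i ≫ α) = tp ht (ψ j ≫ β) := by
  apply G.tp_eq ht
  rw [Spec.map_comp, Spec.map_comp, Category.assoc, Category.assoc, hψ, hψ,
    ← Category.assoc, ← Category.assoc, ← Spec.map_comp, ← Spec.map_comp, h]

/-- every morphism has a point -/
lemma exists_rel {R : CommRingCat.{u}} (x : Spec R ⟶ X) : ∃ τ : TPt p ι R, G.Rel ht x τ := by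
  obtain ⟨n, hn, g, a, ψ, hg, hψ⟩ := G.exists_cov x
  have hp : p.Prime := Fact.out
  have h0 : (p : R) = 0 := p_zero' (k := k) (Spec.preimage (x ≫ s))
  have H := G.cov_compat ht x g a ψ hψ
  -- the plane
  have HW : ∀ (i j : n) (T : Type u) [CommRing T] (α : Localization.Away (g i) →+* T)
      (β : Localization.Away (g j) →+* T),
      α.comp (algebraMap R (Localization.Away (g i))) =
        β.comp (algebraMap R (Localization.Away (g j))) →
      rowSpan (fun r c => α ((cc ht (ψ i)).Y r c)) = rowSpan (fun r c => β ((cc ht (ψ j)).Y r c)) := by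
    intro i j T _ α β hαβ
    have h1 := H i j (.of T) (CommRingCat.ofHom α) (CommRingCat.ofHom β) (by
      ext1; exact hαβ)
    exact congrArg (fun t => t.W.toSubmodule) h1
  obtain ⟨W, hW⟩ := exists_glue g (fun i => (cc ht (ψ i)).hY) HW hg (fun i => (a i).1.2)
  -- the line
  have HL : ∀ (i j : n) (T : Type u) [CommRing T] (α : Localization.Away (g i) →+* T)
      (β : Localization.Away (g j) →+* T),
      α.comp (algebraMap R (Localization.Away (g i))) =
        β.comp (algebraMap R (Localization.Away (g j))) →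
      rowSpan (fun (_ : Fin 1) c => α (ell p (cc ht (ψ i)).Y (cc ht (ψ i)).w c)) =
        rowSpan (fun (_ : Fin 1) c => β (ell p (cc ht (ψ j)).Y (cc ht (ψ j)).w c)) := by
    intro i j T _ α β hαβ
    have h1 := H i j (.of T) (CommRingCat.ofHom α) (CommRingCat.ofHom β) (by
      ext1; exact hαβ)
    have h2 : rowSpan (fun _ : Fin 1 => ell p (fun r c => α ((cc ht (ψ i)).Y r c))
        (fun r => α ((cc ht (ψ i)).w r))) =
        rowSpan (fun _ : Fin 1 => ell p (fun r c => β ((cc ht (ψ j)).Y r c))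
        (fun r => β ((cc ht (ψ j)).w r))) := congrArg (fun t => t.L.toSubmodule) h1
    rw [← map_ell, ← map_ell] at h2
    exact h2
  obtain ⟨M, hM⟩ := exists_glue g (fun i => (cc ht (ψ i)).nrm_ell (p := p) p_ne) HL hg
    (fun i => inj_fin1 _)
  have eW : ∀ i, bc (algebraMap R (Localization.Away (g i))) W.toSubmodule =
      rowSpan (cc ht (ψ i)).Y := by
    intro i
    rw [hW]
    exact bc_glW g (fun i => (cc ht (ψ i)).hY) HW i
  have eM : ∀ i, bc (algebraMap R (Localization.Away (g i))) M.toSubmodule =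
      rowSpan (fun _ : Fin 1 => ell p (cc ht (ψ i)).Y (cc ht (ψ i)).w) := by
    intro i
    rw [hM]
    exact bc_glW g (fun i => (cc ht (ψ i)).nrm_ell (p := p) p_ne) HL i
  have hle : M.toSubmodule ≤ frobSpan p W.toSubmodule := by
    apply le_of_bc_le hg (fun i => Localization.Away (g i))
    intro i
    rw [bc_frobSpan hp h0, eW, eM]
    exact (tp ht (ψ i)).le
  refine ⟨⟨W, M, hle⟩, G.rel_of_cover ht x _ g a ψ hg hψ fun i => ⟨(eW i).symm, (eM i).symm⟩⟩

include G in
lemma rel_unique {R : CommRingCat.{u}} (x : Spec R ⟶ X) {τ τ' : TPt p ι R}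
    (h : G.Rel ht x τ) (h' : G.Rel ht x τ') : τ = τ' := by
  obtain ⟨n, hn, g, a, ψ, hg, hψ⟩ := G.exists_cov x
  have h1 := fun i => h _ (lc R (g i)) (a i) (ψ i) (hψ i)
  have h2 := fun i => h' _ (lc R (g i)) (a i) (ψ i) (hψ i)
  exact TPt.ext' (eq_of_bc_eq hg (fun i => Localization.Away (g i)) _ _
      fun i => (h1 i).1.symm.trans (h2 i).1)
    (eq_of_bc_eq hg (fun i => Localization.Away (g i)) _ _
      fun i => (h1 i).2.symm.trans (h2 i).2)

lemma rel_nat {R R' : CommRingCat.{u}} (φ : R ⟶ R') (x : Spec R ⟶ X) {τ : TPt p ι R}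
    {τ' : TPt p ι R'} (h : G.Rel ht x τ) (h' : G.Rel ht (Spec.map φ ≫ x) τ') :
    TPt.IsMap φ.hom τ τ' := by
  obtain ⟨n, hn, g, a, ψ, hg, hψ⟩ := G.exists_cov (Spec.map φ ≫ x)
  have h1 := fun i => h' _ (lc R' (g i)) (a i) (ψ i) (hψ i)
  have h2 := fun i => h _ (φ ≫ lc R' (g i)) (a i) (ψ i)
    (by rw [hψ, Spec.map_comp, Category.assoc])
  constructor
  · refine eq_of_bc_eq hg (fun i => Localization.Away (g i)) _ _ fun i => ?_
    rw [← bc_comp]
    exact (h1 i).1.symm.trans (h2 i).1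
  · refine eq_of_bc_eq hg (fun i => Localization.Away (g i)) _ _ fun i => ?_
    rw [← bc_comp]
    exact (h1 i).2.symm.trans (h2 i).2

lemma st_comp {R R' : CommRingCat.{u}} {a : Ch ι} (ψ : PR k F p t a ⟶ R) (α : R ⟶ R') :
    st (ψ ≫ α) = st ψ ≫ α := (Category.assoc _ _ _).symm

/-- a morphism is determined by its point -/
lemma rel_inj {R : CommRingCat.{u}} (x x' : Spec R ⟶ X) (hs : x ≫ s = x' ≫ s) {τ : TPt p ι R}
    (h : G.Rel ht x τ) (h' : G.Rel ht x' τ) : x = x' := by
  obtain ⟨n, hn, g, a, ψ, hg, hψ⟩ := G.exists_cov x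
  apply hom_eq_of_cov g hg
  intro i
  obtain ⟨n', hn', g', a', ψ', hg', hψ'⟩ := G.exists_cov (Spec.map (lc R (g i)) ≫ x')
  apply hom_eq_of_cov g' hg'
  intro j
  rw [← hψ', ← hψ, ← Category.assoc, ← Spec.map_comp]
  have h1 := h _ (lc R (g i) ≫ lc (.of (Localization.Away (g i))) (g' j)) (a i)
    (ψ i ≫ lc (.of (Localization.Away (g i))) (g' j)) (by
      rw [Spec.map_comp, Spec.map_comp, Category.assoc, Category.assoc, hψ])
  have h2 := h' _ (lc R (g i) ≫ lc (.of (Localization.Away (g i))) (g' j)) (a' j) (ψ' j) (by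
      rw [Spec.map_comp, Category.assoc, hψ'])
  refine G.chi_eq ht _ _ (h1.unique h2) ?_
  apply Spec.map_injective
  rw [← G.chi_st, ← G.chi_st, Spec.map_comp, Category.assoc]
  have e1 : Spec.map (ψ i) ≫ G.χ (a i) ≫ s = Spec.map (lc R (g i)) ≫ x ≫ s := by
    rw [← Category.assoc, hψ, Category.assoc]
  have e2 : Spec.map (ψ' j) ≫ G.χ (a' j) ≫ s =
      Spec.map (lc (.of (Localization.Away (g i))) (g' j)) ≫ Spec.map (lc R (g i)) ≫ x' ≫ s := by
    rw [← Category.assoc, hψ', Category.assoc, Category.assoc]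
  rw [e1, e2, hs]

end GX

end

end Pool.Agent.Totaro

end

/-! ## Glue8 -/

section

set_option linter.unusedSectionVars false
set_option backward.isDefEq.respectTransparency false
set_option backward.isDefEq.respectTransparency.types false

open AlgebraicGeometry CategoryTheory Limits TopologicalSpace Opposite

universe u v

namespace Pool.Agent.Totaro

section

open MvPolynomial

variable {k : Type u} [Field k] {ι : Type v} [Fintype ι]
  {F : Type u} [Field F] [Algebra k F]
  [Algebra (SS k ι) F] [IsScalarTower k (SS k ι) F]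
  [IsFractionRing (SS k ι) F]
  {p : ℕ} [Fact p.Prime] [CharP k p]
  {L : Type u} [Field L] [Algebra F L] [Algebra k L] [IsScalarTower k F L] {t : L}
  (ht : Transcendental F t)
  {X : Scheme.{u}} {s : X ⟶ Spec (.of k)}

open RM (tp)

namespace GX

/-- locally a point is given by a chart homomorphism -/
lemma exists_local (hι : 2 ≤ Fintype.card ι) {R : CommRingCat.{u}} (c : CommRingCat.of k ⟶ R)
    (τ : TPt p ι R) (m : Ideal R) (hm : m.IsMaximal) : ∃ g : R, g ∉ m ∧
      ∃ (a : Ch ι) (ψ : PR k F p t a ⟶ .of (Localization.Away g)),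
        TPt.IsMap (lc R g).hom τ (tp ht ψ) ∧ st ψ = c ≫ lc R g := by
  have hp : p.Prime := Fact.out
  have h0 : (p : R) = 0 := p_zero' (k := k) c
  let _ : Field (R ⧸ m) := Ideal.Quotient.field m
  have h0' : (p : R ⧸ m) = 0 := by rw [← map_natCast (Ideal.Quotient.mk m), h0, map_zero]
  obtain ⟨τ', hτ'⟩ := TPt.exists_map hp h0 (Ideal.Quotient.mk m) τ
  obtain ⟨J, hJ, ε, u, hu, hdet, l, hl, hl'⟩ :=
    spread hp h0' hι (Ideal.Quotient.mk m) τ τ' hτ'
  set δ := ((Matrix.of u).submatrix id J).det with hδ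
  refine ⟨δ * l (J ε), ?_, ?_⟩
  · intro hmem
    rcases hm.isPrime.mem_or_mem hmem with h1 | h1
    · exact hdet (Ideal.Quotient.eq_zero_iff_mem.mpr h1)
    · exact hl' (Ideal.Quotient.eq_zero_iff_mem.mpr h1)
  set g := δ * l (J ε) with hg
  set φ : R →+* Localization.Away g := (lc R g).hom with hφ
  have h0g : (p : Localization.Away g) = 0 := by rw [← map_natCast φ, h0, map_zero]
  have hunit : IsUnit (φ δ * φ (l (J ε))) := by
    rw [← map_mul]
    exact IsLocalization.Away.algebraMap_isUnit g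
  obtain ⟨τg, hτg⟩ := TPt.exists_map hp h0 φ τ
  have hdet' : IsUnit ((Matrix.of (fun r i => φ (u r i))).submatrix id J).det := by
    have e : ((Matrix.of (fun r i => φ (u r i))).submatrix id J).det = φ δ := by
      rw [hδ, RingHom.map_det]
      rfl
    rw [e]
    exact isUnit_of_mul_isUnit_left hunit
  obtain ⟨C, hC⟩ := exists_CPt hp h0g τg hJ ε (fun r i => φ (u r i)) (by
      intro r
      rw [hτg.1]
      exact Submodule.subset_span ⟨u r, hu r, rfl⟩) hdet' (fun i => φ (l i)) (by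
      rw [hτg.2]
      exact Submodule.subset_span ⟨l, hl, rfl⟩) (isUnit_of_mul_isUnit_right hunit)
  let a : Ch ι := ⟨⟨J, hJ⟩, ε⟩
  obtain ⟨θ, hθ1, hθ2⟩ := exists_hom (k := k) (F := F) p ht a (φ.comp c.hom) C
  refine ⟨a, CommRingCat.ofHom θ, ?_, ?_⟩
  · have e : tp ht (CommRingCat.ofHom θ : PR k F p t a ⟶ .of (Localization.Away g)) = τg := by
      rw [← hC, ← hθ2]
      rfl
    rw [e]
    exact hτg
  · ext1
    exact hθ1

variable (G : GX k F p t (ι := ι) s)

/-- every point comes from a morphism -/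
lemma rel_surj (hι : 2 ≤ Fintype.card ι) {R : CommRingCat.{u}} (c : CommRingCat.of k ⟶ R)
    (τ : TPt p ι R) : ∃ x : Spec R ⟶ X, x ≫ s = Spec.map c ∧ G.Rel ht x τ := by
  let A : Set R := {g | ∃ (a : Ch ι) (ψ : PR k F p t a ⟶ .of (Localization.Away g)),
    TPt.IsMap (lc R g).hom τ (tp ht ψ) ∧ st ψ = c ≫ lc R g}
  have hA : Ideal.span A = ⊤ := by
    by_contra hcon
    obtain ⟨m, hm, hle⟩ := Ideal.exists_le_maximal _ hcon
    obtain ⟨g, hgm, hg⟩ := exists_local ht hι c τ m hm
    exact hgm (hle (Ideal.subset_span hg))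
  rw [Ideal.span_eq_top_iff_finite] at hA
  obtain ⟨B, hB, hspan⟩ := hA
  have hch : ∀ g : B, ∃ (a : Ch ι) (ψ : PR k F p t a ⟶ .of (Localization.Away (g : R))),
    TPt.IsMap (lc R (g : R)).hom τ (tp ht ψ) ∧ st ψ = c ≫ lc R (g : R) := fun g => hB g.2
  choose a ψ h1 h2 using hch
  have hg : Ideal.span (Set.range (fun g : B => (g : R))) = ⊤ := by
    rw [Subtype.range_coe_subtype]
    exact hspan
  obtain ⟨x, hx⟩ := exists_hom_of_cov (fun g : B => (g : R)) hg
    (fun i => Spec.map (ψ i) ≫ G.χ (a i)) (by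
      intro i j T α β hαβ
      rw [← Category.assoc, ← Category.assoc, ← Spec.map_comp, ← Spec.map_comp]
      apply G.chi_eq ht
      · have e1 := (h1 i).comp (tp_map ht (ψ i) α)
        have e2 := (h1 j).comp (tp_map ht (ψ j) β)
        have e3 : α.hom.comp (lc R (i : R)).hom = β.hom.comp (lc R (j : R)).hom :=
          congrArg CommRingCat.Hom.hom hαβ
        rw [e3] at e1
        exact e1.unique e2
      · rw [st_comp, st_comp, h2, h2, Category.assoc, Category.assoc, hαβ])
  refine ⟨x, ?_, ?_⟩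
  · apply hom_eq_of_cov _ hg
    intro i
    rw [← Category.assoc, hx, Category.assoc, G.chi_st, h2, Spec.map_comp]
  · exact G.rel_of_cover ht x τ _ a ψ hg (fun i => (hx i).symm) h1

/-- the functor of points of a scheme glued from the charts -/
noncomputable def toRM (hι : 2 ≤ Fintype.card ι) : RM p ι s where
  pt x := (G.exists_rel ht x).choose
  inj x x' h1 h2 := by
    have h3 := (G.exists_rel ht x).choose_spec
    have h4 := (G.exists_rel ht x').choose_spec
    rw [h2] at h3
    exact G.rel_inj ht x x' h1 h3 h4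
  surj c τ := by
    obtain ⟨x, h1, h2⟩ := G.rel_surj ht hι c τ
    exact ⟨x, h1, G.rel_unique ht x (G.exists_rel ht x).choose_spec h2⟩
  nat φ x := G.rel_nat ht φ x (G.exists_rel ht x).choose_spec
    (G.exists_rel ht (Spec.map φ ≫ x)).choose_spec

end GX

end

end Pool.Agent.Totaro

end

/-! ## Glue9 -/

section

set_option linter.unusedSectionVars false
set_option backward.isDefEq.respectTransparency false
set_option backward.isDefEq.respectTransparency.types false

open AlgebraicGeometry CategoryTheory Limits TopologicalSpace Opposite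

universe u v

namespace Pool.Agent.Totaro

section

open MvPolynomial

variable {k : Type u} [Field k] {ι : Type} [Fintype ι]
  {F : Type u} [Field F] [Algebra k F]
  [Algebra (SS k ι) F] [IsScalarTower k (SS k ι) F]
  [IsFractionRing (SS k ι) F]
  {p : ℕ} [Fact p.Prime] [CharP k p]
  {L : Type u} [Field L] [Algebra F L] [Algebra k L] [IsScalarTower k F L] {t : L}
  (ht : Transcendental F t)

lemma dE_cocycle (a b c : Ch ι) : dE k F p t b c = dE k F p t b a * dE k F p t a c := by
  unfold dE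
  rw [← Matrix.det_mul]
  congr 1
  ext r i
  rw [Matrix.mul_apply]
  exact congrArg Subtype.val (YE_mul' (k := k) (F := F) (s := t) p b.1 a.1 r (c.1.1 i))

include ht in
lemma hE_cocycle (a b c : Ch ι) : hE k F p t b c = hE k F p t b a * hE k F p t a c := by
  unfold hE
  rw [dE_cocycle a b c, eE_mul p ht b a (c.1.1 c.2)]
  ring

/-- the gluing data of the charts -/
noncomputable def subGl : SubGl k (EE k ι F p t) (ULift.{u} (Ch ι)) where
  P i j := PE k F p t i.down j.down
  Pl i j := PE_left p i.down j.down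
  Psymm i j := PE_symm p i.down j.down
  h i j := hE k F p t i.down j.down
  hmem i j := hE_mem p i.down j.down
  h0 i j := hE_ne p ht i.down j.down
  hinv i j := hE_inv_mem p ht i.down j.down
  hfrac i j _ hy := exists_pow_mem p ht i.down j.down hy
  hmul i j l := hE_cocycle ht i.down j.down l.down

include ht in
/-- existence of a scheme glued from the charts -/
lemma exists_GX : ∃ (X : Scheme.{u}) (s : X ⟶ Spec (.of k)), Nonempty (GX k F p t (ι := ι) s) := by
  obtain ⟨X, s, χ, h1, h2, h3, h4⟩ := (subGl (k := k) (ι := ι) (F := F) (p := p) ht).exists_glued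
  refine ⟨X, s, ⟨⟨fun a => χ ⟨a⟩, fun a => h1 ⟨a⟩, fun a => h2 ⟨a⟩, fun a b => h3 ⟨a⟩ ⟨b⟩, ?_⟩⟩⟩
  intro x
  obtain ⟨i, hi⟩ := h4 x
  exact ⟨i.down, hi⟩

end

section fields

variable (p : ℕ) [Fact p.Prime] (k : Type u) [Field k] [CharP k p]

/-- Totaro's variety exists. -/
theorem exists_totaroVariety : ∃ (X : Scheme.{u}) (s : X ⟶ Spec (.of k)),
    Nonempty (TotaroVariety p s) := by
  let F := FractionRing (SS k (Fin (p + 2)))
  let L := FractionRing (Polynomial F)
  let t : L := algebraMap (Polynomial F) L Polynomial.X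
  have ht : Transcendental F t := by
    have h1 : Transcendental F (Polynomial.X : Polynomial F) := Polynomial.transcendental_X F
    exact (transcendental_algebraMap_iff (IsFractionRing.injective (Polynomial F) L)).mpr h1
  let _ : Algebra k L := inferInstance
  have : IsScalarTower k F L := inferInstance
  obtain ⟨X, s, ⟨G⟩⟩ := exists_GX (k := k) (ι := Fin (p + 2)) (F := F) (p := p) ht
  let M : RM p (Fin (p + 2)) s := G.toRM ht (by rw [Fintype.card_fin]; omega)
  refine ⟨X, s, ⟨⟨fun x => M.pt x, ?_, fun φ x => M.nat φ x⟩⟩⟩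
  intro R c τ
  obtain ⟨x, h1, h2⟩ := M.surj c τ
  refine ⟨x, ⟨h1, h2⟩, ?_⟩
  rintro y ⟨h3, h4⟩
  exact M.inj y x (h3.trans h1.symm) (h4.trans h2.symm)

end fields

end Pool.Agent.Totaro

end
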