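import Mathlib

/-! ## CommAlg -/

section

namespace Pool.Agent.Totaro

open MvPolynomial TensorProduct

section NZD

variable {k : Type*} [Field k] {σ : Type*}

/-- A nonzero polynomial over a field stays a nonzerodivisor after any base change. -/
lemma nzd_map {t : Type*} {R : Type*} [CommRing R] [Algebra k R] (g : MvPolynomial t k)
    (hg : g ≠ 0) (z : MvPolynomial t R) (h : map (algebraMap k R) g * z = 0) : z = 0 := by
  classical
  let e := MvPolynomial.algebraTensorAlgEquiv (σ := t) k R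
  let mu : MvPolynomial t k →ₗ[k] MvPolynomial t k := LinearMap.mulLeft k g
  have hmu : Function.Injective mu := by
    intro a b hab
    exact mul_left_cancel₀ hg hab
  have hmu' : Function.Injective (LinearMap.lTensor R mu) :=
    Module.Flat.lTensor_preserves_injective_linearMap (M := R) mu hmu
  have key : ∀ w : R ⊗[k] MvPolynomial t k,
      e (LinearMap.lTensor R mu w) = map (algebraMap k R) g * e w := by
    intro w
    induction w using TensorProduct.induction_on with
    | zero => simp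
    | tmul r q =>
      simp [e, mu, MvPolynomial.algebraTensorAlgEquiv_tmul]
    | add a b ha hb => rw [map_add, map_add, ha, hb, map_add, mul_add]
  obtain ⟨w, rfl⟩ := e.surjective z
  rw [← key] at h
  have h0 : LinearMap.lTensor R mu w = 0 := by
    apply e.injective
    rw [h, map_zero]
  have : w = 0 := hmu' (by rw [h0, map_zero])
  rw [this, map_zero]

/-- If `I` is generated by polynomials in one set of variables and `g ≠ 0` only involves the other
variables, then `g` is a nonzerodivisor modulo `I`. -/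
lemma nzd_disjoint (t : Set σ) (G : Set (MvPolynomial σ k))
    (hG : ∀ g ∈ G, g ∈ supported k tᶜ) (g : MvPolynomial σ k) (hg : g ∈ supported k t)
    (hg0 : g ≠ 0) (n : MvPolynomial σ k) (h : g * n ∈ Ideal.span G) : n ∈ Ideal.span G := by
  classical
  let R0 := MvPolynomial (↥(tᶜ)) k
  let i0 : R0 →ₐ[k] MvPolynomial σ k := rename (fun v => (v : σ))
  let I0 : Ideal R0 := (Ideal.span G).comap i0
  let Phi : MvPolynomial σ k →ₐ[k] MvPolynomial t (R0 ⧸ I0) :=
    aeval (fun v => if hv : v ∈ t then X ⟨v, hv⟩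
      else C (Ideal.Quotient.mk I0 (X ⟨v, hv⟩)))
  let q : R0 ⧸ I0 →ₐ[k] MvPolynomial σ k ⧸ Ideal.span G :=
    Ideal.Quotient.liftₐ I0 ((Ideal.Quotient.mkₐ k (Ideal.span G)).comp i0) (by
      intro a ha
      have : i0 a ∈ Ideal.span G := ha
      simpa [Ideal.Quotient.eq_zero_iff_mem] using this)
  let Psi : MvPolynomial t (R0 ⧸ I0) →+* MvPolynomial σ k ⧸ Ideal.span G :=
    eval₂Hom q.toRingHom (fun v => Ideal.Quotient.mk _ (X (v : σ)))
  have hcomp : Psi.comp Phi.toRingHom = Ideal.Quotient.mk (Ideal.span G) := by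
    apply MvPolynomial.ringHom_ext
    · intro c
      simp only [Phi, Psi, RingHom.comp_apply, AlgHom.toRingHom_eq_coe, RingHom.coe_coe]
      rw [aeval_C, IsScalarTower.algebraMap_apply k (R0 ⧸ I0) (MvPolynomial t (R0 ⧸ I0)),
        MvPolynomial.algebraMap_eq, eval₂Hom_C]
      have := q.commutes c
      rw [RingHom.coe_coe, this]
      rfl
    · intro v
      simp only [Phi, Psi, RingHom.comp_apply, AlgHom.toRingHom_eq_coe, RingHom.coe_coe, aeval_X]
      by_cases hv : v ∈ t
      · simp [hv]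
      · simp only [hv, dite_false, eval₂Hom_C]
        change q (Ideal.Quotient.mk I0 _) = _
        have : q (Ideal.Quotient.mk I0 (X ⟨v, hv⟩)) =
          Ideal.Quotient.mk (Ideal.span G) (i0 (X ⟨v, hv⟩)) := rfl
        rw [this]
        exact congrArg _ (rename_X _ _)
  have hPsi : ∀ z, Psi (Phi z) = Ideal.Quotient.mk (Ideal.span G) z := fun z =>
    congrArg (fun f => f z) hcomp
  -- Phi kills G
  have hPhi0 : ∀ p : R0, Phi (i0 p) = C (Ideal.Quotient.mk I0 p) := by
    intro p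
    have : (Phi.comp i0) = (IsScalarTower.toAlgHom k (R0 ⧸ I0) (MvPolynomial t (R0 ⧸ I0))).comp
        (Ideal.Quotient.mkₐ k I0) := by
      apply MvPolynomial.algHom_ext
      intro v
      have hv : (v : σ) ∉ t := v.2
      simp [Phi, i0, hv, MvPolynomial.algebraMap_eq]
    have := congrArg (fun f => f p) this
    simpa using this
  have hker : Ideal.span G ≤ RingHom.ker Phi.toRingHom := by
    rw [Ideal.span_le]
    intro g' hg'
    obtain ⟨p, hp⟩ : ∃ p : R0, i0 p = g' := by
      have := hG g' hg'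
      rw [supported_eq_range_rename] at this
      exact this
    have h1 : p ∈ I0 := by
      change i0 p ∈ Ideal.span G
      rw [hp]; exact Ideal.subset_span hg'
    have : Phi g' = 0 := by
      rw [← hp, hPhi0, Ideal.Quotient.eq_zero_iff_mem.mpr h1, C_0]
    exact this
  obtain ⟨g0, hg0'⟩ : ∃ p : MvPolynomial t k, rename (Subtype.val : t → σ) p = g := by
    rw [supported_eq_range_rename] at hg
    exact hg
  have hg0ne : g0 ≠ 0 := by
    rintro rfl
    exact hg0 (by rw [← hg0', map_zero])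
  have hPhig : Phi g = map (algebraMap k (R0 ⧸ I0)) g0 := by
    rw [← hg0']
    have : (Phi.comp (rename (Subtype.val : t → σ))) = (MvPolynomial.mapAlgHom
        (Algebra.ofId k (R0 ⧸ I0))) := by
      apply MvPolynomial.algHom_ext
      intro v
      have hv : (v : σ) ∈ t := v.2
      simp [Phi, hv]
    have := congrArg (fun f => f g0) this
    simpa using this
  have h1 : Phi (g * n) = 0 := hker h
  rw [map_mul, hPhig] at h1
  have h2 : Phi n = 0 := nzd_map g0 hg0ne _ h1
  rw [← Ideal.Quotient.eq_zero_iff_mem, ← hPsi, h2, map_zero]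

/-- Adding a nonzero polynomial in fresh variables to the ideal preserves nonzerodivisors. -/
lemma nzd_add_disjoint (t : Set σ) (G : Set (MvPolynomial σ k))
    (hG : ∀ g ∈ G, g ∈ supported k tᶜ) (g : MvPolynomial σ k) (hg : g ∈ supported k t)
    (hg0 : g ≠ 0) (r : MvPolynomial σ k) (hr : r ∈ supported k tᶜ)
    (hrG : ∀ n, r * n ∈ Ideal.span G → n ∈ Ideal.span G)
    (n : MvPolynomial σ k) (h : r * n ∈ Ideal.span (insert g G)) :
    n ∈ Ideal.span (insert g G) := by
  rw [Ideal.mem_span_insert] at h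
  obtain ⟨a, z, hz, hrn⟩ := h
  -- g * a ∈ span (insert r G)
  have h1 : g * a ∈ Ideal.span (insert r G) := by
    rw [Ideal.mem_span_insert]
    exact ⟨n, -z, neg_mem hz, by linear_combination -hrn⟩
  have h2 : a ∈ Ideal.span (insert r G) := by
    refine nzd_disjoint t _ ?_ g hg hg0 a h1
    rintro g' (rfl | hg')
    · exact hr
    · exact hG _ hg'
  rw [Ideal.mem_span_insert] at h2
  obtain ⟨b, z', hz', hab⟩ := h2
  have h3 : r * (n - b * g) ∈ Ideal.span G := by
    have : r * (n - b * g) = z' * g + z := by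
      linear_combination hrn + g * hab
    rw [this]
    exact add_mem (Ideal.mul_mem_right _ _ hz') hz
  have h4 := hrG _ h3
  rw [Ideal.mem_span_insert]
  exact ⟨b, n - b * g, h4, by ring⟩

end NZD

section Minors

variable {k : Type*} [Field k] {ι : Type*}

/-- The `2 × 2` minor of the generic `2 × ι` matrix on the columns `J 0`, `J 1`. -/
noncomputable def mnr (k : Type*) [Field k] {ι : Type*} (J : Fin 2 → ι) :
    MvPolynomial (Fin 2 × ι) k :=
  X (0, J 0) * X (1, J 1) - X (0, J 1) * X (1, J 0)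

lemma mnr_mem_supported (J : Fin 2 → ι) (t : Set (Fin 2 × ι)) (ht : ∀ r c, (r, J c) ∈ t) :
    mnr k J ∈ supported k t := by
  unfold mnr
  refine sub_mem (mul_mem ?_ ?_) (mul_mem ?_ ?_) <;>
  exact X_mem_supported.mpr (ht _ _)

lemma mnr_ne_zero (J : Fin 2 → ι) (hJ : Function.Injective J) : mnr k J ≠ 0 := by
  classical
  intro h
  have h1 := congrArg (eval (fun v : Fin 2 × ι => if v.2 = J v.1 then (1 : k) else 0)) h
  have h01 : J 0 ≠ J 1 := fun e => by simpa using hJ e
  simp [mnr, h01, h01.symm] at h1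

/-- The span of the `m`-th powers of two minors on disjoint columns. -/
lemma nzd_two (J1 J2 : Fin 2 → ι) (hJ2 : Function.Injective J2)
    (hd : ∀ a b, J1 a ≠ J2 b) (m n : ℕ) (z : MvPolynomial (Fin 2 × ι) k)
    (h : mnr k J2 ^ n * z ∈ Ideal.span {mnr k J1 ^ m}) : z ∈ Ideal.span {mnr k J1 ^ m} := by
  refine nzd_disjoint {v | ∃ b, v.2 = J2 b} _ ?_ _ ?_ ?_ z h
  · rintro g rfl
    exact pow_mem (mnr_mem_supported _ _ (by rintro r c ⟨b, hb⟩; exact hd _ _ hb)) _
  · exact pow_mem (mnr_mem_supported _ _ (fun r c => by exact ⟨c, rfl⟩)) _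
  · exact pow_ne_zero _ (mnr_ne_zero _ hJ2)

lemma nzd_three (J1 J2 J3 : Fin 2 → ι) (hJ3 : Function.Injective J3)
    (hd1 : ∀ a b, J1 a ≠ J3 b) (hd2 : ∀ a b, J2 a ≠ J3 b) (m n : ℕ)
    (z : MvPolynomial (Fin 2 × ι) k)
    (h : mnr k J3 ^ n * z ∈ Ideal.span {mnr k J1 ^ m, mnr k J2 ^ m}) :
    z ∈ Ideal.span {mnr k J1 ^ m, mnr k J2 ^ m} := by
  refine nzd_disjoint {v | ∃ b, v.2 = J3 b} _ ?_ _ ?_ ?_ z h
  · rintro g (rfl | rfl)
    · exact pow_mem (mnr_mem_supported _ _ (by rintro r c ⟨b, hb⟩; exact hd1 _ _ hb)) _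
    · exact pow_mem (mnr_mem_supported _ _ (by rintro r c ⟨b, hb⟩; exact hd2 _ _ hb)) _
  · exact pow_mem (mnr_mem_supported _ _ (fun r c => by exact ⟨c, rfl⟩)) _
  · exact pow_ne_zero _ (mnr_ne_zero _ hJ3)

lemma mnr_irreducible (J : Fin 2 → ι) (hJ : Function.Injective J) : Irreducible (mnr k J) := by
  classical
  have h01 : J 0 ≠ J 1 := fun e => by simpa using hJ e
  have h := irreducible_mul_X_add (R := k) (n := Fin 2 × ι) (X (0, J 0))
    (-(X (0, J 1) * X (1, J 0))) (1, J 1) (X_ne_zero _) (by simp [vars_X]) (by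
      rw [vars_neg]
      intro h
      have := vars_mul _ _ h
      simp [vars_X, h01.symm] at this) (by
      -- relatively prime: X (0,J 0) is irreducible and does not divide
      rw [IsRelPrime.neg_right_iff]
      have hirr : ∀ v : Fin 2 × ι, Irreducible (X v : MvPolynomial (Fin 2 × ι) k) := by
        intro v
        have := irreducible_mul_X_add (R := k) (n := Fin 2 × ι) 1 0 v one_ne_zero
          (by simp) (by simp) isRelPrime_one_left
        simpa using this
      intro d hd1 hd2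
      rcases (hirr _).dvd_iff.mp hd1 with hu | hass
      · exact hu
      · exfalso
        have h3 : X (0, J 0) ∣ (X (0, J 1) * X (1, J 0) : MvPolynomial (Fin 2 × ι) k) :=
          hass.dvd.trans hd2
        have := map_dvd (eval (fun v : Fin 2 × ι => if v = (0, J 0) then (0 : k) else 1)) h3
        simp [h01.symm] at this)
  have e : mnr k J = X (0, J 0) * X (1, J 1) + -(X (0, J 1) * X (1, J 0)) := by
    unfold mnr; ring
  rw [e]; exact h

lemma nzd_pow_left {R : Type*} [CommRing R] (I : Ideal R) (r : R)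
    (h : ∀ n, r * n ∈ I → n ∈ I) (m : ℕ) : ∀ n, r ^ m * n ∈ I → n ∈ I := by
  induction m with
  | zero => intro n hn; simpa using hn
  | succ m ih =>
    intro n hn
    rw [pow_succ, mul_assoc] at hn
    exact h _ (ih _ hn)

/-- The minor `Δ_{J'}` is a nonzerodivisor modulo `(f_1^m)` when `J1` is not contained in `J'`. -/
lemma nzd_one (J1 J' : Fin 2 → ι) (hJ1 : Function.Injective J1) (hJ' : Function.Injective J')
    (c : Fin 2) (hc : ∀ d, J1 c ≠ J' d) (m : ℕ) (z : MvPolynomial (Fin 2 × ι) k)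
    (h : mnr k J' * z ∈ Ideal.span {mnr k J1 ^ m}) : z ∈ Ideal.span {mnr k J1 ^ m} := by
  classical
  have h01 : J' 0 ≠ J' 1 := fun e => by simpa using hJ' e
  rw [Ideal.mem_span_singleton] at h ⊢
  have hrel : IsRelPrime (mnr k J1 ^ m) (mnr k J') := by
    apply IsRelPrime.pow_left
    intro d hd1 hd2
    rcases (mnr_irreducible (k := k) J1 hJ1).dvd_iff.mp hd1 with hu | hass
    · exact hu
    · exfalso
      have h3 : mnr k J1 ∣ mnr k J' := hass.dvd.trans hd2
      have := map_dvd (eval (fun v : Fin 2 × ι => if v.2 = J' v.1 then (1 : k) else 0)) h3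
      have h4 : eval (fun v : Fin 2 × ι => if v.2 = J' v.1 then (1 : k) else 0) (mnr k J1) = 0 := by
        have hc0 := hc 0
        have hc1 := hc 1
        fin_cases c
        · simp only [Fin.zero_eta] at hc0 hc1
          simp [mnr, hc0, hc1]
        · simp only [Fin.mk_one] at hc0 hc1
          simp [mnr, hc0, hc1]
      rw [h4] at this
      simp [mnr, h01, h01.symm] at this
  exact hrel.dvd_of_dvd_mul_left h

/-- Key nonzerodivisor statement: `Δ_{J'}` is a nonzerodivisor modulo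
`(f_1^m, f_2^m, f_3^m)`. -/
lemma nzd_key (J1 J2 J3 J' : Fin 2 → ι) (hJ1 : Function.Injective J1)
    (hJ2 : Function.Injective J2) (hJ3 : Function.Injective J3) (hJ' : Function.Injective J')
    (h12 : ∀ a b, J1 a ≠ J2 b) (h13 : ∀ a b, J1 a ≠ J3 b) (h23 : ∀ a b, J2 a ≠ J3 b)
    (h'2 : ∀ a b, J' a ≠ J2 b) (h'3 : ∀ a b, J' a ≠ J3 b)
    (c : Fin 2) (hc : ∀ d, J1 c ≠ J' d) (m : ℕ) (z : MvPolynomial (Fin 2 × ι) k)
    (h : mnr k J' * z ∈ Ideal.span {mnr k J3 ^ m, mnr k J2 ^ m, mnr k J1 ^ m}) :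
    z ∈ Ideal.span {mnr k J3 ^ m, mnr k J2 ^ m, mnr k J1 ^ m} := by
  refine nzd_add_disjoint {v | ∃ b, v.2 = J3 b} {mnr k J2 ^ m, mnr k J1 ^ m} ?_ (mnr k J3 ^ m)
    ?_ ?_ (mnr k J') ?_ ?_ z h
  · rintro g (rfl | rfl)
    · exact pow_mem (mnr_mem_supported _ _ (by rintro r c ⟨b, hb⟩; exact h23 _ _ hb)) _
    · exact pow_mem (mnr_mem_supported _ _ (by rintro r c ⟨b, hb⟩; exact h13 _ _ hb)) _
  · exact pow_mem (mnr_mem_supported _ _ (fun r c => by exact ⟨c, rfl⟩)) _
  · exact pow_ne_zero _ (mnr_ne_zero _ hJ3)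
  · exact mnr_mem_supported _ _ (by rintro r c ⟨b, hb⟩; exact h'3 _ _ hb)
  · intro z hz
    refine nzd_add_disjoint {v | ∃ b, v.2 = J2 b} {mnr k J1 ^ m} ?_ (mnr k J2 ^ m)
      ?_ ?_ (mnr k J') ?_ ?_ z hz
    · rintro g rfl
      exact pow_mem (mnr_mem_supported _ _ (by rintro r c ⟨b, hb⟩; exact h12 _ _ hb)) _
    · exact pow_mem (mnr_mem_supported _ _ (fun r c => by exact ⟨c, rfl⟩)) _
    · exact pow_ne_zero _ (mnr_ne_zero _ hJ2)
    · exact mnr_mem_supported _ _ (by rintro r c ⟨b, hb⟩; exact h'2 _ _ hb)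
    · exact fun z hz => nzd_one J1 J' hJ1 hJ' c hc m z hz

end Minors

end Pool.Agent.Totaro

end

/-! ## Loc -/

section

set_option linter.unusedSectionVars false

namespace Pool.Agent.Totaro

open MvPolynomial

/-- The coordinate ring `k[x_{ri}]` of `2 × ι` matrices. -/
abbrev SS (k : Type*) [Field k] (ι : Type*) := MvPolynomial (Fin 2 × ι) k

section Comp

variable {k : Type*} [Field k] {σ : Type*} {M : Type*} [AddCommGroup M]

lemma comp_mul_right (w : σ → M) {q : MvPolynomial σ k} {n : M}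
    (hq : IsWeightedHomogeneous w q n) (p : MvPolynomial σ k) (m : M) :
    weightedHomogeneousComponent w (m + n) (p * q) = weightedHomogeneousComponent w m p * q := by
  classical
  let := weightedGradedAlgebra k w
  have h := DirectSum.coe_decompose_mul_add_of_right_mem (weightedHomogeneousSubmodule k w)
    (i := m) (j := n) (a := p) (b := q) ((mem_weightedHomogeneousSubmodule k w n q).mpr hq)
  have e1 : ∀ (φ : MvPolynomial σ k) (m : M),
      (DirectSum.decompose (weightedHomogeneousSubmodule k w) φ m : MvPolynomial σ k) =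
        weightedHomogeneousComponent w m φ := by
    intro φ m
    exact weightedDecomposition.decompose'_apply k w φ m
  rw [e1, e1] at h
  exact h

lemma IsWeightedHomogeneous.of_mul_right {w : σ → M} {p q : MvPolynomial σ k} {m n : M}
    (hq : IsWeightedHomogeneous w q n) (hq0 : q ≠ 0)
    (hpq : IsWeightedHomogeneous w (p * q) (m + n)) : IsWeightedHomogeneous w p m := by
  have h := comp_mul_right w hq p m
  rw [hpq.weightedHomogeneousComponent_same] at h
  have h2 : p = weightedHomogeneousComponent w m p := mul_right_cancel₀ hq0 h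
  rw [h2]
  exact weightedHomogeneousComponent_isWeightedHomogeneous m p

end Comp

section Loc

variable {k : Type*} [Field k] {ι : Type*}

/-- The product of the minors indexed by a multiset. -/
noncomputable def fprod (k : Type*) [Field k] {ι : Type*} (Js : Multiset (Fin 2 → ι)) : SS k ι :=
  (Js.map (mnr k)).prod

@[simp] lemma fprod_zero : fprod k (0 : Multiset (Fin 2 → ι)) = 1 := by simp [fprod]

@[simp] lemma fprod_singleton (J : Fin 2 → ι) : fprod k {J} = mnr k J := by simp [fprod]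

lemma fprod_add (Js Ks : Multiset (Fin 2 → ι)) :
    fprod k (Js + Ks) = fprod k Js * fprod k Ks := by
  simp [fprod]

lemma fprod_ne_zero (Js : Multiset (Fin 2 → ι)) (h : ∀ J ∈ Js, Function.Injective J) :
    fprod k Js ≠ 0 := by
  unfold fprod
  apply Multiset.prod_ne_zero
  intro h0
  rw [Multiset.mem_map] at h0
  obtain ⟨J, hJ, hJ0⟩ := h0
  exact mnr_ne_zero J (h J hJ) hJ0

variable (F : Type*) [Field F] [Algebra k F]
  [Algebra (SS k ι) F] [IsScalarTower k (SS k ι) F]
  [IsFractionRing (SS k ι) F]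

/-- `S[1/f_J : J ∈ Js]` as a subalgebra of the fraction field `F`. -/
def Rsub (Js : Multiset (Fin 2 → ι)) : Subalgebra k F where
  carrier := {z | ∃ (n : ℕ) (s : SS k ι),
    z * algebraMap (SS k ι) F (fprod k Js) ^ n = algebraMap (SS k ι) F s}
  mul_mem' := by
    rintro a b ⟨n, s, hs⟩ ⟨m, t, ht⟩
    refine ⟨n + m, s * t, ?_⟩
    rw [map_mul, ← hs, ← ht, pow_add]; ring
  add_mem' := by
    rintro a b ⟨n, s, hs⟩ ⟨m, t, ht⟩
    refine ⟨n + m, s * fprod k Js ^ m + t * fprod k Js ^ n, ?_⟩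
    rw [map_add, map_mul, map_mul, ← hs, ← ht, map_pow, map_pow, pow_add]; ring
  algebraMap_mem' := fun c => ⟨0, algebraMap k _ c, by
    rw [pow_zero, mul_one, ← IsScalarTower.algebraMap_apply]⟩

variable {F}

lemma mem_Rsub {Js : Multiset (Fin 2 → ι)} {z : F} : z ∈ Rsub (k := k) F Js ↔
    ∃ (n : ℕ) (s : SS k ι),
      z * algebraMap (SS k ι) F (fprod k Js) ^ n = algebraMap (SS k ι) F s := Iff.rfl

lemma algebraMap_mem_Rsub (Js : Multiset (Fin 2 → ι)) (s : SS k ι) :
    algebraMap (SS k ι) F s ∈ Rsub (k := k) F Js := ⟨0, s, by simp⟩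

lemma Rsub_mono {Js Ks : Multiset (Fin 2 → ι)} (h : Js ≤ Ks) :
    Rsub (k := k) F Js ≤ Rsub (k := k) F Ks := by
  obtain ⟨Ls, rfl⟩ := Multiset.le_iff_exists_add.mp h
  rintro z ⟨n, s, hs⟩
  refine ⟨n, s * fprod k Ls ^ n, ?_⟩
  rw [fprod_add, map_mul, map_mul, mul_pow, ← mul_assoc, hs, map_pow]

/-- raising the exponent -/
lemma exists_num_ge {Js : Multiset (Fin 2 → ι)} {z : F} {n m : ℕ} {s : SS k ι} (hnm : n ≤ m)
    (h : z * algebraMap (SS k ι) F (fprod k Js) ^ n = algebraMap (SS k ι) F s) :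
    z * algebraMap (SS k ι) F (fprod k Js) ^ m =
      algebraMap (SS k ι) F (s * fprod k Js ^ (m - n)) := by
  rw [map_mul, ← h, map_pow, mul_assoc, ← pow_add, Nat.add_sub_cancel' hnm]

variable {M : Type*} [AddCommGroup M]

/-- `z` is a homogeneous rational function of degree `d` for the grading in which the variables in
row `r` have weight `wt r`. -/
def HasDeg (k : Type*) [Field k] (ι : Type*) {F : Type*} [Field F] [Algebra (SS k ι) F]
    (wt : Fin 2 → M) (d : M) (z : F) : Prop :=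
  ∃ (s t : SS k ι) (a : M), t ≠ 0 ∧ IsWeightedHomogeneous (fun v => wt v.1) s (a + d) ∧
    IsWeightedHomogeneous (fun v => wt v.1) t a ∧
    z * algebraMap (SS k ι) F t = algebraMap (SS k ι) F s

variable (wt : Fin 2 → M)

lemma mnr_homog (J : Fin 2 → ι) :
    IsWeightedHomogeneous (fun v : Fin 2 × ι => wt v.1) (mnr k J) (wt 0 + wt 1) := by
  unfold mnr
  apply IsWeightedHomogeneous.sub
  · exact (isWeightedHomogeneous_X k _ (0, J 0)).mul (isWeightedHomogeneous_X k _ (1, J 1))
  · exact (isWeightedHomogeneous_X k _ (0, J 1)).mul (isWeightedHomogeneous_X k _ (1, J 0))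

lemma fprod_homog (Js : Multiset (Fin 2 → ι)) :
    IsWeightedHomogeneous (fun v : Fin 2 × ι => wt v.1) (fprod k Js)
      (Multiset.card Js • (wt 0 + wt 1)) := by
  induction Js using Multiset.induction_on with
  | empty => simpa using isWeightedHomogeneous_one k _
  | cons J Js ih =>
    rw [← Multiset.singleton_add, fprod_add, fprod_singleton, Multiset.card_add,
      Multiset.card_singleton, add_smul, one_smul]
    exact (mnr_homog wt J).mul ih

namespace HasDeg

variable {wt}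

lemma of_homog {s : SS k ι} {d : M} (h : IsWeightedHomogeneous (fun v => wt v.1) s d) :
    HasDeg k ι wt d (algebraMap (SS k ι) F s) :=
  ⟨s, 1, 0, one_ne_zero, by simpa using h, isWeightedHomogeneous_one k _, by simp⟩

lemma zero {d : M} : HasDeg k ι wt d (0 : F) :=
  ⟨0, 1, 0, one_ne_zero, isWeightedHomogeneous_zero k _ _, isWeightedHomogeneous_one k _, by simp⟩

lemma one : HasDeg k ι wt 0 (1 : F) :=
  ⟨1, 1, 0, one_ne_zero, by simpa using isWeightedHomogeneous_one k _,
    isWeightedHomogeneous_one k _, by simp⟩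

lemma mul {d e : M} {z w : F} (hz : HasDeg k ι wt d z) (hw : HasDeg k ι wt e w) :
    HasDeg k ι wt (d + e) (z * w) := by
  obtain ⟨s, t, a, ht, hs1, ht1, h1⟩ := hz
  obtain ⟨s', t', a', ht', hs1', ht1', h1'⟩ := hw
  refine ⟨s * s', t * t', a + a', mul_ne_zero ht ht', ?_, ht1.mul ht1', ?_⟩
  · have := hs1.mul hs1'
    rwa [show a + d + (a' + e) = a + a' + (d + e) by abel] at this
  · rw [map_mul, map_mul, ← h1, ← h1']; ring

lemma add {d : M} {z w : F} (hz : HasDeg k ι wt d z) (hw : HasDeg k ι wt d w) :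
    HasDeg k ι wt d (z + w) := by
  obtain ⟨s, t, a, ht, hs1, ht1, h1⟩ := hz
  obtain ⟨s', t', a', ht', hs1', ht1', h1'⟩ := hw
  refine ⟨s * t' + s' * t, t * t', a + a', mul_ne_zero ht ht', ?_, ht1.mul ht1', ?_⟩
  · apply IsWeightedHomogeneous.add
    · have := hs1.mul ht1'
      rwa [show a + d + a' = a + a' + d by abel] at this
    · have := hs1'.mul ht1
      rwa [show a' + d + a = a + a' + d by abel] at this
  · rw [map_mul, map_add, map_mul, map_mul, ← h1, ← h1']; ring

lemma neg {d : M} {z : F} (hz : HasDeg k ι wt d z) : HasDeg k ι wt d (-z) := by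
  obtain ⟨s, t, a, ht, hs1, ht1, h1⟩ := hz
  exact ⟨-s, t, a, ht, by simpa using hs1.C_mul (-1), ht1, by rw [map_neg, ← h1]; ring⟩

lemma sub {d : M} {z w : F} (hz : HasDeg k ι wt d z) (hw : HasDeg k ι wt d w) :
    HasDeg k ι wt d (z - w) := by
  rw [sub_eq_add_neg]; exact hz.add hw.neg

lemma sum {J : Type*} (T : Finset J) {d : M} (f : J → F) (h : ∀ j ∈ T, HasDeg k ι wt d (f j)) :
    HasDeg k ι wt d (∑ j ∈ T, f j) := by
  classical
  induction T using Finset.induction_on with
  | empty => simpa using zero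
  | insert a T ha ih =>
    rw [Finset.sum_insert ha]
    exact (h a (Finset.mem_insert_self _ _)).add
      (ih fun j hj => h j (Finset.mem_insert_of_mem hj))

lemma inv {d : M} {z : F} (hz : HasDeg k ι wt d z) : HasDeg k ι wt (-d) z⁻¹ := by
  by_cases hz0 : z = 0
  · subst hz0; rw [inv_zero]; exact zero
  obtain ⟨s, t, a, ht, hs1, ht1, h1⟩ := hz
  have hinj : Function.Injective (algebraMap (SS k ι) F) := IsFractionRing.injective _ _
  have hs0 : s ≠ 0 := by
    rintro rfl
    rw [map_zero, mul_eq_zero] at h1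
    rcases h1 with h1 | h1
    · exact hz0 h1
    · exact ht (hinj (by rw [h1, map_zero]))
  refine ⟨t, s, a + d, hs0, by simpa using ht1, hs1, ?_⟩
  rw [← h1, inv_mul_cancel_left₀ hz0]

lemma map {M' : Type*} [AddCommGroup M'] (φ : M →+ M') {wt' : Fin 2 → M'}
    (hφ : ∀ r, φ (wt r) = wt' r) {d : M} {z : F}
    (hz : HasDeg k ι wt d z) : HasDeg k ι wt' (φ d) z := by
  obtain ⟨s, t, a, ht, hs1, ht1, h1⟩ := hz
  have key : ∀ (s : SS k ι) (d : M), IsWeightedHomogeneous (fun v => wt v.1) s d →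
      IsWeightedHomogeneous (fun v => wt' v.1) s (φ d) := by
    intro s d hs m hm
    have := hs hm
    rw [← this]
    simp only [Finsupp.weight_apply, Finsupp.sum, map_sum, map_nsmul, hφ]
  exact ⟨s, t, φ a, ht, by simpa using key _ _ hs1, key _ _ ht1, h1⟩

end HasDeg

/-- In `Rsub Js`, a homogeneous element has a homogeneous numerator. -/
lemma HasDeg.numerator {wt : Fin 2 → M} {Js : Multiset (Fin 2 → ι)} {d : M} {z : F}
    (hz : HasDeg k ι wt d z) {n : ℕ} {s : SS k ι}
    (h : z * algebraMap (SS k ι) F (fprod k Js) ^ n = algebraMap (SS k ι) F s) :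
    IsWeightedHomogeneous (fun v => wt v.1) s (n • (Multiset.card Js • (wt 0 + wt 1)) + d) := by
  obtain ⟨s', t, a, ht, hs1, ht1, h1⟩ := hz
  have hinj : Function.Injective (algebraMap (SS k ι) F) := IsFractionRing.injective _ _
  have e : s * t = s' * fprod k Js ^ n := by
    apply hinj
    rw [map_mul, map_mul, ← h, ← h1, map_pow]; ring
  apply IsWeightedHomogeneous.of_mul_right ht1 ht
  rw [e]
  have := hs1.mul ((fprod_homog wt Js).pow n)
  rwa [show a + d + n • (Multiset.card Js • (wt 0 + wt 1)) =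
    n • (Multiset.card Js • (wt 0 + wt 1)) + d + a by abel] at this

lemma Rsub_zero {z : F} (hz : z ∈ Rsub (k := k) F (0 : Multiset (Fin 2 → ι))) :
    ∃ s : SS k ι, z = algebraMap (SS k ι) F s := by
  obtain ⟨n, s, hs⟩ := hz
  exact ⟨s, by simpa using hs⟩

/-- (R0) `R_{J ∪ 1} ∩ R_{J ∪ 2} = R_J` for disjoint columns. -/
lemma Rsub_inter (Js : Multiset (Fin 2 → ι)) (J1 J2 : Fin 2 → ι) (hJ1 : Function.Injective J1) (hJ2 : Function.Injective J2)
    (h12 : ∀ a b, J1 a ≠ J2 b) {z : F}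
    (hz1 : z ∈ Rsub (k := k) F (Js + {J1})) (hz2 : z ∈ Rsub (k := k) F (Js + {J2})) :
    z ∈ Rsub (k := k) F Js := by
  obtain ⟨n, s, hs⟩ := hz1
  obtain ⟨m, t, ht⟩ := hz2
  have hinj : Function.Injective (algebraMap (SS k ι) F) := IsFractionRing.injective _ _
  rw [fprod_add, fprod_singleton] at hs ht
  have e : mnr k J2 ^ m * (fprod k Js ^ m * s) = t * fprod k Js ^ n * mnr k J1 ^ n := by
    apply hinj
    simp only [map_mul, map_pow]
    rw [← hs, ← ht]; simp only [map_mul]; ring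
  have h1 : fprod k Js ^ m * s ∈ Ideal.span {mnr k J1 ^ n} := by
    refine nzd_two J1 J2 hJ2 h12 n m _ ?_
    rw [e]
    exact Ideal.mul_mem_left _ _ (Ideal.subset_span rfl)
  rw [Ideal.mem_span_singleton'] at h1
  obtain ⟨u, hu⟩ := h1
  refine ⟨n + m, u, ?_⟩
  have hf1 : algebraMap (SS k ι) F (mnr k J1) ^ n ≠ 0 := by
    apply pow_ne_zero
    intro h
    exact mnr_ne_zero (k := k) J1 hJ1 (hinj (by rw [h, map_zero]))
  apply mul_right_cancel₀ hf1
  have e' := congrArg (algebraMap (SS k ι) F) hu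
  simp only [map_mul, map_pow] at e' hs ⊢
  rw [e', ← hs, pow_add]
  ring

variable {wt}

/-- (R1) vanishing of the Čech `H^1` for three minors on disjoint columns, graded version. -/
lemma cech_one (J1 J2 J3 : Fin 2 → ι) (hJ1 : Function.Injective J1) (hJ2 : Function.Injective J2)
    (hJ3 : Function.Injective J3) (h12 : ∀ a b, J1 a ≠ J2 b) (h13 : ∀ a b, J1 a ≠ J3 b)
    (h23 : ∀ a b, J2 a ≠ J3 b) {d : M} {a12 a23 a13 : F}
    (m12 : a12 ∈ Rsub (k := k) F ({J1} + {J2})) (m13 : a13 ∈ Rsub (k := k) F ({J1} + {J3}))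
    (m23 : a23 ∈ Rsub (k := k) F ({J2} + {J3}))
    (d12 : HasDeg k ι wt d a12) (d13 : HasDeg k ι wt d a13) (h : a12 + a23 = a13) :
    ∃ a1 a2 a3 : F, a1 ∈ Rsub (k := k) F {J1} ∧ a2 ∈ Rsub (k := k) F {J2} ∧
      a3 ∈ Rsub (k := k) F {J3} ∧ HasDeg k ι wt d a1 ∧ HasDeg k ι wt d a2 ∧
      HasDeg k ι wt d a3 ∧ a12 = a1 - a2 ∧ a13 = a1 - a3 ∧ a23 = a2 - a3 := by
  have hinj : Function.Injective (algebraMap (SS k ι) F) := IsFractionRing.injective _ _
  have hne : ∀ J : Fin 2 → ι, Function.Injective J → algebraMap (SS k ι) F (mnr k J) ≠ 0 := by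
    intro J hJ h
    exact mnr_ne_zero (k := k) J hJ (hinj (by rw [h, map_zero]))
  obtain ⟨n1, s1, hs1⟩ := id m12
  obtain ⟨n2, s2, hs2⟩ := id m13
  obtain ⟨n3, s3, hs3⟩ := id m23
  obtain ⟨n, hn1, hn2, hn3⟩ : ∃ n, n1 ≤ n ∧ n2 ≤ n ∧ n3 ≤ n :=
    ⟨n1 + n2 + n3, by omega, by omega, by omega⟩
  have e1 := exists_num_ge hn1 hs1
  have e2 := exists_num_ge hn2 hs2
  have e3 := exists_num_ge hn3 hs3
  generalize s1 * fprod k ({J1} + {J2}) ^ (n - n1) = t12 at e1
  generalize s2 * fprod k ({J1} + {J3}) ^ (n - n2) = t13 at e2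
  generalize s3 * fprod k ({J2} + {J3}) ^ (n - n3) = t23 at e3
  have g12 := d12.numerator e1
  rw [fprod_add, fprod_singleton, fprod_singleton, map_mul] at e1 e2 e3
  have rel : mnr k J3 ^ n * t12 = t13 * mnr k J2 ^ n - t23 * mnr k J1 ^ n := by
    apply hinj
    rw [map_mul, map_sub, map_mul, map_mul, ← e1, ← e2, ← e3, ← h]
    simp only [map_pow]
    ring
  have hmem : t12 ∈ Ideal.span {mnr k J1 ^ n, mnr k J2 ^ n} := by
    refine nzd_three J1 J2 J3 hJ3 h13 h23 n n _ ?_
    rw [rel]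
    exact sub_mem (Ideal.mul_mem_left _ _ (Ideal.subset_span (by simp)))
      (Ideal.mul_mem_left _ _ (Ideal.subset_span (by simp)))
  rw [Ideal.mem_span_pair] at hmem
  obtain ⟨u, v, huv⟩ := hmem
  -- homogeneous components
  set D := n • (wt 0 + wt 1) + d with hD
  set u' := weightedHomogeneousComponent (fun v : Fin 2 × ι => wt v.1) D u with hu'
  set v' := weightedHomogeneousComponent (fun v : Fin 2 × ι => wt v.1) D v with hv'
  have huv' : u' * mnr k J1 ^ n + v' * mnr k J2 ^ n = t12 := by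
    rw [hu', hv', ← comp_mul_right _ ((mnr_homog wt J1).pow n),
      ← comp_mul_right _ ((mnr_homog wt J2).pow n), ← map_add, huv]
    have : D + n • (wt 0 + wt 1) =
        n • (Multiset.card ({J1} + {J2} : Multiset (Fin 2 → ι)) • (wt 0 + wt 1)) + d := by
      simp only [Multiset.card_add, Multiset.card_singleton, hD, add_smul, one_smul, smul_add]
      abel
    rw [this]
    exact g12.weightedHomogeneousComponent_same
  set a1 : F := algebraMap (SS k ι) F v' / algebraMap (SS k ι) F (mnr k J1) ^ n with ha1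
  set a2 : F := -(algebraMap (SS k ι) F u' / algebraMap (SS k ι) F (mnr k J2) ^ n) with ha2
  have hpow : ∀ J : Fin 2 → ι, Function.Injective J →
      algebraMap (SS k ι) F (mnr k J) ^ n ≠ 0 := fun J hJ => pow_ne_zero _ (hne J hJ)
  have m1 : a1 ∈ Rsub (k := k) F {J1} :=
    ⟨n, v', by rw [fprod_singleton, ha1, div_mul_cancel₀ _ (hpow J1 hJ1)]⟩
  have m2 : a2 ∈ Rsub (k := k) F {J2} :=
    neg_mem ⟨n, u', by rw [fprod_singleton, div_mul_cancel₀ _ (hpow J2 hJ2)]⟩
  have hdg : ∀ (w : SS k ι) (J : Fin 2 → ι), Function.Injective J →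
      IsWeightedHomogeneous (fun v : Fin 2 × ι => wt v.1) w D →
      HasDeg k ι wt d (algebraMap (SS k ι) F w / algebraMap (SS k ι) F (mnr k J) ^ n) := by
    intro w J hJ hw
    refine ⟨w, mnr k J ^ n, n • (wt 0 + wt 1), pow_ne_zero _ (mnr_ne_zero J hJ), hw,
      (mnr_homog wt J).pow n, ?_⟩
    rw [map_pow, div_mul_cancel₀ _ (hpow J hJ)]
  have dg1 : HasDeg k ι wt d a1 :=
    hdg _ _ hJ1 (weightedHomogeneousComponent_isWeightedHomogeneous _ _)
  have dg2 : HasDeg k ι wt d a2 :=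
    (hdg _ _ hJ2 (weightedHomogeneousComponent_isWeightedHomogeneous _ _)).neg
  have r12 : a12 = a1 - a2 := by
    have h1 := hpow J1 hJ1
    have h2 := hpow J2 hJ2
    have e1' : a12 * (algebraMap (SS k ι) F (mnr k J1) ^ n *
        algebraMap (SS k ι) F (mnr k J2) ^ n) =
        algebraMap (SS k ι) F u' * algebraMap (SS k ι) F (mnr k J1) ^ n +
        algebraMap (SS k ι) F v' * algebraMap (SS k ι) F (mnr k J2) ^ n := by
      have := congrArg (algebraMap (SS k ι) F) huv'
      rw [map_add, map_mul, map_mul, map_pow, map_pow, ← e1, mul_pow] at this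
      exact this.symm
    rw [ha1, ha2, sub_neg_eq_add, div_add_div _ _ h1 h2, eq_div_iff (mul_ne_zero h1 h2), e1']
    ring
  refine ⟨a1, a2, a1 - a13, m1, m2, ?_, dg1, dg2, dg1.sub d13, r12, by ring, ?_⟩
  · -- a3 in R_3
    apply Rsub_inter {J3} J1 J2 hJ1 hJ2 h12
    · rw [add_comm]
      exact sub_mem (Rsub_mono (by simp) m1) m13
    · have : a1 - a13 = a2 - a23 := by rw [← h, r12]; ring
      rw [this, add_comm]
      exact sub_mem (Rsub_mono (by simp) m2) m23
  · rw [← h, r12]; ring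

/-- (R2) graded version: if `Δ_{J'} a ∈ R_12 + R_13 + R_23` then `a ∈ R_12 + R_13 + R_23`. -/
lemma cech_two (J1 J2 J3 J' : Fin 2 → ι) (hJ1 : Function.Injective J1)
    (hJ2 : Function.Injective J2) (hJ3 : Function.Injective J3) (hJ' : Function.Injective J')
    (h12 : ∀ a b, J1 a ≠ J2 b) (h13 : ∀ a b, J1 a ≠ J3 b) (h23 : ∀ a b, J2 a ≠ J3 b)
    (h'2 : ∀ a b, J' a ≠ J2 b) (h'3 : ∀ a b, J' a ≠ J3 b)
    (c : Fin 2) (hc : ∀ d, J1 c ≠ J' d) {d : M} {a b12 b13 b23 : F}
    (ma : a ∈ Rsub (k := k) F ({J1} + {J2} + {J3})) (da : HasDeg k ι wt d a)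
    (m12 : b12 ∈ Rsub (k := k) F ({J1} + {J2})) (m13 : b13 ∈ Rsub (k := k) F ({J1} + {J3}))
    (m23 : b23 ∈ Rsub (k := k) F ({J2} + {J3}))
    (h : algebraMap (SS k ι) F (mnr k J') * a = b12 + b13 + b23) :
    ∃ a12 a13 a23 : F, a12 ∈ Rsub (k := k) F ({J1} + {J2}) ∧
      a13 ∈ Rsub (k := k) F ({J1} + {J3}) ∧ a23 ∈ Rsub (k := k) F ({J2} + {J3}) ∧
      HasDeg k ι wt d a12 ∧ HasDeg k ι wt d a13 ∧ HasDeg k ι wt d a23 ∧
      a = a12 + a13 + a23 := by
  have hinj : Function.Injective (algebraMap (SS k ι) F) := IsFractionRing.injective _ _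
  have hne : ∀ J : Fin 2 → ι, Function.Injective J → algebraMap (SS k ι) F (mnr k J) ≠ 0 := by
    intro J hJ h
    exact mnr_ne_zero (k := k) J hJ (hinj (by rw [h, map_zero]))
  obtain ⟨n0, s0, hs0⟩ := id ma
  obtain ⟨n1, s1, hs1⟩ := id m12
  obtain ⟨n2, s2, hs2⟩ := id m13
  obtain ⟨n3, s3, hs3⟩ := id m23
  obtain ⟨n, hn0, hn1, hn2, hn3⟩ : ∃ n, n0 ≤ n ∧ n1 ≤ n ∧ n2 ≤ n ∧ n3 ≤ n :=
    ⟨n0 + n1 + n2 + n3, by omega, by omega, by omega, by omega⟩
  have e0 := exists_num_ge hn0 hs0
  have e1 := exists_num_ge hn1 hs1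
  have e2 := exists_num_ge hn2 hs2
  have e3 := exists_num_ge hn3 hs3
  generalize s0 * fprod k ({J1} + {J2} + {J3}) ^ (n - n0) = t0 at e0
  generalize s1 * fprod k ({J1} + {J2}) ^ (n - n1) = t12 at e1
  generalize s2 * fprod k ({J1} + {J3}) ^ (n - n2) = t13 at e2
  generalize s3 * fprod k ({J2} + {J3}) ^ (n - n3) = t23 at e3
  have g0 := da.numerator e0
  rw [fprod_add, fprod_add, fprod_singleton, fprod_singleton, fprod_singleton, map_mul,
    map_mul] at e0
  rw [fprod_add, fprod_singleton, fprod_singleton, map_mul] at e1 e2 e3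
  have rel : mnr k J' * t0 = t12 * mnr k J3 ^ n + t13 * mnr k J2 ^ n + t23 * mnr k J1 ^ n := by
    apply hinj
    rw [map_mul, map_add, map_add, map_mul, map_mul, map_mul, ← e0, ← e1, ← e2, ← e3,
      ← mul_assoc, h]
    simp only [map_pow]
    ring
  have hmem : t0 ∈ Ideal.span {mnr k J3 ^ n, mnr k J2 ^ n, mnr k J1 ^ n} := by
    refine nzd_key J1 J2 J3 J' hJ1 hJ2 hJ3 hJ' h12 h13 h23 h'2 h'3 c hc n _ ?_
    rw [rel]
    exact add_mem (add_mem (Ideal.mul_mem_left _ _ (Ideal.subset_span (by simp)))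
      (Ideal.mul_mem_left _ _ (Ideal.subset_span (by simp))))
      (Ideal.mul_mem_left _ _ (Ideal.subset_span (by simp)))
  rw [Ideal.mem_span_insert] at hmem
  obtain ⟨u, z, hz, huz⟩ := hmem
  rw [Ideal.mem_span_pair] at hz
  obtain ⟨v, w, hvw⟩ := hz
  set D := n • ((2 : ℕ) • (wt 0 + wt 1)) + d with hD
  let cmp := weightedHomogeneousComponent (R := k) (fun v : Fin 2 × ι => wt v.1) D
  have hrel : cmp u * mnr k J3 ^ n + (cmp v * mnr k J2 ^ n + cmp w * mnr k J1 ^ n) = t0 := by
    simp only [cmp]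
    rw [← comp_mul_right _ ((mnr_homog wt J1).pow n), ← comp_mul_right _ ((mnr_homog wt J2).pow n),
      ← comp_mul_right _ ((mnr_homog wt J3).pow n), ← map_add, ← map_add, hvw, ← huz]
    have : D + n • (wt 0 + wt 1) =
        n • (Multiset.card ({J1} + {J2} + {J3} : Multiset (Fin 2 → ι)) • (wt 0 + wt 1)) + d := by
      simp only [Multiset.card_add, Multiset.card_singleton, hD, add_smul, one_smul, smul_add,
        two_smul]
      abel
    rw [this]
    exact g0.weightedHomogeneousComponent_same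
  have hpow : ∀ J : Fin 2 → ι, Function.Injective J →
      algebraMap (SS k ι) F (mnr k J) ^ n ≠ 0 := fun J hJ => pow_ne_zero _ (hne J hJ)
  have hmk : ∀ (w : SS k ι) (J K : Fin 2 → ι), Function.Injective J → Function.Injective K →
      IsWeightedHomogeneous (fun v : Fin 2 × ι => wt v.1) w D →
      (algebraMap (SS k ι) F w / (algebraMap (SS k ι) F (mnr k J) ^ n *
        algebraMap (SS k ι) F (mnr k K) ^ n)) ∈ Rsub (k := k) F ({J} + {K}) ∧
      HasDeg k ι wt d (algebraMap (SS k ι) F w / (algebraMap (SS k ι) F (mnr k J) ^ n *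
        algebraMap (SS k ι) F (mnr k K) ^ n)) := by
    intro w J K hJ hK hw
    constructor
    · refine ⟨n, w, ?_⟩
      rw [fprod_add, fprod_singleton, fprod_singleton, map_mul, mul_pow,
        div_mul_cancel₀ _ (mul_ne_zero (hpow J hJ) (hpow K hK))]
    · refine ⟨w, mnr k J ^ n * mnr k K ^ n, n • ((2 : ℕ) • (wt 0 + wt 1)),
        mul_ne_zero (pow_ne_zero _ (mnr_ne_zero J hJ)) (pow_ne_zero _ (mnr_ne_zero K hK)), hw,
        ?_, ?_⟩
      · have := ((mnr_homog (k := k) wt J).pow n).mul ((mnr_homog wt K).pow n)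
        rwa [← two_smul ℕ (n • (wt 0 + wt 1)), smul_comm] at this
      · rw [map_mul, map_pow, map_pow, div_mul_cancel₀ _ (mul_ne_zero (hpow J hJ) (hpow K hK))]
  have h1 := hmk (cmp u) J1 J2 hJ1 hJ2 (weightedHomogeneousComponent_isWeightedHomogeneous _ _)
  have h2 := hmk (cmp v) J1 J3 hJ1 hJ3 (weightedHomogeneousComponent_isWeightedHomogeneous _ _)
  have h3 := hmk (cmp w) J2 J3 hJ2 hJ3 (weightedHomogeneousComponent_isWeightedHomogeneous _ _)
  refine ⟨_, _, _, h1.1, h2.1, h3.1, h1.2, h2.2, h3.2, ?_⟩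
  have e := congrArg (algebraMap (SS k ι) F) hrel
  rw [← e0] at e
  simp only [map_add, map_mul, map_pow, mul_pow] at e
  have p1 := hpow J1 hJ1
  have p2 := hpow J2 hJ2
  have p3 := hpow J3 hJ3
  field_simp
  rw [show a * algebraMap (SS k ι) F (mnr k J1) ^ n * algebraMap (SS k ι) F (mnr k J2) ^ n *
    algebraMap (SS k ι) F (mnr k J3) ^ n = a * (algebraMap (SS k ι) F (mnr k J1) ^ n *
    algebraMap (SS k ι) F (mnr k J2) ^ n * algebraMap (SS k ι) F (mnr k J3) ^ n) by ring, ← e]
  ring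

end Loc

end Pool.Agent.Totaro

end
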