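import Mathlib

/-! ## Lift -/

section

set_option linter.unusedSectionVars false

namespace Pool.Agent.Totaro

open MvPolynomial

section

variable {k : Type*} [Field k] {E : Type*} [Field E] [Algebra k E] {σ : Type*} {g : σ → E}

/-- `E` is the rational function field on `g`. -/
noncomputable def fracEquiv (hg : AlgebraicIndependent k g)
    (htop : IntermediateField.adjoin k (Set.range g) = ⊤) :
    FractionRing (MvPolynomial σ k) ≃ₐ[k] E :=
  hg.aevalEquivField.trans ((IntermediateField.equivOfEq htop).trans IntermediateField.topEquiv)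

lemma fracEquiv_algebraMap (hg : AlgebraicIndependent k g)
    (htop : IntermediateField.adjoin k (Set.range g) = ⊤) (q : MvPolynomial σ k) :
    fracEquiv hg htop (algebraMap _ _ q) = aeval g q := by
  simp [fracEquiv]

/-- Lifting homomorphisms from `E` along a local thickening. -/
lemma exists_lift (hg : AlgebraicIndependent k g)
    (htop : IntermediateField.adjoin k (Set.range g) = ⊤)
    {K : Type*} [CommRing K] [Algebra k K] (ρ : K →ₐ[k] E) (hρ : ∀ z, ρ z ≠ 0 → IsUnit z)
    (v : σ → K) (hv : ∀ i, ρ (v i) = g i) :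
    ∃ θ : E →ₐ[k] K, (∀ i, θ (g i) = v i) ∧ ∀ y, ρ (θ y) = y := by
  have hcomp : ∀ q : MvPolynomial σ k, ρ (aeval v q) = aeval g q := by
    intro q
    have : ρ.comp (aeval v) = aeval g := by
      apply MvPolynomial.algHom_ext
      intro i; simp [hv]
    exact congrArg (fun f => f q) this
  have hu : ∀ y : nonZeroDivisors (MvPolynomial σ k), IsUnit (aeval v (y : MvPolynomial σ k)) := by
    intro y
    apply hρ
    rw [hcomp]
    intro h0
    have := hg.eq_zero_of_aeval_eq_zero _ h0
    exact nonZeroDivisors.coe_ne_zero y this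
  let θ0 : FractionRing (MvPolynomial σ k) →ₐ[k] K :=
    IsLocalization.liftAlgHom (M := nonZeroDivisors (MvPolynomial σ k)) (f := aeval v) hu
  have hθ0 : ∀ q : MvPolynomial σ k, θ0 (algebraMap _ _ q) = aeval v q := by
    intro q
    simp [θ0]
  let e := fracEquiv hg htop
  refine ⟨θ0.comp e.symm.toAlgHom, ?_, ?_⟩
  · intro i
    have h1 : e.symm (g i) = algebraMap _ _ (X i : MvPolynomial σ k) := by
      rw [AlgEquiv.symm_apply_eq, fracEquiv_algebraMap, aeval_X]
    change θ0 (e.symm (g i)) = v i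
    rw [h1, hθ0, aeval_X]
  · intro y
    have h2 : (ρ.comp θ0) = e.toAlgHom := by
      apply IsLocalization.algHom_ext (nonZeroDivisors (MvPolynomial σ k))
      apply MvPolynomial.algHom_ext
      intro i
      change ρ (θ0 (algebraMap _ _ (X i : MvPolynomial σ k))) =
        e (algebraMap _ _ (X i : MvPolynomial σ k))
      rw [hθ0, hcomp, fracEquiv_algebraMap]
    change ρ (θ0 (e.symm y)) = y
    have h3 := congrArg (fun f => f (e.symm y)) h2
    change ρ (θ0 (e.symm y)) = e (e.symm y) at h3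
    rw [h3, AlgEquiv.apply_symm_apply]

/-- Homomorphisms out of `E` are determined by their values on the generators. -/
lemma algHom_ext_gen (htop : IntermediateField.adjoin k (Set.range g) = ⊤)
    {K : Type*} [CommRing K] [Nontrivial K] [Algebra k K] (θ θ' : E →ₐ[k] K)
    (h : ∀ i, θ (g i) = θ' (g i)) : θ = θ' := by
  let T : IntermediateField k E :=
    { carrier := {y | θ y = θ' y}
      mul_mem' := by intro a b ha hb; simp only [Set.mem_ofPred_eq] at *; rw [map_mul, map_mul, ha, hb]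
      add_mem' := by intro a b ha hb; simp only [Set.mem_ofPred_eq] at *; rw [map_add, map_add, ha, hb]
      algebraMap_mem' := by intro c; simp
      inv_mem' := by
        intro a ha
        simp only [Set.mem_ofPred_eq] at *
        by_cases h0 : a = 0
        · simp [h0]
        · have h1 : IsUnit (θ a) := (IsUnit.mk0 a h0).map θ
          apply h1.mul_left_cancel
          rw [← map_mul, ha, ← map_mul, mul_inv_cancel₀ h0, map_one, map_one] }
  have hT : T = ⊤ := by
    rw [eq_top_iff, ← htop, IntermediateField.adjoin_le_iff]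
    rintro _ ⟨i, rfl⟩
    exact h i
  ext y
  have : y ∈ T := by rw [hT]; trivial
  exact this

/-- Derivations `E → E` are determined by their values on the generators. -/
lemma der_ext_gen (htop : IntermediateField.adjoin k (Set.range g) = ⊤)
    (D D' : Derivation k E E) (h : ∀ i, D (g i) = D' (g i)) : D = D' := by
  let T : IntermediateField k E :=
    { carrier := {y | D y = D' y}
      mul_mem' := by
        intro a b ha hb
        simp only [Set.mem_ofPred_eq] at *
        rw [Derivation.leibniz, Derivation.leibniz, ha, hb]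
      add_mem' := by intro a b ha hb; simp only [Set.mem_ofPred_eq] at *; rw [map_add, map_add, ha, hb]
      algebraMap_mem' := by intro c; simp
      inv_mem' := by
        intro a ha
        simp only [Set.mem_ofPred_eq] at *
        rw [Derivation.leibniz_inv, Derivation.leibniz_inv, ha] }
  have hT : T = ⊤ := by
    rw [eq_top_iff, ← htop, IntermediateField.adjoin_le_iff]
    rintro _ ⟨i, rfl⟩
    exact h i
  ext y
  have : y ∈ T := by rw [hT]; trivial
  exact this

/-- Derivations `E → E` can be prescribed on the generators. -/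
lemma exists_der (hg : AlgebraicIndependent k g)
    (htop : IntermediateField.adjoin k (Set.range g) = ⊤) (w : σ → E) :
    ∃ D : Derivation k E E, ∀ i, D (g i) = w i := by
  let ρ : TrivSqZeroExt E E →ₐ[k] E := TrivSqZeroExt.fstHom k E E
  obtain ⟨θ, hθ1, hθ2⟩ := exists_lift hg htop ρ (fun z hz => by
    rw [TrivSqZeroExt.isUnit_iff_isUnit_fst]
    exact IsUnit.mk0 _ hz) (fun i => TrivSqZeroExt.inl (g i) + TrivSqZeroExt.inr (w i))
    (fun i => by simp [ρ])
  have hfst : ∀ y, (θ y).fst = y := hθ2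
  refine ⟨Derivation.mk' ((TrivSqZeroExt.sndHom E E).restrictScalars k ∘ₗ θ.toLinearMap) ?_, ?_⟩
  · intro a b
    simp only [LinearMap.comp_apply, AlgHom.toLinearMap_apply, LinearMap.coe_restrictScalars,
      TrivSqZeroExt.sndHom_apply, map_mul, TrivSqZeroExt.snd_mul, hfst]
    simp [mul_comm]
  · intro i
    simp [hθ1]

/-- A homomorphism maps `k[g]` into any subalgebra containing the images of the generators. -/
lemma lift_mem {K : Type*} [CommRing K] [Algebra k K] (θ : E →ₐ[k] K) (B : Subalgebra k K)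
    (h : ∀ i, θ (g i) ∈ B) {y : E} (hy : y ∈ Algebra.adjoin k (Set.range g)) : θ y ∈ B := by
  have : Algebra.adjoin k (Set.range g) ≤ B.comap θ := by
    rw [Algebra.adjoin_le_iff]
    rintro _ ⟨i, rfl⟩
    exact h i
  exact this hy

/-- A derivation preserving the generators preserves `k[g]`. -/
lemma der_mem (D : Derivation k E E) (P : Subalgebra k E) (S : Set E) (hP : P = Algebra.adjoin k S)
    (h : ∀ y ∈ S, D y ∈ P) {y : E} (hy : y ∈ P) : D y ∈ P := by
  subst hP
  induction hy using Algebra.adjoin_induction with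
  | mem x hx => exact h x hx
  | algebraMap r => simp
  | add x y hx hy ihx ihy => rw [map_add]; exact add_mem ihx ihy
  | mul x y hx hy ihx ihy =>
    rw [Derivation.leibniz]
    exact add_mem (mul_mem hx ihy) (mul_mem hy ihx)

/-- Regularity passes to localisations. -/
lemma der_mem_frac (D : Derivation k E E) (P Q : Subalgebra k E) (hPQ : P ≤ Q)
    (hfr : ∀ y ∈ Q, ∃ z ∈ P, ∃ h ∈ P, h ≠ 0 ∧ h⁻¹ ∈ Q ∧ y * h = z)
    (hP : ∀ y ∈ P, D y ∈ P) {y : E} (hy : y ∈ Q) : D y ∈ Q := by
  obtain ⟨z, hz, h, hh, h0, hinv, e⟩ := hfr y hy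
  have h1 : D y * h = D z - y * D h := by
    rw [← e, Derivation.leibniz]
    simp only [smul_eq_mul]; ring
  have h2 : D y = (D z - y * D h) * h⁻¹ := by
    rw [← h1]; field_simp
  rw [h2]
  exact mul_mem (sub_mem (hPQ (hP z hz)) (mul_mem hy (hPQ (hP h hh)))) hinv

end

end Pool.Agent.Totaro

end

/-! ## PolyA -/

section

set_option linter.unusedSectionVars false

namespace Pool.Agent.Totaro

open Polynomial

section

variable {k : Type*} [Field k] {F : Type*} [Field F] [Algebra k F] {L : Type*} [Field L]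
  [Algebra F L] [Algebra k L] [IsScalarTower k F L]

/-- Polynomials with coefficients in a subalgebra `A` of `F`. -/
def polyC (A : Subalgebra k F) : Subalgebra k F[X] where
  carrier := {q | ∀ n, q.coeff n ∈ A}
  mul_mem' := by
    intro a b ha hb n
    rw [coeff_mul]
    exact sum_mem fun x _ => mul_mem (ha _) (hb _)
  add_mem' := by
    intro a b ha hb n
    rw [coeff_add]
    exact add_mem (ha n) (hb n)
  algebraMap_mem' := by
    intro c n
    rw [Polynomial.algebraMap_apply, coeff_C]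
    split_ifs
    · exact Subalgebra.algebraMap_mem _ _
    · exact zero_mem _

lemma mem_polyC {A : Subalgebra k F} {q : F[X]} : q ∈ polyC A ↔ ∀ n, q.coeff n ∈ A := Iff.rfl

/-- `A[τ] ⊆ L`. -/
noncomputable def AT (A : Subalgebra k F) (τ : L) : Subalgebra k L :=
  (polyC A).map ((aeval τ : F[X] →ₐ[F] L).restrictScalars k)

lemma mem_AT {A : Subalgebra k F} {τ z : L} :
    z ∈ AT A τ ↔ ∃ q ∈ polyC A, aeval τ q = z := by
  simp [AT, Subalgebra.mem_map]

lemma algebraMap_mem_AT {A : Subalgebra k F} (τ : L) {a : F} (ha : a ∈ A) :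
    algebraMap F L a ∈ AT A τ := by
  rw [mem_AT]
  refine ⟨C a, ?_, by simp⟩
  intro n
  rw [coeff_C]
  split_ifs
  · exact ha
  · exact zero_mem _

lemma self_mem_AT (A : Subalgebra k F) (τ : L) : τ ∈ AT A τ := by
  rw [mem_AT]
  refine ⟨X, ?_, by simp⟩
  intro n
  rw [coeff_X]
  split_ifs
  · exact one_mem _
  · exact zero_mem _

lemma AT_mono {A B : Subalgebra k F} (h : A ≤ B) (τ : L) : AT A τ ≤ AT B τ := by
  intro z hz
  rw [mem_AT] at *
  obtain ⟨q, hq, e⟩ := hz
  exact ⟨q, fun n => h (hq n), e⟩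

/-- Two-sided splitting (the `P¹` step). -/
lemma split_mem {A : Subalgebra k F} {τ : L} (hτ : τ ≠ 0) {S : Set L}
    (hS : ∀ y ∈ S, (∃ a ∈ A, y = algebraMap F L a) ∨ y = τ ∨ y = τ⁻¹)
    {z : L} (hz : z ∈ Algebra.adjoin k S) :
    ∃ z0 ∈ AT A τ, ∃ z1 ∈ AT A τ⁻¹, z = z0 + z1 := by
  -- Laurent form: z τ^n ∈ A[τ]
  have h1 : ∃ n : ℕ, z * τ ^ n ∈ AT A τ := by
    induction hz using Algebra.adjoin_induction with
    | mem x hx =>
      rcases hS x hx with ⟨a, ha, rfl⟩ | rfl | rfl
      · exact ⟨0, by simpa using algebraMap_mem_AT τ ha⟩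
      · exact ⟨0, by simpa using self_mem_AT A _⟩
      · exact ⟨1, by rw [pow_one, inv_mul_cancel₀ hτ]; exact one_mem _⟩
    | algebraMap r => exact ⟨0, by simp⟩
    | add x y hx hy ihx ihy =>
      obtain ⟨n, hn⟩ := ihx
      obtain ⟨m, hm⟩ := ihy
      refine ⟨n + m, ?_⟩
      have : (x + y) * τ ^ (n + m) = (x * τ ^ n) * τ ^ m + (y * τ ^ m) * τ ^ n := by ring
      rw [this]
      exact add_mem (mul_mem hn (pow_mem (self_mem_AT A τ) _))
        (mul_mem hm (pow_mem (self_mem_AT A τ) _))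
    | mul x y hx hy ihx ihy =>
      obtain ⟨n, hn⟩ := ihx
      obtain ⟨m, hm⟩ := ihy
      refine ⟨n + m, ?_⟩
      have : (x * y) * τ ^ (n + m) = (x * τ ^ n) * (y * τ ^ m) := by ring
      rw [this]
      exact mul_mem hn hm
  obtain ⟨n, hn⟩ := h1
  rw [mem_AT] at hn
  obtain ⟨q, hq, e⟩ := hn
  -- q = (low part, degree ≤ n) + X^n * (high part)
  have e2 : z = ∑ i ∈ q.support, algebraMap F L (q.coeff i) * τ ^ i * (τ⁻¹) ^ n := by
    have h3 : z = (z * τ ^ n) * (τ⁻¹) ^ n := by
      rw [mul_assoc, ← mul_pow, mul_inv_cancel₀ hτ, one_pow, mul_one]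
    rw [h3, ← e, aeval_eq_sum_range' (n := q.natDegree + 1) (by omega), ← Finset.sum_mul]
    congr 1
    rw [← Polynomial.sum_def (p := q) (f := fun i a => algebraMap F L a * τ ^ i)]
    rw [Polynomial.sum_over_range' q (by simp) (q.natDegree + 1) (by omega)]
    apply Finset.sum_congr rfl
    intro i _
    rw [Algebra.smul_def]
  refine ⟨∑ i ∈ q.support.filter (fun i => n ≤ i), algebraMap F L (q.coeff i) * τ ^ i * (τ⁻¹) ^ n,
    ?_, ∑ i ∈ q.support.filter (fun i => ¬ n ≤ i),
      algebraMap F L (q.coeff i) * τ ^ i * (τ⁻¹) ^ n, ?_, ?_⟩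
  · refine sum_mem fun i hi => ?_
    rw [Finset.mem_filter] at hi
    have : τ ^ i * (τ⁻¹) ^ n = τ ^ (i - n) := by
      rw [inv_pow]
      have h5 : τ ^ i = τ ^ (i - n) * τ ^ n := by rw [← pow_add]; congr 1; omega
      rw [h5, mul_assoc, mul_inv_cancel₀ (pow_ne_zero _ hτ), mul_one]
    rw [mul_assoc, this]
    exact mul_mem (algebraMap_mem_AT τ (hq i)) (pow_mem (self_mem_AT A τ) _)
  · refine sum_mem fun i hi => ?_
    rw [Finset.mem_filter] at hi
    have : τ ^ i * (τ⁻¹) ^ n = (τ⁻¹) ^ (n - i) := by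
      have h5 : (τ⁻¹) ^ n = (τ⁻¹) ^ (n - i) * (τ⁻¹) ^ i := by rw [← pow_add]; congr 1; omega
      rw [h5, mul_comm, mul_assoc, ← mul_pow, inv_mul_cancel₀ hτ, one_pow, mul_one]
    rw [mul_assoc, this]
    exact mul_mem (algebraMap_mem_AT _ (hq i)) (pow_mem (self_mem_AT A _) _)
  · rw [Finset.sum_filter_add_sum_filter_not]
    exact e2

/-- `A[τ] ∩ τ^d A[τ⁻¹]` consists of polynomials of degree `≤ d`. -/
lemma AT_inter {A : Subalgebra k F} {τ : L} (hτ : Transcendental F τ) (d : ℕ)
    {z : L} (h0 : z ∈ AT A τ) (h1 : z * (τ⁻¹) ^ d ∈ AT A τ⁻¹) :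
    ∃ q ∈ polyC A, q.natDegree ≤ d ∧ aeval τ q = z := by
  have hτ0 : τ ≠ 0 := by
    rintro rfl
    exact hτ isAlgebraic_zero
  rw [mem_AT] at h0 h1
  obtain ⟨q, hq, e⟩ := h0
  obtain ⟨r, hr, e'⟩ := h1
  refine ⟨q, hq, ?_, e⟩
  let inst : Invertible (τ⁻¹) := ⟨τ, mul_inv_cancel₀ hτ0, inv_mul_cancel₀ hτ0⟩
  have h2 : eval₂ (algebraMap F L) τ r.reverse * (τ⁻¹) ^ r.natDegree =
      eval₂ (algebraMap F L) τ⁻¹ r :=
    Polynomial.eval₂_reverse_mul_pow (algebraMap F L) τ⁻¹ r
  rw [← Polynomial.aeval_def, ← Polynomial.aeval_def, e', ← e] at h2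
  have h3 : aeval τ (q * X ^ r.natDegree) = aeval τ (r.reverse * X ^ d) := by
    rw [map_mul, map_mul, map_pow, map_pow, aeval_X]
    have hN : τ ^ r.natDegree * (τ⁻¹) ^ r.natDegree = 1 := by
      rw [← mul_pow, mul_inv_cancel₀ hτ0, one_pow]
    have hd : τ ^ d * (τ⁻¹) ^ d = 1 := by
      rw [← mul_pow, mul_inv_cancel₀ hτ0, one_pow]
    calc aeval τ q * τ ^ r.natDegree = (aeval τ q * (τ⁻¹) ^ d) * τ ^ d * τ ^ r.natDegree := by
          rw [mul_assoc (aeval τ q), mul_comm ((τ⁻¹) ^ d), hd, mul_one]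
      _ = aeval τ r.reverse * (τ ^ r.natDegree * (τ⁻¹) ^ r.natDegree) * τ ^ d := by
          rw [← h2]; ring
      _ = _ := by rw [hN, mul_one]
  have h4 : q * X ^ r.natDegree = r.reverse * X ^ d :=
    transcendental_iff_injective.mp hτ h3
  by_cases hq0 : q = 0
  · simp [hq0]
  · have h5 : r.reverse ≠ 0 := by
      intro h0
      rw [h0, zero_mul] at h4
      exact hq0 ((mul_eq_zero.mp h4).resolve_right (pow_ne_zero _ X_ne_zero))
    have h6 := congrArg natDegree h4
    rw [natDegree_mul_X_pow _ hq0, natDegree_mul_X_pow _ h5] at h6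
    have h7 := Polynomial.reverse_natDegree_le r
    omega

/-- `A[τ] ∩ A[τ⁻¹] = A`. -/
lemma AT_inter_zero {A : Subalgebra k F} {τ : L} (hτ : Transcendental F τ)
    {z : L} (h0 : z ∈ AT A τ) (h1 : z ∈ AT A τ⁻¹) : ∃ a ∈ A, z = algebraMap F L a := by
  obtain ⟨q, hq, hd, e⟩ := AT_inter hτ 0 h0 (by simpa using h1)
  refine ⟨q.coeff 0, hq 0, ?_⟩
  rw [← e]
  conv_lhs => rw [Polynomial.eq_C_of_natDegree_le_zero hd]
  simp

/-- `A[τ] ∩ τ² A[τ⁻¹]`: quadratic polynomials. -/
lemma AT_inter_two {A : Subalgebra k F} {τ : L} (hτ : Transcendental F τ)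
    {z : L} (h0 : z ∈ AT A τ) (h1 : z * (τ⁻¹) ^ 2 ∈ AT A τ⁻¹) :
    ∃ a ∈ A, ∃ b ∈ A, ∃ c ∈ A,
      z = algebraMap F L a + algebraMap F L b * τ + algebraMap F L c * τ ^ 2 := by
  obtain ⟨q, hq, hd, e⟩ := AT_inter hτ 2 h0 h1
  refine ⟨q.coeff 0, hq 0, q.coeff 1, hq 1, q.coeff 2, hq 2, ?_⟩
  rw [← e, Polynomial.aeval_eq_sum_range' (n := 3) (by omega), Finset.sum_range_succ,
    Finset.sum_range_succ, Finset.sum_range_one]
  simp [Algebra.smul_def]

/-- uniqueness of quadratic expressions -/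
lemma quad_unique {τ : L} (hτ : Transcendental F τ) {a b c a' b' c' : F}
    (h : algebraMap F L a + algebraMap F L b * τ + algebraMap F L c * τ ^ 2 =
      algebraMap F L a' + algebraMap F L b' * τ + algebraMap F L c' * τ ^ 2) :
    a = a' ∧ b = b' ∧ c = c' := by
  have h1 : aeval τ (C a + C b * X + C c * X ^ 2) = aeval τ (C a' + C b' * X + C c' * X ^ 2) := by
    simpa using h
  have h2 : (C a + C b * X + C c * X ^ 2) = C a' + C b' * X + C c' * X ^ 2 :=
    transcendental_iff_injective.mp hτ h1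
  refine ⟨?_, ?_, ?_⟩
  · have := congrArg (fun q => coeff q 0) h2
    simpa using this
  · have := congrArg (fun q => coeff q 1) h2
    simpa using this
  · have := congrArg (fun q => coeff q 2) h2
    simpa using this

/-- If `z` becomes integral over the ring `B` after multiplying by powers of `u` and of `v`, and
`(u,v)` is unimodular, then `z ∈ B`. -/
lemma mem_of_unimodular (B : Subalgebra k L) {u v α β z : L} (hu : u ∈ B) (hv : v ∈ B)
    (hα : α ∈ B) (hβ : β ∈ B) (h1 : α * u + β * v = 1) {n m : ℕ} (hn : u ^ n * z ∈ B)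
    (hm : v ^ m * z ∈ B) : z ∈ B := by
  have h2 : (α * u + β * v) ^ (n + m) * z ∈ B := by
    rw [add_pow, Finset.sum_mul]
    refine sum_mem fun i hi => ?_
    rw [Finset.mem_range] at hi
    by_cases hni : n ≤ i
    · have : (α * u) ^ i * (β * v) ^ (n + m - i) * ((n + m).choose i : L) * z =
          (α ^ i * u ^ (i - n) * (β * v) ^ (n + m - i) * ((n + m).choose i : L)) *
            (u ^ n * z) := by
        rw [mul_pow α u i]
        have : u ^ i = u ^ (i - n) * u ^ n := by rw [← pow_add]; congr 1; omega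
        rw [this]; ring
      rw [this]
      refine mul_mem (mul_mem (mul_mem (mul_mem (pow_mem hα _) (pow_mem hu _))
        (pow_mem (mul_mem hβ hv) _)) ?_) hn
      exact natCast_mem _ _
    · have : (α * u) ^ i * (β * v) ^ (n + m - i) * ((n + m).choose i : L) * z =
          ((α * u) ^ i * β ^ (n + m - i) * v ^ (n + m - i - m) * ((n + m).choose i : L)) *
            (v ^ m * z) := by
        rw [mul_pow β v]
        have : v ^ (n + m - i) = v ^ (n + m - i - m) * v ^ m := by
          rw [← pow_add]; congr 1; omega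
        rw [this]; ring
      rw [this]
      refine mul_mem (mul_mem (mul_mem (mul_mem (pow_mem (mul_mem hα hu) _) (pow_mem hβ _))
        (pow_mem hv _)) ?_) hm
      exact natCast_mem _ _
  rwa [h1, one_pow, one_mul] at h2

end

end Pool.Agent.Totaro

end
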