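import Pool.Agent.TotaroVar.A04Lift

/-! ## Sys -/

section

set_option linter.unusedSectionVars false

namespace Pool.Agent.Totaro

section flat

variable {A : Type*} [CommRing A] [IsLocalRing A] {K : Type*} [CommRing K] [Algebra A K]

/-- A consequence of flatness: `βz ∈ 𝔟K` with `β ∉ 𝔟` forces `z ∈ 𝔪K`. -/
def WFlat (A : Type*) [CommRing A] [IsLocalRing A] (K : Type*) [CommRing K] [Algebra A K] :
    Prop :=
  ∀ (𝔟 : Ideal A) (β : A), β ∉ 𝔟 → ∀ z : K, β • z ∈ 𝔟 • (⊤ : Submodule A K) →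
    z ∈ IsLocalRing.maximalIdeal A • (⊤ : Submodule A K)

lemma flat_key [Module.Flat A K] : WFlat A K := by
  intro 𝔟 β hβ z h
  classical
  have h1 : (⊤ : Submodule A K) = Submodule.span A (Set.range (id : K → K)) := by
    rw [Set.range_id, Submodule.span_univ]
  rw [h1, Submodule.mem_ideal_smul_span_iff_exists_sum] at h
  obtain ⟨a, ha, e⟩ := h
  let f : Option a.support → A := fun o => o.elim β (fun i => -a i)
  let x : Option a.support → K := fun o => o.elim z (fun i => (i : K))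
  have h2 : ∑ i, f i • x i = 0 := by
    rw [Fintype.sum_option]
    simp only [f, x, Option.elim_none, Option.elim_some, neg_smul, Finset.sum_neg_distrib]
    rw [← e, Finsupp.sum, Finset.sum_coe_sort a.support (fun i => a i • i)]
    simp
  obtain ⟨n, c, y, hc1, hc2⟩ := Module.Flat.isTrivialRelation_of_sum_smul_eq_zero (R := A) (M := K) (f := f) (x := x) h2
  have h3 := hc1 none
  simp only [x, Option.elim_none] at h3
  rw [h3]
  refine sum_mem fun j _ => Submodule.smul_mem_smul ?_ trivial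
  rw [IsLocalRing.mem_maximalIdeal, mem_nonunits_iff]
  intro hu
  apply hβ
  have h4 := hc2 j
  rw [Fintype.sum_option] at h4
  simp only [f, Option.elim_none, Option.elim_some] at h4
  have h5 : β * c none j ∈ 𝔟 := by
    have : β * c none j = ∑ i : a.support, a i * c (some i) j := by
      rw [eq_comm, ← sub_eq_zero, ← neg_eq_zero, neg_sub]
      rw [← h4, sub_eq_add_neg, ← Finset.sum_neg_distrib]
      simp only [neg_mul]
    rw [this]
    exact sum_mem fun i _ => Ideal.mul_mem_right _ _ (ha _)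
  exact (Ideal.mul_unit_mem_iff_mem _ hu).mp h5

/-- refinement of a pair of ideals -/
lemma exists_step [IsArtinianRing A] {𝔠 𝔟 : Ideal A} (h : 𝔠 < 𝔟) :
    ∃ 𝔟' : Ideal A, 𝔠 ≤ 𝔟' ∧ 𝔟' < 𝔟 ∧ ∃ β ∈ 𝔟, β ∉ 𝔟' ∧ 𝔟 = 𝔟' ⊔ Ideal.span {β} ∧
      ∀ x ∈ IsLocalRing.maximalIdeal A, x * β ∈ 𝔟' := by
  have h1 : 𝔠 ⊔ IsLocalRing.maximalIdeal A • 𝔟 < 𝔟 := by
    refine lt_of_le_of_ne (sup_le h.le Submodule.smul_le_right) ?_
    intro he
    apply h.not_ge
    refine Submodule.le_of_le_smul_of_le_jacobson_bot (I := IsLocalRing.maximalIdeal A)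
      (IsNoetherian.noetherian 𝔟) ?_ he.ge
    exact IsLocalRing.maximalIdeal_le_jacobson _
  obtain ⟨𝔟', h2, h3⟩ := exists_le_covBy_of_lt h1
  obtain ⟨β, hβ, hβ'⟩ := SetLike.exists_of_lt h3.lt
  refine ⟨𝔟', le_sup_left.trans h2, h3.lt, β, hβ, hβ', ?_, ?_⟩
  · have h4 : 𝔟' < 𝔟' ⊔ Ideal.span {β} := by
      refine lt_of_le_of_ne le_sup_left ?_
      intro he
      apply hβ'
      rw [he]
      exact Ideal.mem_sup_right (Ideal.mem_span_singleton_self β)
    have h5 : 𝔟' ⊔ Ideal.span {β} ≤ 𝔟 :=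
      sup_le h3.le ((Ideal.span_singleton_le_iff_mem _).mpr hβ)
    rcases h5.lt_or_eq with h6 | h6
    · exact absurd h6 (h3.2 h4)
    · exact h6.symm
  · intro x hx
    apply h2
    exact Ideal.mem_sup_right (Submodule.smul_mem_smul hx hβ)

lemma mem_sup_smul {𝔟' : Ideal A} {β : A} {N : Submodule A K} {z : K}
    (h : z ∈ (𝔟' ⊔ Ideal.span {β}) • N) : ∃ w ∈ 𝔟' • N, ∃ b ∈ N, z = w + β • b := by
  rw [Submodule.sup_smul, Submodule.mem_sup] at h
  obtain ⟨w, hw, v, hv, e⟩ := h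
  rw [Submodule.ideal_span_singleton_smul, Submodule.mem_smul_pointwise_iff_exists] at hv
  obtain ⟨b, hb, rfl⟩ := hv
  exact ⟨w, hw, b, hb, e.symm⟩

/-- `N ∩ 𝔪K = 𝔪N` implies `N ∩ 𝔞K = 𝔞N` for every ideal `𝔞`. -/
lemma inter_smul (hfl : WFlat A K) [IsArtinianRing A] (N : Submodule A K)
    (hN : ∀ z ∈ N, z ∈ IsLocalRing.maximalIdeal A • (⊤ : Submodule A K) →
      z ∈ IsLocalRing.maximalIdeal A • N) (𝔞 : Ideal A) {z : K} (hz : z ∈ N)
    (h𝔞 : z ∈ 𝔞 • (⊤ : Submodule A K)) : z ∈ 𝔞 • N := by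
  let S : Set (Ideal A) := {𝔟 | 𝔞 ≤ 𝔟 ∧ z ∈ 𝔟 • N}
  have hS : S.Nonempty := ⟨⊤, le_top, by rwa [Submodule.top_smul]⟩
  obtain ⟨𝔟, ⟨hb1, hb2⟩, hmin⟩ := WellFounded.has_min (wellFounded_lt (α := Ideal A)) S hS
  by_cases h : 𝔞 = 𝔟
  · rwa [h]
  · exfalso
    obtain ⟨𝔟', h1, h2, β, hβ, hβ', e, hm⟩ := exists_step (lt_of_le_of_ne hb1 h)
    apply hmin 𝔟' ⟨h1, ?_⟩ h2
    rw [e] at hb2
    obtain ⟨w, hw, b, hb, rfl⟩ := mem_sup_smul hb2
    have h3 : β • b ∈ 𝔟' • (⊤ : Submodule A K) := by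
      have h4 : w + β • b ∈ 𝔟' • (⊤ : Submodule A K) := Submodule.smul_mono_left h1 h𝔞
      have h5 : w ∈ 𝔟' • (⊤ : Submodule A K) := Submodule.smul_mono le_rfl le_top hw
      have := sub_mem h4 h5
      rwa [add_sub_cancel_left] at this
    have h6 := hN b hb (hfl 𝔟' β hβ' b h3)
    refine add_mem hw ?_
    -- β • (𝔪 N) ⊆ 𝔟' N
    refine Submodule.smul_induction_on (p := fun v => β • v ∈ 𝔟' • N) h6 ?_ ?_
    · intro r hr n hn
      rw [smul_smul, mul_comm]
      exact Submodule.smul_mem_smul (hm r hr) hn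
    · intro x y hx hy
      rw [smul_add]; exact add_mem hx hy

lemma smul_top_mul {𝔟 : Ideal A} {z : K} (y : K) (h : z ∈ 𝔟 • (⊤ : Submodule A K)) :
    y * z ∈ 𝔟 • (⊤ : Submodule A K) := by
  refine Submodule.smul_induction_on (p := fun v => y * v ∈ 𝔟 • (⊤ : Submodule A K)) h ?_ ?_
  · intro r hr n _
    rw [mul_smul_comm]
    exact Submodule.smul_mem_smul hr trivial
  · intro a b ha hb
    rw [mul_add]; exact add_mem ha hb

lemma mem_map_iff {𝔟 : Ideal A} {z : K} :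
    z ∈ 𝔟.map (algebraMap A K) ↔ z ∈ 𝔟 • (⊤ : Submodule A K) := by
  rw [Ideal.smul_top_eq_map, Submodule.restrictScalars_mem]

end flat

/-- An affine atlas of a rational variety with function field `E`, all of whose chart rings are
polynomial rings, and with vanishing `H¹` of the tangent sheaf. -/
structure Atl (k : Type*) [Field k] (E : Type*) [Field E] [Algebra k E] (C : Type*) where
  /-- index types of the coordinates -/
  σ : C → Type*
  /-- the coordinates -/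
  g : ∀ a, σ a → E
  /-- coordinate rings of intersections of two charts -/
  P : C → C → Subalgebra k E
  indep : ∀ a, AlgebraicIndependent k (g a)
  gen : ∀ a, IntermediateField.adjoin k (Set.range (g a)) = ⊤
  Pgen : ∀ a, P a a = Algebra.adjoin k (Set.range (g a))
  Pl : ∀ a b, P a a ≤ P a b
  Psymm : ∀ a b, P a b = P b a
  frac : ∀ a b, ∀ y ∈ P a b, ∃ z ∈ P a a, ∃ h ∈ P a a, h ≠ 0 ∧ h⁻¹ ∈ P a b ∧ y * h = z
  h1 : ∀ D : C → C → Derivation k E E, (∀ a b c, D a b + D b c = D a c) →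
    (∀ a b, ∀ y ∈ P a b, D a b y ∈ P a b) →
    ∃ D' : C → Derivation k E E, (∀ a, ∀ y ∈ P a a, D' a y ∈ P a a) ∧
      ∀ a b, D a b = D' a - D' b

/-- A deformation of an atlas over the local ring `A`, inside the `A`-algebra `K`. -/
structure Sys {k : Type*} [Field k] {E : Type*} [Field E] [Algebra k E] {C : Type*}
    (𝒜 : Atl k E C) (A : Type*) [CommRing A] [IsLocalRing A] (K : Type*) [CommRing K]
    [Algebra A K] where
  /-- residue map -/
  res : A →+* k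
  /-- reduction -/
  ρ : K →+* E
  /-- rings of the intersections of two charts -/
  B : C → C → Subalgebra A K
  flat : WFlat A K
  res_surj : Function.Surjective res
  ρ_surj : Function.Surjective ρ
  compat : ∀ a, ρ (algebraMap A K a) = algebraMap k E (res a)
  ker : ∀ z, ρ z = 0 → z ∈ IsLocalRing.maximalIdeal A • (⊤ : Submodule A K)
  Bl : ∀ a b, B a a ≤ B a b
  Bsymm : ∀ a b, B a b = B b a
  Bρ : ∀ a b, ∀ z ∈ B a b, ρ z ∈ 𝒜.P a b
  Bsurj : ∀ a b, ∀ y ∈ 𝒜.P a b, ∃ z ∈ B a b, ρ z = y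
  Bm : ∀ a b, ∀ z ∈ B a b, ρ z = 0 →
    z ∈ IsLocalRing.maximalIdeal A • (Subalgebra.toSubmodule (B a b))

namespace Sys

variable {k : Type*} [Field k] {E : Type*} [Field E] [Algebra k E] {C : Type*}
    {𝒜 : Atl k E C} {A : Type*} [CommRing A] [IsLocalRing A] {K : Type*} [CommRing K]
    [Algebra A K] (S : Sys 𝒜 A K)

lemma res_eq_zero {a : A} : S.res a = 0 ↔ a ∈ IsLocalRing.maximalIdeal A := by
  have h1 : (RingHom.ker S.res).IsMaximal := RingHom.ker_isMaximal_of_surjective S.res S.res_surj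
  rw [← IsLocalRing.eq_maximalIdeal h1, RingHom.mem_ker]

lemma ρ_smul (a : A) (z : K) : S.ρ (a • z) = algebraMap k E (S.res a) * S.ρ z := by
  rw [Algebra.smul_def, map_mul, S.compat]

lemma ker_iff (z : K) : S.ρ z = 0 ↔ z ∈ IsLocalRing.maximalIdeal A • (⊤ : Submodule A K) := by
  refine ⟨S.ker z, fun h => ?_⟩
  refine Submodule.smul_induction_on (p := fun v => S.ρ v = 0) h ?_ ?_
  · intro r hr n _
    rw [S.ρ_smul, S.res_eq_zero.mpr hr, map_zero, zero_mul]
  · intro a b ha hb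
    rw [map_add, ha, hb, add_zero]

lemma nilp [IsArtinianRing A] {z : K} (h : S.ρ z = 0) : IsNilpotent z := by
  have h1 := (S.ker_iff z).mp h
  rw [← mem_map_iff] at h1
  have h2 : IsNilpotent (IsLocalRing.maximalIdeal A) := by
    have := IsArtinianRing.isNilpotent_jacobson_bot (R := A)
    rwa [IsLocalRing.jacobson_eq_maximalIdeal _ bot_ne_top] at this
  obtain ⟨n, hn⟩ := h2
  refine ⟨n, ?_⟩
  have h3 := Ideal.pow_mem_pow h1 n
  rw [← Ideal.map_pow, hn] at h3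
  simpa using h3

lemma isUnit [IsArtinianRing A] {z : K} (h : S.ρ z ≠ 0) : IsUnit z := by
  obtain ⟨w, hw⟩ := S.ρ_surj (S.ρ z)⁻¹
  have h1 : S.ρ (z * w - 1) = 0 := by
    rw [map_sub, map_mul, hw, mul_inv_cancel₀ h, map_one, sub_self]
  have h2 : IsUnit (1 + (z * w - 1)) := (S.nilp h1).isUnit_one_add
  rw [add_sub_cancel] at h2
  exact isUnit_of_mul_isUnit_left h2

lemma inter (𝔞 : Ideal A) [IsArtinianRing A] (a b : C) {z : K} (hz : z ∈ S.B a b)
    (h𝔞 : z ∈ 𝔞 • (⊤ : Submodule A K)) : z ∈ 𝔞 • (Subalgebra.toSubmodule (S.B a b)) := by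
  exact inter_smul S.flat _ (fun z hz hm => S.Bm a b z hz ((S.ker_iff z).mpr hm)) 𝔞 hz h𝔞

/-- inverses in the chart rings -/
lemma inv_mem [IsArtinianRing A] (a b : C) {z : K} (hz : z ∈ S.B a b)
    (h0 : S.ρ z ≠ 0) (hinv : (S.ρ z)⁻¹ ∈ 𝒜.P a b) : ∃ w ∈ S.B a b, z * w = 1 := by
  obtain ⟨w, hw, e⟩ := S.Bsurj a b _ hinv
  have h1 : S.ρ (1 - z * w) = 0 := by
    rw [map_sub, map_mul, e, mul_inv_cancel₀ h0, map_one, sub_self]
  have h2 := S.nilp h1
  obtain ⟨n, hn⟩ := h2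
  -- z w = 1 - ν, (1-ν)(1 + ν + ... ) = 1
  refine ⟨w * ∑ i ∈ Finset.range n, (1 - z * w) ^ i, ?_, ?_⟩
  · exact mul_mem hw (sum_mem fun i _ => pow_mem (sub_mem (one_mem _) (mul_mem hz hw)) _)
  · rw [← mul_assoc]
    have := mul_neg_geom_sum (1 - z * w) n
    rw [hn, sub_sub_cancel, sub_zero] at this
    exact this

/-- a section of the reduction which is regular on a chart is regular on all overlaps -/
lemma section_mem [IsArtinianRing A] (a b : C) (θ : E →+* K) (hρ : ∀ y, S.ρ (θ y) = y)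
    (h : ∀ y ∈ 𝒜.P a a, θ y ∈ S.B a a) {y : E} (hy : y ∈ 𝒜.P a b) : θ y ∈ S.B a b := by
  obtain ⟨z, hz, e, he, h0, hinv, hh⟩ := 𝒜.frac a b y hy
  obtain ⟨w, hw, hw1⟩ := S.inv_mem a b (S.Bl a b (h e he)) (by rw [hρ]; exact h0)
    (by rw [hρ]; exact hinv)
  have h1 : θ y = θ z * w := by
    rw [← hh, map_mul, mul_assoc, hw1, mul_one]
  rw [h1]
  exact mul_mem (S.Bl a b (h z hz)) hw

/-! ### Quotients -/

lemma quot_smul {I : Ideal A} {N : Submodule A K}
    {N' : Submodule (A ⧸ I) (K ⧸ I.map (algebraMap A K))}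
    (hN : ∀ n ∈ N, Ideal.Quotient.mk (I.map (algebraMap A K)) n ∈ N')
    {𝔟 : Ideal A} {𝔟' : Ideal (A ⧸ I)} (h𝔟 : ∀ b ∈ 𝔟, Ideal.Quotient.mk I b ∈ 𝔟') {z : K}
    (hz : z ∈ 𝔟 • N) : Ideal.Quotient.mk (I.map (algebraMap A K)) z ∈ 𝔟' • N' := by
  refine Submodule.smul_induction_on (p := fun v =>
    Ideal.Quotient.mk (I.map (algebraMap A K)) v ∈ 𝔟' • N') hz ?_ ?_
  · intro r hr n hn
    have : Ideal.Quotient.mk (I.map (algebraMap A K)) (r • n) =
        Ideal.Quotient.mk I r • Ideal.Quotient.mk (I.map (algebraMap A K)) n := by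
      rw [Ideal.Quotient.mk_smul_mk_quotient_map_quotient, Algebra.smul_def]
    rw [this]
    exact Submodule.smul_mem_smul (h𝔟 r hr) (hN n hn)
  · intro x y hx hy
    rw [map_add]; exact add_mem hx hy

lemma quot_smul_inv {I : Ideal A} {𝔟' : Ideal (A ⧸ I)} {z' : K ⧸ I.map (algebraMap A K)}
    (hz : z' ∈ 𝔟' • (⊤ : Submodule (A ⧸ I) (K ⧸ I.map (algebraMap A K)))) :
    ∃ z ∈ 𝔟'.comap (Ideal.Quotient.mk I) • (⊤ : Submodule A K),
      Ideal.Quotient.mk (I.map (algebraMap A K)) z = z' := by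
  refine Submodule.smul_induction_on (p := fun v =>
    ∃ z ∈ 𝔟'.comap (Ideal.Quotient.mk I) • (⊤ : Submodule A K),
      Ideal.Quotient.mk (I.map (algebraMap A K)) z = v) hz ?_ ?_
  · intro r hr n _
    obtain ⟨r, rfl⟩ := Ideal.Quotient.mk_surjective r
    obtain ⟨n, rfl⟩ := Ideal.Quotient.mk_surjective n
    refine ⟨r • n, Submodule.smul_mem_smul hr trivial, ?_⟩
    rw [Ideal.Quotient.mk_smul_mk_quotient_map_quotient, Algebra.smul_def]
  · rintro x y ⟨a, ha, rfl⟩ ⟨b, hb, rfl⟩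
    exact ⟨a + b, add_mem ha hb, map_add _ _ _⟩

instance quotLocal (I : Ideal A) [Nontrivial (A ⧸ I)] : IsLocalRing (A ⧸ I) :=
  IsLocalRing.of_surjective' (Ideal.Quotient.mk I) Ideal.Quotient.mk_surjective

lemma mem_max_quot {I : Ideal A} [Nontrivial (A ⧸ I)] {x : A} :
    Ideal.Quotient.mk I x ∈ IsLocalRing.maximalIdeal (A ⧸ I) ↔
      x ∈ IsLocalRing.maximalIdeal A := by
  have hl : IsLocalHom (Ideal.Quotient.mk I) :=
    IsLocalHom.of_surjective _ Ideal.Quotient.mk_surjective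
  rw [IsLocalRing.mem_maximalIdeal, IsLocalRing.mem_maximalIdeal, mem_nonunits_iff,
    mem_nonunits_iff, isUnit_map_iff]

lemma le_max (I : Ideal A) [hI : Nontrivial (A ⧸ I)] : I ≤ IsLocalRing.maximalIdeal A :=
  IsLocalRing.le_maximalIdeal (Ideal.Quotient.nontrivial_iff.mp hI)

/-- Base change of a system to a quotient ring. -/
noncomputable def quot (I : Ideal A) [hI : Nontrivial (A ⧸ I)] :
    Sys 𝒜 (A ⧸ I) (K ⧸ I.map (algebraMap A K)) where
  res := Ideal.Quotient.lift I S.res (fun a ha => S.res_eq_zero.mpr (le_max I ha))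
  ρ := Ideal.Quotient.lift (I.map (algebraMap A K)) S.ρ (fun z hz => by
    rw [mem_map_iff] at hz
    exact (S.ker_iff z).mpr (Submodule.smul_mono_left (le_max I) hz))
  B a b :=
    { carrier := {z' | ∃ z ∈ S.B a b, Ideal.Quotient.mk _ z = z'}
      mul_mem' := by
        rintro _ _ ⟨x, hx, rfl⟩ ⟨y, hy, rfl⟩
        exact ⟨x * y, mul_mem hx hy, map_mul _ _ _⟩
      add_mem' := by
        rintro _ _ ⟨x, hx, rfl⟩ ⟨y, hy, rfl⟩
        exact ⟨x + y, add_mem hx hy, map_add _ _ _⟩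
      algebraMap_mem' := by
        intro r
        obtain ⟨r, rfl⟩ := Ideal.Quotient.mk_surjective r
        exact ⟨algebraMap A K r, Subalgebra.algebraMap_mem _ r, rfl⟩ }
  flat := by
    intro 𝔟' β' hβ' z' hz'
    obtain ⟨β, rfl⟩ := Ideal.Quotient.mk_surjective β'
    obtain ⟨z, rfl⟩ := Ideal.Quotient.mk_surjective z'
    obtain ⟨w, hw, hww⟩ := quot_smul_inv hz'
    have h1 : β • z ∈ 𝔟'.comap (Ideal.Quotient.mk I) • (⊤ : Submodule A K) := by
      have h2 : Ideal.Quotient.mk (I.map (algebraMap A K)) (β • z) =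
          Ideal.Quotient.mk (I.map (algebraMap A K)) w := by
        rw [hww, Ideal.Quotient.mk_smul_mk_quotient_map_quotient, Algebra.smul_def]
      rw [Ideal.Quotient.eq, mem_map_iff] at h2
      have h3 : β • z - w ∈ 𝔟'.comap (Ideal.Quotient.mk I) • (⊤ : Submodule A K) := by
        refine Submodule.smul_mono_left ?_ h2
        intro x hx
        rw [Ideal.mem_comap, Ideal.Quotient.eq_zero_iff_mem.mpr hx]
        exact zero_mem _
      have := add_mem h3 hw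
      rwa [sub_add_cancel] at this
    have h2 := S.flat _ β (by rwa [Ideal.mem_comap]) z h1
    exact quot_smul (N' := ⊤) (𝔟' := IsLocalRing.maximalIdeal (A ⧸ I))
      (fun _ _ => Submodule.mem_top) (fun b hb => mem_max_quot.mpr hb) h2
  res_surj := fun c => by
    obtain ⟨a, rfl⟩ := S.res_surj c
    exact ⟨Ideal.Quotient.mk I a, rfl⟩
  ρ_surj := fun c => by
    obtain ⟨a, rfl⟩ := S.ρ_surj c
    exact ⟨Ideal.Quotient.mk _ a, rfl⟩
  compat := fun a => by
    obtain ⟨a, rfl⟩ := Ideal.Quotient.mk_surjective a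
    exact S.compat a
  ker := fun z hz => by
    obtain ⟨z, rfl⟩ := Ideal.Quotient.mk_surjective z
    exact quot_smul (N' := ⊤) (𝔟' := IsLocalRing.maximalIdeal (A ⧸ I))
      (fun _ _ => Submodule.mem_top) (fun b hb => mem_max_quot.mpr hb) (S.ker z hz)
  Bl := by
    rintro a b _ ⟨z, hz, rfl⟩
    exact ⟨z, S.Bl a b hz, rfl⟩
  Bsymm := by
    intro a b
    ext z
    constructor
    · rintro ⟨z, hz, rfl⟩
      exact ⟨z, by rwa [S.Bsymm], rfl⟩
    · rintro ⟨z, hz, rfl⟩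
      exact ⟨z, by rwa [S.Bsymm], rfl⟩
  Bρ := by
    rintro a b _ ⟨z, hz, rfl⟩
    exact S.Bρ a b z hz
  Bsurj := by
    intro a b y hy
    obtain ⟨z, hz, rfl⟩ := S.Bsurj a b y hy
    exact ⟨Ideal.Quotient.mk _ z, ⟨z, hz, rfl⟩, rfl⟩
  Bm := by
    rintro a b _ ⟨z, hz, rfl⟩ h0
    refine quot_smul (𝔟' := IsLocalRing.maximalIdeal (A ⧸ I)) ?_
      (fun b hb => mem_max_quot.mpr hb) (S.Bm a b z hz h0)
    intro n hn
    rw [Subalgebra.mem_toSubmodule]
    exact ⟨n, hn, rfl⟩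

@[simp] lemma quot_ρ (I : Ideal A) [hI : Nontrivial (A ⧸ I)] (z : K) :
    (S.quot I).ρ (Ideal.Quotient.mk _ z) = S.ρ z := rfl

@[simp] lemma quot_res (I : Ideal A) [hI : Nontrivial (A ⧸ I)] (a : A) :
    (S.quot I).res (Ideal.Quotient.mk _ a) = S.res a := rfl

lemma quot_B (I : Ideal A) [hI : Nontrivial (A ⧸ I)] (a b : C)
    (z' : K ⧸ I.map (algebraMap A K)) :
    z' ∈ (S.quot I).B a b ↔ ∃ z ∈ S.B a b, Ideal.Quotient.mk _ z = z' := Iff.rfl

end Sys

end Pool.Agent.Totaro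

end

/-! ## SysZero -/

section

set_option linter.unusedSectionVars false

namespace Pool.Agent.Totaro

namespace Sys

variable {k : Type*} [Field k] {E : Type*} [Field E] [Algebra k E] {C : Type*}
    {𝒜 : Atl k E C} {A : Type*} [CommRing A] [IsLocalRing A] {K : Type*} [CommRing K]
    [Algebra A K] (S : Sys 𝒜 A K)

/-- a lift of an element of the function field -/
noncomputable def lf (e : E) : K := Function.surjInv S.ρ_surj e

lemma ρ_lf (e : E) : S.ρ (S.lf e) = e := Function.surjInv_eq S.ρ_surj e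

/-- multiplication by `β`, modulo `𝔟` -/
noncomputable def mu (𝔟 : Ideal A) (β : A) (e : E) : K ⧸ 𝔟.map (algebraMap A K) :=
  Ideal.Quotient.mk _ (β • S.lf e)

variable {𝔟 : Ideal A} {β : A}

lemma smul_mem_of_ker (hm : ∀ x ∈ IsLocalRing.maximalIdeal A, x * β ∈ 𝔟) {z : K}
    (hz : S.ρ z = 0) : β • z ∈ 𝔟 • (⊤ : Submodule A K) := by
  have h1 := (S.ker_iff z).mp hz
  refine Submodule.smul_induction_on (p := fun v => β • v ∈ 𝔟 • (⊤ : Submodule A K)) h1 ?_ ?_
  · intro r hr n _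
    rw [smul_smul, mul_comm]
    exact Submodule.smul_mem_smul (hm r hr) trivial
  · intro x y hx hy
    rw [smul_add]; exact add_mem hx hy

lemma mu_eq (hm : ∀ x ∈ IsLocalRing.maximalIdeal A, x * β ∈ 𝔟) (z : K) :
    Ideal.Quotient.mk (𝔟.map (algebraMap A K)) (β • z) = S.mu 𝔟 β (S.ρ z) := by
  rw [mu, Ideal.Quotient.eq, ← smul_sub, mem_map_iff]
  apply S.smul_mem_of_ker hm
  rw [map_sub, S.ρ_lf, sub_self]

lemma mu_add (hm : ∀ x ∈ IsLocalRing.maximalIdeal A, x * β ∈ 𝔟) (e e' : E) :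
    S.mu 𝔟 β (e + e') = S.mu 𝔟 β e + S.mu 𝔟 β e' := by
  have h1 : e + e' = S.ρ (S.lf e + S.lf e') := by rw [map_add, ρ_lf, ρ_lf]
  rw [h1, ← S.mu_eq hm, smul_add, map_add]
  rfl

lemma mu_mul (hm : ∀ x ∈ IsLocalRing.maximalIdeal A, x * β ∈ 𝔟) (x : K) (e : E) :
    S.mu 𝔟 β (S.ρ x * e) = Ideal.Quotient.mk _ x * S.mu 𝔟 β e := by
  have h1 : S.ρ x * e = S.ρ (x * S.lf e) := by rw [map_mul, ρ_lf]
  rw [h1, ← S.mu_eq hm, mu, ← map_mul, mul_smul_comm]

lemma mu_zero (hm : ∀ x ∈ IsLocalRing.maximalIdeal A, x * β ∈ 𝔟) : S.mu 𝔟 β 0 = 0 := by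
  have := S.mu_mul hm 0 0
  rwa [mul_zero, map_zero, zero_mul] at this

lemma mu_neg (hm : ∀ x ∈ IsLocalRing.maximalIdeal A, x * β ∈ 𝔟) (e : E) :
    S.mu 𝔟 β (-e) = -S.mu 𝔟 β e := by
  have := S.mu_add hm e (-e)
  rw [add_neg_cancel, S.mu_zero hm] at this
  exact (neg_eq_of_add_eq_zero_right this.symm).symm

lemma mu_sub (hm : ∀ x ∈ IsLocalRing.maximalIdeal A, x * β ∈ 𝔟) (e e' : E) :
    S.mu 𝔟 β (e - e') = S.mu 𝔟 β e - S.mu 𝔟 β e' := by
  rw [sub_eq_add_neg, S.mu_add hm, S.mu_neg hm, sub_eq_add_neg]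

lemma mu_inj (hm : ∀ x ∈ IsLocalRing.maximalIdeal A, x * β ∈ 𝔟) (hβ : β ∉ 𝔟) {e e' : E}
    (h : S.mu 𝔟 β e = S.mu 𝔟 β e') : e = e' := by
  have h1 : S.mu 𝔟 β (e - e') = 0 := by rw [S.mu_sub hm, h, sub_self]
  rw [mu, Ideal.Quotient.eq_zero_iff_mem, mem_map_iff] at h1
  have h2 := (S.ker_iff _).mpr (S.flat 𝔟 β hβ _ h1)
  rw [ρ_lf] at h2
  exact sub_eq_zero.mp h2

lemma mu_mul_mu (hm : ∀ x ∈ IsLocalRing.maximalIdeal A, x * β ∈ 𝔟)
    (hβm : β ∈ IsLocalRing.maximalIdeal A) (e e' : E) : S.mu 𝔟 β e * S.mu 𝔟 β e' = 0 := by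
  rw [mu, mu, ← map_mul, Ideal.Quotient.eq_zero_iff_mem, mem_map_iff, smul_mul_smul_comm]
  exact Submodule.smul_mem_smul (hm β hβm) trivial

lemma mk_of_mem {𝔞 : Ideal A} (he : 𝔞 = 𝔟 ⊔ Ideal.span {β})
    (hm : ∀ x ∈ IsLocalRing.maximalIdeal A, x * β ∈ 𝔟) {N : Submodule A K} {z : K}
    (hz : z ∈ 𝔞 • N) : ∃ b ∈ N, Ideal.Quotient.mk (𝔟.map (algebraMap A K)) z =
      S.mu 𝔟 β (S.ρ b) := by
  rw [he] at hz
  obtain ⟨w, hw, b, hb, rfl⟩ := mem_sup_smul hz
  refine ⟨b, hb, ?_⟩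
  rw [map_add, S.mu_eq hm, add_eq_right, Ideal.Quotient.eq_zero_iff_mem, mem_map_iff]
  exact Submodule.smul_mono le_rfl le_top hw

/-- the induction step in the proof of triviality -/
lemma step [IsArtinianRing A] [Algebra k A] [Algebra k K] [IsScalarTower k A K]
    (hj : ∀ c, S.res (algebraMap k A c) = c) {𝔞 : Ideal A}
    (he : 𝔞 = 𝔟 ⊔ Ideal.span {β}) (hβ : β ∉ 𝔟)
    (hm : ∀ x ∈ IsLocalRing.maximalIdeal A, x * β ∈ 𝔟)
    (hβm : β ∈ IsLocalRing.maximalIdeal A)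
    (h𝔟m : 𝔟 ≤ IsLocalRing.maximalIdeal A)
    (θ : C → (E →ₐ[k] K)) (hρ : ∀ a y, S.ρ (θ a y) = y)
    (hB : ∀ a, ∀ y ∈ 𝒜.P a a, θ a y ∈ S.B a a)
    (hθ : ∀ a b y, θ a y - θ b y ∈ 𝔞 • (⊤ : Submodule A K)) :
    ∃ θ' : C → (E →ₐ[k] K), (∀ a y, S.ρ (θ' a y) = y) ∧
      (∀ a, ∀ y ∈ 𝒜.P a a, θ' a y ∈ S.B a a) ∧
      ∀ a b y, θ' a y - θ' b y ∈ 𝔟 • (⊤ : Submodule A K) := by
  classical
  have hkE : ∀ c : k, S.ρ (algebraMap k K c) = algebraMap k E c := by
    intro c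
    rw [IsScalarTower.algebraMap_apply k A K, S.compat, hj]
  let ρA : K →ₐ[k] E := { S.ρ with commutes' := hkE }
  have hρA : ∀ z, ρA z = S.ρ z := fun _ => rfl
  have hρsm : ∀ (c : k) (z : K), S.ρ (c • z) = c • S.ρ z := fun c z => map_smul ρA c z
  set mk := Ideal.Quotient.mk (𝔟.map (algebraMap A K)) with hmk
  -- the derivations
  have hd : ∀ a b y, ∃ e : E, mk (θ a y - θ b y) = S.mu 𝔟 β e := by
    intro a b y
    obtain ⟨z, -, hz⟩ := S.mk_of_mem he hm (hθ a b y)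
    exact ⟨_, hz⟩
  choose d hd using hd
  have hmul : ∀ a (y : E) (e : E), S.mu 𝔟 β (y * e) = mk (θ a y) * S.mu 𝔟 β e := by
    intro a y e
    conv_lhs => rw [← hρ a y]
    exact S.mu_mul hm _ _
  have hsm : ∀ (c : k) (e : E), S.mu 𝔟 β (c • e) = mk (algebraMap k K c) * S.mu 𝔟 β e := by
    intro c e
    rw [Algebra.smul_def, ← hkE]
    exact S.mu_mul hm _ _
  let D : C → C → Derivation k E E := fun a b => Derivation.mk'
    { toFun := d a b
      map_add' := by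
        intro x y
        apply S.mu_inj hm hβ
        rw [← hd, S.mu_add hm, ← hd, ← hd, ← map_add]
        congr 1
        rw [map_add, map_add]; ring
      map_smul' := by
        intro c y
        apply S.mu_inj hm hβ
        rw [← hd, RingHom.id_apply, hsm, ← hd, ← map_mul]
        congr 1
        rw [map_smul, map_smul, Algebra.smul_def, Algebra.smul_def]; ring }
    (by
      intro x y
      apply S.mu_inj hm hβ
      change S.mu 𝔟 β (d a b (x * y)) = S.mu 𝔟 β (x * d a b y + y * d a b x)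
      rw [← hd, S.mu_add hm, hmul a x, hmul b y, ← hd, ← hd, ← map_mul, ← map_mul, ← map_add]
      congr 1
      rw [map_mul, map_mul]; ring)
  have hD : ∀ a b y, D a b y = d a b y := fun _ _ _ => rfl
  have hcoc : ∀ a b c, D a b + D b c = D a c := by
    intro a b c
    ext y
    apply S.mu_inj hm hβ
    rw [Derivation.add_apply, hD, hD, hD, S.mu_add hm, ← hd, ← hd, ← hd, ← map_add]
    congr 1; ring
  have hreg : ∀ a b, ∀ y ∈ 𝒜.P a b, D a b y ∈ 𝒜.P a b := by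
    intro a b y hy
    have h1 : θ a y ∈ S.B a b := S.section_mem a b (θ a).toRingHom (hρ a) (hB a) hy
    have h2 : θ b y ∈ S.B a b := by
      rw [S.Bsymm]
      rw [𝒜.Psymm] at hy
      exact S.section_mem b a (θ b).toRingHom (hρ b) (hB b) hy
    have h3 := S.inter 𝔞 a b (sub_mem h1 h2) (hθ a b y)
    obtain ⟨z, hz, e⟩ := S.mk_of_mem he hm h3
    have h4 : D a b y = S.ρ z := by
      apply S.mu_inj hm hβ
      rw [← e, hD, ← hd]
    rw [h4]
    exact S.Bρ a b z hz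
  obtain ⟨D', hD'reg, hD'⟩ := 𝒜.h1 D hcoc hreg
  -- corrections
  have hl : ∀ a i, ∃ z ∈ S.B a a, S.ρ z = D' a (𝒜.g a i) := by
    intro a i
    apply S.Bsurj
    apply hD'reg
    rw [𝒜.Pgen]
    exact Algebra.subset_adjoin ⟨i, rfl⟩
  choose l hlB hlρ using hl
  have hex := fun a => exists_lift (𝒜.indep a) (𝒜.gen a) ρA (fun z hz => S.isUnit hz)
    (fun i => θ a (𝒜.g a i) - β • l a i) (fun i => by
      rw [hρA, map_sub, hρ, S.ρ_smul, S.res_eq_zero.mpr hβm, map_zero, zero_mul, sub_zero])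
  choose θ' hθ'1 hθ'2 using hex
  have hnt : Nontrivial (K ⧸ 𝔟.map (algebraMap A K)) := by
    rw [Ideal.Quotient.nontrivial_iff]
    intro htop
    have h1 : (1 : K) ∈ 𝔟.map (algebraMap A K) := by rw [htop]; trivial
    rw [mem_map_iff] at h1
    have h2 := (S.ker_iff 1).mpr (Submodule.smul_mono_left h𝔟m h1)
    rw [map_one] at h2
    exact one_ne_zero h2
  let mkA : K →ₐ[k] K ⧸ 𝔟.map (algebraMap A K) := Ideal.Quotient.mkₐ k _
  have hmkA : ∀ z, mkA z = mk z := fun _ => rfl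
  let ψ : C → (E →ₐ[k] K ⧸ 𝔟.map (algebraMap A K)) := fun a =>
    { toFun := fun y => mk (θ a y) - S.mu 𝔟 β (D' a y)
      map_one' := by
        rw [Derivation.map_one_eq_zero, S.mu_zero hm, map_one, map_one, sub_zero]
      map_zero' := by
        rw [map_zero, map_zero, map_zero, S.mu_zero hm, sub_zero]
      map_mul' := by
        intro x y
        rw [Derivation.leibniz, smul_eq_mul, smul_eq_mul, S.mu_add hm, hmul a x, hmul a y,
          map_mul, map_mul]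
        have := S.mu_mul_mu hm hβm (D' a x) (D' a y)
        linear_combination -this
      map_add' := by
        intro x y
        rw [map_add, map_add, map_add, S.mu_add hm]; ring
      commutes' := by
        intro c
        rw [Derivation.map_algebraMap, S.mu_zero hm, sub_zero, AlgHom.commutes]
        rfl }
  have hψ : ∀ a, mkA.comp (θ' a) = ψ a := by
    intro a
    apply algHom_ext_gen (𝒜.gen a)
    intro i
    change mk (θ' a (𝒜.g a i)) = mk (θ a (𝒜.g a i)) - S.mu 𝔟 β (D' a (𝒜.g a i))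
    rw [hθ'1, map_sub, S.mu_eq hm, hlρ]
  refine ⟨θ', hθ'2, ?_, ?_⟩
  · intro a y hy
    rw [𝒜.Pgen] at hy
    refine lift_mem (θ' a) ((S.B a a).restrictScalars k) ?_ hy
    intro i
    rw [hθ'1, Subalgebra.mem_restrictScalars]
    refine sub_mem (hB a _ ?_) ((S.B a a).smul_mem (hlB a i) β)
    rw [𝒜.Pgen]
    exact Algebra.subset_adjoin ⟨i, rfl⟩
  · intro a b y
    rw [← mem_map_iff, ← Ideal.Quotient.eq]
    have h1 : ∀ a, mk (θ' a y) = mk (θ a y) - S.mu 𝔟 β (D' a y) := fun a =>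
      congrArg (fun f : E →ₐ[k] K ⧸ 𝔟.map (algebraMap A K) => f y) (hψ a)
    change mk (θ' a y) = mk (θ' b y)
    have h2 : D a b y = D' a y - D' b y := by rw [hD']; rfl
    have h3 := hd a b y
    rw [← hD, h2, S.mu_sub hm, map_sub] at h3
    rw [h1, h1]
    linear_combination h3

/-- Deformations over `k`-algebras are trivial. -/
theorem trivial_of_algebra [Nonempty C] [IsArtinianRing A] (j : k →+* A)
    (hj : ∀ c, S.res (j c) = c) :
    ∃ Θ : E →+* K, (∀ y, S.ρ (Θ y) = y) ∧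
      (∀ c, Θ (algebraMap k E c) = algebraMap A K (j c)) ∧
      ∀ a b, ∀ y ∈ 𝒜.P a b, Θ y ∈ S.B a b := by
  classical
  let _ : Algebra k A := j.toAlgebra
  let _ : Algebra k K := ((algebraMap A K).comp j).toAlgebra
  have _ : IsScalarTower k A K := IsScalarTower.of_algebraMap_eq (fun _ => rfl)
  have hj' : ∀ c, S.res (algebraMap k A c) = c := hj
  have hkE : ∀ c : k, S.ρ (algebraMap k K c) = algebraMap k E c := by
    intro c
    rw [IsScalarTower.algebraMap_apply k A K, S.compat, hj']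
  let ρA : K →ₐ[k] E := { S.ρ with commutes' := hkE }
  let T : Set (Ideal A) := {𝔞 | 𝔞 ≤ IsLocalRing.maximalIdeal A ∧
    ∃ θ : C → (E →ₐ[k] K), (∀ a y, S.ρ (θ a y) = y) ∧
      (∀ a, ∀ y ∈ 𝒜.P a a, θ a y ∈ S.B a a) ∧
      ∀ a b y, θ a y - θ b y ∈ 𝔞 • (⊤ : Submodule A K)}
  have hT : T.Nonempty := by
    refine ⟨IsLocalRing.maximalIdeal A, le_rfl, ?_⟩
    have hl : ∀ a i, ∃ z ∈ S.B a a, S.ρ z = 𝒜.g a i := by
      intro a i
      apply S.Bsurj
      rw [𝒜.Pgen]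
      exact Algebra.subset_adjoin ⟨i, rfl⟩
    choose l hlB hlρ using hl
    have hex := fun a => exists_lift (𝒜.indep a) (𝒜.gen a) ρA (fun z hz => S.isUnit hz)
      (fun i => l a i) (fun i => hlρ a i)
    choose θ hθ1 hθ2 using hex
    refine ⟨θ, hθ2, ?_, ?_⟩
    · intro a y hy
      rw [𝒜.Pgen] at hy
      refine lift_mem (θ a) ((S.B a a).restrictScalars k) ?_ hy
      intro i
      rw [hθ1, Subalgebra.mem_restrictScalars]
      exact hlB a i
    · intro a b y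
      apply S.ker
      rw [map_sub]
      have h1 : S.ρ (θ a y) = y := hθ2 a y
      have h2 : S.ρ (θ b y) = y := hθ2 b y
      rw [h1, h2, sub_self]
  obtain ⟨𝔞, ⟨h𝔞m, θ, hρ, hB, hθ⟩, hmin⟩ :=
    WellFounded.has_min (wellFounded_lt (α := Ideal A)) T hT
  have h𝔞 : 𝔞 = ⊥ := by
    by_contra hne
    obtain ⟨𝔟, -, h2, β, hβ, hβ', e, hm⟩ := exists_step (bot_lt_iff_ne_bot.mpr hne)
    exact hmin 𝔟 ⟨h2.le.trans h𝔞m, S.step hj' e hβ' hm (h𝔞m hβ) (h2.le.trans h𝔞m) θ hρ hB hθ⟩ h2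
  subst h𝔞
  have heq : ∀ a b y, θ a y = θ b y := by
    intro a b y
    have := hθ a b y
    rw [Submodule.bot_smul, Submodule.mem_bot] at this
    exact sub_eq_zero.mp this
  obtain ⟨a0⟩ := ‹Nonempty C›
  refine ⟨(θ a0).toRingHom, hρ a0, fun c => (θ a0).commutes c, ?_⟩
  intro a b y hy
  have h1 : (θ a0).toRingHom y = θ a y := heq a0 a y
  rw [h1]
  exact S.section_mem a b (θ a).toRingHom (hρ a) (hB a) hy

end Sys

end Pool.Agent.Totaro

end

/-! ## FlatAlg -/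

section

set_option linter.unusedSectionVars false

namespace Pool.Agent.Totaro

section

variable {A : Type*} [CommRing A] [IsLocalRing A] {R1 R2 : Type*} [CommRing R1] [CommRing R2]
  [Algebra A R1] [Algebra A R2]

lemma map_smul_top (φ : R1 →ₐ[A] R2) {𝔟 : Ideal A} {z : R1}
    (h : z ∈ 𝔟 • (⊤ : Submodule A R1)) : φ z ∈ 𝔟 • (⊤ : Submodule A R2) := by
  refine Submodule.smul_induction_on (p := fun v => φ v ∈ 𝔟 • (⊤ : Submodule A R2)) h ?_ ?_
  · intro r hr n _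
    rw [map_smul]
    exact Submodule.smul_mem_smul hr trivial
  · intro x y hx hy
    rw [map_add]; exact add_mem hx hy

/-- A homomorphism to a flat algebra which is injective modulo the maximal ideal is injective. -/
lemma alg_inj [IsArtinianRing A] (φ : R1 →ₐ[A] R2) (hfl : WFlat A R2)
    (h1 : ∀ b, φ b ∈ IsLocalRing.maximalIdeal A • (⊤ : Submodule A R2) →
      b ∈ IsLocalRing.maximalIdeal A • (⊤ : Submodule A R1)) : Function.Injective φ := by
  rw [injective_iff_map_eq_zero]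
  intro z hz
  let S : Set (Ideal A) := {𝔟 | z ∈ 𝔟 • (⊤ : Submodule A R1)}
  have hS : S.Nonempty := ⟨⊤, by
    change z ∈ (⊤ : Ideal A) • (⊤ : Submodule A R1)
    rw [Submodule.top_smul]; trivial⟩
  obtain ⟨𝔟, hb2, hmin⟩ := WellFounded.has_min (wellFounded_lt (α := Ideal A)) S hS
  by_cases h : 𝔟 = ⊥
  · have h2 : z ∈ 𝔟 • (⊤ : Submodule A R1) := hb2
    rwa [h, Submodule.bot_smul, Submodule.mem_bot] at h2
  · exfalso
    obtain ⟨𝔟', -, h2, β, hβ, hβ', e, hm⟩ := exists_step (bot_lt_iff_ne_bot.mpr h)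
    apply hmin 𝔟' ?_ h2
    have hb3 : z ∈ 𝔟 • (⊤ : Submodule A R1) := hb2
    rw [e] at hb3
    obtain ⟨w, hw, b, -, rfl⟩ := mem_sup_smul hb3
    have h3 : β • φ b ∈ 𝔟' • (⊤ : Submodule A R2) := by
      have h4 : β • φ b = -φ w := by
        rw [map_add, map_smul] at hz
        exact eq_neg_of_add_eq_zero_right hz
      rw [h4]
      exact neg_mem (map_smul_top φ hw)
    have h6 := h1 b (hfl 𝔟' β hβ' _ h3)
    refine add_mem hw ?_
    refine Submodule.smul_induction_on (p := fun v => β • v ∈ 𝔟' • (⊤ : Submodule A R1)) h6 ?_ ?_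
    · intro r hr n hn
      rw [smul_smul, mul_comm]
      exact Submodule.smul_mem_smul (hm r hr) hn
    · intro x y hx hy
      rw [smul_add]; exact add_mem hx hy

/-- Surjectivity modulo a nilpotent ideal implies surjectivity. -/
lemma alg_surj [IsArtinianRing A] (φ : R1 →ₐ[A] R2)
    (h2 : ∀ c, ∃ b, c - φ b ∈ IsLocalRing.maximalIdeal A • (⊤ : Submodule A R2)) :
    Function.Surjective φ := by
  have hn : IsNilpotent (IsLocalRing.maximalIdeal A) := by
    have := IsArtinianRing.isNilpotent_jacobson_bot (R := A)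
    rwa [IsLocalRing.jacobson_eq_maximalIdeal _ bot_ne_top] at this
  obtain ⟨n, hn⟩ := hn
  have key : ∀ n, ∀ c, ∃ b, c - φ b ∈ IsLocalRing.maximalIdeal A ^ n • (⊤ : Submodule A R2) := by
    intro n
    induction n with
    | zero =>
      intro c
      exact ⟨0, by rw [pow_zero, Ideal.one_eq_top, Submodule.top_smul]; trivial⟩
    | succ n ih =>
      intro c
      obtain ⟨b, hb⟩ := ih c
      have h3 : ∀ v ∈ IsLocalRing.maximalIdeal A ^ n • (⊤ : Submodule A R2),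
          ∃ b', v - φ b' ∈ IsLocalRing.maximalIdeal A ^ (n + 1) • (⊤ : Submodule A R2) := by
        intro v hv
        refine Submodule.smul_induction_on (p := fun v => ∃ b', v - φ b' ∈
          IsLocalRing.maximalIdeal A ^ (n + 1) • (⊤ : Submodule A R2)) hv ?_ ?_
        · intro r hr m _
          obtain ⟨b', hb'⟩ := h2 m
          refine ⟨r • b', ?_⟩
          rw [map_smul, ← smul_sub, pow_succ, Submodule.mul_smul]
          exact Submodule.smul_mem_smul hr hb'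
        · rintro x y ⟨bx, hx⟩ ⟨bY, hy⟩
          refine ⟨bx + bY, ?_⟩
          rw [map_add, add_sub_add_comm]
          exact add_mem hx hy
      obtain ⟨b', hb'⟩ := h3 _ hb
      exact ⟨b + b', by rw [map_add, ← sub_sub]; exact hb'⟩
  intro c
  obtain ⟨b, hb⟩ := key n c
  rw [hn] at hb
  refine ⟨b, ?_⟩
  have : c - φ b = 0 := by
    rw [Ideal.zero_eq_bot, Submodule.bot_smul, Submodule.mem_bot] at hb
    exact hb
  exact (sub_eq_zero.mp this).symm

end

end Pool.Agent.Totaro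

end
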