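import Pool.Agent.TotaroVar.A08Omg
import Pool.Agent.TotaroVar.A07Sys

/-! ## AG3 -/

section

set_option linter.unusedSectionVars false
set_option backward.isDefEq.respectTransparency false
set_option backward.isDefEq.respectTransparency.types false

open AlgebraicGeometry CategoryTheory Limits TopologicalSpace Opposite

universe u

namespace Pool.Agent.Totaro

section square

variable {k A : Type u} [Field k] [CommRing A] [IsLocalRing A] [IsArtinianRing A] (res : A →+* k)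
  (hres : Function.Surjective res)

include hres in
lemma ker_res : RingHom.ker res = IsLocalRing.maximalIdeal A :=
  IsLocalRing.eq_maximalIdeal (RingHom.ker_isMaximal_of_surjective res hres)

/-- flatness of sections -/
lemma aV_flat {𝒳 : Scheme.{u}} (f : 𝒳 ⟶ Spec (.of A)) [Flat f] {𝒱 : 𝒳.Opens}
    (h𝒱 : IsAffineOpen 𝒱) : (aV f 𝒱).Flat := by
  have h1 := f.flat_appLE (isAffineOpen_top (Spec (.of A))) h𝒱 le_top
  have h2 : (Scheme.ΓSpecIso (.of A)).inv.hom.Flat :=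
    RingHom.Flat.of_bijective (ConcreteCategory.bijective_of_isIso (Scheme.ΓSpecIso (.of A)).inv)
  exact h2.comp h1

lemma wflat_sections {𝒳 : Scheme.{u}} (f : 𝒳 ⟶ Spec (.of A)) [Flat f] {𝒱 : 𝒳.Opens}
    (h𝒱 : IsAffineOpen 𝒱) : @WFlat A _ _ Γ(𝒳, 𝒱) _ (aV f 𝒱).toAlgebra := by
  let _ := (aV f 𝒱).toAlgebra
  have : Module.Flat A Γ(𝒳, 𝒱) := aV_flat f h𝒱
  exact flat_key

include hres in
/-- A morphism between deformations, the source being flat, is an isomorphism. -/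
theorem defo_iso {X 𝒳 𝒴 : Scheme.{u}} {s : X ⟶ Spec (.of k)} {f : 𝒳 ⟶ Spec (.of A)}
    {f' : 𝒴 ⟶ Spec (.of A)} [Flat f] {i : X ⟶ 𝒳} {i' : X ⟶ 𝒴}
    (pb : IsPullback i s f (Spec.map (CommRingCat.ofHom res)))
    (pb' : IsPullback i' s f' (Spec.map (CommRingCat.ofHom res)))
    (g : 𝒳 ⟶ 𝒴) (hg : g ≫ f' = f) (hi : i ≫ g = i') : IsIso g := by
  have c1 := closed_i res hres pb
  have c2 := closed_i res hres pb'
  have s1 := surj_i res pb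
  have s2 := surj_i res pb'
  -- topology
  let e := i.isClosedEmbedding.isEmbedding.toHomeomorphOfSurjective i.surjective
  have he : ∀ x, e x = i x := fun _ => rfl
  have hgi : ∀ x, g (i x) = i' x := by
    intro x
    rw [← hi]; rfl
  have hg' : (g : 𝒳 → 𝒴) = (i' : X → 𝒴) ∘ e.symm := by
    funext y
    obtain ⟨x, rfl⟩ := i.surjective y
    rw [Function.comp_apply, ← he, e.symm_apply_apply, he, hgi]
  have hind : Topology.IsInducing g := by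
    rw [hg']
    exact i'.isClosedEmbedding.isEmbedding.isInducing.comp e.symm.isInducing
  have hrange : Set.range g = Set.univ := by
    rw [Set.eq_univ_iff_forall]
    intro y
    obtain ⟨x, rfl⟩ := i'.surjective y
    exact ⟨i x, hgi x⟩
  have haff : IsAffineHom g := isAffineHom_of_isInducing g hind (by rw [hrange]; exact isClosed_univ)
  -- isomorphism on affine opens
  have hloc : ∀ 𝒱 : 𝒴.affineOpens, IsIso (g ∣_ 𝒱.1) := by
    rintro ⟨𝒱, h𝒱⟩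
    rw [isIso_morphismRestrict_iff_isIso_app g h𝒱, ConcreteCategory.isIso_iff_bijective]
    have h𝒱' : IsAffineOpen (g ⁻¹ᵁ 𝒱) := h𝒱.preimage g
    let _ := (aV f' 𝒱).toAlgebra
    let _ := (aV f (g ⁻¹ᵁ 𝒱)).toAlgebra
    have hcomm : ∀ a, (g.app 𝒱).hom (aV f' 𝒱 a) = aV f (g ⁻¹ᵁ 𝒱) a := by
      intro a
      have : ((Scheme.ΓSpecIso (.of A)).inv ≫ f'.appLE ⊤ 𝒱 le_top) ≫ g.app 𝒱 =
          (Scheme.ΓSpecIso (.of A)).inv ≫ f.appLE ⊤ (g ⁻¹ᵁ 𝒱) le_top := by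
        rw [Category.assoc, Scheme.Hom.app_eq_appLE, Scheme.Hom.appLE_comp_appLE]
        simp only [hg]
      exact congrArg (fun g => g.hom a) this
    let φ : Γ(𝒴, 𝒱) →ₐ[A] Γ(𝒳, g ⁻¹ᵁ 𝒱) := { (g.app 𝒱).hom with commutes' := hcomm }
    have hφ : ∀ z, φ z = (g.app 𝒱).hom z := fun _ => rfl
    -- reductions
    have hred : ∀ z : Γ(𝒴, 𝒱), (i.app (g ⁻¹ᵁ 𝒱)).hom ((g.app 𝒱).hom z) = 0 ↔
        (i'.app 𝒱).hom z = 0 := by
      intro z
      have e1 : g.app 𝒱 ≫ i.app (g ⁻¹ᵁ 𝒱) = (i ≫ g).app 𝒱 := by rw [Scheme.Hom.comp_app]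
      have e2 : ((i ≫ g).app 𝒱).hom z = 0 ↔ (i'.app 𝒱).hom z = 0 := by
        subst hi; rfl
      rw [← e2, ← e1, CommRingCat.hom_comp, RingHom.comp_apply]
      exact Iff.rfl
    have hk1 : ∀ z : Γ(𝒴, 𝒱), (i'.app 𝒱).hom z = 0 ↔
        z ∈ IsLocalRing.maximalIdeal A • (⊤ : Submodule A Γ(𝒴, 𝒱)) := by
      intro z
      rw [← mem_map_iff, ← ker_res res hres]
      constructor
      · exact ker_i res hres f' pb' h𝒱 z
      · intro hz
        have : (RingHom.ker res).map (aV f' 𝒱) ≤ RingHom.ker (i'.app 𝒱).hom := by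
          rw [Ideal.map_le_iff_le_comap]
          intro a ha
          rw [Ideal.mem_comap, RingHom.mem_ker, app_aV res f' pb'.w, RingHom.mem_ker.mp ha,
            map_zero]
        exact this hz
    have hk2 : ∀ z : Γ(𝒳, g ⁻¹ᵁ 𝒱), (i.app (g ⁻¹ᵁ 𝒱)).hom z = 0 ↔
        z ∈ IsLocalRing.maximalIdeal A • (⊤ : Submodule A Γ(𝒳, g ⁻¹ᵁ 𝒱)) := by
      intro z
      rw [← mem_map_iff, ← ker_res res hres]
      constructor
      · exact ker_i res hres f pb h𝒱' z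
      · intro hz
        have : (RingHom.ker res).map (aV f (g ⁻¹ᵁ 𝒱)) ≤ RingHom.ker (i.app (g ⁻¹ᵁ 𝒱)).hom := by
          rw [Ideal.map_le_iff_le_comap]
          intro a ha
          rw [Ideal.mem_comap, RingHom.mem_ker, app_aV res f pb.w, RingHom.mem_ker.mp ha,
            map_zero]
        exact this hz
    constructor
    · refine alg_inj φ (wflat_sections f h𝒱') ?_
      intro b hb
      rw [← hk1, ← hred, hk2]
      exact hb
    · refine alg_surj φ ?_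
      intro c
      -- lift the reduction of `c`
      have e3 : i ⁻¹ᵁ (g ⁻¹ᵁ 𝒱) = i' ⁻¹ᵁ 𝒱 := by rw [← hi]; rfl
      obtain ⟨b, hb⟩ : ∃ b : Γ(𝒴, 𝒱), (i.app (g ⁻¹ᵁ 𝒱)).hom ((g.app 𝒱).hom b) =
          (i.app (g ⁻¹ᵁ 𝒱)).hom c := by
        have e1 : g.app 𝒱 ≫ i.app (g ⁻¹ᵁ 𝒱) = (i ≫ g).app 𝒱 := by rw [Scheme.Hom.comp_app]
        subst hi
        obtain ⟨b, hb⟩ := (i ≫ g).app_surjective 𝒱 h𝒱 ((i.app (g ⁻¹ᵁ 𝒱)).hom c)
        refine ⟨b, ?_⟩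
        rw [← hb]
        exact congrArg (fun g => g.hom b) e1
      refine ⟨b, ?_⟩
      rw [← hk2, map_sub, sub_eq_zero]
      exact hb.symm
  have htop : iSup (fun 𝒱 : 𝒴.affineOpens => (𝒱 : 𝒴.Opens)) = ⊤ := by
    rw [eq_top_iff]
    intro x hx
    obtain ⟨_, ⟨W, hW, rfl⟩, hxW, -⟩ :=
      𝒴.isBasis_affineOpens.exists_subset_of_mem_open hx (⊤ : 𝒴.Opens).2
    exact (le_iSup (fun 𝒱 : 𝒴.affineOpens => (𝒱 : 𝒴.Opens)) ⟨W, hW⟩) hxW
  exact (IsZariskiLocalAtTarget.iff_of_iSup_eq_top (P := MorphismProperty.isomorphisms Scheme)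
    (fun 𝒱 : 𝒴.affineOpens => (𝒱 : 𝒴.Opens)) htop).mpr hloc

end square

end Pool.Agent.Totaro

end

/-! ## AG4 -/

section

set_option linter.unusedSectionVars false
set_option backward.isDefEq.respectTransparency false
set_option backward.isDefEq.respectTransparency.types false

open AlgebraicGeometry CategoryTheory Limits TopologicalSpace Opposite

universe u

namespace Pool.Agent.Totaro

section thk

variable {X 𝒳 : Scheme.{u}} (i : X ⟶ 𝒳) [IsClosedImmersion i] [Surjective i]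

/-- the open of a thickening with given reduction -/
noncomputable def thk (U : X.Opens) : 𝒳.Opens :=
  ⟨(i : X → 𝒳) '' (U : Set X), by
    have := (i.isClosedEmbedding.isEmbedding.toHomeomorphOfSurjective i.surjective).isOpenMap _ U.2
    exact this⟩

@[simp] lemma preimage_thk (U : X.Opens) : i ⁻¹ᵁ thk i U = U := by
  ext x
  constructor
  · rintro ⟨y, hy, e⟩
    have := i.isClosedEmbedding.injective e
    exact this ▸ hy
  · intro hx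
    exact ⟨x, hx, rfl⟩

lemma thk_inf (U V : X.Opens) : thk i (U ⊓ V) = thk i U ⊓ thk i V := by
  apply le_antisymm
  · apply le_inf <;> apply le_of_preimage_le i
    · simp only [preimage_thk]; exact inf_le_left
    · simp only [preimage_thk]; exact inf_le_right
  · apply le_of_preimage_le i
    rw [preimage_thk]
    exact le_of_eq (by
      change (i ⁻¹ᵁ thk i U) ⊓ (i ⁻¹ᵁ thk i V) = _
      rw [preimage_thk, preimage_thk])

lemma thk_mono {U V : X.Opens} (h : U ≤ V) : thk i U ≤ thk i V := by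
  apply le_of_preimage_le i
  rwa [preimage_thk, preimage_thk]

end thk

section xatl

variable {k : Type u} [Field k] {E : Type u} [Field E] [Algebra k E] {C : Type*}

lemma Atl.Pr (𝒜 : Atl k E C) (a b : C) : 𝒜.P b b ≤ 𝒜.P a b :=
  (𝒜.Pl b a).trans (𝒜.Psymm b a).le

/-- Atlas of a scheme: open affine charts as prescribed by the algebraic atlas. -/
structure XAtl (𝒜 : Atl k E C) (X : Scheme.{u}) (s : X ⟶ Spec (.of k)) where
  /-- the charts -/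
  χ : ∀ a, Spec (.of (𝒜.P a a)) ⟶ X
  opn : ∀ a, IsOpenImmersion (χ a)
  hov : ∀ a, χ a ≫ s = Spec.map (CommRingCat.ofHom (algebraMap k (𝒜.P a a)))
  pb : ∀ a b, IsPullback
    (Spec.map (CommRingCat.ofHom (Subalgebra.inclusion (𝒜.Pl a b)).toRingHom))
    (Spec.map (CommRingCat.ofHom (Subalgebra.inclusion (𝒜.Pr a b)).toRingHom)) (χ a) (χ b)
  cover : ∀ x : X, ∃ a, x ∈ (χ a).opensRange

namespace XAtl

variable {𝒜 : Atl k E C} {X : Scheme.{u}} {s : X ⟶ Spec (.of k)} (𝒟 : XAtl 𝒜 X s)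

instance (a : C) : IsOpenImmersion (𝒟.χ a) := 𝒟.opn a

/-- the generic point -/
noncomputable def ξ (a : C) : Spec (.of E) ⟶ X :=
  Spec.map (CommRingCat.ofHom (𝒜.P a a).val.toRingHom) ≫ 𝒟.χ a

/-- chart of an intersection -/
noncomputable def χ2 (a b : C) : Spec (.of (𝒜.P a b)) ⟶ X :=
  Spec.map (CommRingCat.ofHom (Subalgebra.inclusion (𝒜.Pl a b)).toRingHom) ≫ 𝒟.χ a

lemma χ2_symm (a b : C) : 𝒟.χ2 a b =
    Spec.map (CommRingCat.ofHom (Subalgebra.inclusion (𝒜.Pr a b)).toRingHom) ≫ 𝒟.χ b :=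
  (𝒟.pb a b).w

lemma ξ_eq_χ2 (a b : C) : 𝒟.ξ a =
    Spec.map (CommRingCat.ofHom (𝒜.P a b).val.toRingHom) ≫ 𝒟.χ2 a b := by
  rw [χ2, ← Category.assoc, ← Spec.map_comp]
  rfl

lemma ξ_eq (a b : C) : 𝒟.ξ a = 𝒟.ξ b := by
  rw [ξ_eq_χ2 𝒟 a b, χ2_symm, ← Category.assoc, ← Spec.map_comp]
  rfl

include 𝒟 in
lemma opn_incl (a b : C) : IsOpenImmersion
    (Spec.map (CommRingCat.ofHom (Subalgebra.inclusion (𝒜.Pl a b)).toRingHom)) :=
  MorphismProperty.of_isPullback (P := @IsOpenImmersion) (𝒟.pb a b).flip (𝒟.opn b)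

instance opn_χ2 (a b : C) : IsOpenImmersion (𝒟.χ2 a b) := by
  have := 𝒟.opn_incl a b
  unfold χ2
  infer_instance

/-- intersections of charts -/
noncomputable def U (a b : C) : X.Opens := (𝒟.χ a).opensRange ⊓ (𝒟.χ b).opensRange

lemma U_symm (a b : C) : 𝒟.U a b = 𝒟.U b a := inf_comm _ _

lemma U_self (a : C) : 𝒟.U a a = (𝒟.χ a).opensRange := inf_idem _

lemma U_le (a b : C) : 𝒟.U a b ≤ 𝒟.U a a := by
  rw [U_self]; exact inf_le_left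

lemma opensRange_χ2 (a b : C) : (𝒟.χ2 a b).opensRange = 𝒟.U a b := by
  have h1 : 𝒟.χ2 a b = (𝒟.pb a b).isoPullback.hom ≫ (pullback.fst (𝒟.χ a) (𝒟.χ b) ≫ 𝒟.χ a) := by
    rw [← Category.assoc, IsPullback.isoPullback_hom_fst]; rfl
  apply TopologicalSpace.Opens.ext
  rw [Scheme.Hom.coe_opensRange, h1, Scheme.Hom.comp_base, TopCat.coe_comp, Set.range_comp,
    Set.range_eq_univ.mpr, Set.image_univ, IsOpenImmersion.range_pullback_to_base_of_left]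
  · rfl
  · exact (𝒟.pb a b).isoPullback.hom.surjective

lemma U_affine (a b : C) : IsAffineOpen (𝒟.U a b) := by
  rw [← opensRange_χ2]
  exact isAffineOpen_opensRange _

lemma top_le (a b : C) : (⊤ : (Spec (.of (𝒜.P a b))).Opens) ≤ 𝒟.χ2 a b ⁻¹ᵁ 𝒟.U a b := by
  rw [← opensRange_χ2]
  intro x _
  exact ⟨x, rfl⟩

/-- sections over the intersection of two charts -/
noncomputable def sec (a b : C) : Γ(X, 𝒟.U a b) ⟶ .of (𝒜.P a b) :=
  (𝒟.χ2 a b).appLE (𝒟.U a b) ⊤ (𝒟.top_le a b) ≫ (Scheme.ΓSpecIso _).hom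

instance isIso_sec (a b : C) : IsIso (𝒟.sec a b) := by
  have h1 : IsIso ((𝒟.χ2 a b).app (𝒟.U a b)) :=
    (𝒟.χ2 a b).isIso_app _ (𝒟.opensRange_χ2 a b).ge
  have h2 : 𝒟.χ2 a b ⁻¹ᵁ 𝒟.U a b = ⊤ := top_le_iff.mp (𝒟.top_le a b)
  have h3 : (𝒟.χ2 a b).appLE (𝒟.U a b) ⊤ (𝒟.top_le a b) = (𝒟.χ2 a b).app (𝒟.U a b) ≫
      (Spec (.of (𝒜.P a b))).presheaf.map (eqToHom h2.symm).op := by
    rw [Scheme.Hom.appLE]; rfl
  unfold sec
  rw [h3]
  infer_instance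

lemma sec_bij (a b : C) : Function.Bijective (𝒟.sec a b).hom :=
  ConcreteCategory.bijective_of_isIso _

end XAtl

end xatl

end Pool.Agent.Totaro

end

/-! ## AG5 -/

section

set_option linter.unusedSectionVars false
set_option backward.isDefEq.respectTransparency false
set_option backward.isDefEq.respectTransparency.types false

open AlgebraicGeometry CategoryTheory Limits TopologicalSpace Opposite

universe u

namespace Pool.Agent.Totaro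

variable {k : Type u} [Field k] {E : Type u} [Field E] [Algebra k E] {C : Type*}
  {𝒜 : Atl k E C} {X : Scheme.{u}} {s : X ⟶ Spec (.of k)} (𝒟 : XAtl 𝒜 X s)
  {A : Type u} [CommRing A] [IsLocalRing A] [IsArtinianRing A] (res : A →+* k)
  (hres : Function.Surjective res)
  {𝒳 : Scheme.{u}} (f : 𝒳 ⟶ Spec (.of A)) (i : X ⟶ 𝒳) (a₀ : C)

/-- the image of the generic point in the deformation -/
noncomputable def x0 : 𝒳 := (𝒟.ξ a₀ ≫ i) (IsLocalRing.closedPoint (CommRingCat.of E))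

/-- the local ring of the deformation at the generic point -/
def KK (_ : 𝒳 ⟶ Spec (.of A)) : Type u := 𝒳.presheaf.stalk (x0 𝒟 i a₀)

noncomputable instance : CommRing (KK 𝒟 i a₀ f) :=
  inferInstanceAs (CommRing (𝒳.presheaf.stalk (x0 𝒟 i a₀)))

/-- germs at the generic point -/
noncomputable def gm (𝒱 : 𝒳.Opens) (h : x0 𝒟 i a₀ ∈ 𝒱) : Γ(𝒳, 𝒱) →+* KK 𝒟 i a₀ f :=
  (𝒳.presheaf.germ 𝒱 _ h).hom

lemma gm_res {𝒱 𝒲 : 𝒳.Opens} (hle : 𝒲 ≤ 𝒱) (h : x0 𝒟 i a₀ ∈ 𝒲) (x : Γ(𝒳, 𝒱)) :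
    gm 𝒟 f i a₀ 𝒲 h ((𝒳.presheaf.map (homOfLE hle).op).hom x) = gm 𝒟 f i a₀ 𝒱 (hle h) x :=
  TopCat.Presheaf.germ_res_apply 𝒳.presheaf (homOfLE hle) _ h x

noncomputable instance : Algebra A (KK 𝒟 i a₀ f) :=
  ((gm 𝒟 f i a₀ ⊤ trivial).comp (aV f ⊤)).toAlgebra

lemma gm_aV (𝒱 : 𝒳.Opens) (h : x0 𝒟 i a₀ ∈ 𝒱) (a : A) :
    gm 𝒟 f i a₀ 𝒱 h (aV f 𝒱 a) = algebraMap A (KK 𝒟 i a₀ f) a := by
  rw [← aV_res f le_top a, gm_res]
  rfl

/-- reduction at the generic point -/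
noncomputable def rr : KK 𝒟 i a₀ f →+* E :=
  (Scheme.stalkClosedPointTo (𝒟.ξ a₀ ≫ i)).hom

section
variable [IsClosedImmersion i] [Surjective i]

lemma mem_thk (a b : C) : x0 𝒟 i a₀ ∈ thk i (𝒟.U a b) := by
  have h : (𝒟.ξ a₀) (IsLocalRing.closedPoint (CommRingCat.of E)) ∈ 𝒟.U a b := by
    rw [𝒟.ξ_eq a₀ a, 𝒟.ξ_eq_χ2 a b, ← 𝒟.opensRange_χ2]
    exact ⟨_, rfl⟩
  exact ⟨_, h, rfl⟩

/-- reduction of sections -/
noncomputable def rd (U : X.Opens) : Γ(𝒳, thk i U) ⟶ Γ(X, U) :=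
  i.appLE (thk i U) U (preimage_thk i U).ge

lemma rd_eq (U : X.Opens) : rd i U = i.app (thk i U) ≫ X.presheaf.map
    (eqToHom (preimage_thk i U).symm).op := by
  rw [rd, Scheme.Hom.appLE]; rfl

lemma rd_zero (U : X.Opens) (z : Γ(𝒳, thk i U)) (h : (rd i U).hom z = 0) :
    (i.app (thk i U)).hom z = 0 := by
  rw [rd_eq, CommRingCat.hom_comp, RingHom.comp_apply] at h
  have h2 : Function.Injective (X.presheaf.map (eqToHom (preimage_thk i U).symm).op).hom :=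
    (ConcreteCategory.bijective_of_isIso _).1
  exact h2 (h.trans (map_zero _).symm)

lemma rd_surj (U : X.Opens) (h : IsAffineOpen (thk i U)) : Function.Surjective (rd i U).hom := by
  rw [rd_eq, CommRingCat.hom_comp]
  have h2 : Function.Bijective (X.presheaf.map (eqToHom (preimage_thk i U).symm).op).hom :=
    ConcreteCategory.bijective_of_isIso _
  exact h2.2.comp (i.app_surjective _ h)

lemma rd_aV (w : i ≫ f = s ≫ Spec.map (CommRingCat.ofHom res)) (U : X.Opens) (a : A) :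
    (rd i U).hom (aV f (thk i U) a) = aV s U (res a) := by
  rw [rd_eq, CommRingCat.hom_comp, RingHom.comp_apply, app_aV res f w]
  exact aV_res s (preimage_thk i U).ge (res a)

lemma rr_gm (a b : C) (z : Γ(𝒳, thk i (𝒟.U a b))) :
    rr 𝒟 f i a₀ (gm 𝒟 f i a₀ _ (mem_thk 𝒟 i a₀ a b) z) =
      ((𝒟.sec a b).hom ((rd i (𝒟.U a b)).hom z) : E) := by
  have h0 : 𝒟.ξ a₀ = Spec.map (CommRingCat.ofHom (𝒜.P a b).val.toRingHom) ≫ 𝒟.χ2 a b := by
    rw [𝒟.ξ_eq a₀ a, 𝒟.ξ_eq_χ2 a b]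
  have h1 := Scheme.germ_stalkClosedPointTo (𝒟.ξ a₀ ≫ i) (thk i (𝒟.U a b))
    (mem_thk 𝒟 i a₀ a b)
  have hle : (⊤ : (Spec (.of E)).Opens) ≤ (𝒟.ξ a₀ ≫ i) ⁻¹ᵁ thk i (𝒟.U a b) :=
    (Scheme.preimage_eq_top_of_closedPoint_mem _ (mem_thk 𝒟 i a₀ a b)).ge
  have h2 : (𝒟.ξ a₀ ≫ i).app (thk i (𝒟.U a b)) ≫
      ((Spec (.of E)).presheaf.mapIso (eqToIso (Scheme.preimage_eq_top_of_closedPoint_mem
        (𝒟.ξ a₀ ≫ i) (mem_thk 𝒟 i a₀ a b)).symm).op ≪≫ Scheme.ΓSpecIso (.of E)).hom =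
      (𝒟.ξ a₀ ≫ i).appLE (thk i (𝒟.U a b)) ⊤ hle ≫ (Scheme.ΓSpecIso (.of E)).hom := by
    rw [Iso.trans_hom, Functor.mapIso_hom, Iso.op_hom, ← Category.assoc, Scheme.Hom.appLE]
    rfl
  have h3 : (𝒟.ξ a₀ ≫ i).appLE (thk i (𝒟.U a b)) ⊤ hle ≫ (Scheme.ΓSpecIso (.of E)).hom =
      rd i (𝒟.U a b) ≫ 𝒟.sec a b ≫ CommRingCat.ofHom (𝒜.P a b).val.toRingHom := by
    rw [XAtl.sec, Category.assoc, ← Scheme.ΓSpecIso_naturality, rd, Scheme.Hom.appTop,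
      Scheme.Hom.app_eq_appLE, Scheme.Hom.appLE_comp_appLE_assoc]
    rw [Scheme.Hom.appLE_comp_appLE_assoc]
    congr 1
    simp only [h0, Category.assoc]
    rfl
  have h4 := h1.trans (h2.trans h3)
  exact congrArg (fun g => g.hom z) h4

end

end Pool.Agent.Totaro

end

/-! ## AG6 -/

section

set_option linter.unusedSectionVars false
set_option backward.isDefEq.respectTransparency false
set_option backward.isDefEq.respectTransparency.types false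

open AlgebraicGeometry CategoryTheory Limits TopologicalSpace Opposite

universe u

namespace Pool.Agent.Totaro

variable {k : Type u} [Field k] {E : Type u} [Field E] [Algebra k E] {C : Type*}
  {𝒜 : Atl k E C} {X : Scheme.{u}} {s : X ⟶ Spec (.of k)} (𝒟 : XAtl 𝒜 X s)
  {A : Type u} [CommRing A] [IsLocalRing A] [IsArtinianRing A] (res : A →+* k)
  (hres : Function.Surjective res)
  {𝒳 : Scheme.{u}} (f : 𝒳 ⟶ Spec (.of A)) (i : X ⟶ 𝒳) (a₀ : C)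

lemma sec_aV (a b : C) (c : k) : (𝒟.sec a b).hom (aV s (𝒟.U a b) c) =
    algebraMap k (𝒜.P a b) c := by
  have h0 : 𝒟.χ2 a b ≫ s = Spec.map (CommRingCat.ofHom (algebraMap k (𝒜.P a b))) := by
    rw [XAtl.χ2, Category.assoc, 𝒟.hov, ← Spec.map_comp]
    rfl
  have e : ((Scheme.ΓSpecIso (.of k)).inv ≫ s.appLE ⊤ (𝒟.U a b) le_top) ≫ 𝒟.sec a b =
      CommRingCat.ofHom (algebraMap k (𝒜.P a b)) := by
    rw [XAtl.sec, Category.assoc, Scheme.Hom.appLE_comp_appLE_assoc]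
    simp only [h0]
    rw [Iso.inv_comp_eq]
    exact Scheme.ΓSpecIso_naturality (CommRingCat.ofHom (algebraMap k (𝒜.P a b)))
  exact congrArg (fun g => g.hom c) e

lemma gm_loc {𝒱 : 𝒳.Opens} (h𝒱 : IsAffineOpen 𝒱) (h : x0 𝒟 i a₀ ∈ 𝒱) (z : KK 𝒟 i a₀ f) :
    ∃ x t : Γ(𝒳, 𝒱), z * gm 𝒟 f i a₀ 𝒱 h t = gm 𝒟 f i a₀ 𝒱 h x ∧
      IsUnit (gm 𝒟 f i a₀ 𝒱 h t) := by
  let _ := 𝒳.presheaf.algebra_section_stalk ⟨x0 𝒟 i a₀, h⟩
  have h1 := h𝒱.isLocalization_stalk ⟨x0 𝒟 i a₀, h⟩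
  obtain ⟨⟨x, t⟩, e⟩ := IsLocalization.surj (S := 𝒳.presheaf.stalk (x0 𝒟 i a₀))
    (h𝒱.primeIdealOf ⟨x0 𝒟 i a₀, h⟩).asIdeal.primeCompl z
  exact ⟨x, t, e, IsLocalization.map_units (𝒳.presheaf.stalk (x0 𝒟 i a₀)) t⟩

instance KK_flat [Flat f] : Module.Flat A (KK 𝒟 i a₀ f) := by
  obtain ⟨_, ⟨𝒱, h𝒱, rfl⟩, h, -⟩ := 𝒳.isBasis_affineOpens.exists_subset_of_mem_open
    (Set.mem_univ (x0 𝒟 i a₀)) isOpen_univ
  have h2 : (gm 𝒟 f i a₀ 𝒱 h).Flat := by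
    let _ := 𝒳.presheaf.algebra_section_stalk ⟨x0 𝒟 i a₀, h⟩
    have h1 := h𝒱.isLocalization_stalk ⟨x0 𝒟 i a₀, h⟩
    exact IsLocalization.flat (𝒳.presheaf.stalk (x0 𝒟 i a₀))
      (h𝒱.primeIdealOf ⟨x0 𝒟 i a₀, h⟩).asIdeal.primeCompl
  have h3 := (aV_flat f h𝒱).comp h2
  have h4 : (gm 𝒟 f i a₀ 𝒱 h).comp (aV f 𝒱) = algebraMap A (KK 𝒟 i a₀ f) :=
    RingHom.ext fun a => gm_aV 𝒟 f i a₀ 𝒱 h a
  rw [h4] at h3
  exact h3

include hres in
lemma gm_mem_smul {𝒱 : 𝒳.Opens} (h : x0 𝒟 i a₀ ∈ 𝒱) (N : Submodule A (KK 𝒟 i a₀ f))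
    (hN : ∀ y, gm 𝒟 f i a₀ 𝒱 h y ∈ N) (x : Γ(𝒳, 𝒱)) (hx : x ∈ (RingHom.ker res).map (aV f 𝒱)) :
    gm 𝒟 f i a₀ 𝒱 h x ∈ IsLocalRing.maximalIdeal A • N := by
  have key : ∀ y, gm 𝒟 f i a₀ 𝒱 h (y * x) ∈ IsLocalRing.maximalIdeal A • N := by
    refine Submodule.span_induction (p := fun x _ => ∀ y, gm 𝒟 f i a₀ 𝒱 h (y * x) ∈
      IsLocalRing.maximalIdeal A • N) ?_ ?_ ?_ ?_ hx
    · rintro _ ⟨a, ha, rfl⟩ y
      rw [map_mul, gm_aV, mul_comm, ← Algebra.smul_def]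
      refine Submodule.smul_mem_smul ?_ (hN y)
      rw [← ker_res res hres]
      exact ha
    · intro y
      rw [mul_zero, map_zero]; exact zero_mem _
    · intro a b _ _ ha hb y
      rw [mul_add, map_add]; exact add_mem (ha y) (hb y)
    · intro c x _ hx y
      rw [smul_eq_mul, ← mul_assoc]
      exact hx _
  simpa using key 1

section
variable [IsClosedImmersion i] [Surjective i]

/-- the chart rings of the deformation -/
noncomputable def BB (a b : C) : Subalgebra A (KK 𝒟 i a₀ f) :=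
  { (gm 𝒟 f i a₀ _ (mem_thk 𝒟 i a₀ a b)).range with
    algebraMap_mem' := fun r => ⟨aV f _ r, gm_aV 𝒟 f i a₀ _ _ r⟩ }

lemma mem_BB {a b : C} {z : KK 𝒟 i a₀ f} : z ∈ BB 𝒟 f i a₀ a b ↔
    ∃ x, gm 𝒟 f i a₀ _ (mem_thk 𝒟 i a₀ a b) x = z := Iff.rfl

variable (p : ℕ) (hp : p.Prime) (hpk : (p : k) = 0)
  (pb : IsPullback i s f (Spec.map (CommRingCat.ofHom res)))

include hres hp hpk pb in
lemma thk_affine (a b : C) : IsAffineOpen (thk i (𝒟.U a b)) :=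
  defo_affine res hres f p hp hpk pb _ (by rw [preimage_thk]; exact 𝒟.U_affine a b)

include hres hp hpk pb in
lemma ker_gm (a b : C) (x : Γ(𝒳, thk i (𝒟.U a b)))
    (h : rr 𝒟 f i a₀ (gm 𝒟 f i a₀ _ (mem_thk 𝒟 i a₀ a b) x) = 0) :
    x ∈ (RingHom.ker res).map (aV f (thk i (𝒟.U a b))) := by
  rw [rr_gm] at h
  apply ker_i res hres f pb (thk_affine 𝒟 res hres f i p hp hpk pb a b)
  apply rd_zero
  have h1 : (𝒟.sec a b).hom ((rd i (𝒟.U a b)).hom x) = 0 := Subtype.ext h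
  exact (𝒟.sec_bij a b).1 (h1.trans (map_zero _).symm)

include hres hp hpk pb in
lemma surj_gm (a b : C) (y : 𝒜.P a b) : ∃ x : Γ(𝒳, thk i (𝒟.U a b)),
    rr 𝒟 f i a₀ (gm 𝒟 f i a₀ _ (mem_thk 𝒟 i a₀ a b) x) = y := by
  obtain ⟨y', hy'⟩ := (𝒟.sec_bij a b).2 y
  obtain ⟨x, hx⟩ := rd_surj i (𝒟.U a b) (thk_affine 𝒟 res hres f i p hp hpk pb a b) y'
  refine ⟨x, ?_⟩
  rw [rr_gm, hx, hy']

include pb in
lemma rr_alg (a : A) : rr 𝒟 f i a₀ (algebraMap A _ a) = algebraMap k E (res a) := by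
  rw [← gm_aV 𝒟 f i a₀ _ (mem_thk 𝒟 i a₀ a₀ a₀), rr_gm, rd_aV res f i pb.w, sec_aV]
  rfl

lemma Atl.exists_div (𝒜 : Atl k E C) (a : C) (y : E) :
    ∃ p ∈ 𝒜.P a a, ∃ q ∈ 𝒜.P a a, q ≠ 0 ∧ y * q = p := by
  have h : y ∈ IntermediateField.adjoin k (Set.range (𝒜.g a)) := by rw [𝒜.gen]; trivial
  rw [IntermediateField.mem_adjoin_iff_div] at h
  obtain ⟨r, hr, t, ht, e⟩ := h
  rw [← 𝒜.Pgen] at hr ht
  by_cases h0 : t = 0
  · refine ⟨0, zero_mem _, 1, one_mem _, one_ne_zero, ?_⟩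
    rw [e, h0]; simp
  · exact ⟨r, hr, t, ht, h0, by rw [e, div_mul_cancel₀ _ h0]⟩

include hres hp hpk pb in
lemma rr_surj : Function.Surjective (rr 𝒟 f i a₀) := by
  intro y
  obtain ⟨r, hr, q, hq, h0, e⟩ := 𝒜.exists_div a₀ y
  obtain ⟨r', hr'⟩ := surj_gm 𝒟 res hres f i a₀ p hp hpk pb a₀ a₀ ⟨r, hr⟩
  obtain ⟨q', hq'⟩ := surj_gm 𝒟 res hres f i a₀ p hp hpk pb a₀ a₀ ⟨q, hq⟩
  have hloc : IsLocalHom (Scheme.stalkClosedPointTo (𝒟.ξ a₀ ≫ i)).hom := inferInstance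
  have hu : IsUnit (gm 𝒟 f i a₀ _ (mem_thk 𝒟 i a₀ a₀ a₀) q') := by
    apply hloc.map_nonunit
    have : IsUnit (rr 𝒟 f i a₀ (gm 𝒟 f i a₀ _ (mem_thk 𝒟 i a₀ a₀ a₀) q')) := by
      rw [hq']; exact isUnit_iff_ne_zero.mpr h0
    exact this
  obtain ⟨u, hu⟩ := hu
  refine ⟨gm 𝒟 f i a₀ _ (mem_thk 𝒟 i a₀ a₀ a₀) r' * (u⁻¹ : _ˣ), ?_⟩
  have h2 : rr 𝒟 f i a₀ (u⁻¹ : _ˣ) * q = 1 := by
    have : q = rr 𝒟 f i a₀ u := by rw [hu, hq']
    rw [this, ← map_mul, Units.inv_mul, map_one]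
  rw [map_mul, hr']
  change r * _ = y
  rw [← e, mul_assoc, mul_comm q, h2, mul_one]

/-- The algebraic system attached to a deformation. -/
noncomputable def dSys [Flat f] : Sys 𝒜 A (KK 𝒟 i a₀ f) where
  res := res
  ρ := rr 𝒟 f i a₀
  B := BB 𝒟 f i a₀
  flat := flat_key
  res_surj := hres
  ρ_surj := rr_surj 𝒟 res hres f i a₀ p hp hpk pb
  compat := rr_alg 𝒟 res f i a₀ pb
  ker := by
    intro z hz
    obtain ⟨x, t, e, hu⟩ := gm_loc 𝒟 f i a₀ (thk_affine 𝒟 res hres f i p hp hpk pb a₀ a₀)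
      (mem_thk 𝒟 i a₀ a₀ a₀) z
    have h1 : rr 𝒟 f i a₀ (gm 𝒟 f i a₀ _ (mem_thk 𝒟 i a₀ a₀ a₀) x) = 0 := by
      rw [← e, map_mul, hz, zero_mul]
    have h2 := gm_mem_smul 𝒟 res hres f i a₀ (mem_thk 𝒟 i a₀ a₀ a₀) ⊤ (fun _ => trivial) x
      (ker_gm 𝒟 res hres f i a₀ p hp hpk pb a₀ a₀ x h1)
    obtain ⟨u, hu⟩ := hu
    rw [← hu] at e
    have h3 : z = (u⁻¹ : _ˣ) * gm 𝒟 f i a₀ _ (mem_thk 𝒟 i a₀ a₀ a₀) x := by
      rw [← e, mul_comm z, ← mul_assoc, Units.inv_mul, one_mul]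
    rw [h3]
    exact smul_top_mul _ h2
  Bl := by
    rintro a b _ ⟨x, rfl⟩
    refine ⟨(𝒳.presheaf.map (homOfLE (thk_mono i (𝒟.U_le a b))).op).hom x, ?_⟩
    exact gm_res 𝒟 f i a₀ _ _ x
  Bsymm := by
    have key : ∀ a b, BB 𝒟 f i a₀ a b ≤ BB 𝒟 f i a₀ b a := by
      rintro a b _ ⟨x, rfl⟩
      refine ⟨(𝒳.presheaf.map (homOfLE (thk_mono i (𝒟.U_symm b a).le)).op).hom x, ?_⟩
      exact gm_res 𝒟 f i a₀ _ _ x
    intro a b
    exact le_antisymm (key a b) (key b a)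
  Bρ := by
    rintro a b _ ⟨x, rfl⟩
    change rr 𝒟 f i a₀ (gm 𝒟 f i a₀ _ (mem_thk 𝒟 i a₀ a b) x) ∈ _
    rw [rr_gm]
    exact Subtype.property _
  Bsurj := by
    intro a b y hy
    obtain ⟨x, hx⟩ := surj_gm 𝒟 res hres f i a₀ p hp hpk pb a b ⟨y, hy⟩
    exact ⟨_, ⟨x, rfl⟩, hx⟩
  Bm := by
    rintro a b _ ⟨x, rfl⟩ h0
    exact gm_mem_smul 𝒟 res hres f i a₀ (mem_thk 𝒟 i a₀ a b)
      (Subalgebra.toSubmodule (BB 𝒟 f i a₀ a b))
      (fun y => (Subalgebra.mem_toSubmodule _).mpr ((mem_BB 𝒟 f i a₀).mpr ⟨y, rfl⟩)) x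
      (ker_gm 𝒟 res hres f i a₀ p hp hpk pb a b x h0)

include hres hp hpk pb in
/-- sections are determined by their germ at the generic point -/
lemma gm_inj [Flat f] (a b : C) :
    Function.Injective (gm 𝒟 f i a₀ _ (mem_thk 𝒟 i a₀ a b)) := by
  let _ := (aV f (thk i (𝒟.U a b))).toAlgebra
  let φ : Γ(𝒳, thk i (𝒟.U a b)) →ₐ[A] KK 𝒟 i a₀ f :=
    { gm 𝒟 f i a₀ _ (mem_thk 𝒟 i a₀ a b) with
      commutes' := fun r => gm_aV 𝒟 f i a₀ _ _ r }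
  refine alg_inj φ flat_key ?_
  intro x hx
  have h1 := ((dSys 𝒟 res hres f i a₀ p hp hpk pb).ker_iff (φ x)).mpr hx
  have h2 := ker_gm 𝒟 res hres f i a₀ p hp hpk pb a b x h1
  rw [ker_res res hres] at h2
  exact mem_map_iff.mp h2

end

end Pool.Agent.Totaro

end

/-! ## AG7 -/

section

set_option linter.unusedSectionVars false
set_option backward.isDefEq.respectTransparency false
set_option backward.isDefEq.respectTransparency.types false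

open AlgebraicGeometry CategoryTheory Limits TopologicalSpace Opposite

universe u

namespace Pool.Agent.Totaro

lemma toSpecΓ_aV {A : Type u} [CommRing A] {𝒳 : Scheme.{u}} (f : 𝒳 ⟶ Spec (.of A))
    (𝒱 : 𝒳.Opens) : 𝒱.toSpecΓ ≫ Spec.map (CommRingCat.ofHom (aV f 𝒱)) = 𝒱.ι ≫ f := by
  have h : CommRingCat.ofHom (aV f 𝒱) = (Scheme.ΓSpecIso (.of A)).inv ≫ f.appLE ⊤ 𝒱 le_top := rfl
  rw [h, Spec.map_comp, Scheme.Opens.toSpecΓ_SpecMap_appLE_assoc, Scheme.Opens.toSpecΓ_top,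
    Category.assoc, toSpecΓ_SpecMap_ΓSpecIso_inv, Category.comp_id]
  exact Scheme.Hom.resLE_comp_ι f _

variable {k : Type u} [Field k] {E : Type u} [Field E] [Algebra k E] {C : Type*}
  {𝒜 : Atl k E C} {X : Scheme.{u}} {s : X ⟶ Spec (.of k)} (𝒟 : XAtl 𝒜 X s)
  {A : Type u} [CommRing A] [IsLocalRing A] [IsArtinianRing A] (res : A →+* k)
  (hres : Function.Surjective res)
  {𝒳 : Scheme.{u}} (f : 𝒳 ⟶ Spec (.of A)) (i : X ⟶ 𝒳) (a₀ : C)

lemma XAtl.χ2_self (a : C) : 𝒟.χ2 a a = 𝒟.χ a := by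
  have : CommRingCat.ofHom (Subalgebra.inclusion (𝒜.Pl a a)).toRingHom = 𝟙 _ := by
    ext x; rfl
  rw [XAtl.χ2, this, Spec.map_id, Category.id_comp]

/-- morphisms out of `X` are determined on the charts -/
lemma XAtl.hom_ext {Y : Scheme.{u}} {g h : X ⟶ Y} (H : ∀ a, 𝒟.χ a ≫ g = 𝒟.χ a ≫ h) : g = h := by
  apply Scheme.hom_ext_of_forall
  intro x
  obtain ⟨a, ha⟩ := 𝒟.cover x
  refine ⟨(𝒟.χ a).opensRange, ha, ?_⟩
  rw [← cancel_epi (𝒟.χ a).isoOpensRange.hom]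
  simp only [← Category.assoc, Scheme.Hom.isoOpensRange_hom_ι]
  exact H a

section
variable [IsClosedImmersion i] [Surjective i]
variable (p : ℕ) (hp : p.Prime) (hpk : (p : k) = 0)
  (pb : IsPullback i s f (Spec.map (CommRingCat.ofHom res)))

include hres hp hpk pb in
lemma Spec_sec_fromSpec (a b : C) :
    Spec.map (rd i (𝒟.U a b) ≫ 𝒟.sec a b) ≫
      (thk_affine 𝒟 res hres f i p hp hpk pb a b).fromSpec = 𝒟.χ2 a b ≫ i := by
  have h1 := IsAffineOpen.SpecMap_appLE_fromSpec i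
    (thk_affine 𝒟 res hres f i p hp hpk pb a b) (𝒟.U_affine a b) (preimage_thk i (𝒟.U a b)).ge
  have h2 := IsAffineOpen.SpecMap_appLE_fromSpec (𝒟.χ2 a b) (𝒟.U_affine a b)
    (isAffineOpen_top _) (𝒟.top_le a b)
  rw [Spec.map_comp, Category.assoc, rd, h1, XAtl.sec, Spec.map_comp, Category.assoc,
    reassoc_of% h2]
  have h3 : Spec.map (Scheme.ΓSpecIso (CommRingCat.of (𝒜.P a b))).hom ≫
      (isAffineOpen_top (Spec (CommRingCat.of (𝒜.P a b)))).fromSpec = 𝟙 _ := by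
    rw [IsAffineOpen.fromSpec_top, ← Scheme.isoSpec_Spec_hom, Iso.hom_inv_id]
  rw [reassoc_of% h3]

include hres hp hpk pb in
lemma exists_θ [Flat f] (Θ : E →+* KK 𝒟 i a₀ f)
    (hB : ∀ a b, ∀ y ∈ 𝒜.P a b, Θ y ∈ BB 𝒟 f i a₀ a b) :
    ∃ θ : ∀ a b, 𝒜.P a b →+* Γ(𝒳, thk i (𝒟.U a b)),
      ∀ a b y, gm 𝒟 f i a₀ _ (mem_thk 𝒟 i a₀ a b) (θ a b y) = Θ y := by
  have key : ∀ a b, ∃ θ : 𝒜.P a b →+* Γ(𝒳, thk i (𝒟.U a b)),
      ∀ y, gm 𝒟 f i a₀ _ (mem_thk 𝒟 i a₀ a b) (θ y) = Θ y := by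
    intro a b
    let g := gm 𝒟 f i a₀ _ (mem_thk 𝒟 i a₀ a b)
    have hg : Function.Injective g := gm_inj 𝒟 res hres f i a₀ p hp hpk pb a b
    let e : Γ(𝒳, thk i (𝒟.U a b)) ≃+* g.range := RingEquiv.ofBijective g.rangeRestrict
      ⟨fun x y h => hg (congrArg Subtype.val h), g.rangeRestrict_surjective⟩
    let Θ' : 𝒜.P a b →+* g.range := (Θ.comp (𝒜.P a b).val.toRingHom).codRestrict g.range
      (fun y => hB a b y y.2)
    refine ⟨e.symm.toRingHom.comp Θ', fun y => ?_⟩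
    have h1 : e (e.symm (Θ' y)) = Θ' y := e.apply_symm_apply _
    exact congrArg Subtype.val h1
  choose θ hθ using key
  exact ⟨θ, hθ⟩

include hres hp hpk pb in
/-- A compatible family of lifts of the coordinate rings gives a retraction of the deformation
onto `X`. -/
theorem exists_retraction [Flat f] (Θ : E →+* KK 𝒟 i a₀ f)
    (hρ : ∀ y, rr 𝒟 f i a₀ (Θ y) = y)
    (hB : ∀ a b, ∀ y ∈ 𝒜.P a b, Θ y ∈ BB 𝒟 f i a₀ a b) (j : k →+* A)
    (hj : ∀ c, Θ (algebraMap k E c) = algebraMap A (KK 𝒟 i a₀ f) (j c)) :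
    ∃ r : 𝒳 ⟶ X, i ≫ r = 𝟙 X ∧ r ≫ s = f ≫ Spec.map (CommRingCat.ofHom j) := by
  obtain ⟨θ, hθ⟩ := exists_θ 𝒟 res hres f i a₀ p hp hpk pb Θ hB
  have hinj := gm_inj 𝒟 res hres f i a₀ p hp hpk pb
  let 𝒰 : C → 𝒳.Opens := fun a => thk i (𝒟.U a a)
  let r : ∀ a, (𝒰 a : Scheme) ⟶ X := fun a =>
    (𝒰 a).toSpecΓ ≫ Spec.map (CommRingCat.ofHom (θ a a)) ≫ 𝒟.χ a
  -- restriction to the overlaps
  have hleft : ∀ a b, 𝒳.homOfLE (thk_mono i (𝒟.U_le a b)) ≫ r a =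
      (thk i (𝒟.U a b)).toSpecΓ ≫ Spec.map (CommRingCat.ofHom (θ a b)) ≫ 𝒟.χ2 a b := by
    intro a b
    have e : CommRingCat.ofHom (θ a a) ≫
        𝒳.presheaf.map (homOfLE (thk_mono i (𝒟.U_le a b))).op =
        CommRingCat.ofHom (Subalgebra.inclusion (𝒜.Pl a b)).toRingHom ≫
          CommRingCat.ofHom (θ a b) := by
      ext y
      apply hinj a b
      change gm 𝒟 f i a₀ _ _ ((𝒳.presheaf.map _).hom (θ a a y)) =
        gm 𝒟 f i a₀ _ _ (θ a b (Subalgebra.inclusion (𝒜.Pl a b) y))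
      rw [gm_res, hθ, hθ]
      rfl
    simp only [r, 𝒰]
    rw [← Scheme.Opens.toSpecΓ_SpecMap_presheaf_map_assoc, ← Spec.map_comp_assoc, e,
      Spec.map_comp_assoc]
    rfl
  have hright : ∀ a b, 𝒳.homOfLE (thk_mono i ((𝒟.U_symm a b).le.trans (𝒟.U_le b a))) ≫ r b =
      (thk i (𝒟.U a b)).toSpecΓ ≫ Spec.map (CommRingCat.ofHom (θ a b)) ≫ 𝒟.χ2 a b := by
    intro a b
    have e : CommRingCat.ofHom (θ b b) ≫
        𝒳.presheaf.map (homOfLE (thk_mono i ((𝒟.U_symm a b).le.trans (𝒟.U_le b a)))).op =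
        CommRingCat.ofHom (Subalgebra.inclusion (𝒜.Pr a b)).toRingHom ≫
          CommRingCat.ofHom (θ a b) := by
      ext y
      apply hinj a b
      change gm 𝒟 f i a₀ _ _ ((𝒳.presheaf.map _).hom (θ b b y)) =
        gm 𝒟 f i a₀ _ _ (θ a b (Subalgebra.inclusion (𝒜.Pr a b) y))
      rw [gm_res, hθ, hθ]
      rfl
    simp only [r, 𝒰]
    rw [← Scheme.Opens.toSpecΓ_SpecMap_presheaf_map_assoc, ← Spec.map_comp_assoc, e,
      Spec.map_comp_assoc, 𝒟.χ2_symm]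
  have hcov : IsOpenCover 𝒰 := by
    rw [IsOpenCover, eq_top_iff]
    intro x _
    obtain ⟨y, rfl⟩ := i.surjective x
    obtain ⟨a, ha⟩ := 𝒟.cover y
    rw [Opens.mem_iSup]
    refine ⟨a, ⟨y, ?_, rfl⟩⟩
    rw [𝒟.U_self]
    exact ha
  have hr : ∀ a, r a = (𝒰 a).toSpecΓ ≫ Spec.map (CommRingCat.ofHom (θ a a)) ≫ 𝒟.χ a :=
    fun _ => rfl
  clear_value r
  let 𝒪 := 𝒳.openCoverOfIsOpenCover 𝒰 hcov
  have hcomp : ∀ a b, pullback.fst (𝒪.f a) (𝒪.f b) ≫ r a = pullback.snd (𝒪.f a) (𝒪.f b) ≫ r b := by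
    intro a b
    have h1 : IsPullback (𝒳.homOfLE inf_le_left) (𝒳.homOfLE inf_le_right) (𝒪.f a) (𝒪.f b) :=
      isPullback_opens_inf (𝒰 a) (𝒰 b)
    rw [← cancel_epi h1.isoPullback.hom, IsPullback.isoPullback_hom_fst_assoc,
      IsPullback.isoPullback_hom_snd_assoc]
    have hle : 𝒰 a ⊓ 𝒰 b ≤ thk i (𝒟.U a b) := by
      simp only [𝒰]
      rw [← thk_inf]
      apply thk_mono
      rw [𝒟.U_self, 𝒟.U_self]
      exact le_rfl
    have e1 := (𝒳.homOfLE_homOfLE hle (thk_mono i (𝒟.U_le a b))).symm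
    have e2 := (𝒳.homOfLE_homOfLE hle
      (thk_mono i ((𝒟.U_symm a b).le.trans (𝒟.U_le b a)))).symm
    rw [e1, e2, Category.assoc, Category.assoc, hleft, hright]
  let R : 𝒳 ⟶ X := 𝒪.glueMorphisms r hcomp
  have hR : ∀ a, (𝒰 a).ι ≫ R = r a := fun a => 𝒪.ι_glueMorphisms r hcomp a
  refine ⟨R, ?_, ?_⟩
  · apply 𝒟.hom_ext
    intro a
    rw [Category.comp_id]
    have h1 := Spec_sec_fromSpec 𝒟 res hres f i p hp hpk pb a a
    rw [𝒟.χ2_self] at h1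
    rw [← Category.assoc, ← h1, IsAffineOpen.fromSpec, Category.assoc, Category.assoc]
    have h2 : (thk i (𝒟.U a a)).ι ≫ R = r a := hR a
    rw [h2, hr, IsAffineOpen.isoSpec_inv_toSpecΓ_assoc, ← Spec.map_comp_assoc]
    have h3 : CommRingCat.ofHom (θ a a) ≫ rd i (𝒟.U a a) ≫ 𝒟.sec a a = 𝟙 _ := by
      ext y
      change (((𝒟.sec a a).hom ((rd i (𝒟.U a a)).hom (θ a a y)) : 𝒜.P a a) : E) = y
      rw [← rr_gm 𝒟 f i a₀, hθ, hρ]
    rw [h3, Spec.map_id, Category.id_comp]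
  · refine Scheme.Cover.hom_ext 𝒪 _ _ (fun a => ?_)
    change (𝒰 a).ι ≫ R ≫ s = (𝒰 a).ι ≫ f ≫ Spec.map (CommRingCat.ofHom j)
    have e0 : (𝒰 a).ι ≫ f ≫ Spec.map (CommRingCat.ofHom j) = (𝒰 a).toSpecΓ ≫
        Spec.map (CommRingCat.ofHom j ≫ CommRingCat.ofHom (aV f (𝒰 a))) := by
      rw [Spec.map_comp, ← Category.assoc, ← toSpecΓ_aV, Category.assoc]
    have e1 : (𝒰 a).ι ≫ R ≫ s = (𝒰 a).toSpecΓ ≫ Spec.map
        (CommRingCat.ofHom (algebraMap k (𝒜.P a a)) ≫ CommRingCat.ofHom (θ a a)) := by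
      rw [Spec.map_comp, ← 𝒟.hov, ← Category.assoc, hR, hr]
      simp only [Category.assoc]
    rw [e0, e1]
    congr 2
    ext c
    apply hinj a a
    change gm 𝒟 f i a₀ _ _ (θ a a (algebraMap k (𝒜.P a a) c)) =
      gm 𝒟 f i a₀ _ _ (aV f _ (j c))
    rw [hθ, gm_aV, ← hj]
    rfl

end

end Pool.Agent.Totaro

end
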