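import Pool.Agent.TotaroVar.A11Pts

/-! ## Glue1 -/

section

set_option linter.unusedSectionVars false

universe u v w

namespace Pool.Agent.Totaro

section glue

variable {R : Type u} [CommRing R] {ι : Type v} [Fintype ι] {n : Type w} [Finite n] (g : n → R)
  {S : n → Type u} [∀ i, CommRing (S i)] [∀ i, Algebra R (S i)]
  [∀ i, IsLocalization.Away (g i) (S i)]
  {d : ℕ} {J : n → Fin d → ι} {Y : ∀ i, Fin d → ι → S i}

/-- the image of a vector in a localisation -/
def im (S' : Type*) [CommRing S'] [Algebra R S'] (v : ι → R) : ι → S' :=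
  fun c => algebraMap R S' (v c)

lemma im_smul (S' : Type*) [CommRing S'] [Algebra R S'] (r : R) (v : ι → R) :
    im S' (r • v) = algebraMap R S' r • im S' v := by
  funext c; simp [im]

lemma im_add (S' : Type*) [CommRing S'] [Algebra R S'] (v w : ι → R) :
    im S' (v + w) = im S' v + im S' w := by
  funext c; simp [im]

variable (R Y) in
/-- the glued submodule -/
def glW : Submodule R (ι → R) where
  carrier := {v | ∀ i, im (S i) v ∈ rowSpan (Y i)}
  add_mem' {a b} ha hb i := by rw [im_add]; exact add_mem (ha i) (hb i)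
  zero_mem' i := by
    have : im (S i) (0 : ι → R) = 0 := by funext c; simp [im]
    rw [this]; exact zero_mem _
  smul_mem' c a ha i := by rw [im_smul]; exact Submodule.smul_mem _ _ (ha i)

omit [∀ i, IsLocalization.Away (g i) (S i)] in
lemma mem_glW {v : ι → R} : v ∈ glW R Y ↔ ∀ i, im (S i) v ∈ rowSpan (Y i) := Iff.rfl

variable (hY : ∀ i, Nrm (J i) (Y i))
  (H : ∀ (i j : n) (T : Type u) [CommRing T] (α : S i →+* T) (β : S j →+* T),
    α.comp (algebraMap R (S i)) = β.comp (algebraMap R (S j)) →
    rowSpan (fun r c => α (Y i r c)) = rowSpan (fun r c => β (Y j r c)))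

include hY H in
/-- the key property of the glued submodule -/
lemma exists_pow_smul_mem (i : n) (v : ι → R) (hv : im (S i) v ∈ rowSpan (Y i)) :
    ∃ N : ℕ, g i ^ N • v ∈ glW R Y := by
  classical
  have key : ∀ j, ∃ N : ℕ, im (S j) (g i ^ N • v) ∈ rowSpan (Y j) := by
    intro j
    let T := Localization.Away (algebraMap R (S j) (g i))
    let β : S j →+* T := algebraMap (S j) T
    have hu : IsUnit ((β.comp (algebraMap R (S j))) (g i)) :=
      IsLocalization.Away.algebraMap_isUnit (algebraMap R (S j) (g i))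
    let α : S i →+* T := IsLocalization.Away.lift (g i) hu
    have hαβ : α.comp (algebraMap R (S i)) = β.comp (algebraMap R (S j)) :=
      IsLocalization.Away.lift_comp (g i) hu
    have hαβ' : ∀ x, α (algebraMap R (S i) x) = β (algebraMap R (S j) x) := fun x =>
      congrArg (fun f => f x) hαβ
    let v' : ι → T := fun c => β (algebraMap R (S j) (v c))
    have h1 : v' ∈ rowSpan (fun r c => α (Y i r c)) := by
      rw [mem_rowSpan] at hv ⊢
      obtain ⟨c, hc⟩ := hv
      refine ⟨fun r => α (c r), ?_⟩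
      funext e
      have := congrArg α (congrFun hc e)
      rw [Finset.sum_apply] at this ⊢
      rw [map_sum] at this
      simp only [v', ← hαβ']
      refine Eq.trans ?_ this
      apply Finset.sum_congr rfl
      intro r _
      simp
    rw [H i j T α β hαβ, mem_rowSpan_iff ((hY j).map β)] at h1
    let e : ι → S j := fun c => ∑ r, algebraMap R (S j) (v (J j r)) * Y j r c -
      algebraMap R (S j) (v c)
    have he : ∀ c, ∃ N : ℕ, algebraMap R (S j) (g i) ^ N * e c = 0 := by
      intro c
      have h2 : β (e c) = 0 := by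
        have := congrFun h1 c
        rw [Finset.sum_apply] at this
        simp only [e, map_sub, map_sum, map_mul]
        rw [sub_eq_zero]
        exact this
      obtain ⟨⟨_, N, rfl⟩, hN⟩ := (IsLocalization.map_eq_zero_iff
        (Submonoid.powers (algebraMap R (S j) (g i))) T (e c)).mp h2
      exact ⟨N, hN⟩
    choose N hN using he
    refine ⟨∑ c, N c, ?_⟩
    rw [mem_rowSpan_iff (hY j)]
    funext c
    have h3 : algebraMap R (S j) (g i) ^ (∑ c, N c) * e c = 0 := by
      rw [← Finset.add_sum_erase _ _ (Finset.mem_univ c), pow_add, mul_assoc, mul_left_comm,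
        hN, mul_zero]
    rw [Finset.sum_apply]
    simp only [im_smul, Pi.smul_apply, smul_eq_mul, map_pow, mul_assoc, ← Finset.mul_sum]
    rw [← sub_eq_zero, ← mul_sub]
    exact h3
  cases nonempty_fintype n
  choose N hN using key
  refine ⟨∑ j, N j, fun j => ?_⟩
  have h1 : g i ^ (∑ j, N j) • v = g i ^ (∑ j' ∈ Finset.univ.erase j, N j') • (g i ^ N j • v) := by
    rw [smul_smul, ← pow_add, ← Finset.sum_erase_add _ _ (Finset.mem_univ j)]
  rw [h1, im_smul]
  exact Submodule.smul_mem _ _ (hN j)

include g hY H in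
lemma bc_glW (i : n) : bc (algebraMap R (S i)) (glW R Y) = rowSpan (Y i) := by
  apply le_antisymm
  · unfold bc
    rw [Submodule.span_le]
    rintro _ ⟨v, hv, rfl⟩
    exact hv i
  · conv_lhs => unfold rowSpan
    rw [Submodule.span_le]
    rintro _ ⟨r, rfl⟩
    obtain ⟨⟨_, m, rfl⟩, hb⟩ := IsLocalization.exist_integer_multiples_of_finite
      (Submonoid.powers (g i)) (Y i r)
    choose u hu using hb
    have h1 : im (S i) u = algebraMap R (S i) (g i ^ m) • Y i r := by
      funext c
      rw [Pi.smul_apply, smul_eq_mul]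
      exact (hu c).trans (Algebra.smul_def _ _)
    have h2 : im (S i) u ∈ rowSpan (Y i) := by
      rw [h1]; exact Submodule.smul_mem _ _ (row_mem _ _)
    obtain ⟨N, hN⟩ := exists_pow_smul_mem g hY H i u h2
    have h3 : im (S i) (g i ^ N • u) ∈ bc (algebraMap R (S i)) (glW R Y) :=
      Submodule.subset_span ⟨_, hN, rfl⟩
    rw [im_smul, h1, smul_smul, ← map_mul] at h3
    have h4 : IsUnit (algebraMap R (S i) (g i ^ N * g i ^ m)) := by
      rw [← pow_add, map_pow]
      exact (IsLocalization.Away.algebraMap_isUnit (g i)).pow _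
    obtain ⟨x, hx⟩ := h4
    rw [← hx] at h3
    have h5 := Submodule.smul_mem _ ((x⁻¹ : (S i)ˣ) : S i) h3
    rw [smul_smul, Units.inv_mul, one_smul] at h5
    exact h5

variable (R) in
/-- the comparison map with the local quotients -/
def phi (hY : ∀ i, Nrm (J i) (Y i)) (i : n) :
    ((ι → R) ⧸ glW R Y) →ₗ[R] ({c // c ∉ Set.range (J i)} → S i) :=
  Submodule.liftQ (glW R Y)
    (((offJ (J i) (Y i)).restrictScalars R).comp ((Algebra.linearMap R (S i)).compLeft ι)) (by
    intro v hv
    rw [LinearMap.mem_ker]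
    change offJ (J i) (Y i) (im (S i) v) = 0
    rw [← LinearMap.mem_ker, ker_offJ (hY i)]
    exact hv i)

lemma phi_mk (i : n) (v : ι → R) :
    phi R hY i (Submodule.Quotient.mk v) = offJ (J i) (Y i) (im (S i) v) := rfl

include H in
lemma phi_isLocalized (i : n) : IsLocalizedModule (Submonoid.powers (g i)) (phi R hY i) where
  map_units := by
    rintro ⟨_, m, rfl⟩
    rw [Module.End.isUnit_iff]
    have h4 : IsUnit (algebraMap R (S i) (g i ^ m)) := by
      rw [map_pow]
      exact (IsLocalization.Away.algebraMap_isUnit (g i)).pow _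
    obtain ⟨x, hx⟩ := h4
    have h5 : ∀ y : {c // c ∉ Set.range (J i)} → S i,
        (algebraMap R (Module.End R ({c // c ∉ Set.range (J i)} → S i)) (g i ^ m)) y =
          (x : S i) • y := by
      intro y
      rw [Module.algebraMap_end_apply, hx]
      funext c
      rw [Pi.smul_apply, Pi.smul_apply, Algebra.smul_def, smul_eq_mul]
    constructor
    · intro y y' h
      rw [h5, h5] at h
      have := congrArg (fun z => ((x⁻¹ : (S i)ˣ) : S i) • z) h
      simpa [smul_smul] using this
    · intro y
      refine ⟨((x⁻¹ : (S i)ˣ) : S i) • y, ?_⟩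
      rw [h5, smul_smul, Units.mul_inv, one_smul]
  surj := by
    classical
    intro y
    obtain ⟨⟨_, m, rfl⟩, hb⟩ := IsLocalization.exist_integer_multiples_of_finite
      (Submonoid.powers (g i)) y
    choose u hu using hb
    let v : ι → R := fun c => if h : c ∉ Set.range (J i) then u ⟨c, h⟩ else 0
    have h0 : ∀ r, v (J i r) = 0 := fun r => dif_neg (fun h => h ⟨r, rfl⟩)
    refine ⟨⟨Submodule.Quotient.mk v, ⟨_, m, rfl⟩⟩, ?_⟩
    rw [phi_mk]
    funext c
    simp only [offJ, LinearMap.coe_mk, AddHom.coe_mk, im, h0, map_zero, zero_mul,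
      Finset.sum_const_zero, sub_zero]
    have h1 : v c = u c := dif_pos c.2
    rw [h1]
    exact (hu c).symm
  exists_of_eq := by
    intro x₁ x₂ h
    obtain ⟨v₁, rfl⟩ := Submodule.Quotient.mk_surjective _ x₁
    obtain ⟨v₂, rfl⟩ := Submodule.Quotient.mk_surjective _ x₂
    have h1 : im (S i) (v₁ - v₂) ∈ rowSpan (Y i) := by
      rw [← ker_offJ (hY i), LinearMap.mem_ker]
      have : im (S i) (v₁ - v₂) = im (S i) v₁ - im (S i) v₂ := by funext c; simp [im]
      rw [this, map_sub, sub_eq_zero]
      exact h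
    obtain ⟨N, hN⟩ := exists_pow_smul_mem g hY H i _ h1
    refine ⟨⟨_, N, rfl⟩, ?_⟩
    change (g i ^ N) • (Submodule.Quotient.mk v₁ : (ι → R) ⧸ glW R Y) =
      (g i ^ N) • Submodule.Quotient.mk v₂
    rw [← Submodule.Quotient.mk_smul, ← Submodule.Quotient.mk_smul, Submodule.Quotient.eq,
      ← smul_sub]
    exact hN

variable (hg : Ideal.span (Set.range g) = ⊤) (hJ : ∀ i, Function.Injective (J i))

include hY H hg hJ in
/-- gluing points of Grassmannians -/
theorem exists_glue : ∃ W : Module.Grassmannian R (ι → R) (Fintype.card ι - d),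
    W.toSubmodule = glW R Y := by
  classical
  have hloc := phi_isLocalized g hY H
  -- families indexed by the set of the `g i`
  let c : Set.range g → n := fun r => Classical.choose r.2
  have hc : ∀ r : Set.range g, g (c r) = r := fun r => Classical.choose_spec r.2
  have i1 : ∀ r : Set.range g, IsLocalization.Away r.1 (S (c r)) := fun r => by
    rw [← hc r]; infer_instance
  have i2 : ∀ r : Set.range g, IsLocalizedModule (Submonoid.powers r.1) (phi R hY (c r)) :=
    fun r => by rw [← hc r]; exact hloc (c r)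
  have hfp : Module.FinitePresentation R ((ι → R) ⧸ glW R Y) :=
    Module.FinitePresentation.of_localizationSpan' (Set.range g) hg (Rₚ := fun r => S (c r))
      (Mₚ := fun r => {e // e ∉ Set.range (J (c r))} → S (c r)) (fun r => phi R hY (c r))
      (fun r => inferInstance)
  have hflS : ∀ i, Module.Flat R (S i) := fun i =>
    IsLocalization.flat (S i) (Submonoid.powers (g i))
  have hfl : Module.Flat R ((ι → R) ⧸ glW R Y) :=
    Module.flat_of_isLocalized_span (S := R) (M := (ι → R) ⧸ glW R Y) (Set.range g) hg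
      (fun r => {e // e ∉ Set.range (J (c r))} → S (c r)) (fun r => phi R hY (c r))
      (fun r => by
        have := hflS (c r)
        exact Module.Flat.trans R (S (c r)) _)
  have hpr : Module.Projective R ((ι → R) ⧸ glW R Y) := Module.Flat.projective_of_finitePresentation
  refine ⟨⟨glW R Y, inferInstance, hpr, ?_⟩, rfl⟩
  intro q
  -- a `g i` not in `q`
  obtain ⟨i, hi⟩ : ∃ i, g i ∉ q.asIdeal := by
    by_contra hcon
    push Not at hcon
    apply q.isPrime.ne_top
    rw [eq_top_iff, ← hg, Ideal.span_le]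
    rintro _ ⟨i, rfl⟩
    exact hcon i
  have h1 : q ∈ Set.range (PrimeSpectrum.comap (algebraMap R (S i))) := by
    rw [PrimeSpectrum.localization_away_comap_range (S i) (g i)]
    exact hi
  obtain ⟨q', rfl⟩ := h1
  have := hloc i
  have h2 : IsBaseChange (S i) (phi R hY i) :=
    IsLocalizedModule.isBaseChange (Submonoid.powers (g i)) (S i) (phi R hY i)
  have : Nontrivial (S i) := q'.nontrivial
  rw [← Module.rankAtStalk_isBaseChange h2 q', Module.rankAtStalk_eq_finrank_of_free]
  simp only [Module.finrank_fintype_fun_eq_card, Pi.natCast_apply]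
  rw [card_off (hJ i)]
  rfl

end glue

end Pool.Agent.Totaro

end

/-! ## Glue2 -/

section

set_option linter.unusedSectionVars false

universe u v w

namespace Pool.Agent.Totaro

section local'

variable {R R' : Type*} [CommRing R] [CommRing R'] {ι : Type*} [Fintype ι] {p : ℕ}

lemma frobSpan_eq_bc (hp : p.Prime) (h0 : (p : R) = 0) (W : Submodule R (ι → R)) :
    Subsingleton R ∨ ∃ F : R →+* R, (∀ x, F x = x ^ p) ∧ frobSpan p W = bc F W := by
  rcases subsingleton_or_nontrivial R with hR | hR
  · exact Or.inl hR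
  · right
    have : CharP R p := (CharP.charP_iff_prime_eq_zero hp).mpr h0
    have : Fact p.Prime := ⟨hp⟩
    exact ⟨frobenius R p, fun x => rfl, rfl⟩

lemma bc_frobSpan (hp : p.Prime) (h0 : (p : R) = 0) (φ : R →+* R') (W : Submodule R (ι → R)) :
    bc φ (frobSpan p W) = frobSpan p (bc φ W) := by
  have h0' : (p : R') = 0 := by rw [← map_natCast φ, h0, map_zero]
  rcases frobSpan_eq_bc hp h0 W with hR | ⟨F, hF, e⟩
  · have : Subsingleton R' := φ.codomain_trivial
    exact Subsingleton.elim _ _
  · rcases frobSpan_eq_bc hp h0' (bc φ W) with hR | ⟨F', hF', e'⟩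
    · exact Subsingleton.elim _ _
    · rw [e, e', ← bc_comp, ← bc_comp]
      congr 1
      ext x
      rw [RingHom.comp_apply, RingHom.comp_apply, hF, hF', map_pow]

lemma bc_mono (φ : R →+* R') {W W' : Submodule R (ι → R)} (h : W ≤ W') : bc φ W ≤ bc φ W' :=
  Submodule.span_mono (Set.image_mono h)

/-- membership in a base change to a localisation -/
lemma exists_pow_of_mem_bc (g : R) [Algebra R R'] [IsLocalization.Away g R']
    (W : Submodule R (ι → R)) (v : ι → R) (h : im R' v ∈ bc (algebraMap R R') W) :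
    ∃ N : ℕ, g ^ N • v ∈ W := by
  classical
  -- every element of the base change is a fraction
  have key : ∀ w ∈ bc (algebraMap R R') W, ∃ N : ℕ, ∃ u ∈ W,
      algebraMap R R' (g ^ N) • w = im R' u := by
    intro w hw
    refine Submodule.span_induction (p := fun w _ => ∃ N : ℕ, ∃ u ∈ W,
      algebraMap R R' (g ^ N) • w = im R' u) ?_ ?_ ?_ ?_ hw
    · rintro _ ⟨u, hu, rfl⟩
      exact ⟨0, u, hu, by rw [pow_zero, map_one, one_smul]; rfl⟩
    · exact ⟨0, 0, zero_mem _, by funext c; simp [im]⟩
    · rintro a b _ _ ⟨N, u, hu, e⟩ ⟨M, u', hu', e'⟩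
      refine ⟨N + M, g ^ M • u + g ^ N • u', add_mem (Submodule.smul_mem _ _ hu)
        (Submodule.smul_mem _ _ hu'), ?_⟩
      rw [im_add, im_smul, im_smul, ← e, ← e', smul_smul, smul_smul, ← map_mul, ← map_mul,
        ← pow_add, ← pow_add, add_comm M N, ← smul_add]
    · rintro c a _ ⟨N, u, hu, e⟩
      obtain ⟨⟨r, ⟨_, M, rfl⟩⟩, hc⟩ := IsLocalization.surj (Submonoid.powers g) c
      refine ⟨N + M, r • u, Submodule.smul_mem _ _ hu, ?_⟩
      rw [im_smul, ← e, smul_smul, smul_smul, ← hc, pow_add, map_mul]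
      congr 1
      ring
  obtain ⟨N, u, hu, e⟩ := key _ h
  rw [← im_smul] at e
  have h2 : ∀ c, ∃ M : ℕ, g ^ M * ((g ^ N • v) c) = g ^ M * u c := by
    intro c
    have h3 : algebraMap R R' ((g ^ N • v) c) = algebraMap R R' (u c) := congrFun e c
    obtain ⟨⟨_, M, rfl⟩, hM⟩ := (IsLocalization.eq_iff_exists (Submonoid.powers g) R').mp h3
    exact ⟨M, hM⟩
  choose M hM using h2
  refine ⟨(∑ c, M c) + N, ?_⟩
  have h4 : g ^ ((∑ c, M c) + N) • v = g ^ (∑ c, M c) • u := by
    funext c
    have h5 := hM c
    rw [pow_add, ← smul_smul]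
    simp only [Pi.smul_apply, smul_eq_mul] at h5 ⊢
    rw [← Finset.sum_erase_add _ _ (Finset.mem_univ c), pow_add, mul_assoc, h5, mul_assoc]
  rw [h4]
  exact Submodule.smul_mem _ _ hu

end local'

section cover

variable {R : Type u} [CommRing R] {ι : Type v} [Fintype ι] {n : Type w} {g : n → R}
  (hg : Ideal.span (Set.range g) = ⊤)
  (S : n → Type*) [∀ i, CommRing (S i)] [∀ i, Algebra R (S i)]
  [∀ i, IsLocalization.Away (g i) (S i)]

include hg in
/-- inclusion of submodules is a local property -/
lemma le_of_bc_le (W W' : Submodule R (ι → R))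
    (h : ∀ i, bc (algebraMap R (S i)) W ≤ bc (algebraMap R (S i)) W') : W ≤ W' := by
  intro v hv
  apply Submodule.mem_of_span_eq_top_of_smul_pow_mem W' (Set.range g) hg
  rintro ⟨_, i, rfl⟩
  apply exists_pow_of_mem_bc (R' := S i) (g i) W' v
  apply h i
  exact Submodule.subset_span ⟨v, hv, rfl⟩

include hg in
lemma eq_of_bc_eq (W W' : Submodule R (ι → R))
    (h : ∀ i, bc (algebraMap R (S i)) W = bc (algebraMap R (S i)) W') : W = W' :=
  le_antisymm (le_of_bc_le hg S _ _ (fun i => (h i).le)) (le_of_bc_le hg S _ _ (fun i => (h i).ge))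

end cover

end Pool.Agent.Totaro

end

/-! ## Glue5 -/

section

set_option linter.unusedSectionVars false

universe u v w

namespace Pool.Agent.Totaro

open TensorProduct

section

variable {R : Type u} {R' : Type w} [CommRing R] [CommRing R'] [Algebra R R'] {ι : Type v}
  [Fintype ι] {p : ℕ}

/-- the map from `R'^ι` to the base change of the quotient -/
noncomputable def bcQ (R' : Type w) [CommRing R'] [Algebra R R'] [DecidableEq ι]
    (W : Submodule R (ι → R)) : (ι → R') →ₗ[R'] R' ⊗[R] ((ι → R) ⧸ W) :=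
  Fintype.linearCombination R' (fun i => (1 : R') ⊗ₜ[R] W.mkQ (Pi.single i 1))

lemma bcQ_im [DecidableEq ι] (W : Submodule R (ι → R)) (v : ι → R) :
    bcQ R' W (im R' v) = 1 ⊗ₜ[R] W.mkQ v := by
  unfold bcQ
  rw [Fintype.linearCombination_apply]
  have h1 : ∀ i, im R' v i • ((1 : R') ⊗ₜ[R] W.mkQ (Pi.single i 1)) =
      1 ⊗ₜ[R] (v i • W.mkQ (Pi.single i 1)) := by
    intro i
    rw [TensorProduct.smul_tmul', smul_eq_mul, mul_one, ← TensorProduct.smul_tmul,
      Algebra.smul_def, mul_one]
    rfl
  simp only [h1, ← TensorProduct.tmul_sum, ← map_smul, ← map_sum]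
  rw [← pi_eq_sum_univ' v]

lemma bcQ_bc [DecidableEq ι] (W : Submodule R (ι → R)) :
    bc (algebraMap R R') W ≤ LinearMap.ker (bcQ R' W) := by
  unfold bc
  rw [Submodule.span_le]
  rintro _ ⟨v, hv, rfl⟩
  change bcQ R' W (im R' v) = 0
  have : W.mkQ v = 0 := by rwa [← LinearMap.mem_ker, Submodule.ker_mkQ]
  rw [bcQ_im, this, TensorProduct.tmul_zero]

variable (R') in
/-- entrywise image, as a linear map to the quotient -/
noncomputable def imQ (W : Submodule R (ι → R)) :
    ((ι → R) ⧸ W) →ₗ[R] ((ι → R') ⧸ bc (algebraMap R R') W) :=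
  Submodule.liftQ W
    (((bc (algebraMap R R') W).mkQ.restrictScalars R).comp ((Algebra.linearMap R R').compLeft ι))
    (by
      intro v hv
      rw [LinearMap.mem_ker]
      change (bc (algebraMap R R') W).mkQ (im R' v) = 0
      rw [← LinearMap.mem_ker, Submodule.ker_mkQ]
      exact Submodule.subset_span ⟨v, hv, rfl⟩)

lemma imQ_mk (W : Submodule R (ι → R)) (v : ι → R) :
    imQ R' W (W.mkQ v) = (bc (algebraMap R R') W).mkQ (im R' v) := rfl

lemma im_single [DecidableEq ι] (i : ι) : im R' (Pi.single i (1 : R)) = Pi.single i 1 := by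
  funext j
  unfold im
  by_cases h : j = i
  · subst h; simp
  · rw [Pi.single_eq_of_ne h, Pi.single_eq_of_ne h, map_zero]

/-- base change of the quotient -/
noncomputable def bcE [DecidableEq ι] (W : Submodule R (ι → R)) :
    ((ι → R') ⧸ bc (algebraMap R R') W) ≃ₗ[R'] R' ⊗[R] ((ι → R) ⧸ W) :=
  LinearEquiv.ofLinearMap (Submodule.liftQ _ (bcQ R' W) (bcQ_bc W))
    (LinearMap.liftBaseChange R' (imQ R' W))
    (by
      apply TensorProduct.AlgebraTensorModule.ext
      intro x y
      obtain ⟨v, rfl⟩ := Submodule.mkQ_surjective W y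
      rw [LinearMap.comp_apply, LinearMap.liftBaseChange_tmul, imQ_mk, map_smul,
        LinearMap.id_apply]
      change x • bcQ R' W (im R' v) = _
      rw [bcQ_im, TensorProduct.smul_tmul', smul_eq_mul, mul_one])
    (by
      apply Submodule.linearMap_qext
      apply LinearMap.pi_ext'
      intro i
      apply LinearMap.ext_ring
      change (LinearMap.liftBaseChange R' (imQ R' W)) (bcQ R' W (Pi.single i 1)) =
        (bc (algebraMap R R') W).mkQ (Pi.single i 1)
      rw [← im_single (R := R), bcQ_im, LinearMap.liftBaseChange_tmul, one_smul, imQ_mk])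

/-- base change of a point of the Grassmannian, along an algebra -/
lemma exists_bcGr' {m : ℕ} (W : Module.Grassmannian R (ι → R) m) :
    ∃ W' : Module.Grassmannian R' (ι → R') m, W'.toSubmodule = bc (algebraMap R R') W.toSubmodule := by
  classical
  refine ⟨⟨bc (algebraMap R R') W.toSubmodule, ?_, ?_, ?_⟩, rfl⟩
  · exact Module.Finite.equiv (bcE (R' := R') W.toSubmodule).symm
  · exact Module.Projective.of_equiv (bcE (R' := R') W.toSubmodule).symm
  · intro q
    rw [Module.rankAtStalk_eq_of_equiv (bcE (R' := R') W.toSubmodule),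
      Module.rankAtStalk_baseChange]
    exact W.rankAtStalk_eq _

end

section

variable {R : Type u} {R' : Type w} [CommRing R] [CommRing R'] {ι : Type v} [Fintype ι] {p : ℕ}

lemma exists_bcGr {m : ℕ} (φ : R →+* R') (W : Module.Grassmannian R (ι → R) m) :
    ∃ W' : Module.Grassmannian R' (ι → R') m, W'.toSubmodule = bc φ W.toSubmodule := by
  let _ := φ.toAlgebra
  exact exists_bcGr' (R' := R') W

/-- base change of points -/
lemma TPt.exists_map (hp : p.Prime) (h0 : (p : R) = 0) (φ : R →+* R') (t : TPt p ι R) :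
    ∃ t' : TPt p ι R', TPt.IsMap φ t t' := by
  obtain ⟨W, hW⟩ := exists_bcGr φ t.W
  obtain ⟨L, hL⟩ := exists_bcGr φ t.L
  refine ⟨⟨W, L, ?_⟩, hW, hL⟩
  rw [hW, hL, ← bc_frobSpan hp h0]
  exact bc_mono φ t.le

end

end Pool.Agent.Totaro

end
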